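import Pool.Agent.Helper97.DV.Tp
import Pool.Agent.Helper27.GF.Ax

/-!
# Project DV (MP_973bc8_pr), block BAR: geometry of the barriers

A finite family of blocks around points which cover the frontier of a closed set `P` separates `P` from its
complement.  Polyominoes with grid lines at the coordinates `(i + 1/3) / 2 ^ k`, and the lines `ell d x = m / 2 ^ n`
of the four directions.
-/

open Set Metric RP4
open GF (Pl ell)

namespace DV

/-- the point of the plane that belongs to a site, for the mesh `δ` -/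
noncomputable def pt (δ : ℝ) (v : V) : Pl := (δ * v.1, δ * v.2)

lemma pt_dist {δ : ℝ} {u v : V} (h : Adj u v) : dist (pt δ u) (pt δ v) ≤ |δ| := by
  unfold Adj at h
  have h1 : |u.1 - v.1| ≤ 1 := by have := abs_nonneg (u.2 - v.2); linarith
  have h2 : |u.2 - v.2| ≤ 1 := by have := abs_nonneg (u.1 - v.1); linarith
  have h3 : |(u.1 : ℝ) - v.1| ≤ 1 := by exact_mod_cast h1
  have h4 : |(u.2 : ℝ) - v.2| ≤ 1 := by exact_mod_cast h2
  unfold pt
  rw [Prod.dist_eq, max_le_iff, Real.dist_eq, Real.dist_eq, ← mul_sub, ← mul_sub, abs_mul, abs_mul]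
  exact ⟨mul_le_of_le_one_right (abs_nonneg δ) h3, mul_le_of_le_one_right (abs_nonneg δ) h4⟩

/-- no nn path inside `Q` joins the ball of radius `r` about `c` to the outside of the ball of radius `s` -/
def BlkR (Q : Set V) (δ : ℝ) (c : Pl) (r s : ℝ) : Prop :=
  ∀ u v, dist (pt δ u) c ≤ r → s ≤ dist (pt δ v) c → ¬ Con Q u v

lemma frontier_segment {P : Set Pl} {x y : Pl} (hx : x ∈ P) (hy : y ∉ P) :
    ∃ p ∈ frontier P, dist x p ≤ dist x y := by
  by_contra hcon
  push Not at hcon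
  have hseg : ∀ p ∈ segment ℝ x y, p ∉ frontier P := fun p hp hpf => by
    have h1 := segment_subset_closedBall_left x y hp
    rw [mem_closedBall, dist_comm] at h1
    exact absurd h1 (not_le.2 (hcon p hpf))
  have hpre : IsPreconnected (segment ℝ x y) := (convex_segment x y).isPreconnected
  have hcov : segment ℝ x y ⊆ interior P ∪ (closure P)ᶜ := by
    intro p hp
    by_cases h1 : p ∈ interior P
    · exact Or.inl h1
    · refine Or.inr fun h2 => hseg p hp ⟨h2, h1⟩
  have hxi : x ∈ interior P := by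
    by_contra h1
    exact hseg x (left_mem_segment ℝ x y) ⟨subset_closure hx, h1⟩
  have hyi : y ∈ (closure P)ᶜ := by
    intro h1
    exact hseg y (right_mem_segment ℝ x y) ⟨h1, fun h2 => hy (interior_subset h2)⟩
  obtain ⟨z, _, hz1, hz2⟩ := hpre _ _ isOpen_interior isClosed_closure.isOpen_compl hcov
    ⟨x, left_mem_segment ℝ x y, hxi⟩ ⟨y, right_mem_segment ℝ x y, hyi⟩
  exact hz2 (interior_subset_closure hz1)

/-- BARRIER.  Blocks around points which cover the frontier of `P` separate `P` from its complement. -/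
theorem barrier {P : Set Pl} {Q : Set V} {δ : ℝ} (hδ : 0 < δ) (Z : Set (Pl × ℝ × ℝ))
    (hcov : ∀ p ∈ frontier P, ∃ z ∈ Z, dist p z.1 ≤ z.2.1)
    (hblk : ∀ z ∈ Z, BlkR Q δ z.1 (z.2.1 + δ) z.2.2) {u v : V} (hu : pt δ u ∈ P) (hv : pt δ v ∉ P)
    (hout : ∀ z ∈ Z, z.2.2 ≤ dist (pt δ u) z.1 ∨ z.2.2 ≤ dist (pt δ v) z.1) : ¬ Con Q u v := by
  intro h
  obtain ⟨a, b, hua, hab, haQ, haP, hbQ, hbP⟩ := h.exit (A := {w | pt δ w ∈ P}) hu hv
  obtain ⟨p, hp, hpd⟩ := frontier_segment (x := pt δ a) (y := pt δ b) haP hbP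
  obtain ⟨z, hz, hzd⟩ := hcov p hp
  have h1 : dist (pt δ a) z.1 ≤ z.2.1 + δ := by
    have h2 := dist_triangle (pt δ a) p z.1
    have h3 := pt_dist (δ := δ) hab
    rw [abs_of_pos hδ] at h3
    linarith
  have hQ : Con Q u a := hua.mono (fun _ _ h => h) inter_subset_left
  rcases hout z hz with h2 | h2
  · exact hblk z hz a u h1 h2 hQ.symm'
  · exact hblk z hz a v h1 h2 (hQ.symm'.trans h)

/-! ### polyominoes -/

/-- the coordinates of the grid lines of mesh `2 ^ (-k)` -/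
noncomputable def gx (k : ℕ) (i : ℤ) : ℝ := (i + 1 / 3) / 2 ^ k

/-- the closed squares of the grid -/
noncomputable def cel (k : ℕ) (i : ℤ × ℤ) : Set Pl :=
  Icc (gx k i.1) (gx k (i.1 + 1)) ×ˢ Icc (gx k i.2) (gx k (i.2 + 1))

/-- polyominoes -/
noncomputable def pol (k : ℕ) (S : Finset (ℤ × ℤ)) : Set Pl := ⋃ i ∈ S, cel k i

lemma cel_compact (k : ℕ) (i : ℤ × ℤ) : IsCompact (cel k i) := isCompact_Icc.prod isCompact_Icc

lemma pol_compact (k : ℕ) (S : Finset (ℤ × ℤ)) : IsCompact (pol k S) :=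
  S.isCompact_biUnion fun i _ => cel_compact k i

lemma pol_closed (k : ℕ) (S : Finset (ℤ × ℤ)) : IsClosed (pol k S) := (pol_compact k S).isClosed

lemma frontier_pol_compact (k : ℕ) (S : Finset (ℤ × ℤ)) : IsCompact (frontier (pol k S)) :=
  (pol_compact k S).of_isClosed_subset isClosed_frontier (pol_closed k S).frontier_subset

lemma cel_subset_pol {k : ℕ} {S : Finset (ℤ × ℤ)} {i : ℤ × ℤ} (h : i ∈ S) : cel k i ⊆ pol k S :=
  subset_biUnion_of_mem (u := fun i => cel k i) (show i ∈ (S : Set (ℤ × ℤ)) from h)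

/-- every point of the frontier of a polyomino lies in a square of it and on a grid line -/
lemma frontier_pol {k : ℕ} {S : Finset (ℤ × ℤ)} {p : Pl} (hp : p ∈ frontier (pol k S)) :
    ∃ i ∈ S, p ∈ cel k i ∧ (p.1 = gx k i.1 ∨ p.1 = gx k (i.1 + 1) ∨ p.2 = gx k i.2 ∨ p.2 = gx k (i.2 + 1)) := by
  have h1 : p ∈ pol k S := (pol_closed k S).frontier_subset hp
  unfold pol at h1
  rw [mem_iUnion₂] at h1
  obtain ⟨i, hi, hpi⟩ := h1
  refine ⟨i, hi, hpi, ?_⟩
  by_contra hcon
  push Not at hcon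
  obtain ⟨h2, h3, h4, h5⟩ := hcon
  unfold cel at hpi
  rw [mem_prod, mem_Icc, mem_Icc] at hpi
  obtain ⟨⟨h6, h7⟩, h8, h9⟩ := hpi
  have h10 : p ∈ Ioo (gx k i.1) (gx k (i.1 + 1)) ×ˢ Ioo (gx k i.2) (gx k (i.2 + 1)) :=
    ⟨⟨lt_of_le_of_ne h6 (Ne.symm h2), lt_of_le_of_ne h7 h3⟩,
      lt_of_le_of_ne h8 (Ne.symm h4), lt_of_le_of_ne h9 h5⟩
  have h11 : p ∈ interior (pol k S) := by
    refine mem_interior.2 ⟨_, ?_, isOpen_Ioo.prod isOpen_Ioo, h10⟩
    exact (prod_mono Ioo_subset_Icc_self Ioo_subset_Icc_self).trans (cel_subset_pol hi)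
  exact hp.2 h11

/-! ### the lines -/

/-- the four directions -/
def dir4 (d : Pl) : Prop := d = (1, 0) ∨ d = (0, 1) ∨ d = (1, 1) ∨ d = (1, -1)

/-- grid coordinates are not dyadic, with a bound -/
lemma gx_sub_dyadic (k n : ℕ) (i m : ℤ) : 1 / (3 * 2 ^ (k + n)) ≤ |gx k i - m / 2 ^ n| := by
  have h1 : gx k i - m / 2 ^ n = (((3 * i + 1) * 2 ^ n - 3 * m * 2 ^ k : ℤ) : ℝ) / (3 * 2 ^ (k + n)) := by
    unfold gx
    push_cast
    rw [pow_add]
    field_simp
  have h2 : ((3 * i + 1) * 2 ^ n - 3 * m * 2 ^ k : ℤ) ≠ 0 := by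
    intro h
    have h3 : (3 : ℤ) ∣ (3 * i + 1) * 2 ^ n := ⟨m * 2 ^ k, by linarith⟩
    have h4 : IsCoprime (3 : ℤ) (2 ^ n) := IsCoprime.pow_right (by norm_num)
    have h5 : (3 : ℤ) ∣ 3 * i + 1 := h4.dvd_of_dvd_mul_right h3
    omega
  have h3 : (1 : ℝ) ≤ |(((3 * i + 1) * 2 ^ n - 3 * m * 2 ^ k : ℤ) : ℝ)| := by
    exact_mod_cast Int.one_le_abs h2
  rw [h1, abs_div, abs_of_pos (by positivity : (0 : ℝ) < 3 * 2 ^ (k + n))]
  gcongr

lemma gx_lt_succ (k : ℕ) (i : ℤ) : gx k i < gx k (i + 1) := by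
  unfold gx
  have : (0 : ℝ) < 2 ^ k := by positivity
  rw [div_lt_div_iff_of_pos_right this]
  push_cast
  linarith

lemma gx_succ_sub (k : ℕ) (i : ℤ) : gx k (i + 1) - gx k i = 1 / 2 ^ k := by
  unfold gx
  have : (0 : ℝ) < 2 ^ k := by positivity
  field_simp
  push_cast
  ring

/-- the crossing points of the grid lines with the lines of the family -/
def Crg (k n : ℕ) : Set Pl :=
  {q | (∃ i : ℤ, q.1 = gx k i ∨ q.2 = gx k i) ∧
    ∃ d : Pl, dir4 d ∧ ∃ m : ℤ, ell d q = m / 2 ^ n}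

/-- a point on a grid line which is close to a line of the family is close to a crossing point -/
lemma near_crossing {k n : ℕ} {p : Pl} (hp : ∃ i : ℤ, p.1 = gx k i ∨ p.2 = gx k i) {d : Pl} (hd : dir4 d)
    {m : ℤ} {t : ℝ} (ht : t ≤ 1 / (3 * 2 ^ (k + n))) (h : |ell d p - m / 2 ^ n| < t) :
    ∃ q ∈ Crg k n, dist p q < t := by
  obtain ⟨i, hi | hi⟩ := hp
  · have hq : ∀ y : ℝ, ell d (gx k i, y) = m / 2 ^ n → dist p (gx k i, y) = |p.2 - y| := by
      intro y _
      rw [Prod.dist_eq, hi, Real.dist_eq, Real.dist_eq, sub_self, abs_zero]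
      exact max_eq_right (abs_nonneg _)
    have hmk : ∀ y : ℝ, ell d (gx k i, y) = m / 2 ^ n → |p.2 - y| < t → ∃ q ∈ Crg k n, dist p q < t :=
      fun y hy hyt => ⟨(gx k i, y), ⟨⟨i, Or.inl rfl⟩, d, hd, m, hy⟩, by rw [hq y hy]; exact hyt⟩
    rcases hd with rfl | rfl | rfl | rfl
    · exfalso
      have h1 := gx_sub_dyadic k n i m
      unfold ell at h
      simp only [one_mul, zero_mul, add_zero] at h
      rw [hi] at h
      linarith
    · refine hmk (m / 2 ^ n) (by simp [ell]) ?_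
      unfold ell at h
      simpa using h
    · refine hmk (m / 2 ^ n - gx k i) (by simp [ell]) ?_
      unfold ell at h
      simp only [one_mul] at h
      rw [hi] at h
      have e : p.2 - (m / 2 ^ n - gx k i) = gx k i + p.2 - m / 2 ^ n := by ring
      rw [e]
      exact h
    · refine hmk (gx k i - m / 2 ^ n) (by simp [ell]) ?_
      unfold ell at h
      simp only [one_mul, neg_mul] at h
      rw [hi] at h
      have e : p.2 - (gx k i - m / 2 ^ n) = -(gx k i + -p.2 - m / 2 ^ n) := by ring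
      rw [e, abs_neg]
      exact h
  · have hq : ∀ x : ℝ, ell d (x, gx k i) = m / 2 ^ n → dist p (x, gx k i) = |p.1 - x| := by
      intro x _
      rw [Prod.dist_eq, hi, Real.dist_eq, Real.dist_eq, sub_self, abs_zero]
      exact max_eq_left (abs_nonneg _)
    have hmk : ∀ x : ℝ, ell d (x, gx k i) = m / 2 ^ n → |p.1 - x| < t → ∃ q ∈ Crg k n, dist p q < t :=
      fun x hx hxt => ⟨(x, gx k i), ⟨⟨i, Or.inr rfl⟩, d, hd, m, hx⟩, by rw [hq x hx]; exact hxt⟩
    rcases hd with rfl | rfl | rfl | rfl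
    · refine hmk (m / 2 ^ n) (by simp [ell]) ?_
      unfold ell at h
      simpa using h
    · exfalso
      have h1 := gx_sub_dyadic k n i m
      unfold ell at h
      simp only [one_mul, zero_mul, zero_add] at h
      rw [hi] at h
      linarith
    · refine hmk (m / 2 ^ n - gx k i) (by simp [ell]) ?_
      unfold ell at h
      simp only [one_mul] at h
      rw [hi] at h
      have e : p.1 - (m / 2 ^ n - gx k i) = p.1 + gx k i - m / 2 ^ n := by ring
      rw [e]
      exact h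
    · refine hmk (gx k i + m / 2 ^ n) (by simp [ell]) ?_
      unfold ell at h
      simp only [one_mul, neg_mul] at h
      rw [hi] at h
      have e : p.1 - (gx k i + m / 2 ^ n) = p.1 + -gx k i - m / 2 ^ n := by ring
      rw [e]
      exact h

/-- only finitely many crossing points lie in a bounded set -/
lemma Crg_finite (k n : ℕ) {B : Set Pl} (hB : Bornology.IsBounded B) : (Crg k n ∩ B).Finite := by
  obtain ⟨R, hR⟩ := hB.exists_norm_le
  -- all coordinates are multiples of `1 / (3 * 2 ^ (k + n))`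
  set M : ℝ := 3 * 2 ^ (k + n) with hM
  have hMpos : 0 < M := by positivity
  obtain ⟨N, hN⟩ := exists_nat_ge (M * R)
  have hint : ∀ q ∈ Crg k n, ∃ a b : ℤ, q.1 = a / M ∧ q.2 = b / M := by
    rintro q ⟨⟨i, hi⟩, d, hd, m, hm⟩
    have e1 : gx k i = ((3 * i + 1) * 2 ^ n : ℤ) / M := by
      unfold gx
      rw [hM]
      push_cast
      rw [pow_add]
      field_simp
    have e2 : (m : ℝ) / 2 ^ n = (3 * m * 2 ^ k : ℤ) / M := by
      rw [hM]
      push_cast
      rw [pow_add]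
      field_simp
    have hx : ∀ x y : ℝ, (∃ a : ℤ, x = a / M) → (∃ b : ℤ, y = b / M) → ∃ c : ℤ, x + y = c / M := by
      rintro x y ⟨a, rfl⟩ ⟨b, rfl⟩
      exact ⟨a + b, by push_cast; ring⟩
    have hx' : ∀ x y : ℝ, (∃ a : ℤ, x = a / M) → (∃ b : ℤ, y = b / M) → ∃ c : ℤ, x - y = c / M := by
      rintro x y ⟨a, rfl⟩ ⟨b, rfl⟩
      exact ⟨a - b, by push_cast; ring⟩
    have g1 : ∃ a : ℤ, gx k i = a / M := ⟨_, e1⟩
    have g2 : ∃ a : ℤ, (m : ℝ) / 2 ^ n = a / M := ⟨_, e2⟩
    unfold ell at hm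
    have hfin : (∃ a : ℤ, q.1 = a / M) ∧ ∃ b : ℤ, q.2 = b / M := by
      rcases hi with hi | hi <;> rcases hd with rfl | rfl | rfl | rfl
      · exfalso
        have h1 := gx_sub_dyadic k n i m
        simp only [one_mul, zero_mul, add_zero] at hm
        rw [← hi, hm, sub_self, abs_zero] at h1
        have : 0 < 1 / (3 * (2 : ℝ) ^ (k + n)) := by positivity
        linarith
      · simp only [one_mul, zero_mul, zero_add] at hm
        rw [hi, hm]
        exact ⟨g1, g2⟩
      · simp only [one_mul] at hm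
        have : q.2 = m / 2 ^ n - gx k i := by rw [← hi]; linarith
        rw [hi, this]
        exact ⟨g1, hx' _ _ g2 g1⟩
      · simp only [one_mul, neg_mul] at hm
        have : q.2 = gx k i - m / 2 ^ n := by rw [← hi]; linarith
        rw [hi, this]
        exact ⟨g1, hx' _ _ g1 g2⟩
      · simp only [one_mul, zero_mul, add_zero] at hm
        rw [hi, hm]
        exact ⟨g2, g1⟩
      · exfalso
        have h1 := gx_sub_dyadic k n i m
        simp only [one_mul, zero_mul, zero_add] at hm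
        rw [← hi, hm, sub_self, abs_zero] at h1
        have : 0 < 1 / (3 * (2 : ℝ) ^ (k + n)) := by positivity
        linarith
      · simp only [one_mul] at hm
        have : q.1 = m / 2 ^ n - gx k i := by rw [← hi]; linarith
        rw [hi, this]
        exact ⟨hx' _ _ g2 g1, g1⟩
      · simp only [one_mul, neg_mul] at hm
        have : q.1 = m / 2 ^ n + gx k i := by rw [← hi]; linarith
        rw [hi, this]
        exact ⟨hx _ _ g2 g1, g1⟩
    obtain ⟨⟨a, ha⟩, b, hb⟩ := hfin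
    exact ⟨a, b, ha, hb⟩
  have hsub : Crg k n ∩ B ⊆ (fun c : ℤ × ℤ => ((c.1 : ℝ) / M, (c.2 : ℝ) / M)) ''
      ((Finset.Icc (-(N : ℤ)) N ×ˢ Finset.Icc (-(N : ℤ)) N : Finset (ℤ × ℤ)) : Set (ℤ × ℤ)) := by
    rintro q ⟨hq, hqB⟩
    obtain ⟨a, b, ha, hb⟩ := hint q hq
    have h1 := hR q hqB
    have h2 : |q.1| ≤ R := (norm_fst_le q).trans h1
    have h3 : |q.2| ≤ R := (norm_snd_le q).trans h1
    have h4 : ∀ c : ℤ, |(c : ℝ) / M| ≤ R → |c| ≤ (N : ℤ) := by
      intro c hc
      rw [abs_div, abs_of_pos hMpos, div_le_iff₀ hMpos] at hc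
      have : |(c : ℝ)| ≤ N := by linarith
      exact_mod_cast this
    rw [ha] at h2
    rw [hb] at h3
    refine ⟨(a, b), ?_, ?_⟩
    · simp only [Finset.coe_product, Finset.coe_Icc, mem_prod, mem_Icc]
      exact ⟨abs_le.1 (h4 a h2), abs_le.1 (h4 b h3)⟩
    · exact Prod.ext ha.symm hb.symm
  exact ((Finset.finite_toSet _).image _).subset hsub

/-- COVER.  The frontier of a polyomino is covered by finitely many balls of radius `r` which stay away from the
lines of the family, and by the balls of radius `t` about finitely many fixed points of the frontier. -/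
theorem bar_cover (k n : ℕ) (S : Finset (ℤ × ℤ)) :
    ∃ t₀ > 0, ∃ Z' : Finset Pl, (∀ z ∈ Z', z ∈ frontier (pol k S)) ∧ ∀ r > 0, ∀ t > 0, t ≤ t₀ →
      ∃ Z : Finset Pl, (∀ z ∈ Z, z ∈ frontier (pol k S) ∧
          ∀ d, dir4 d → ∀ m : ℤ, t ≤ |ell d z - m / 2 ^ n|) ∧
        ∀ p ∈ frontier (pol k S), (∃ z ∈ Z, dist p z < r) ∨ ∃ z ∈ Z', dist p z < t := by
  classical
  have hc := frontier_pol_compact k S
  have hb : Bornology.IsBounded (cthickening 1 (frontier (pol k S))) := hc.isBounded.cthickening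
  have hfin := Crg_finite k n hb
  -- the crossing points that are not on the frontier have a positive distance from it
  obtain ⟨t₁, ht₁, h₁⟩ : ∃ t₁ > 0, ∀ q ∈ Crg k n ∩ cthickening 1 (frontier (pol k S)),
      q ∉ frontier (pol k S) → ∀ p ∈ frontier (pol k S), t₁ ≤ dist p q := by
    have hd : Disjoint (frontier (pol k S))
        {q | q ∈ Crg k n ∩ cthickening 1 (frontier (pol k S)) ∧ q ∉ frontier (pol k S)} := by
      rw [disjoint_left]
      exact fun p hp hq => hq.2 hp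
    have hcl : IsClosed {q | q ∈ Crg k n ∩ cthickening 1 (frontier (pol k S)) ∧
        q ∉ frontier (pol k S)} := (hfin.subset fun q hq => hq.1).isClosed
    obtain ⟨s, hs, hs'⟩ := hd.exists_thickenings hc hcl
    refine ⟨s, hs, fun q hq hqn p hp => ?_⟩
    by_contra hlt
    push Not at hlt
    have h1 : q ∈ thickening s (frontier (pol k S)) := by
      rw [mem_thickening_iff]
      exact ⟨p, hp, by rwa [dist_comm]⟩
    have h2 : q ∈ thickening s {q | q ∈ Crg k n ∩ cthickening 1 (frontier (pol k S)) ∧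
        q ∉ frontier (pol k S)} := self_subset_thickening hs _ ⟨hq, hqn⟩
    exact disjoint_left.1 hs' h1 h2
  refine ⟨min (min t₁ 1) (1 / (3 * 2 ^ (k + n))), by positivity,
    hfin.toFinset.filter (fun q => q ∈ frontier (pol k S)), fun z hz => (Finset.mem_filter.1 hz).2, ?_⟩
  intro r hr t ht htt
  set F : Set Pl := frontier (pol k S) ∩ {z | ∀ d, dir4 d → ∀ m : ℤ, t ≤ |ell d z - m / 2 ^ n|} with hF
  have hFc : IsCompact F := by
    refine hc.inter_right ?_
    have : {z : Pl | ∀ d, dir4 d → ∀ m : ℤ, t ≤ |ell d z - m / 2 ^ n|} =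
        ⋂ (d : Pl) (_ : dir4 d) (m : ℤ), {z : Pl | t ≤ |ell d z - m / 2 ^ n|} := by
      ext z
      simp
    rw [this]
    refine isClosed_iInter fun d => isClosed_iInter fun _ => isClosed_iInter fun m => ?_
    refine isClosed_le continuous_const ?_
    unfold ell
    fun_prop
  obtain ⟨T, hTF, hTfin, hT⟩ := hFc.finite_cover_balls hr
  refine ⟨hTfin.toFinset, fun z hz => ?_, fun p hp => ?_⟩
  · rw [Set.Finite.mem_toFinset] at hz
    exact ⟨(hTF hz).1, (hTF hz).2⟩
  · by_cases hpF : p ∈ F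
    · left
      have := hT hpF
      rw [mem_iUnion₂] at this
      obtain ⟨z, hz, hpz⟩ := this
      exact ⟨z, by rwa [Set.Finite.mem_toFinset], hpz⟩
    · right
      have : ∃ d, dir4 d ∧ ∃ m : ℤ, |ell d p - m / 2 ^ n| < t := by
        by_contra hcon
        push Not at hcon
        exact hpF ⟨hp, hcon⟩
      obtain ⟨d, hd, m, hm⟩ := this
      obtain ⟨i, hi, hpi, hpc⟩ := frontier_pol hp
      have hg : ∃ i : ℤ, p.1 = gx k i ∨ p.2 = gx k i := by
        rcases hpc with h | h | h | h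
        · exact ⟨_, Or.inl h⟩
        · exact ⟨_, Or.inl h⟩
        · exact ⟨_, Or.inr h⟩
        · exact ⟨_, Or.inr h⟩
      obtain ⟨q, hq, hpq⟩ := near_crossing hg hd (htt.trans (min_le_right _ _)) hm
      have hq1 : q ∈ cthickening 1 (frontier (pol k S)) := by
        refine mem_cthickening_of_dist_le q p 1 _ hp ?_
        rw [dist_comm]
        have := htt.trans ((min_le_left _ _).trans (min_le_right _ _))
        linarith
      have hqf : q ∈ frontier (pol k S) := by
        by_contra hqn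
        have h1 := h₁ q ⟨hq, hq1⟩ hqn p hp
        have h2 := htt.trans ((min_le_left _ _).trans (min_le_left _ _))
        linarith
      exact ⟨q, by rw [Finset.mem_filter, Set.Finite.mem_toFinset]; exact ⟨⟨hq, hq1⟩, hqf⟩, hpq⟩

/-- every point lies in a square of the grid -/
lemma exists_cel (k : ℕ) (p : Pl) : ∃ i : ℤ × ℤ, p ∈ cel k i := by
  have h : ∀ x : ℝ, ∃ i : ℤ, gx k i ≤ x ∧ x ≤ gx k (i + 1) := by
    intro x
    have hk : (0 : ℝ) < 2 ^ k := by positivity
    refine ⟨⌊x * 2 ^ k - 1 / 3⌋, ?_, ?_⟩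
    · unfold gx
      rw [div_le_iff₀ hk]
      have := Int.floor_le (x * 2 ^ k - 1 / 3)
      linarith
    · unfold gx
      rw [le_div_iff₀ hk]
      have := Int.lt_floor_add_one (x * 2 ^ k - 1 / 3)
      push_cast
      linarith
  obtain ⟨i, hi1, hi2⟩ := h p.1
  obtain ⟨j, hj1, hj2⟩ := h p.2
  exact ⟨(i, j), ⟨hi1, hi2⟩, hj1, hj2⟩

/-- two points of a square have distance at most the mesh -/
lemma cel_dist {k : ℕ} {i : ℤ × ℤ} {p q : Pl} (hp : p ∈ cel k i) (hq : q ∈ cel k i) :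
    dist p q ≤ 1 / 2 ^ k := by
  unfold cel at hp hq
  rw [mem_prod, mem_Icc, mem_Icc] at hp hq
  have h1 := gx_succ_sub k i.1
  have h2 := gx_succ_sub k i.2
  rw [Prod.dist_eq, max_le_iff, Real.dist_eq, Real.dist_eq, abs_le, abs_le]
  refine ⟨⟨?_, ?_⟩, ?_, ?_⟩ <;> linarith [hp.1.1, hp.1.2, hp.2.1, hp.2.2, hq.1.1, hq.1.2, hq.2.1, hq.2.2]

/-- only finitely many squares meet a bounded set -/
lemma cel_finite (k : ℕ) {B : Set Pl} (hB : Bornology.IsBounded B) : {i | (cel k i ∩ B).Nonempty}.Finite := by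
  obtain ⟨R, hR⟩ := hB.exists_norm_le
  have hk : (0 : ℝ) < 2 ^ k := by positivity
  obtain ⟨N, hN⟩ := exists_nat_ge (2 ^ k * R + 2)
  have key : ∀ (x : ℝ) (i : ℤ), |x| ≤ R → gx k i ≤ x → x ≤ gx k (i + 1) → -(N : ℤ) ≤ i ∧ i ≤ (N : ℤ) := by
    intro x i hx h1 h2
    unfold gx at h1 h2
    rw [div_le_iff₀ hk] at h1
    rw [le_div_iff₀ hk] at h2
    rw [abs_le] at hx
    have h3 : x * 2 ^ k ≤ 2 ^ k * R := by nlinarith [hx.2]
    have h4 : -(2 ^ k * R) ≤ x * 2 ^ k := by nlinarith [hx.1]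
    push_cast at h2
    have h5 : (i : ℝ) ≤ N := by linarith
    have h6 : -(N : ℝ) ≤ i := by linarith
    exact ⟨by exact_mod_cast h6, by exact_mod_cast h5⟩
  refine (Finset.finite_toSet (Finset.Icc (-(N : ℤ)) N ×ˢ Finset.Icc (-(N : ℤ)) N)).subset ?_
  rintro i ⟨p, hp, hpB⟩
  unfold cel at hp
  rw [mem_prod, mem_Icc, mem_Icc] at hp
  have h1 := hR p hpB
  have h2 := key p.1 i.1 ((norm_fst_le p).trans h1) hp.1.1 hp.1.2
  have h3 := key p.2 i.2 ((norm_snd_le p).trans h1) hp.2.1 hp.2.2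
  simp only [Finset.coe_product, Finset.coe_Icc, mem_prod, mem_Icc]
  exact ⟨h2, h3⟩

/-- POLYOMINOES BETWEEN a compact set and an open set, with a tube around the frontier. -/
theorem exists_pol {K W : Set Pl} (hK : IsCompact K) (hW : IsOpen W) (hKW : K ⊆ W) :
    ∃ (k : ℕ) (S : Finset (ℤ × ℤ)), ∃ ρ > 0, K ⊆ pol k S ∧
      cthickening ρ (pol k S) ⊆ W ∧ ∀ x ∈ K, ∀ p ∈ frontier (pol k S), ρ ≤ dist x p := by
  classical
  obtain ⟨ε, hε, hεW⟩ := hK.exists_cthickening_subset_open hW hKW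
  obtain ⟨k, hk⟩ : ∃ k : ℕ, 1 / (2 : ℝ) ^ k ≤ ε / 3 := by
    obtain ⟨k, hk⟩ := exists_pow_lt_of_lt_one (show 0 < ε / 3 by positivity) (show (1 / 2 : ℝ) < 1 by norm_num)
    exact ⟨k, by rw [one_div_pow] at hk; exact hk.le⟩
  have hb : Bornology.IsBounded (cthickening (ε / 3) K) := hK.isBounded.cthickening
  have hfin := cel_finite k hb
  set S : Finset (ℤ × ℤ) := hfin.toFinset with hS
  have hmem : ∀ i, i ∈ S ↔ (cel k i ∩ cthickening (ε / 3) K).Nonempty := by
    intro i
    rw [hS, Set.Finite.mem_toFinset]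
    rfl
  have hsub : cthickening (ε / 3) K ⊆ pol k S := by
    intro p hp
    obtain ⟨i, hi⟩ := exists_cel k p
    exact cel_subset_pol ((hmem i).2 ⟨p, hi, hp⟩) hi
  have hfr : ∀ x ∈ K, ∀ p ∈ frontier (pol k S), ε / 3 ≤ dist x p := by
    intro x hx p hp
    by_contra hlt
    push Not at hlt
    have h1 : p ∈ thickening (ε / 3) K := by
      rw [mem_thickening_iff]
      exact ⟨x, hx, by rwa [dist_comm]⟩
    have h2 : p ∈ interior (pol k S) :=
      mem_interior.2 ⟨_, (thickening_subset_cthickening _ _).trans hsub, isOpen_thickening, h1⟩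
    exact hp.2 h2
  refine ⟨k, S, ε / 3, by positivity, (self_subset_cthickening K).trans hsub, ?_, hfr⟩
  have hpolK : pol k S ⊆ cthickening (ε / 3 + ε / 3) K := by
    intro p hp
    unfold pol at hp
    rw [mem_iUnion₂] at hp
    obtain ⟨i, hi, hpi⟩ := hp
    obtain ⟨q, hq, hqK⟩ := (hmem i).1 hi
    have h1 : dist p q ≤ ε / 3 := (cel_dist hpi hq).trans hk
    have h2 : p ∈ cthickening (ε / 3) (cthickening (ε / 3) K) :=
      mem_cthickening_of_dist_le p q _ _ hqK h1
    exact cthickening_cthickening_subset (by positivity) (by positivity) K h2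
  have h3 := cthickening_mono (show ε / 3 ≤ ε / 3 by rfl) (pol k S)
  refine (cthickening_subset_of_subset (ε / 3) hpolK).trans ?_
  refine (cthickening_cthickening_subset (by positivity) (by positivity) K).trans ?_
  have e : ε / 3 + (ε / 3 + ε / 3) = ε := by ring
  rw [e]
  exact hεW

/-- BARRIER for the points of `bar_cover`: if all the balls `z`, `z ∈ Z`, are blocked between the radii `r + δ` and `R`, and
all the balls about `z ∈ Z'` between the radii `t + δ` and `ρ`, then no nn path inside `Q` joins a site of `P` at distance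
at least `max R ρ` from the frontier of `P` to a site outside `P` (at any distance), and no nn path inside `Q` joins a site
of `P` to a site outside `P` at distance at least `max R ρ` from the frontier. -/
theorem barrier_pol {k : ℕ} {S : Finset (ℤ × ℤ)} {Q : Set V} {δ r t R ρ : ℝ} (hδ : 0 < δ) {Z Z' : Finset Pl}
    (hZ : ∀ z ∈ Z, z ∈ frontier (pol k S)) (hZ' : ∀ z ∈ Z', z ∈ frontier (pol k S))
    (hcov : ∀ p ∈ frontier (pol k S), (∃ z ∈ Z, dist p z < r) ∨ ∃ z ∈ Z', dist p z < t)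
    (hE : ∀ z ∈ Z, BlkR Q δ z (r + δ) R) (hF : ∀ z ∈ Z', BlkR Q δ z (t + δ) ρ) {u v : V}
    (hu : pt δ u ∈ pol k S) (hv : pt δ v ∉ pol k S)
    (hout : (∀ p ∈ frontier (pol k S), max R ρ ≤ dist (pt δ u) p) ∨
      ∀ p ∈ frontier (pol k S), max R ρ ≤ dist (pt δ v) p) : ¬ Con Q u v := by
  refine barrier hδ ((fun z => (z, r, R)) '' (Z : Set Pl) ∪ (fun z => (z, t, ρ)) '' (Z' : Set Pl))
    ?_ ?_ hu hv ?_
  · intro p hp
    rcases hcov p hp with ⟨z, hz, h⟩ | ⟨z, hz, h⟩
    · exact ⟨(z, r, R), Or.inl ⟨z, hz, rfl⟩, h.le⟩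
    · exact ⟨(z, t, ρ), Or.inr ⟨z, hz, rfl⟩, h.le⟩
  · rintro _ (⟨z, hz, rfl⟩ | ⟨z, hz, rfl⟩)
    · exact hE z hz
    · exact hF z hz
  · rintro _ (⟨z, hz, rfl⟩ | ⟨z, hz, rfl⟩)
    · rcases hout with h | h
      · exact Or.inl ((le_max_left _ _).trans (h z (hZ z hz)))
      · exact Or.inr ((le_max_left _ _).trans (h z (hZ z hz)))
    · rcases hout with h | h
      · exact Or.inl ((le_max_right _ _).trans (h z (hZ' z hz)))
      · exact Or.inr ((le_max_right _ _).trans (h z (hZ' z hz)))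

end DV
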