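import Pool.Agent.Helper94.BR.Bl

/-!
# Project DV, block BAR (7c): moments of the field given the blocks (number of levels)
-/

open Finset Filter Topology MeasureTheory

namespace DV

open RP4 (V Adj BdryPar Om dom avg mu Loc Deloc dist1 cnt mass clm)
open GF (Pl Cc Ne)
open GF.Lat (Xd win)

private lemma Ms4_bk_lev (k : ℤ) (δ : ℝ) (z : Pl) (r s : ℝ) (g : V → ℤ) :
    ic (Bk k δ z r s) g = ic (Bk 0 δ z r s) (lev k g) := by
  refine ic_congr ?_
  unfold Bk
  rw [lev_zero]

/-- the number of levels is real -/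
private lemma Ms4_per_real {t : Finset V} {F : (V → ℤ) → ℝ} (hF : PR t F) (g : V → ℤ) :
    per (fun h => (F h : ℂ)) g = (((per (fun h => (F h : ℂ)) g).re : ℝ) : ℂ) := by
  have h1 := per_eq_sum (A := fun h => (F h : ℂ)) g (Pn.finite hF g).toFinset fun k hk =>
    (Pn.finite hF g).mem_toFinset.2 hk
  have h2 : per (fun h => (F h : ℂ)) g =
      ((∑ k ∈ (Pn.finite hF g).toFinset, F (lev k g) : ℝ) : ℂ) := by
    rw [h1]
    push_cast
    rfl
  rw [h2, Complex.ofReal_re]

private lemma Ms4_per_lev (A : (V → ℤ) → ℂ) (k : ℤ) (g : V → ℤ) : per A (lev k g) = per A g := by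
  rw [per_phs A k g]
  simp

private lemma Ms4_phs_sq {A : (V → ℤ) → ℂ} (hA : ∀ k g, A (lev k g) = A g) :
    Phs 0 fun g => A g ^ 2 := by
  intro k g
  show A (lev k g) ^ 2 = _
  rw [hA k g]
  simp

private lemma Ms4_PR_sum {t : Finset V} (I : Finset ℤ) (F : ℤ → (V → ℤ) → ℝ)
    (hF : ∀ k, PR t (F k)) : PR t fun g => ∑ k ∈ I, F k g := by
  classical
  refine ⟨al_real fun g g' h => Finset.sum_congr rfl fun k _ => (hF k).loc' g g' h, ?_⟩
  choose N hN using fun k => (hF k).pin
  refine ⟨∑ k ∈ I, |N k|, fun g hg => ?_⟩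
  have h1 : ∃ k ∈ I, F k g ≠ 0 := by
    by_contra h2
    push Not at h2
    apply hg
    show ((∑ k ∈ I, F k g : ℝ) : ℂ) = 0
    rw [Finset.sum_eq_zero h2, Complex.ofReal_zero]
  obtain ⟨k, hk, h2⟩ := h1
  obtain ⟨x, hx, h3⟩ := hN k g (by
    show ((F k g : ℝ) : ℂ) ≠ 0
    exact_mod_cast h2)
  refine ⟨x, hx, h3.trans ((le_abs_self _).trans ?_)⟩
  exact Finset.single_le_sum (f := fun k => |N k|) (fun i _ => abs_nonneg _) hk

private lemma Ms4_Mr_sum (hd : Deloc) {t : Finset V} (I : Finset ℤ) (F : ℤ → (V → ℤ) → ℝ)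
    (hF : ∀ k, PR t (F k)) : Mr (fun g => ∑ k ∈ I, F k g) = ∑ k ∈ I, Mr (F k) := by
  classical
  induction I using Finset.induction_on with
  | empty =>
    simp only [Finset.sum_empty]
    have h1 := Mr_smul hd (hF 0) 0
    rw [zero_mul] at h1
    have h2 : (fun g => 0 * F 0 g) = fun _ : V → ℤ => (0 : ℝ) := funext fun g => zero_mul _
    rwa [h2] at h1
  | insert a I ha ih =>
    simp only [Finset.sum_insert ha]
    rw [Mr_add hd (hF a) (Ms4_PR_sum I F hF), ih]

/-- (m4b) the number of levels of a block has bounded second moment: `muP (N ^ 2) = M (ic P * N) = ∑_k M(P, P_k)`, `bk_two` with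
`z = z'`, finite range of `k` for fixed `δ` on height functions -/
theorem levels_sq (hd : Deloc) (y : Pl) {r s : ℝ} (hr : 0 < r) (hrs : r < s) :
    ∃ C > 0, ∀ᶠ δ in 𝓝[>] (0 : ℝ),
      (muP fun g => per (fun h => (ic (Bk 0 δ y r s) h : ℂ)) g ^ 2).re ≤ C := by
  classical
  obtain ⟨C₁, hC₁, hev₁⟩ := bk_upper hd y hr hrs
  obtain ⟨C₂, hC₂, hev₂⟩ := bk_two hd y y hr hrs hr hrs (by rw [dist_self, zero_add])
  have hsum : Summable fun n : ℤ => 1 / (n : ℝ) ^ 2 :=
    Real.summable_one_div_int_pow.2 one_lt_two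
  have hS0 : 0 ≤ ∑' n : ℤ, 1 / (n : ℝ) ^ 2 := tsum_nonneg fun n => by positivity
  refine ⟨C₁ + C₂ * ∑' n : ℤ, 1 / (n : ℝ) ^ 2, by positivity, ?_⟩
  have hev : ∀ᶠ δ in 𝓝[>] (0 : ℝ), 0 < δ ∧ δ ≤ r ∧ r + δ < s := by
    have h1 : 0 < min r ((s - r) / 2) := lt_min hr (by linarith)
    filter_upwards [Ioc_mem_nhdsGT h1] with δ hδ
    have h2 := hδ.2.trans (min_le_left _ _)
    have h3 := hδ.2.trans (min_le_right _ _)
    exact ⟨hδ.1, h2, by linarith⟩
  filter_upwards [hev₁, hev₂, hev] with δ h₁ h₂ hδ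
  obtain ⟨hδ0, hδr, hδs⟩ := hδ
  set t : Finset V := Is δ y s with ht
  set P : (V → ℤ) → ℝ := ic (Bk 0 δ y r s) with hPdef
  have hbk0 : Bk 0 δ y r s = Sep (Inn δ y r) (Out δ y s) := by
    funext g
    unfold Bk
    rw [lev_zero]
  have hsep : ∀ g, Bk 0 δ y r s g → ∃ v ∈ t, g v = 0 := by
    intro g hg
    rw [hbk0] at hg
    obtain ⟨v, hv, h0⟩ := sep_pin (Inn_nonempty hδ0 y hδr) (disj_Inn_Out hδ0 hδs)
      (t.finite_toSet.subset (compl_Out_sub hδ0 y s)) hg
    exact ⟨v, Finset.mem_coe.1 (compl_Out_sub hδ0 y s hv), h0⟩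
  have hPR : PR t P := by
    rw [hPdef, hbk0]
    exact PR_sep' (Inn_nonempty hδ0 y hδr) (disj_Inn_Out hδ0 hδs) (compl_Out_sub hδ0 y s)
  set K : ℤ := ∑ u ∈ t, ∑ v ∈ t, dist1 u v with hK
  have hd0 : ∀ u v : V, 0 ≤ dist1 u v := fun u v => by
    unfold dist1
    positivity
  -- on height functions the levels of two blocks are close
  have hrange : ∀ g, GH g → Bk 0 δ y r s g → ∀ k : ℤ, P (lev k g) ≠ 0 → k ∈ Finset.Icc (-K) K := by
    intro g hg hB k hk
    have hB' : Bk 0 δ y r s (lev k g) := by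
      by_contra h
      exact hk (if_neg h)
    obtain ⟨u, hu, hu0⟩ := hsep g hB
    obtain ⟨v, hv, hv0⟩ := hsep _ hB'
    have h1 : g v - 2 * k = 0 := hv0
    have h2 := gh_lip_pm3 hg v u
    have h3 : dist1 v u ≤ K := by
      refine le_trans ?_ (Finset.single_le_sum (f := fun u => ∑ v ∈ t, dist1 u v)
        (fun i _ => Finset.sum_nonneg fun j _ => hd0 i j) hv)
      exact Finset.single_le_sum (f := fun w => dist1 v w) (fun i _ => hd0 v i) hu
    rw [hu0, sub_zero, abs_le] at h2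
    rw [Finset.mem_Icc]
    constructor <;> omega
  set F : ℤ → (V → ℤ) → ℝ := fun k g => P g * P (lev k g) with hFdef
  have hF : ∀ k, PR t (F k) := fun k => hPR.mul fun g g' h => by
    refine hPR.loc' _ _ fun x hx => ?_
    unfold lev
    rw [h x hx]
  set A : (V → ℤ) → ℝ := fun g => ∑ k ∈ Finset.Icc (-K) K, F k g with hA
  have hPA : PR t A := Ms4_PR_sum _ F hF
  have hAL : AL t (per fun h => (P h : ℂ)) := per_al hPR.loc
  have key : muP (fun g => per (fun h => (P h : ℂ)) g ^ 2) = M (fun g => (A g : ℂ)) := by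
    refine muP_congr (s := t) hd (fun g g' h => ?_) (Ms4_phs_sq fun k g => Ms4_per_lev _ k g)
      (per_al hPA.loc) (per_phs _) fun g hg => ?_
    · show per (fun h => (P h : ℂ)) g ^ 2 = per (fun h => (P h : ℂ)) g' ^ 2
      rw [hAL g g' h]
    · -- the sum over the levels
      set T : Finset ℤ := (Pn.finite hPR g).toFinset with hT
      have hT' : ∀ k, P (lev k g) ≠ 0 → k ∈ T := fun k hk =>
        (Pn.finite hPR g).mem_toFinset.2 (by
          show ((P (lev k g) : ℝ) : ℂ) ≠ 0
          exact_mod_cast hk)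
      have e1 : per (fun h => (P h : ℂ)) g = ∑ k ∈ T, (P (lev k g) : ℂ) :=
        per_eq_sum g T fun k hk => hT' k (by exact_mod_cast hk)
      have e2 : per (fun h => (A h : ℂ)) g = ∑ k ∈ T, (A (lev k g) : ℂ) := by
        refine per_eq_sum g T fun k hk => hT' k fun h0 => hk ?_
        have h1 : A (lev k g) = 0 := by
          rw [hA]
          refine Finset.sum_eq_zero fun j _ => ?_
          show P (lev k g) * P (lev j (lev k g)) = 0
          rw [h0, zero_mul]
        rw [h1, Complex.ofReal_zero]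
      rw [e2, sq]
      nth_rewrite 1 [e1]
      rw [Finset.sum_mul]
      refine Finset.sum_congr rfl fun k _ => ?_
      by_cases hk : P (lev k g) = 0
      · have h1 : A (lev k g) = 0 := by
          rw [hA]
          refine Finset.sum_eq_zero fun j _ => ?_
          show P (lev k g) * P (lev j (lev k g)) = 0
          rw [hk, zero_mul]
        rw [hk, h1, Complex.ofReal_zero, zero_mul]
      · have hB : Bk 0 δ y r s (lev k g) := by
          by_contra h
          exact hk (if_neg h)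
        have hgk : GH (lev k g) := hg.lev k
        have h1 : per (fun h => (P h : ℂ)) (lev k g) =
            ∑ j ∈ Finset.Icc (-K) K, (P (lev j (lev k g)) : ℂ) :=
          per_eq_sum (lev k g) _ fun j hj => hrange _ hgk hB j (by exact_mod_cast hj)
        rw [← Ms4_per_lev (fun h => (P h : ℂ)) k g, h1, Finset.mul_sum, hA]
        push_cast
        refine Finset.sum_congr rfl fun j _ => ?_
        rw [hFdef]
        push_cast
        rfl
  show (muP fun g => per (fun h => (P h : ℂ)) g ^ 2).re ≤ _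
  rw [key]
  have e3 : (M fun g => (A g : ℂ)).re = ∑ k ∈ Finset.Icc (-K) K, Mr (F k) :=
    Ms4_Mr_sum hd _ F hF
  rw [e3]
  have hK0 : (0 : ℤ) ∈ Finset.Icc (-K) K := by
    have h1 : 0 ≤ K := Finset.sum_nonneg fun i _ => Finset.sum_nonneg fun j _ => hd0 i j
    rw [Finset.mem_Icc]
    constructor <;> omega
  rw [← Finset.add_sum_erase _ _ hK0]
  refine add_le_add ?_ ?_
  · have h3 : F 0 = P := by
      funext g
      show P g * P (lev 0 g) = P g
      rw [lev_zero, hPdef]
      unfold ic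
      split_ifs <;> norm_num
    rw [h3]
    exact h₁
  · have h3 : ∀ k ∈ (Finset.Icc (-K) K).erase 0, Mr (F k) ≤ C₂ * (1 / (k : ℝ) ^ 2) := by
      intro k hk
      have h4 := h₂ k (Finset.ne_of_mem_erase hk)
      have h5 : F k = fun g => ic (Bk 0 δ y r s) g * ic (Bk k δ y r s) g := by
        funext g
        show P g * P (lev k g) = _
        rw [Ms4_bk_lev k]
      rw [h5, mul_one_div]
      exact h4
    refine (Finset.sum_le_sum h3).trans ?_
    rw [← Finset.mul_sum]
    refine mul_le_mul_of_nonneg_left ?_ hC₂.le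
    exact hsum.sum_le_tsum _ fun n _ => by positivity

/-- (m4c) Cauchy-Schwarz: `M(P Y) = muP (Y N) ≤ sqrt(mu Y²) sqrt(muP N²)` for a level invariant local `Y ≥ 0` -/
theorem Mr_mul_inv (hd : Deloc) {t : Finset V} {P : (V → ℤ) → Prop} (hP : PR t (ic P))
    {Y : (V → ℤ) → ℝ} (hY : Loc t Y) :
    Mr (fun g => ic P g * Y g) ^ 2 ≤ mu (fun g => Y g ^ 2) *
      (muP fun g => per (fun h => (ic P h : ℂ)) g ^ 2).re := by
  have := RP4.dom_neBot
  set N : (V → ℤ) → ℂ := per fun h => (ic P h : ℂ) with hN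
  have hNr : ∀ g, N g = ((N g).re : ℂ) := fun g => Ms4_per_real hP g
  have hYlev : ∀ k g, Y (lev k g) = Y g := fun k g => hY _ _ fun x _ y _ => by
    unfold lev
    ring
  have hYal : ∀ g g' : V → ℤ, (∀ x ∈ t, g x = g' x) → Y g = Y g' := fun g g' h =>
    hY g g' fun x hx y hy => by rw [h x hx, h y hy]
  have hNal : AL t N := per_al hP.loc
  have hNlev : ∀ k g, N (lev k g) = N g := fun k g => Ms4_per_lev _ k g
  -- the product
  have e1 : per (fun g => ((ic P g * Y g : ℝ) : ℂ)) = fun g => (Y g : ℂ) * N g := by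
    funext g
    have h1 : (fun g => ((ic P g * Y g : ℝ) : ℂ)) = fun g => (Y g : ℂ) * (ic P g : ℂ) := by
      funext g
      push_cast
      ring
    rw [h1, hN]
    unfold per
    rw [← smul_eq_mul, smul_finsum]
    refine finsum_congr fun k => ?_
    show (Y (lev k g) : ℂ) * (ic P (lev k g) : ℂ) = (Y g : ℂ) • (ic P (lev k g) : ℂ)
    rw [hYlev k g, smul_eq_mul]
  have l1 : Tendsto (fun D => avg (Om D) fun g => Y g * (N g).re) dom
      (𝓝 (Mr fun g => ic P g * Y g)) := by
    have h1 : Tendsto (fun D => avc (Om D) fun g => (Y g : ℂ) * N g) dom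
        (𝓝 (M fun g => ((ic P g * Y g : ℝ) : ℂ))) := by
      unfold M
      rw [e1]
      refine muP_tendsto (s := t) hd (fun g g' h => ?_) fun k g => ?_
      · show (Y g : ℂ) * N g = (Y g' : ℂ) * N g'
        rw [hYal g g' h, hNal g g' h]
      · show (Y (lev k g) : ℂ) * N (lev k g) = _
        rw [hYlev, hNlev]
        simp
    have h2 := (Complex.continuous_re.tendsto _).comp h1
    refine h2.congr fun D => ?_
    show (avc (Om D) fun g => (Y g : ℂ) * N g).re = _
    rw [avc_re]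
    congr 1
    funext g
    rw [Complex.re_ofReal_mul]
  have l2 : Tendsto (fun D => avg (Om D) fun g => Y g ^ 2) dom (𝓝 (mu fun g => Y g ^ 2)) :=
    RP4.mu_tendsto hd (hY.comp fun x => x ^ 2)
  have l3 : Tendsto (fun D => avg (Om D) fun g => (N g).re ^ 2) dom
      (𝓝 (muP fun g => N g ^ 2).re) := by
    have h1 : Tendsto (fun D => avc (Om D) fun g => N g ^ 2) dom (𝓝 (muP fun g => N g ^ 2)) := by
      refine muP_tendsto (s := t) hd (fun g g' h => ?_) (Ms4_phs_sq hNlev)
      show N g ^ 2 = N g' ^ 2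
      rw [hNal g g' h]
    have h2 := (Complex.continuous_re.tendsto _).comp h1
    refine h2.congr fun D => ?_
    show (avc (Om D) fun g => N g ^ 2).re = _
    rw [avc_re]
    congr 1
    funext g
    rw [hNr g, ← Complex.ofReal_pow, Complex.ofReal_re, Complex.ofReal_re]
  refine le_of_tendsto_of_tendsto' (l1.pow 2) (l2.mul l3) fun D => ?_
  unfold avg
  rw [div_pow, div_mul_div_comm, ← sq]
  refine div_le_div_of_nonneg_right ?_ (sq_nonneg _)
  exact Finset.sum_mul_sq_le_sq_mul_sq _ _ _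

end DV
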