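import Pool.Agent.Helper94.BR.Bl
import Pool.Agent.Helper75.GF.L8

/-!
# Project DV, block BAR (7c): moments of the field given the blocks (field in the inner ball)
-/

open Finset Filter Topology MeasureTheory

namespace DV

open RP4 (V Adj BdryPar Om dom avg mu Loc Deloc dist1 cnt mass clm)
open GF (Pl Cc Ne)
open GF.Lat (Xd win)

/-- the cells with mass are near the ball -/
private lemma Ms5_near {δ r : ℝ} (hδ : 0 < δ) {φ : Pl → ℝ} {y : Pl}
    (hsup : ∀ x, φ x ≠ 0 → dist x y < r) {x : V} (hx : mass δ φ x ≠ 0) :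
    |δ * x.1 - y.1| < r + δ / 2 ∧ |δ * x.2 - y.2| < r + δ / 2 := by
  have h1 : ∃ z ∈ RP4.cell δ x, φ z ≠ 0 := by
    by_contra hc
    push Not at hc
    exact hx (setIntegral_eq_zero_of_forall_eq_zero fun z hz => hc z hz)
  obtain ⟨z, hz, hφ⟩ := h1
  have h2 := hsup z hφ
  rw [Prod.dist_eq, max_lt_iff, Real.dist_eq, Real.dist_eq] at h2
  obtain ⟨h3, h4⟩ := h2
  have h5 := hz.1
  have h6 := hz.2
  rw [Set.mem_Ico] at h5 h6
  rw [abs_lt] at h3 h4 ⊢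
  rw [abs_lt]
  refine ⟨⟨?_, ?_⟩, ?_, ?_⟩ <;> nlinarith [h5.1, h5.2, h6.1, h6.2]

/-- shift of a coordinate into the ball -/
private noncomputable def Ms5_c (δ r c : ℝ) (a : ℤ) : ℤ :=
  if r < δ * a - c then a - 1 else if δ * a - c < -r then a + 1 else a

private lemma Ms5_c_near (δ r c : ℝ) (a : ℤ) :
    Ms5_c δ r c a = a ∨ Ms5_c δ r c a = a - 1 ∨ Ms5_c δ r c a = a + 1 := by
  unfold Ms5_c
  split_ifs
  · exact Or.inr (Or.inl rfl)
  · exact Or.inr (Or.inr rfl)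
  · exact Or.inl rfl

private lemma Ms5_c_in {δ r c : ℝ} (hδ : 0 < δ) (hr : δ ≤ r) {a : ℤ}
    (h : |δ * a - c| < r + δ / 2) : |δ * (Ms5_c δ r c a : ℝ) - c| ≤ r := by
  rw [abs_lt] at h
  unfold Ms5_c
  split_ifs with h1 h2
  · push_cast
    rw [abs_le]
    constructor <;> nlinarith
  · push_cast
    rw [abs_le]
    constructor <;> nlinarith
  · rw [abs_le]
    constructor <;> linarith [not_lt.1 h1, not_lt.1 h2]

/-- shift of a site -/
private noncomputable def Ms5_p (δ r : ℝ) (y : Pl) (x : V) : V := (Ms5_c δ r y.1 x.1, x.2)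

private lemma Ms5_p_nb {δ r : ℝ} (hδ : 0 < δ) (hr : δ ≤ r) {y : Pl} {x : V}
    (h : |δ * x.1 - y.1| < r + δ / 2 ∧ |δ * x.2 - y.2| < r + δ / 2) :
    Ms5_p δ r y x ∈ nb (Inn δ y r) := by
  have h1 := Ms5_c_in hδ hr h.1
  have h2 := Ms5_c_in hδ hr h.2
  have hu : ((Ms5_c δ r y.1 x.1, Ms5_c δ r y.2 x.2) : V) ∈ Inn δ y r := by
    show dist (pt δ _) y ≤ r
    rw [Prod.dist_eq, max_le_iff, Real.dist_eq, Real.dist_eq]
    exact ⟨h1, h2⟩
  rcases Ms5_c_near δ r y.2 x.2 with h3 | h3 | h3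
  · left
    rw [h3] at hu
    exact hu
  · refine Or.inr ⟨_, hu, ?_⟩
    rw [h3]
    show |_ - _| + |_ - _| = (1 : ℤ)
    simp [Ms5_p]
  · refine Or.inr ⟨_, hu, ?_⟩
    rw [h3]
    show |_ - _| + |_ - _| = (1 : ℤ)
    simp [Ms5_p]

private lemma Ms5_lip {D : Finset V} {g : V → ℤ} (hg : RP4.IsHom D 0 g) {δ r : ℝ} {y : Pl} {x : V}
    (hx : x ∈ D) (hp : Ms5_p δ r y x ∈ D) : |(g x : ℝ) - g (Ms5_p δ r y x)| ≤ 1 := by
  have key : Adj x (Ms5_p δ r y x) → |(g x : ℝ) - g (Ms5_p δ r y x)| ≤ 1 := by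
    intro h
    have h1 := hg.step x hx _ hp h
    have h2 : |g x - g (Ms5_p δ r y x)| ≤ 1 := h1.le
    exact_mod_cast h2
  rcases Ms5_c_near δ r y.1 x.1 with h3 | h3 | h3
  · have h4 : Ms5_p δ r y x = x := by
      unfold Ms5_p
      rw [h3]
    rw [h4, sub_self, abs_zero]
    exact zero_le_one
  · refine key ?_
    show |_ - _| + |_ - _| = (1 : ℤ)
    simp [Ms5_p, h3]
  · refine key ?_
    show |_ - _| + |_ - _| = (1 : ℤ)
    simp [Ms5_p, h3]

/-- mass of a cell -/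
private lemma Ms5_mass {δ Φ : ℝ} (hδ : 0 < δ) {φ : Pl → ℝ} (hΦ : ∀ z, |φ z| ≤ Φ) (x : V) :
    |mass δ φ x| ≤ Φ * δ ^ 2 := by
  have hv : (volume : Measure (ℝ × ℝ)) (RP4.cell δ x) = ENNReal.ofReal (δ ^ 2) := by
    unfold RP4.cell
    rw [Measure.volume_eq_prod, Measure.prod_prod, Real.volume_Ico, Real.volume_Ico,
      ← ENNReal.ofReal_mul (by nlinarith)]
    congr 1
    ring
  have hr : (volume : Measure (ℝ × ℝ)).real (RP4.cell δ x) = δ ^ 2 := by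
    rw [Measure.real, hv, ENNReal.toReal_ofReal (by positivity)]
  have hfin : (volume : Measure (ℝ × ℝ)) (RP4.cell δ x) < ⊤ := by
    rw [hv]
    exact ENNReal.ofReal_lt_top
  unfold RP4.mass
  rw [← hr, ← Real.norm_eq_abs]
  exact norm_setIntegral_le_of_norm_le_const hfin fun z _ => hΦ z

/-- the shifted field -/
private noncomputable def Ms5_X (δ r : ℝ) (y : Pl) (φ : Pl → ℝ) (S : Finset V) (g : V → ℤ) : ℝ :=
  ∑ x ∈ S, mass δ φ x * (g (Ms5_p δ r y x) : ℝ)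

private lemma Ms5_Xd {δ : ℝ} {φ : Pl → ℝ} {S : Finset V} (h0 : ∀ x, x ∉ S → mass δ φ x = 0)
    (g : V → ℤ) : Xd δ φ g = ∑ x ∈ S, mass δ φ x * (g x : ℝ) := by
  unfold GF.Lat.Xd
  exact tsum_eq_sum fun x hx => by rw [h0 x hx, zero_mul]

private lemma Ms5_diff {δ r : ℝ} (hδ : 0 < δ) {y : Pl} {φ : Pl → ℝ} (hφ : Cc φ) {S : Finset V}
    (h0 : ∀ x, x ∉ S → mass δ φ x = 0) {D : Finset V} {g : V → ℤ} (hg : RP4.IsHom D 0 g)
    (hS : ∀ x ∈ S, x ∈ D ∧ Ms5_p δ r y x ∈ D) :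
    |Xd δ φ g| ≤ |Ms5_X δ r y φ S g| + ∫ z, |φ z| := by
  have h1 : |Xd δ φ g - Ms5_X δ r y φ S g| ≤ ∫ z, |φ z| := by
    rw [Ms5_Xd h0]
    unfold Ms5_X
    rw [← Finset.sum_sub_distrib]
    refine (Finset.abs_sum_le_sum_abs _ _).trans (le_trans ?_ (GF.Lat.sum_abs_mass hδ hφ.integrable S))
    refine Finset.sum_le_sum fun x hx => ?_
    rw [← mul_sub, abs_mul]
    have h2 := Ms5_lip hg (hS x hx).1 (hS x hx).2
    exact mul_le_of_le_one_right (abs_nonneg _) h2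
  have h2 := abs_sub_abs_le_abs_sub (Xd δ φ g) (Ms5_X δ r y φ S g)
  linarith

/-- the weights of the shifted field -/
private noncomputable def Ms5_w (δ r : ℝ) (y : Pl) (φ : Pl → ℝ) (S : Finset V) (v : V) : ℝ := by
  classical exact ∑ x ∈ S, if Ms5_p δ r y x = v then mass δ φ x else 0

private lemma Ms5_lin {δ r : ℝ} {y : Pl} {φ : Pl → ℝ} {S U : Finset V}
    (hU : ∀ x ∈ S, mass δ φ x ≠ 0 → Ms5_p δ r y x ∈ U) (g : V → ℤ) :
    GF.lin U (Ms5_w δ r y φ S) g = Ms5_X δ r y φ S g := by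
  classical
  unfold GF.lin Ms5_w Ms5_X
  simp only [Finset.sum_mul]
  rw [Finset.sum_comm]
  refine Finset.sum_congr rfl fun x hx => ?_
  simp only [ite_mul, zero_mul]
  rw [Finset.sum_ite_eq]
  split_ifs with h
  · rfl
  · have h1 : mass δ φ x = 0 := by
      by_contra h2
      exact h (hU x hx h2)
    rw [h1, zero_mul]

private lemma Ms5_w_le {δ r Φ : ℝ} (hδ : 0 < δ) {y : Pl} {φ : Pl → ℝ} (hΦ : ∀ z, |φ z| ≤ Φ)
    (S : Finset V) (v : V) : |Ms5_w δ r y φ S v| ≤ 3 * (Φ * δ ^ 2) := by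
  classical
  have hΦ0 : 0 ≤ Φ := (abs_nonneg _).trans (hΦ 0)
  unfold Ms5_w
  refine (Finset.abs_sum_le_sum_abs _ _).trans ?_
  have h1 : ∑ x ∈ S, |if Ms5_p δ r y x = v then mass δ φ x else 0| ≤
      ∑ x ∈ S, if Ms5_p δ r y x = v then Φ * δ ^ 2 else 0 := by
    refine Finset.sum_le_sum fun x _ => ?_
    split_ifs
    · exact Ms5_mass hδ hΦ x
    · rw [abs_zero]
  refine h1.trans ?_
  rw [← Finset.sum_filter, Finset.sum_const, nsmul_eq_mul]
  refine mul_le_mul_of_nonneg_right ?_ (by positivity)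
  have h2 : S.filter (fun x => Ms5_p δ r y x = v) ⊆ {v, (v.1 + 1, v.2), (v.1 - 1, v.2)} := by
    intro x hx
    have h3 := (Finset.mem_filter.1 hx).2
    unfold Ms5_p at h3
    rw [Finset.mem_insert, Finset.mem_insert, Finset.mem_singleton]
    rcases Ms5_c_near δ r y.1 x.1 with h4 | h4 | h4
    · left
      rw [← h3, h4]
    · right
      left
      rw [← h3, h4]
      refine Prod.ext ?_ rfl
      show x.1 = x.1 - 1 + 1
      ring
    · right
      right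
      rw [← h3, h4]
      refine Prod.ext ?_ rfl
      show x.1 = x.1 + 1 - 1
      ring
  have h3 := (Finset.card_le_card h2).trans Finset.card_le_three
  exact_mod_cast h3

private lemma Ms5_w_sum {δ r : ℝ} (hδ : 0 < δ) {y : Pl} {φ : Pl → ℝ} (hφ : Cc φ)
    (S U : Finset V) : ∑ v ∈ U, |Ms5_w δ r y φ S v| ≤ ∫ z, |φ z| := by
  classical
  refine le_trans ?_ (GF.Lat.sum_abs_mass hδ hφ.integrable S)
  unfold Ms5_w
  have h1 : ∑ v ∈ U, |∑ x ∈ S, if Ms5_p δ r y x = v then mass δ φ x else 0| ≤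
      ∑ v ∈ U, ∑ x ∈ S, if Ms5_p δ r y x = v then |mass δ φ x| else 0 := by
    refine Finset.sum_le_sum fun v _ => (Finset.abs_sum_le_sum_abs _ _).trans (le_of_eq ?_)
    refine Finset.sum_congr rfl fun x _ => ?_
    split_ifs
    · rfl
    · exact abs_zero
  refine h1.trans ?_
  rw [Finset.sum_comm]
  refine Finset.sum_le_sum fun x _ => ?_
  rw [Finset.sum_ite_eq]
  split_ifs
  · exact le_rfl
  · exact abs_nonneg _

/-- moments of the shifted field in the flat domains -/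
private lemma Ms5_mom (n : ℕ) {s Φ : ℝ} (hs : 0 < s) {φ : Pl → ℝ} (hφ : Cc φ)
    (hΦ : ∀ z, |φ z| ≤ Φ) : ∃ c : ℝ, 0 ≤ c ∧ ∀ (δ r : ℝ) (y : Pl), 0 < δ → δ ≤ s →
      ∀ S U : Finset V, BdryPar U 0 → (∀ x ∈ S, mass δ φ x ≠ 0 → Ms5_p δ r y x ∈ U) →
        (∀ v ∈ U, dist (pt δ v) y < s) →
        avg (Om U) (fun g => |Ms5_X δ r y φ S g| ^ n) ≤ c := by
  obtain ⟨C1, hC1, hmdv⟩ := MD.mdv
  obtain ⟨C2, hC2, hmom⟩ := GF.moments n
  have hΦ0 : 0 ≤ Φ := (abs_nonneg _).trans (hΦ 0)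
  have hI : 0 ≤ ∫ z, |φ z| := integral_nonneg fun z => abs_nonneg _
  set I : ℝ := ∫ z, |φ z| with hIdef
  refine ⟨C2 * (Real.sqrt (C1 * (3 * s) ^ 2 * (3 * Φ * I)) + I) ^ n,
    mul_nonneg hC2 (pow_nonneg (add_nonneg (Real.sqrt_nonneg _) hI) n),
    fun δ r y hδ hδs S U hU hSU hUs => ?_⟩
  have hlin : ∀ g : V → ℤ, GF.lin U (Ms5_w δ r y φ S) g = Ms5_X δ r y φ S g := Ms5_lin hSU
  set R : ℕ := ⌈2 * s / δ⌉₊ with hR
  have h2s : 2 ≤ 2 * s / δ := by
    rw [le_div_iff₀ hδ]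
    linarith
  have hR1 : 1 ≤ R := by
    rw [hR, Nat.one_le_ceil_iff]
    linarith
  have hRle : (R : ℝ) ≤ 2 * s / δ + 1 := (Nat.ceil_lt_add_one (by linarith)).le
  have hRδ : δ * R ≤ 3 * s := by
    have h1 : δ * (R : ℝ) ≤ δ * (2 * s / δ + 1) := mul_le_mul_of_nonneg_left hRle hδ.le
    have h2 : δ * (2 * s / δ + 1) = 2 * s + δ := by
      field_simp
    linarith
  have hRU : ∀ u ∈ U, ∀ v ∈ U, |u.1 - v.1| ≤ R ∧ |u.2 - v.2| ≤ R := by
    have key : ∀ (a b : ℤ) (c : ℝ), |δ * a - c| < s → |δ * b - c| < s → |a - b| ≤ (R : ℤ) := by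
      intro a b c ha hb
      rw [abs_lt] at ha hb
      have h1 : |(a : ℝ) - b| ≤ 2 * s / δ := by
        have h3 : |(a : ℝ) - b| * δ = |δ * a - δ * b| := by
          rw [← mul_sub, abs_mul, abs_of_pos hδ, mul_comm]
        rw [le_div_iff₀ hδ, h3, abs_le]
        constructor <;> linarith
      have h2 : |(a : ℝ) - b| ≤ R := h1.trans (Nat.le_ceil _)
      exact_mod_cast h2
    intro u hu v hv
    have h1 := hUs u hu
    have h2 := hUs v hv
    rw [Prod.dist_eq, max_lt_iff, Real.dist_eq, Real.dist_eq] at h1 h2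
    exact ⟨key _ _ _ h1.1 h2.1, key _ _ _ h1.2 h2.2⟩
  have hvar : avg (Om U) (fun g => GF.lin U (Ms5_w δ r y φ S) g ^ 2) ≤
      C1 * (3 * s) ^ 2 * (3 * Φ * I) := by
    have h1 := hmdv R hR1 U hU hRU (Ms5_w δ r y φ S) (3 * (Φ * δ ^ 2))
      fun x _ => Ms5_w_le hδ hΦ S x
    refine h1.trans ?_
    have h2 : ∑ x ∈ U, |Ms5_w δ r y φ S x| ≤ I := Ms5_w_sum hδ hφ S U
    have h3 : 0 ≤ δ * (R : ℝ) := by positivity
    have h4 : (δ * (R : ℝ)) ^ 2 ≤ (3 * s) ^ 2 := pow_le_pow_left₀ h3 hRδ 2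
    have h5 : 0 ≤ ∑ x ∈ U, |Ms5_w δ r y φ S x| := Finset.sum_nonneg fun x _ => abs_nonneg _
    calc C1 * (R : ℝ) ^ 2 * (3 * (Φ * δ ^ 2) * ∑ x ∈ U, |Ms5_w δ r y φ S x|)
        = C1 * (δ * (R : ℝ)) ^ 2 * (3 * Φ * ∑ x ∈ U, |Ms5_w δ r y φ S x|) := by ring
      _ ≤ C1 * (3 * s) ^ 2 * (3 * Φ * I) := by
          refine mul_le_mul (mul_le_mul_of_nonneg_left h4 hC1) ?_ ?_ ?_
          · exact mul_le_mul_of_nonneg_left h2 (by positivity)
          · positivity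
          · positivity
  have h5 := hmom U U (Ms5_w δ r y φ S) (RP4.Om_nonempty hU)
  have h6 : avg (Om U) (fun g => |Ms5_X δ r y φ S g| ^ n) =
      avg (Om U) (fun g => |GF.lin U (Ms5_w δ r y φ S) g| ^ n) := by
    congr 1
    funext g
    rw [hlin g]
  rw [h6]
  refine h5.trans (mul_le_mul_of_nonneg_left (pow_le_pow_left₀ ?_ ?_ n) hC2)
  · exact add_nonneg (Real.sqrt_nonneg _) (Finset.sum_nonneg fun x _ => abs_nonneg _)
  · exact add_le_add (Real.sqrt_le_sqrt hvar) (Ms5_w_sum hδ hφ S U)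

/-- (m4d) field of a test function supported in the inner ball: `M_out_le` with `F = (Xd δ φ h) ^ (2 n)`, in the flat domains `U`:
`GF.moments` + `MD.mdv` (`|mass δ φ x| ≤ δ² sup |φ|`) -/
theorem bk_mom_in (hd : Deloc) (y : Pl) {r s : ℝ} (hr : 0 < r) (hrs : r < s) {φ : Pl → ℝ}
    (hφ : Cc φ) (hsup : ∀ x, φ x ≠ 0 → dist x y < r) (n : ℕ) : ∃ C : ℝ, ∀ᶠ δ in 𝓝[>] (0 : ℝ),
      Mr (fun g => ic (Bk 0 δ y r s) g * Xd δ φ g ^ (2 * n)) ≤ C := by
  classical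
  obtain ⟨Φ, hΦ0, hΦ⟩ := hφ.bdd
  obtain ⟨c, hc, hmom⟩ := Ms5_mom (2 * n) (hr.trans hrs) hφ hΦ
  obtain ⟨C3, hC3, hbk⟩ := bk_upper hd y hr hrs
  have hI : 0 ≤ ∫ z, |φ z| := integral_nonneg fun z => abs_nonneg _
  set I : ℝ := ∫ z, |φ z| with hIdef
  set c' : ℝ := 2 ^ (2 * n - 1) * (c + I ^ (2 * n)) with hc'
  have hc'0 : 0 ≤ c' := by positivity
  refine ⟨c' * C3, ?_⟩
  have hev : ∀ᶠ δ in 𝓝[>] (0 : ℝ), 0 < δ ∧ δ ≤ r ∧ r + δ < s := by
    have h1 : 0 < min r ((s - r) / 2) := lt_min hr (by linarith)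
    filter_upwards [Ioc_mem_nhdsGT h1] with δ hδ
    have h2 := hδ.2.trans (min_le_left _ _)
    have h3 := hδ.2.trans (min_le_right _ _)
    exact ⟨hδ.1, h2, by linarith⟩
  filter_upwards [hbk, hev] with δ hδbk hδ
  obtain ⟨hδ0, hδr, hδs⟩ := hδ
  have hBk : Bk 0 δ y r s = Sep (Inn δ y r) (Out δ y s) := by
    funext g
    unfold Bk
    rw [lev_zero]
  rw [hBk] at hδbk ⊢
  set S : Finset V := Is δ y s with hS
  -- the masses vanish off `S`
  have h0 : ∀ x, x ∉ S → mass δ φ x = 0 := by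
    intro x hx
    by_contra h1
    apply hx
    rw [hS, mem_Is hδ0, Prod.dist_eq, max_le_iff, Real.dist_eq, Real.dist_eq]
    obtain ⟨h2, h3⟩ := Ms5_near hδ0 hsup h1
    exact ⟨by
      show |δ * (x.1 : ℝ) - y.1| ≤ s
      linarith, by
      show |δ * (x.2 : ℝ) - y.2| ≤ s
      linarith⟩
  have hpn : ∀ x, mass δ φ x ≠ 0 → Ms5_p δ r y x ∈ nb (Inn δ y r) := fun x hx =>
    Ms5_p_nb hδ0 hδr (Ms5_near hδ0 hsup hx)
  have hnS : ∀ v ∈ nb (Inn δ y r), v ∈ S := by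
    intro v hv
    rw [hS, mem_Is hδ0]
    have := nb_Inn hδ0 hv
    linarith
  -- the dominating function
  set F' : (V → ℤ) → ℝ := fun g =>
    2 ^ (2 * n - 1) * (|Ms5_X δ r y φ S g| ^ (2 * n) + I ^ (2 * n)) with hF'
  have hXloc : ∀ g g' : V → ℤ, (∀ v ∈ nb (Inn δ y r), g v = g' v) →
      Ms5_X δ r y φ S g = Ms5_X δ r y φ S g' := by
    intro g g' h
    unfold Ms5_X
    refine Finset.sum_congr rfl fun x _ => ?_
    by_cases hx : mass δ φ x = 0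
    · rw [hx, zero_mul, zero_mul]
    · rw [h _ (hpn x hx)]
  have hF'loc : ∀ g g' : V → ℤ, (∀ v ∈ nb (Inn δ y r), g v = g' v) → F' g = F' g' := by
    intro g g' h
    rw [hF']
    beta_reduce
    rw [hXloc g g' h]
  have hne := Inn_nonempty hδ0 y hδr
  have hdis := disj_Inn_Out (z := y) hδ0 hδs
  have hsub := compl_Out_sub hδ0 y s
  have hPR1 : PR S fun g => ic (Sep (Inn δ y r) (Out δ y s)) g * Xd δ φ g ^ (2 * n) := by
    refine PR_sep hne hdis hsub fun g g' h => ?_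
    rw [Ms5_Xd h0, Ms5_Xd h0, Finset.sum_congr rfl fun x hx => by rw [h x hx]]
  have hPR2 : PR S fun g => ic (Sep (Inn δ y r) (Out δ y s)) g * F' g :=
    PR_sep hne hdis hsub fun g g' h => hF'loc g g' fun v hv => h v (hnS v hv)
  have h1 : Mr (fun g => ic (Sep (Inn δ y r) (Out δ y s)) g * Xd δ φ g ^ (2 * n)) ≤
      Mr (fun g => ic (Sep (Inn δ y r) (Out δ y s)) g * F' g) := by
    have h2 := Mr_le_of hd hPR1 hPR2 (c := 1) (d := 1) (by
      rw [RP4.eventually_dom]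
      refine ⟨S ∪ S.image (Ms5_p δ r y), fun D hD _ => ?_⟩
      rw [one_mul, one_mul]
      refine Finset.sum_le_sum fun g hg => mul_le_mul_of_nonneg_left ?_ (ic_nonneg _ g)
      have h3 := Ms5_diff (r := r) (y := y) hδ0 hφ h0 (RP4.mem_Om.1 hg).1 fun x hx =>
        ⟨hD (Finset.mem_union_left _ hx),
          hD (Finset.mem_union_right _ (Finset.mem_image_of_mem _ hx))⟩
      have h4 : Xd δ φ g ^ (2 * n) = |Xd δ φ g| ^ (2 * n) := by
        rw [pow_mul, pow_mul, sq_abs]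
      rw [h4]
      refine (pow_le_pow_left₀ (abs_nonneg _) h3 _).trans ?_
      exact add_pow_le (abs_nonneg _) hI (2 * n))
    rwa [one_mul, one_mul] at h2
  have h2 : Mr (fun g => ic (Sep (Inn δ y r) (Out δ y s)) g * F' g) ≤
      c' * Mp (Sep (Inn δ y r) (Out δ y s)) := by
    refine M_out_le hd hne hdis hsub hF'loc fun U hU hU1 hU2 => ?_
    have h3 := hmom δ r y hδ0 (by linarith) S U hU (fun x _ hx => hU1 (hpn x hx)) fun v hv => by
      have h4 : ¬ s ≤ dist (pt δ v) y := hU2 hv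
      exact not_le.1 h4
    have h4 : avg (Om U) F' = 2 ^ (2 * n - 1) *
        (avg (Om U) (fun g => |Ms5_X δ r y φ S g| ^ (2 * n)) + I ^ (2 * n)) := by
      rw [hF', RP4.avg_const_mul, RP4.avg_add]
      congr 2
      have hcard : ((Om U).card : ℝ) ≠ 0 := by
        have := (RP4.Om_nonempty hU).card_pos
        positivity
      unfold RP4.avg
      rw [Finset.sum_const, nsmul_eq_mul]
      field_simp
    rw [h4, hc']
    exact mul_le_mul_of_nonneg_left (by linarith) (by positivity)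
  exact h1.trans (h2.trans (mul_le_mul_of_nonneg_left hδbk hc'0))

end DV
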