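import Pool.Agent.Helper94.BR.Ms3
import Pool.Agent.Helper94.BR.Ms4
import Pool.Agent.Helper94.BR.Ms5
import Pool.Agent.Helper27.GF.Cal2

/-!
# Project DV, block BAR (7c): moments of the field given the blocks (field in the plane)
-/

open Finset Filter Topology MeasureTheory

namespace DV

open RP4 (V Adj BdryPar Om dom avg mu Loc Deloc dist1 cnt mass clm)
open GF (Pl Cc Ne)
open GF.Lat (Xd win)

private lemma ms6_pow (a b : ℝ) (n : ℕ) :
    (a + b) ^ (2 * n) ≤ 2 ^ (2 * n) * (a ^ (2 * n) + b ^ (2 * n)) := by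
  have e : ∀ x : ℝ, x ^ (2 * n) = |x| ^ (2 * n) := fun x => by
    rw [pow_mul, pow_mul, sq_abs]
  rw [e (a + b), e a, e b]
  have h1 : |a + b| ≤ 2 * max |a| |b| := by
    have := abs_add_le a b
    have h2 := le_max_left |a| |b|
    have h3 := le_max_right |a| |b|
    linarith
  refine (pow_le_pow_left₀ (abs_nonneg _) h1 _).trans ?_
  rw [mul_pow]
  refine mul_le_mul_of_nonneg_left ?_ (by positivity)
  rcases max_cases |a| |b| with ⟨h, _⟩ | ⟨h, _⟩
  · rw [h]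
    have : 0 ≤ |b| ^ (2 * n) := by positivity
    linarith
  · rw [h]
    have : 0 ≤ |a| ^ (2 * n) := by positivity
    linarith

private lemma ms6_smul {t : Finset V} {F : (V → ℤ) → ℝ} (h : PR t F) (c : ℝ) :
    PR t fun g => c * F g := by
  have h1 := h.mul (G := fun _ => c) fun _ _ _ => rfl
  have h2 : (fun g => F g * c) = fun g => c * F g := funext fun g => mul_comm _ _
  rwa [h2] at h1

private lemma ms6_add {t : Finset V} {F G : (V → ℤ) → ℝ} (h : PR t F) (h' : PR t G) :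
    PR t fun g => F g + G g := by
  refine ⟨al_real fun g g' hg => by rw [h.loc' g g' hg, h'.loc' g g' hg], ?_⟩
  obtain ⟨N, hN⟩ := h.pin
  obtain ⟨N', hN'⟩ := h'.pin
  refine ⟨max N N', fun g hg => ?_⟩
  by_cases h0 : (F g : ℂ) = 0
  · have h1 : (G g : ℂ) ≠ 0 := by
      intro h2
      apply hg
      show ((F g + G g : ℝ) : ℂ) = 0
      rw [Complex.ofReal_add, h0, h2, add_zero]
    obtain ⟨x, hx, h3⟩ := hN' g h1
    exact ⟨x, hx, h3.trans (le_max_right _ _)⟩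
  · obtain ⟨x, hx, h3⟩ := hN g h0
    exact ⟨x, hx, h3.trans (le_max_left _ _)⟩

/-- (m4) every test function: `f = (f - m φ) + m φ`, `φ` a bump of integral one in the inner ball, `m = ∫ f`; (m4a)-(m4d) and
`(a + b) ^ (2 n) ≤ 2 ^ (2 n) (a ^ (2 n) + b ^ (2 n))` -/
theorem bk_mom (hd : Deloc) (y : Pl) {r s : ℝ} (hr : 0 < r) (hrs : r < s) {f : Pl → ℝ}
    (hf : Cc f) (n : ℕ) : ∃ C : ℝ, ∀ᶠ δ in 𝓝[>] (0 : ℝ),
      Mr (fun g => ic (Bk 0 δ y r s) g * Xd δ f g ^ (2 * n)) ≤ C := by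
  classical
  obtain ⟨φ, hφ, -, hφ1, hφs⟩ := GF.exists_bump (Metric.ball y r) Metric.isOpen_ball
    ⟨y, Metric.mem_ball_self hr⟩
  obtain ⟨m, hm⟩ : ∃ m : ℝ, m = ∫ z, f z := ⟨_, rfl⟩
  have hne : Ne (fun z => f z - m * φ z) := by
    rw [hm]
    exact hf.neutral hφ hφ1
  obtain ⟨C1, h1⟩ := mu_mom hd hne (2 * n)
  obtain ⟨C2, hC2, h2⟩ := levels_sq hd y hr hrs
  obtain ⟨C3, h3⟩ := bk_mom_in hd y hr hrs hφ (fun x hx => by
    have h := hφs (subset_tsupport φ hx)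
    exact Metric.mem_ball.1 h) n
  obtain ⟨R1, hR1, hb1⟩ := GF.Lat.cc_box hf
  obtain ⟨R2, hR2, hb2⟩ := GF.Lat.cc_box hφ
  obtain ⟨R, hR⟩ : ∃ R : ℝ, R = max R1 R2 := ⟨_, rfl⟩
  have hR0 : 0 ≤ R := by rw [hR]; exact (hR1.le).trans (le_max_left _ _)
  have hbf : ∀ z, f z ≠ 0 → |z.1| ≤ R ∧ |z.2| ≤ R := fun z hz =>
    ⟨(hb1 z hz).1.trans (hR ▸ le_max_left _ _), (hb1 z hz).2.trans (hR ▸ le_max_left _ _)⟩
  have hbφ : ∀ z, φ z ≠ 0 → |z.1| ≤ R ∧ |z.2| ≤ R := fun z hz =>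
    ⟨(hb2 z hz).1.trans (hR ▸ le_max_right _ _), (hb2 z hz).2.trans (hR ▸ le_max_right _ _)⟩
  have hbn : ∀ z, (fun z => f z - m * φ z) z ≠ 0 → |z.1| ≤ R ∧ |z.2| ≤ R := fun z hz => by
    by_cases h : f z = 0
    · refine hbφ z fun h' => hz ?_
      show f z - m * φ z = 0
      rw [h, h']
      ring
    · exact hbf z h
  refine ⟨2 ^ (2 * n) * (1 + C1 * C2) + 2 ^ (2 * n) * m ^ (2 * n) * C3, ?_⟩
  have hδ0 : ∀ᶠ δ in 𝓝[>] (0 : ℝ), 0 < δ := self_mem_nhdsWithin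
  have hδ1 : ∀ᶠ δ in 𝓝[>] (0 : ℝ), δ < min r (s - r) :=
    nhdsWithin_le_nhds (gt_mem_nhds (lt_min hr (by linarith)))
  filter_upwards [h1, h2, h3, hδ0, hδ1] with δ g1 g2 g3 hδ hδm
  have hδr : δ ≤ r := (hδm.trans_le (min_le_left _ _)).le
  have hδs : r + δ < s := by
    have := hδm.trans_le (min_le_right _ _)
    linarith
  obtain ⟨t, ht⟩ : ∃ t : Finset V, t = Is δ y s ∪ win δ R := ⟨_, rfl⟩
  have hbk : Bk 0 δ y r s = Sep (Inn δ y r) (Out δ y s) := by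
    funext g
    unfold Bk
    rw [lev_zero]
  have hP : PR t (ic (Bk 0 δ y r s)) := by
    rw [hbk]
    refine PR_sep' (Inn_nonempty hδ y hδr) (disj_Inn_Out hδ hδs) ?_
    refine (compl_Out_sub hδ y s).trans ?_
    rw [ht]
    exact Finset.coe_subset.2 Finset.subset_union_left
  have hwt : win δ R ⊆ t := by rw [ht]; exact Finset.subset_union_right
  -- locality of the field
  have hloc : ∀ u : Pl → ℝ, (∀ z, u z ≠ 0 → |z.1| ≤ R ∧ |z.2| ≤ R) → ∀ g g' : V → ℤ,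
      (∀ x ∈ t, g x = g' x) → Xd δ u g ^ (2 * n) = Xd δ u g' ^ (2 * n) := by
    intro u hu g g' hg
    rw [GF.Lat.Xd_eq hδ hR0 hu hwt, GF.Lat.Xd_eq hδ hR0 hu hwt]
    congr 1
    exact Finset.sum_congr rfl fun x hx => by rw [hg x hx]
  have hsplit : ∀ g : V → ℤ, Xd δ f g = Xd δ (fun z => f z - m * φ z) g + m * Xd δ φ g := by
    intro g
    rw [GF.Lat.Xd_eq hδ hR0 hbf hwt, GF.Lat.Xd_eq hδ hR0 hbn hwt, GF.Lat.Xd_eq hδ hR0 hbφ hwt,
      Finset.mul_sum, ← Finset.sum_add_distrib]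
    refine Finset.sum_congr rfl fun x _ => ?_
    have e1 : mass δ f x = mass δ (fun z => f z - m * φ z) x + m * mass δ φ x := by
      rw [← GF.Lat.mass_smul, ← GF.Lat.mass_add δ (f := fun z => f z - m * φ z)
        (g := fun z => m * φ z) hne.toCc.integrable (hφ.smul m).integrable]
      congr 1
      funext z
      ring
    rw [e1]
    ring
  have hpf := hP.mul (hloc f hbf)
  have hpn := hP.mul (hloc _ hbn)
  have hpφ := hP.mul (hloc φ hbφ)
  -- the neutral part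
  have hL : Loc t (fun g => Xd δ (fun z => f z - m * φ z) g ^ (2 * n)) := by
    have h := (GF.Lat.Xd_loc hδ hR0 hne.toCc.integrable hne.zero hbn).mono hwt
    intro g g' hg
    show Xd δ (fun z => f z - m * φ z) g ^ (2 * n) = Xd δ (fun z => f z - m * φ z) g' ^ (2 * n)
    rw [h g g' hg]
  have hA := Mr_mul_inv hd hP hL
  have hmu : mu (fun g => (Xd δ (fun z => f z - m * φ z) g ^ (2 * n)) ^ 2) ≤ C1 := by
    refine le_trans (le_of_eq ?_) g1
    congr 1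
    funext g
    rw [← pow_mul]
    congr 1
    ring
  have hmu0 : 0 ≤ mu (fun g => (Xd δ (fun z => f z - m * φ z) g ^ (2 * n)) ^ 2) := by
    have h := RP4.mu_mono hd (s := t) (F := fun _ => (0 : ℝ))
      (G := fun g => (Xd δ (fun z => f z - m * φ z) g ^ (2 * n)) ^ 2)
      (fun _ _ _ => rfl) (fun g g' hg => congrArg (fun x : ℝ => x ^ 2) (hL g g' hg))
      (fun g _ => sq_nonneg _)
    rwa [RP4.mu_const] at h
  have hB : Mr (fun g => ic (Bk 0 δ y r s) g * Xd δ (fun z => f z - m * φ z) g ^ (2 * n)) ≤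
      1 + C1 * C2 := by
    have e1 : mu (fun g => (Xd δ (fun z => f z - m * φ z) g ^ (2 * n)) ^ 2) *
        (muP fun g => per (fun h => (ic (Bk 0 δ y r s) h : ℂ)) g ^ 2).re ≤ C1 * C2 :=
      (mul_le_mul_of_nonneg_left g2 hmu0).trans (mul_le_mul_of_nonneg_right hmu hC2.le)
    have e2 := hA.trans e1
    nlinarith [sq_nonneg (Mr (fun g => ic (Bk 0 δ y r s) g *
      Xd δ (fun z => f z - m * φ z) g ^ (2 * n)) - 1)]
  have hS : Mr (fun g => ic (Bk 0 δ y r s) g * Xd δ f g ^ (2 * n)) ≤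
      Mr (fun g => 2 ^ (2 * n) * (ic (Bk 0 δ y r s) g * Xd δ (fun z => f z - m * φ z) g ^ (2 * n)) +
        2 ^ (2 * n) * m ^ (2 * n) * (ic (Bk 0 δ y r s) g * Xd δ φ g ^ (2 * n))) := by
    refine Mr_mono hd hpf (ms6_add (ms6_smul hpn _) (ms6_smul hpφ _)) fun g => ?_
    rw [hsplit g]
    have h := mul_le_mul_of_nonneg_left
      (ms6_pow (Xd δ (fun z => f z - m * φ z) g) (m * Xd δ φ g) n) (ic_nonneg (Bk 0 δ y r s) g)
    refine h.trans (le_of_eq ?_)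
    rw [mul_pow]
    ring
  rw [Mr_add hd (ms6_smul hpn _) (ms6_smul hpφ _), Mr_smul hd hpn, Mr_smul hd hpφ] at hS
  refine hS.trans (add_le_add (mul_le_mul_of_nonneg_left hB (by positivity))
    (mul_le_mul_of_nonneg_left g3 ?_))
  have : 0 ≤ m ^ (2 * n) := by
    rw [pow_mul]
    positivity
  positivity

end DV
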