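import Pool.Agent.Helper94.BR.Ms2
import Pool.Agent.Helper94.BR.Ms6

/-!
# Project DV, block BAR (7c): moments of the field given the blocks (final form)
-/

open Finset Filter Topology MeasureTheory

namespace DV

open RP4 (V Adj BdryPar Om dom avg mu Loc Deloc dist1 cnt mass clm)
open GF (Pl Cc Ne)
open GF.Lat (Xd win)

/-- a dominating test function -/
lemma bmm_dom {f : Pl → ℝ} (hf : Cc f) {U : Set Pl} (hU : IsOpen U) (hb : Bornology.IsBounded U)
    (hfU : tsupport f ⊆ U) : ∃ φ : Pl → ℝ, Cc φ ∧ (∀ z, |f z| ≤ φ z) ∧ ∀ z, z ∉ U → φ z = 0 := by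
  obtain ⟨ψ, hψs, hψc, hψr⟩ := hU.exists_contDiff_support_eq (n := ⊤)
  have hψ0 : ∀ z, 0 ≤ ψ z := fun z => (hψr ⟨z, rfl⟩).1
  have hψU : ∀ z, z ∉ U → ψ z = 0 := fun z hz => by
    by_contra h
    exact hz (hψs ▸ (Function.mem_support.2 h))
  have hcont : ContinuousOn (fun z => f z / ψ z) (tsupport f) :=
    hf.smooth.continuous.continuousOn.div hψc.continuous.continuousOn fun z hz => by
      have h1 : z ∈ Function.support ψ := by
        rw [hψs]
        exact hfU hz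
      exact h1
  obtain ⟨M, hM⟩ := hf.supp.isCompact.exists_bound_of_continuousOn hcont
  refine ⟨fun z => max M 0 * ψ z, ⟨contDiff_const.mul hψc, ?_⟩, fun z => ?_, fun z hz => ?_⟩
  · refine HasCompactSupport.intro (K := closure U) hb.isCompact_closure fun z hz => ?_
    show max M 0 * ψ z = 0
    rw [hψU z fun h => hz (subset_closure h), mul_zero]
  · by_cases hz : z ∈ tsupport f
    · have h1 : z ∈ Function.support ψ := by
        rw [hψs]
        exact hfU hz
      have h2 : 0 < ψ z := lt_of_le_of_ne (hψ0 z) (Ne.symm h1)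
      have h3 := hM z hz
      rw [Real.norm_eq_abs, abs_div, abs_of_pos h2, div_le_iff₀ h2] at h3
      exact h3.trans (mul_le_mul_of_nonneg_right (le_max_left _ _) h2.le)
    · rw [image_eq_zero_of_notMem_tsupport hz, abs_zero]
      exact mul_nonneg (le_max_right _ _) (hψ0 z)
  · show max M 0 * ψ z = 0
    rw [hψU z hz, mul_zero]

/-- a smooth cutoff -/
lemma bmm_cut {A B : Set Pl} (hA : IsClosed A) (hB : IsClosed B) (hAB : Disjoint A B) :
    ∃ χ : Pl → ℝ, ContDiff ℝ (⊤ : ℕ∞) χ ∧ (∀ z ∈ A, χ z = 0) ∧ ∀ z ∈ B, χ z = 1 := by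
  obtain ⟨a, has, hac, har⟩ := hA.isOpen_compl.exists_contDiff_support_eq (n := ⊤)
  obtain ⟨b, hbs, hbc, hbr⟩ := hB.isOpen_compl.exists_contDiff_support_eq (n := ⊤)
  have ha0 : ∀ z, 0 ≤ a z := fun z => (har ⟨z, rfl⟩).1
  have hb0 : ∀ z, 0 ≤ b z := fun z => (hbr ⟨z, rfl⟩).1
  have haz : ∀ z, z ∈ A → a z = 0 := fun z hz => by
    by_contra h
    have h1 : z ∈ Function.support a := h
    rw [has] at h1
    exact h1 hz
  have hbz : ∀ z, z ∈ B → b z = 0 := fun z hz => by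
    by_contra h
    have h1 : z ∈ Function.support b := h
    rw [hbs] at h1
    exact h1 hz
  have hpos : ∀ z, 0 < a z + b z := by
    intro z
    by_cases hz : z ∈ A
    · have h1 : z ∈ Function.support b := by
        rw [hbs]
        exact Set.disjoint_left.1 hAB hz
      have h2 : 0 < b z := lt_of_le_of_ne (hb0 z) (Ne.symm h1)
      have := ha0 z
      linarith
    · have h1 : z ∈ Function.support a := by
        rw [has]
        exact hz
      have h2 : 0 < a z := lt_of_le_of_ne (ha0 z) (Ne.symm h1)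
      have := hb0 z
      linarith
  refine ⟨fun z => a z / (a z + b z), hac.div (hac.add hbc) fun z => (hpos z).ne', fun z hz => ?_,
    fun z hz => ?_⟩
  · show a z / (a z + b z) = 0
    rw [haz z hz, zero_div]
  · show a z / (a z + b z) = 1
    have h1 := hpos z
    rw [hbz z hz, add_zero] at h1 ⊢
    exact div_self h1.ne'

/-- the mass of a site vanishes near the points where `f` does -/
lemma bmm_far {f : Pl → ℝ} {δ : ℝ} (hδ : 0 < δ) {y : Pl} {a b : ℝ}
    (hf : ∀ z, dist z y ≤ a → f z = 0) (hab : b + δ ≤ a) {x : V} (hx : dist (pt δ x) y ≤ b) :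
    mass δ f x = 0 := by
  unfold mass
  refine setIntegral_eq_zero_of_forall_eq_zero fun z hz => hf z ?_
  have h1 : dist z (pt δ x) ≤ δ := by
    obtain ⟨h2, h3⟩ := hz
    rw [Prod.dist_eq, max_le_iff, Real.dist_eq, Real.dist_eq, abs_le, abs_le]
    unfold pt
    obtain ⟨h4, h5⟩ := h2
    obtain ⟨h6, h7⟩ := h3
    simp only
    refine ⟨⟨?_, ?_⟩, ?_, ?_⟩ <;> nlinarith
  have h2 := dist_triangle z (pt δ x) y
  linarith

lemma bmm_mass {f φ : Pl → ℝ} (hf : Cc f) (hφ : Cc φ) (h : ∀ z, |f z| ≤ φ z) (δ : ℝ) (x : V) :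
    |mass δ f x| ≤ mass δ φ x := by
  have i1 : Integrable f := hf.smooth.continuous.integrable_of_hasCompactSupport hf.supp
  have i2 : Integrable φ := hφ.smooth.continuous.integrable_of_hasCompactSupport hφ.supp
  unfold mass
  exact abs_integral_le_integral_abs.trans
    (integral_mono i1.integrableOn.abs i2.integrableOn h)

lemma bmm_PR {δ : ℝ} (hδ : 0 < δ) {y : Pl} {r s : ℝ} (hr : δ ≤ r) (h : r + δ < s) {T : Finset V}
    (hT : Is δ y s ⊆ T) {E : (V → ℤ) → Prop}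
    (hE : ∀ g g' : V → ℤ, (∀ x ∈ T, g x = g' x) → (E g ↔ E g')) :
    PR T (ic fun g => Bk 0 δ y r s g ∧ E g) := by
  have e : (ic fun g => Bk 0 δ y r s g ∧ E g) =
      fun g => ic (Sep (Inn δ y r) (Out δ y s)) g * ic E g := by
    funext g
    rw [ic_and, bk_zero]
  rw [e]
  refine PR_sep (Inn_nonempty hδ y hr) (disj_Inn_Out hδ h) ?_ fun g g' h => ic_congr (hE g g' h)
  exact (compl_Out_sub hδ y s).trans (Finset.coe_subset.2 hT)

/-- moments of the part of the field off one of the blocks -/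
theorem bmm_half (hd : Deloc) (hF : FlatC) (hZ : ZoneC) (y : Pl) {r s η : ℝ} (hr : 0 < r)
    (hrs : r < s) (hη : 0 < η) {f : Pl → ℝ} (hf : Cc f)
    (hfv : ∀ z, dist z y ≤ s + η → f z = 0) (n : ℕ) :
    ∃ C > 0, ∀ᶠ δ in 𝓝[>] (0 : ℝ), ∀ (S : Finset V) (E : (V → ℤ) → Prop),
      (∀ v ∈ S, s ≤ dist (pt δ v) y) → Dec E →
      (∀ g g' : V → ℤ, (∀ v ∈ S, g v = g' v) → (E g ↔ E g')) →
      Mr (fun g => ic (fun g => Bk 0 δ y r s g ∧ E g) g * Xd δ f g ^ (2 * n)) ≤
        C * Mp (fun g => Bk 0 δ y r s g ∧ E g) := by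
  classical
  obtain ⟨R, hR, hfR⟩ := GF.Lat.cc_box hf
  have hsub : tsupport f ⊆ {z : Pl | s + η ≤ dist z y} :=
    closure_minimal (fun z hz => not_lt.1 fun h => hz (hfv z h.le))
      (isClosed_le continuous_const (continuous_id.dist continuous_const))
  obtain ⟨ρ, hρ⟩ := hf.supp.isCompact.isBounded.subset_closedBall (0 : Pl)
  set U : Set Pl := {z : Pl | s + η / 2 < dist z y} ∩ Metric.ball 0 (ρ + 1) with hUdef
  have hU : IsOpen U := (isOpen_lt continuous_const (continuous_id.dist continuous_const)).inter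
    Metric.isOpen_ball
  have hUb : Bornology.IsBounded U := Metric.isBounded_ball.subset Set.inter_subset_right
  have hfU : tsupport f ⊆ U := fun z hz => by
    refine ⟨?_, ?_⟩
    · have h1 : s + η ≤ dist z y := hsub hz
      show s + η / 2 < dist z y
      linarith
    · have h1 := hρ hz
      rw [Metric.mem_closedBall] at h1
      rw [Metric.mem_ball]
      linarith
  obtain ⟨φ, hφ, hfφ, hφU⟩ := bmm_dom hf hU hUb hfU
  have hφv : ∀ z, dist z y ≤ s + η / 2 → φ z = 0 := fun z hz => hφU z fun h => by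
    have h1 : s + η / 2 < dist z y := h.1
    linarith
  obtain ⟨R', hR', hφR⟩ := GF.Lat.cc_box hφ
  obtain ⟨C₁, hC₁, r', hr', hr'r, hpin⟩ := pin_mom hd hF hZ y hr hrs
  obtain ⟨C₂, hbk⟩ := bk_mom hd y hr' (hr'r.trans hrs) hφ n
  have hmx : 0 < max C₂ 1 := lt_max_of_lt_right one_pos
  refine ⟨C₁ * max C₂ 1, by positivity, ?_⟩
  have hev : ∀ c : ℝ, 0 < c → ∀ᶠ δ in 𝓝[>] (0 : ℝ), δ < c := fun c hc =>
    nhdsWithin_le_nhds (Iio_mem_nhds hc)
  have hpos : ∀ᶠ δ in 𝓝[>] (0 : ℝ), 0 < δ := self_mem_nhdsWithin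
  filter_upwards [hpin, hbk, hpos, hev (η / 2) (by positivity), hev r hr,
    hev (s - r) (by linarith)] with δ h1 h2 hδ hδη hδr hδs S E hS hE hEl
  set W := win δ R ∪ win δ R' with hW
  set t := W.filter fun v => s ≤ dist (pt δ v) y with ht
  have off : ∀ (ψ : Pl → ℝ) (ρ' : ℝ), 0 < ρ' → (∀ z, ψ z ≠ 0 → |z.1| ≤ ρ' ∧ |z.2| ≤ ρ') →
      (∀ z, dist z y ≤ s + η / 2 → ψ z = 0) → win δ ρ' ⊆ W → ∀ x, x ∉ t → mass δ ψ x = 0 := by
    intro ψ ρ' hρ' hψ hψ0 hsW x hx
    by_cases hxW : x ∈ W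
    · have h3 : ¬ s ≤ dist (pt δ x) y := fun h => hx (Finset.mem_filter.2 ⟨hxW, h⟩)
      exact bmm_far hδ hψ0 (b := s) (by linarith) (not_le.1 h3).le
    · exact GF.Lat.mass_off hδ hρ'.le hψ fun h => hxW (hsW h)
  have sumt : ∀ (ψ : Pl → ℝ), (∀ x, x ∉ t → mass δ ψ x = 0) → ∀ T : Finset V, t ⊆ T →
      ∀ g : V → ℤ, Xd δ ψ g = ∑ x ∈ T, mass δ ψ x * (g x : ℝ) := by
    intro ψ hψ T hT g
    unfold Xd
    exact tsum_eq_sum fun x hx => by rw [hψ x fun h => hx (hT h), zero_mul]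
  have offf := off f R hR hfR (fun z hz => hfv z (by linarith)) Finset.subset_union_left
  have offφ := off φ R' hR' hφR hφv Finset.subset_union_right
  have htS : ∀ v ∈ S ∪ t, s ≤ dist (pt δ v) y := by
    intro v hv
    rcases Finset.mem_union.1 hv with hv | hv
    · exact hS v hv
    · exact (Finset.mem_filter.1 hv).2
  have h3 := h1 (S ∪ t) E htS hE (fun g g' h => hEl g g' fun v hv =>
    h v (Finset.mem_union_left _ hv)) (2 * n) (mass δ φ) fun x _ =>
    (abs_nonneg _).trans (bmm_mass hf hφ hfφ δ x)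
  set T : Finset V := Is δ y s ∪ (S ∪ t) with hT
  have hPR : PR T (ic fun g => Bk 0 δ y r s g ∧ E g) :=
    bmm_PR hδ hδr.le (by linarith) Finset.subset_union_left fun g g' h => hEl g g' fun v hv =>
      h v (Finset.mem_union_right _ (Finset.mem_union_left _ hv))
  have h4 := Mr_dom hd (s := T) (t := t)
    ((Finset.subset_union_right).trans Finset.subset_union_right) hPR
    (fun g => ((bk_dec δ y r s).and hE).abs g) (2 * n) (w := mass δ f) (w' := mass δ φ)
    fun x _ => bmm_mass hf hφ hfφ δ x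
  have e1 : ∀ g : V → ℤ, ∑ x ∈ t, mass δ f x * (g x : ℝ) = Xd δ f g := fun g =>
    (sumt f offf t (Finset.Subset.refl _) g).symm
  have e2 : ∀ g : V → ℤ, ∑ x ∈ t, mass δ φ x * (g x : ℝ) = Xd δ φ g := fun g =>
    (sumt φ offφ t (Finset.Subset.refl _) g).symm
  have e3 : ∀ g : V → ℤ, ∑ x ∈ S ∪ t, mass δ φ x * (g x : ℝ) = Xd δ φ g := fun g =>
    (sumt φ offφ (S ∪ t) Finset.subset_union_right g).symm
  simp only [e1, e2] at h4
  simp only [e3] at h3
  have h5 : 0 ≤ Mp (fun g => Bk 0 δ y r s g ∧ E g) := Mr_nonneg hd hPR fun g => ic_nonneg _ g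
  refine h4.trans (h3.trans (mul_le_mul_of_nonneg_right ?_ h5))
  exact mul_le_mul_of_nonneg_left (h2.trans (le_max_left _ _)) hC₁.le

/-- **(7c)** moments uniform in `E`: `f = f₁ + f₂`, `f_i` off the closed ball of radius `s + η` about `y_i` (smooth cutoff,
`Cc`), `|f_i| ≤ φ_i` with `Cc φ_i`, `φ_i ≥ 0` off the ball of radius `s + η / 2`, `Mr_dom`, `pin_mom`, `bk_mom` -/
theorem bar_mom (hd : Deloc) (hF : FlatC) (hZ : ZoneC) (y₁ y₂ : Pl) {r s : ℝ} (hr : 0 < r)
    (hrs : r < s) (h12 : 2 * s < dist y₁ y₂) {f : Pl → ℝ} (hf : Cc f) (n : ℕ) :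
    ∃ C > 0, ∀ᶠ δ in 𝓝[>] (0 : ℝ), ∀ (S : Finset V) (E : (V → ℤ) → Prop),
      (∀ v ∈ S, s ≤ dist (pt δ v) y₁ ∧ s ≤ dist (pt δ v) y₂) → Dec E →
      (∀ g g' : V → ℤ, (∀ v ∈ S, g v = g' v) → (E g ↔ E g')) →
      Mr (fun g => ic (fun g => Bk 0 δ y₁ r s g ∧ Bk 0 δ y₂ r s g ∧ E g) g * Xd δ f g ^ (2 * n)) ≤
        C * Mp (fun g => Bk 0 δ y₁ r s g ∧ Bk 0 δ y₂ r s g ∧ E g) := by
  classical
  obtain ⟨η, hη, hη2⟩ : ∃ η > 0, 2 * (s + η) < dist y₁ y₂ :=
    ⟨(dist y₁ y₂ - 2 * s) / 4, by linarith, by linarith⟩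
  have hdisj : Disjoint (Metric.closedBall y₁ (s + η)) (Metric.closedBall y₂ (s + η)) :=
    Metric.closedBall_disjoint_closedBall (by linarith)
  obtain ⟨χ, hχ, hχ1, hχ2⟩ := bmm_cut Metric.isClosed_closedBall Metric.isClosed_closedBall hdisj
  have hf1 : Cc fun z => χ z * f z := ⟨hχ.mul hf.smooth, hf.supp.mul_left⟩
  have hf2 : Cc fun z => (1 - χ z) * f z := ⟨(contDiff_const.sub hχ).mul hf.smooth, hf.supp.mul_left⟩
  obtain ⟨C₁, hC₁, h1⟩ := bmm_half hd hF hZ y₁ hr hrs hη hf1 (fun z hz => by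
    show χ z * f z = 0
    rw [hχ1 z (Metric.mem_closedBall.2 hz), zero_mul]) n
  obtain ⟨C₂, hC₂, h2⟩ := bmm_half hd hF hZ y₂ hr hrs hη hf2 (fun z hz => by
    show (1 - χ z) * f z = 0
    rw [hχ2 z (Metric.mem_closedBall.2 hz), sub_self, zero_mul]) n
  obtain ⟨R, hR, hfR⟩ := GF.Lat.cc_box hf
  refine ⟨2 ^ (2 * n) * (C₁ + C₂), by positivity, ?_⟩
  have hev : ∀ c : ℝ, 0 < c → ∀ᶠ δ in 𝓝[>] (0 : ℝ), δ < c := fun c hc =>
    nhdsWithin_le_nhds (Iio_mem_nhds hc)
  have hpos : ∀ᶠ δ in 𝓝[>] (0 : ℝ), 0 < δ := self_mem_nhdsWithin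
  filter_upwards [h1, h2, hpos, hev r hr, hev (s - r) (by linarith)] with δ h1 h2 hδ hδr hδs S E
    hS hE hEl
  have far : ∀ (y y' : Pl), 2 * s < dist y y' → ∀ v ∈ Is δ y' s, s ≤ dist (pt δ v) y := by
    intro y y' hyy v hv
    rw [mem_Is hδ] at hv
    have h3 := dist_triangle y (pt δ v) y'
    rw [dist_comm y (pt δ v)] at h3
    linarith
  have bl : ∀ (y : Pl) (T : Finset V), Is δ y s ⊆ T → ∀ g g' : V → ℤ, (∀ x ∈ T, g x = g' x) →
      (Bk 0 δ y r s g ↔ Bk 0 δ y r s g') := fun y T hT g g' h =>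
    bk_loc hδ (by linarith) fun v hv => h v (hT ((mem_Is hδ).2 hv.le))
  set A : (V → ℤ) → Prop := fun g => Bk 0 δ y₁ r s g ∧ Bk 0 δ y₂ r s g ∧ E g with hA
  have h3 : Mr (fun g => ic A g * Xd δ (fun z => χ z * f z) g ^ (2 * n)) ≤ C₁ * Mp A :=
    h1 (S ∪ Is δ y₂ s) (fun g => Bk 0 δ y₂ r s g ∧ E g) (by
      intro v hv
      rcases Finset.mem_union.1 hv with hv | hv
      · exact (hS v hv).1
      · exact far y₁ y₂ h12 v hv) ((bk_dec δ y₂ r s).and hE) fun g g' h =>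
      and_congr (bl y₂ _ Finset.subset_union_right g g' h)
        (hEl g g' fun v hv => h v (Finset.mem_union_left _ hv))
  have h4 : Mr (fun g => ic A g * Xd δ (fun z => (1 - χ z) * f z) g ^ (2 * n)) ≤ C₂ * Mp A := by
    have h5 := h2 (S ∪ Is δ y₁ s) (fun g => Bk 0 δ y₁ r s g ∧ E g) (by
      intro v hv
      rcases Finset.mem_union.1 hv with hv | hv
      · exact (hS v hv).2
      · exact far y₂ y₁ (by rw [dist_comm]; exact h12) v hv) ((bk_dec δ y₁ r s).and hE) fun g g' h =>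
      and_congr (bl y₁ _ Finset.subset_union_right g g' h)
        (hEl g g' fun v hv => h v (Finset.mem_union_left _ hv))
    have e : (fun g => Bk 0 δ y₂ r s g ∧ Bk 0 δ y₁ r s g ∧ E g) = A := by
      funext g
      exact propext and_left_comm
    rw [e] at h5
    exact h5
  have i1 : Integrable fun z => χ z * f z :=
    hf1.smooth.continuous.integrable_of_hasCompactSupport hf1.supp
  have i2 : Integrable fun z => (1 - χ z) * f z :=
    hf2.smooth.continuous.integrable_of_hasCompactSupport hf2.supp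
  have x0 : ∀ g : V → ℤ, Xd δ f g = ∑ x ∈ win δ R, mass δ f x * (g x : ℝ) := fun g =>
    GF.Lat.Xd_eq hδ hR.le hfR (Finset.Subset.refl _) g
  have x1 : ∀ g : V → ℤ, Xd δ (fun z => χ z * f z) g =
      ∑ x ∈ win δ R, mass δ (fun z => χ z * f z) x * (g x : ℝ) := fun g =>
    GF.Lat.Xd_eq hδ hR.le (fun z hz => hfR z (right_ne_zero_of_mul hz)) (Finset.Subset.refl _) g
  have x2 : ∀ g : V → ℤ, Xd δ (fun z => (1 - χ z) * f z) g =
      ∑ x ∈ win δ R, mass δ (fun z => (1 - χ z) * f z) x * (g x : ℝ) := fun g =>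
    GF.Lat.Xd_eq hδ hR.le (fun z hz => hfR z (right_ne_zero_of_mul hz)) (Finset.Subset.refl _) g
  have xa : ∀ g : V → ℤ, Xd δ f g =
      Xd δ (fun z => χ z * f z) g + Xd δ (fun z => (1 - χ z) * f z) g := by
    intro g
    rw [x0, x1, x2, ← Finset.sum_add_distrib]
    refine Finset.sum_congr rfl fun x _ => ?_
    rw [← add_mul, ← GF.Lat.mass_add δ i1 i2 x]
    congr 2
    funext z
    ring
  set T : Finset V := Is δ y₁ s ∪ (Is δ y₂ s ∪ (S ∪ win δ R)) with hT
  have sT2 : Is δ y₂ s ⊆ T := Finset.subset_union_left.trans Finset.subset_union_right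
  have sTS : S ⊆ T := (Finset.subset_union_left.trans Finset.subset_union_right).trans
    Finset.subset_union_right
  have sTW : win δ R ⊆ T := (Finset.subset_union_right.trans Finset.subset_union_right).trans
    Finset.subset_union_right
  have hPR : PR T (ic A) := bmm_PR hδ hδr.le (by linarith) Finset.subset_union_left fun g g' h =>
    and_congr (bl y₂ T sT2 g g' h) (hEl g g' fun v hv => h v (sTS hv))
  have loc1 : ∀ g g' : V → ℤ, (∀ x ∈ T, g x = g' x) →
      Xd δ (fun z => χ z * f z) g = Xd δ (fun z => χ z * f z) g' := fun g g' h => by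
    rw [x1, x1]
    exact Finset.sum_congr rfl fun x hx => by rw [h x (sTW hx)]
  have loc2 : ∀ g g' : V → ℤ, (∀ x ∈ T, g x = g' x) →
      Xd δ (fun z => (1 - χ z) * f z) g = Xd δ (fun z => (1 - χ z) * f z) g' := fun g g' h => by
    rw [x2, x2]
    exact Finset.sum_congr rfl fun x hx => by rw [h x (sTW hx)]
  have p0 : PR T fun g => ic A g * Xd δ f g ^ (2 * n) := hPR.mul fun g g' h => by
    rw [xa g, xa g', loc1 g g' h, loc2 g g' h]
  have p1 : PR T fun g => ic A g * Xd δ (fun z => χ z * f z) g ^ (2 * n) :=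
    hPR.mul fun g g' h => by rw [loc1 g g' h]
  have p2 : PR T fun g => ic A g * Xd δ (fun z => (1 - χ z) * f z) g ^ (2 * n) :=
    hPR.mul fun g g' h => by rw [loc2 g g' h]
  have p12 : PR T fun g => (2 : ℝ) ^ (2 * n) * (ic A g * Xd δ (fun z => χ z * f z) g ^ (2 * n) +
      ic A g * Xd δ (fun z => (1 - χ z) * f z) g ^ (2 * n)) := by
    have h5 : PR T fun g => ic A g * ((2 : ℝ) ^ (2 * n) * (Xd δ (fun z => χ z * f z) g ^ (2 * n) +
        Xd δ (fun z => (1 - χ z) * f z) g ^ (2 * n))) := hPR.mul fun g g' h => by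
      rw [loc1 g g' h, loc2 g g' h]
    have h6 : (fun g => (2 : ℝ) ^ (2 * n) * (ic A g * Xd δ (fun z => χ z * f z) g ^ (2 * n) +
        ic A g * Xd δ (fun z => (1 - χ z) * f z) g ^ (2 * n))) =
        fun g => ic A g * ((2 : ℝ) ^ (2 * n) * (Xd δ (fun z => χ z * f z) g ^ (2 * n) +
        Xd δ (fun z => (1 - χ z) * f z) g ^ (2 * n))) := by
      funext g
      ring
    rw [h6]
    exact h5
  have p12' : PR T fun g => (ic A g * Xd δ (fun z => χ z * f z) g ^ (2 * n) +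
      ic A g * Xd δ (fun z => (1 - χ z) * f z) g ^ (2 * n)) := by
    have h5 : PR T fun g => ic A g * (Xd δ (fun z => χ z * f z) g ^ (2 * n) +
        Xd δ (fun z => (1 - χ z) * f z) g ^ (2 * n)) := hPR.mul fun g g' h => by
      rw [loc1 g g' h, loc2 g g' h]
    have h6 : (fun g => (ic A g * Xd δ (fun z => χ z * f z) g ^ (2 * n) +
        ic A g * Xd δ (fun z => (1 - χ z) * f z) g ^ (2 * n))) =
        fun g => ic A g * (Xd δ (fun z => χ z * f z) g ^ (2 * n) +
        Xd δ (fun z => (1 - χ z) * f z) g ^ (2 * n)) := by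
      funext g
      ring
    rw [h6]
    exact h5
  have key : ∀ a b : ℝ, (a + b) ^ (2 * n) ≤ 2 ^ (2 * n) * (a ^ (2 * n) + b ^ (2 * n)) := by
    intro a b
    have ev : Even (2 * n) := even_two_mul n
    have k1 : (a + b) ^ (2 * n) ≤ (2 * max |a| |b|) ^ (2 * n) := by
      rw [← ev.pow_abs (a + b)]
      refine pow_le_pow_left₀ (abs_nonneg _) ?_ _
      have := abs_add_le a b
      have := le_max_left |a| |b|
      have := le_max_right |a| |b|
      linarith
    refine k1.trans ?_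
    rw [mul_pow]
    refine mul_le_mul_of_nonneg_left ?_ (by positivity)
    have ha : 0 ≤ a ^ (2 * n) := ev.pow_nonneg a
    have hb : 0 ≤ b ^ (2 * n) := ev.pow_nonneg b
    rcases max_cases |a| |b| with h | h
    · rw [h.1, ev.pow_abs]
      linarith
    · rw [h.1, ev.pow_abs]
      linarith
  have h5 : Mr (fun g => ic A g * Xd δ f g ^ (2 * n)) ≤
      Mr fun g => (2 : ℝ) ^ (2 * n) * (ic A g * Xd δ (fun z => χ z * f z) g ^ (2 * n) +
        ic A g * Xd δ (fun z => (1 - χ z) * f z) g ^ (2 * n)) := by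
    refine Mr_mono hd p0 p12 fun g => ?_
    rw [xa g]
    have k1 := mul_le_mul_of_nonneg_left (key (Xd δ (fun z => χ z * f z) g)
      (Xd δ (fun z => (1 - χ z) * f z) g)) (ic_nonneg A g)
    refine k1.trans (le_of_eq ?_)
    ring
  rw [Mr_smul hd p12', Mr_add hd p1 p2] at h5
  refine h5.trans ?_
  rw [mul_assoc]
  refine mul_le_mul_of_nonneg_left ?_ (by positivity)
  rw [add_mul]
  exact add_le_add h3 h4

end DV
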