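import Pool.Agent.Helper94.BR.Bs

/-!
# Project DV, block BAR (7): the floating measure, real observables

Limits of the finite inequalities of Mk and Pf.
-/

open Finset Filter Topology

namespace DV

open RP4 (V Adj BdryPar Om dom avg mu Loc Deloc dist1 cnt)
open GF (Pl)

lemma al_real {s : Finset V} {F : (V → ℤ) → ℝ}
    (h : ∀ g g' : V → ℤ, (∀ x ∈ s, g x = g' x) → F g = F g') : AL s fun g => (F g : ℂ) :=
  fun g g' hg => by
    show (F g : ℂ) = (F g' : ℂ)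
    rw [h g g' hg]

lemma real_al {s : Finset V} {F : (V → ℤ) → ℝ} (h : AL s fun g => (F g : ℂ)) :
    ∀ g g' : V → ℤ, (∀ x ∈ s, g x = g' x) → F g = F g' :=
  fun g g' hg => by
    have h1 : (F g : ℂ) = (F g' : ℂ) := h g g' hg
    exact_mod_cast h1

lemma ic_congr {E E' : (V → ℤ) → Prop} {g g' : V → ℤ} (h : E g ↔ E' g') : ic E g = ic E' g' := by
  unfold ic
  by_cases h1 : E g
  · rw [if_pos h1, if_pos (h.1 h1)]
  · rw [if_neg h1, if_neg fun h2 => h1 (h.2 h2)]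

lemma PR.loc' {s : Finset V} {F : (V → ℤ) → ℝ} (h : PR s F) :
    ∀ g g' : V → ℤ, (∀ x ∈ s, g x = g' x) → F g = F g' := real_al h.loc

lemma PR.mono {s t : Finset V} {F : (V → ℤ) → ℝ} (h : PR s F) (hst : s ⊆ t) : PR t F := by
  refine ⟨h.loc.mono hst, ?_⟩
  obtain ⟨N, hN⟩ := h.pin
  exact ⟨N, fun g hg => (hN g hg).imp fun x hx => ⟨hst hx.1, hx.2⟩⟩

/-- a product with a local function -/
lemma PR.mul {s : Finset V} {F G : (V → ℤ) → ℝ} (h : PR s F)
    (hG : ∀ g g' : V → ℤ, (∀ x ∈ s, g x = g' x) → G g = G g') : PR s fun g => F g * G g := by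
  refine ⟨al_real fun g g' hg => by rw [h.loc' g g' hg, hG g g' hg], ?_⟩
  obtain ⟨N, hN⟩ := h.pin
  refine ⟨N, fun g hg => hN g fun h0 => hg ?_⟩
  have h1 : F g = 0 := by exact_mod_cast h0
  show ((F g * G g : ℝ) : ℂ) = 0
  rw [h1, zero_mul, Complex.ofReal_zero]

theorem Mr_tendsto (hd : Deloc) {s : Finset V} {F : (V → ℤ) → ℝ} (hF : PR s F) {w : V}
    (hw : Even (RP4.par w)) :
    Tendsto (fun D => (∑ g ∈ Om D, F g) / (cnt D w 0 : ℝ)) dom (𝓝 (Mr F)) := by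
  have h := (Complex.continuous_re.tendsto _).comp (M_om hd hF hw)
  refine h.congr fun D => ?_
  have h1 : ((∑ g ∈ Om D, (F g : ℂ)) / ((cnt D w 0 : ℕ) : ℂ)) =
      (((∑ g ∈ Om D, F g) / (cnt D w 0 : ℝ) : ℝ) : ℂ) := by
    push_cast
    rfl
  show ((∑ g ∈ Om D, (F g : ℂ)) / ((cnt D w 0 : ℕ) : ℂ)).re = _
  rw [h1, Complex.ofReal_re]

/-- inequalities between sums over `Om D` pass to the floating measure -/
theorem Mr_le_of (hd : Deloc) {s t : Finset V} {F G : (V → ℤ) → ℝ} (hF : PR s F) (hG : PR t G)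
    {c d : ℝ} (h : ∀ᶠ D in dom, c * ∑ g ∈ Om D, F g ≤ d * ∑ g ∈ Om D, G g) :
    c * Mr F ≤ d * Mr G := by
  have := RP4.dom_neBot
  have hw : Even (RP4.par ((0, 0) : V)) := by simp [RP4.par]
  refine le_of_tendsto_of_tendsto ((Mr_tendsto hd hF hw).const_mul c)
    ((Mr_tendsto hd hG hw).const_mul d) ?_
  filter_upwards [h] with D hD
  rw [← mul_div_assoc, ← mul_div_assoc]
  exact div_le_div_of_nonneg_right hD (Nat.cast_nonneg _)

theorem Mr_mul_le_of (hd : Deloc) {s : Finset V} {F G F' G' : (V → ℤ) → ℝ} (hF : PR s F)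
    (hG : PR s G) (hF' : PR s F') (hG' : PR s G')
    (h : ∀ᶠ D in dom, (∑ g ∈ Om D, F g) * (∑ g ∈ Om D, G g) ≤
      (∑ g ∈ Om D, F' g) * ∑ g ∈ Om D, G' g) : Mr F * Mr G ≤ Mr F' * Mr G' := by
  have := RP4.dom_neBot
  have hw : Even (RP4.par ((0, 0) : V)) := by simp [RP4.par]
  refine le_of_tendsto_of_tendsto ((Mr_tendsto hd hF hw).mul (Mr_tendsto hd hG hw))
    ((Mr_tendsto hd hF' hw).mul (Mr_tendsto hd hG' hw)) ?_
  filter_upwards [h] with D hD
  rw [div_mul_div_comm, div_mul_div_comm]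
  exact div_le_div_of_nonneg_right hD (by positivity)

theorem Mr_mono (hd : Deloc) {s t : Finset V} {F G : (V → ℤ) → ℝ} (hF : PR s F) (hG : PR t G)
    (h : ∀ g, F g ≤ G g) : Mr F ≤ Mr G := by
  have h1 := Mr_le_of hd hF hG (c := 1) (d := 1) (Eventually.of_forall fun D => by
    rw [one_mul, one_mul]
    exact Finset.sum_le_sum fun g _ => h g)
  linarith

theorem Mr_nonneg (hd : Deloc) {s : Finset V} {F : (V → ℤ) → ℝ} (hF : PR s F)
    (h : ∀ g, 0 ≤ F g) : 0 ≤ Mr F := by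
  have h1 := Mr_le_of hd hF hF (c := 0) (d := 1) (Eventually.of_forall fun D => by
    rw [zero_mul, one_mul]
    exact Finset.sum_nonneg fun g _ => h g)
  linarith

theorem Mr_add (hd : Deloc) {s : Finset V} {F G : (V → ℤ) → ℝ} (hF : PR s F) (hG : PR s G) :
    Mr (fun g => F g + G g) = Mr F + Mr G := by
  unfold Mr
  have h := M_add hd hF hG
  rw [← Complex.add_re, ← h]
  congr 2
  funext g
  push_cast
  rfl

theorem Mr_smul (hd : Deloc) {s : Finset V} {F : (V → ℤ) → ℝ} (hF : PR s F) (c : ℝ) :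
    Mr (fun g => c * F g) = c * Mr F := by
  unfold Mr
  have h := M_smul hd hF (c : ℂ)
  have h2 : (c * (M fun g => (F g : ℂ)).re) = ((c : ℂ) * M fun g => (F g : ℂ)).re := by
    rw [Complex.re_ofReal_mul]
  rw [h2, ← h]
  congr 2
  funext g
  push_cast
  rfl

lemma ic_nonneg (E : (V → ℤ) → Prop) (g : V → ℤ) : 0 ≤ ic E g := by
  unfold ic
  split_ifs <;> norm_num

lemma ic_le_one (E : (V → ℤ) → Prop) (g : V → ℤ) : ic E g ≤ 1 := by
  unfold ic
  split_ifs <;> norm_num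

/-- a path of nonzero sites that reaches `nb B` does so off `B` -/
lemma con_first {Q B : Set V} {u v : V} (h : Con Q u v) (hu : u ∉ B) (hv : v ∈ nb B) :
    ∃ v' ∈ nb B, v' ∉ B ∧ Con (Q ∩ Bᶜ) u v' := by
  by_cases hun : u ∈ nb B
  · exact ⟨u, hun, hu, Jn.refl ⟨h.left, hu⟩⟩
  · obtain ⟨a, b, h1, hab, haQ, ha, hbQ, hb⟩ := h.exit (A := (nb B)ᶜ) hun fun h => h hv
    have hb' : b ∈ nb B := not_not.1 hb
    have hbB : b ∉ B := fun h => ha (Or.inr ⟨b, h, adj_symm hab⟩)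
    have h2 : Con (Q ∩ Bᶜ) u a := h1.mono (fun _ _ h => h) fun w hw =>
      ⟨hw.1, fun h => hw.2 (sub_nb _ h)⟩
    exact ⟨b, hb', hbB, h2.step hab ⟨hbQ, hbB⟩⟩

lemma sep_off {A B : Set V} {g : V → ℤ} (hAB : Disjoint (nb A) B) :
    Sep A B g ↔ ∀ u ∈ nb A, ∀ v ∈ nb B, v ∉ B → ¬ Con (nz g ∩ Bᶜ) u v := by
  constructor
  · intro h u hu v hv _ hc
    exact h u hu v hv (hc.mono (fun _ _ h => h) Set.inter_subset_left)
  · intro h u hu v hv hc
    obtain ⟨v', hv', hvB, hc'⟩ := con_first hc (Set.disjoint_left.1 hAB hu) hv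
    exact h u hu v' hv' hvB hc'

/-- the event `Sep A B` is local -/
lemma sep_loc {A B : Set V} (hAB : Disjoint (nb A) B) {g g' : V → ℤ} (h : ∀ v, v ∉ B → g v = g' v) :
    Sep A B g ↔ Sep A B g' := by
  have h1 : nz g ∩ Bᶜ = nz g' ∩ Bᶜ := by
    ext v
    constructor
    · rintro ⟨h2, h3⟩
      refine ⟨?_, h3⟩
      show g' v ≠ 0
      rw [← h v h3]
      exact h2
    · rintro ⟨h2, h3⟩
      refine ⟨?_, h3⟩
      show g v ≠ 0
      rw [h v h3]
      exact h2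
  rw [sep_off hAB, sep_off hAB, h1]

/-- a finite nonempty set has a site off it adjacent to it -/
lemma exists_nb {R : Set V} (hR : R.Finite) (hne : R.Nonempty) : ∃ u ∈ R, ∃ v, v ∉ R ∧ Adj u v := by
  obtain ⟨u, hu, hmax⟩ := hR.exists_maximalFor (fun v : V => v.1) R hne
  refine ⟨u, hu, (u.1 + 1, u.2), fun h => ?_, by simp [Adj]⟩
  have h1 := hmax h (by show u.1 ≤ u.1 + 1; omega)
  have h2 : u.1 + 1 ≤ u.1 := h1
  omega

/-- on `Sep A B` some height off `B` is zero -/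
lemma sep_pin {A B : Set V} (hA : A.Nonempty) (hAB : Disjoint A (nb B)) (hB : Bᶜ.Finite) {g : V → ℤ}
    (h : Sep A B g) : ∃ v, v ∉ B ∧ g v = 0 := by
  have h1 := (sep_iff hAB).1 h
  rw [Set.disjoint_left] at h1
  have hfin : (rv A g).Finite := hB.subset fun v hv hvB => h1 hv (sub_nb _ hvB)
  obtain ⟨u, hu, v, hv, huv⟩ := exists_nb hfin (hA.mono (sub_rv A g))
  exact ⟨v, fun hvB => h1 hu (Or.inr ⟨v, hvB, adj_symm huv⟩), rv_zero hu huv hv⟩

/-- `Sep A B` times a local function is a pinned observable -/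
lemma PR_sep {A B : Set V} (hA : A.Nonempty) (hAB : Disjoint A (nb B)) {s : Finset V}
    (hB : Bᶜ ⊆ (s : Set V)) {F : (V → ℤ) → ℝ}
    (hF : ∀ g g' : V → ℤ, (∀ x ∈ s, g x = g' x) → F g = F g') :
    PR s fun g => ic (Sep A B) g * F g := by
  have hAB' : Disjoint (nb A) B := by
    rw [Set.disjoint_left] at hAB ⊢
    intro v hv hvB
    rcases hv with hv | ⟨u, hu, huv⟩
    · exact hAB hv (sub_nb _ hvB)
    · exact hAB hu (Or.inr ⟨v, hvB, adj_symm huv⟩)
  have hloc : ∀ g g' : V → ℤ, (∀ x ∈ s, g x = g' x) → ic (Sep A B) g = ic (Sep A B) g' := by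
    intro g g' h
    exact ic_congr (sep_loc hAB' fun v hv => h v (Finset.mem_coe.1 (hB hv)))
  refine ⟨al_real fun g g' h => by rw [hloc g g' h, hF g g' h], 0, fun g hg => ?_⟩
  have h1 : Sep A B g := by
    by_contra h2
    apply hg
    have h3 : ic (Sep A B) g = 0 := if_neg h2
    show ((ic (Sep A B) g * F g : ℝ) : ℂ) = 0
    rw [h3, zero_mul, Complex.ofReal_zero]
  obtain ⟨v, hv, h0⟩ := sep_pin hA hAB (s.finite_toSet.subset hB) h1
  exact ⟨v, Finset.mem_coe.1 (hB hv), by rw [h0, abs_zero]⟩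

lemma PR_sep' {A B : Set V} (hA : A.Nonempty) (hAB : Disjoint A (nb B)) {s : Finset V}
    (hB : Bᶜ ⊆ (s : Set V)) : PR s (ic (Sep A B)) := by
  have h := PR_sep hA hAB hB (F := fun _ => 1) fun _ _ _ => rfl
  simpa only [mul_one] using h

lemma disj_nb {A B : Set V} : Disjoint A (nb B) ↔ Disjoint (nb A) B := by
  rw [Set.disjoint_left, Set.disjoint_left]
  constructor
  · intro h v hv hvB
    rcases hv with hv | ⟨u, hu, huv⟩
    · exact h hv (sub_nb _ hvB)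
    · exact h hu (Or.inr ⟨v, hvB, adj_symm huv⟩)
  · intro h v hv hvB
    rcases hvB with hvB | ⟨u, hu, huv⟩
    · exact h (sub_nb _ hv) hvB
    · exact h (Or.inr ⟨v, hv, adj_symm huv⟩) hu

/-- Markov property from outside, upper bound -/
theorem out_sep_le {D : Finset V} {A B : Set V} (hAB : Disjoint A (nb B)) (hB : Bᶜ ⊆ (D : Set V))
    {F : (V → ℤ) → ℝ} (hF : ∀ g g' : V → ℤ, (∀ v ∈ nb A, g v = g' v) → F g = F g') {c : ℝ}
    (h : ∀ U : Finset V, BdryPar U 0 → nb A ⊆ (U : Set V) → (U : Set V) ⊆ Bᶜ → avg (Om U) F ≤ c) :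
    ∑ g ∈ Om D, ic (Sep A B) g * F g ≤ c * ∑ g ∈ Om D, ic (Sep A B) g := by
  classical
  have h1 := out_markov (locH_Om D) hB hF h
  have h2 : ∀ g : V → ℤ, Sep A B g ↔ Disjoint (nb A) (rv B g) := fun g => by
    have h3 : Disjoint B (nb A) := (disj_nb.1 hAB).symm
    rw [disjoint_comm, ← sep_iff h3]
    exact ⟨Sep.symm, Sep.symm⟩
  have e1 : ∑ g ∈ Om D, ic (Sep A B) g * F g =
      ∑ g ∈ Om D, (if Disjoint (nb A) (rv B g) then F g else 0) := by
    refine Finset.sum_congr rfl fun g _ => ?_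
    unfold ic
    simp only [h2 g]
    split_ifs <;> simp
  have e2 : ∑ g ∈ Om D, ic (Sep A B) g =
      ∑ g ∈ Om D, (if Disjoint (nb A) (rv B g) then (1 : ℝ) else 0) := by
    refine Finset.sum_congr rfl fun g _ => ?_
    unfold ic
    simp only [h2 g]
  rw [e1, e2]
  exact h1

/-- Markov property from outside, lower bound -/
theorem out_sep_ge {D : Finset V} {A B : Set V} (hAB : Disjoint A (nb B)) (hB : Bᶜ ⊆ (D : Set V))
    {F : (V → ℤ) → ℝ} (hF : ∀ g g' : V → ℤ, (∀ v ∈ nb A, g v = g' v) → F g = F g') {c : ℝ}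
    (h : ∀ U : Finset V, BdryPar U 0 → nb A ⊆ (U : Set V) → (U : Set V) ⊆ Bᶜ → c ≤ avg (Om U) F) :
    c * ∑ g ∈ Om D, ic (Sep A B) g ≤ ∑ g ∈ Om D, ic (Sep A B) g * F g := by
  have h1 := out_sep_le hAB hB (F := fun g => -F g) (fun g g' hg => by rw [hF g g' hg]) (c := -c)
    fun U hU h2 h3 => by
      have h4 := h U hU h2 h3
      have h5 : avg (Om U) (fun g => -F g) = -avg (Om U) F := by
        unfold avg
        rw [Finset.sum_neg_distrib, neg_div]
      rw [h5]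
      linarith
  have h2 : ∑ g ∈ Om D, ic (Sep A B) g * -F g = -∑ g ∈ Om D, ic (Sep A B) g * F g := by
    rw [← Finset.sum_neg_distrib]
    exact Finset.sum_congr rfl fun g _ => by ring
  rw [h2] at h1
  linarith

/-- a finite set is contained in all large domains -/
lemma dom_sub {s : Finset V} {B : Set V} (hB : Bᶜ ⊆ (s : Set V)) :
    ∀ᶠ D in dom, Bᶜ ⊆ ((D : Finset V) : Set V) ∧ BdryPar D 0 := by
  rw [RP4.eventually_dom]
  exact ⟨s, fun D hD hp => ⟨hB.trans (Finset.coe_subset.2 hD), hp⟩⟩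

/-- Markov property from outside for the floating measure -/
theorem M_out_le (hd : Deloc) {A B : Set V} (hA : A.Nonempty) (hAB : Disjoint A (nb B))
    {s : Finset V} (hB : Bᶜ ⊆ (s : Set V)) {F : (V → ℤ) → ℝ}
    (hF : ∀ g g' : V → ℤ, (∀ v ∈ nb A, g v = g' v) → F g = F g') {c : ℝ}
    (h : ∀ U : Finset V, BdryPar U 0 → nb A ⊆ (U : Set V) → (U : Set V) ⊆ Bᶜ → avg (Om U) F ≤ c) :
    Mr (fun g => ic (Sep A B) g * F g) ≤ c * Mp (Sep A B) := by
  have hnA : ∀ v ∈ nb A, v ∈ s := fun v hv =>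
    Finset.mem_coe.1 (hB fun hvB => Set.disjoint_left.1 (disj_nb.1 hAB) hv hvB)
  have h1 := Mr_le_of hd (PR_sep hA hAB hB fun g g' hg => hF g g' fun v hv => hg v (hnA v hv))
    (PR_sep' hA hAB hB) (c := 1) (d := c) (by
      filter_upwards [dom_sub hB] with D hD
      rw [one_mul]
      exact out_sep_le hAB hD.1 hF h)
  rwa [one_mul] at h1

theorem M_out_ge (hd : Deloc) {A B : Set V} (hA : A.Nonempty) (hAB : Disjoint A (nb B))
    {s : Finset V} (hB : Bᶜ ⊆ (s : Set V)) {F : (V → ℤ) → ℝ}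
    (hF : ∀ g g' : V → ℤ, (∀ v ∈ nb A, g v = g' v) → F g = F g') {c : ℝ}
    (h : ∀ U : Finset V, BdryPar U 0 → nb A ⊆ (U : Set V) → (U : Set V) ⊆ Bᶜ → c ≤ avg (Om U) F) :
    c * Mp (Sep A B) ≤ Mr (fun g => ic (Sep A B) g * F g) := by
  have hnA : ∀ v ∈ nb A, v ∈ s := fun v hv =>
    Finset.mem_coe.1 (hB fun hvB => Set.disjoint_left.1 (disj_nb.1 hAB) hv hvB)
  have h1 := Mr_le_of hd (PR_sep' hA hAB hB)
    (PR_sep hA hAB hB fun g g' hg => hF g g' fun v hv => hg v (hnA v hv)) (c := c) (d := 1) (by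
      filter_upwards [dom_sub hB] with D hD
      rw [one_mul]
      exact out_sep_ge hAB hD.1 hF h)
  rwa [one_mul] at h1

/-- **PIN** for the floating measure -/
theorem M_pin (hd : Deloc) {X X' Y : Set V} (hX' : X'.Nonempty) (hXY : Disjoint X (nb Y))
    (hXX : Disjoint X' (nb Xᶜ)) {s : Finset V} (hY : Yᶜ ⊆ (s : Set V)) {G : (V → ℤ) → ℝ}
    (hG : IncF G) (hGl : ∀ g g' : V → ℤ, (∀ v ∈ Y, v ∈ s → g v = g' v) → G g = G g')
    {E : (V → ℤ) → Prop} (hE : Dec E)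
    (hEl : ∀ g g' : V → ℤ, (∀ v ∈ Y, v ∈ s → g v = g' v) → (E g ↔ E g')) :
    Mr (fun g => ic (Sep X Y) g * (ic E g * G g)) * Mp (Sep X' Xᶜ) ≤
      Mr (fun g => ic (Sep X Y) g * ic E g) * Mr (fun g => ic (Sep X' Xᶜ) g * G g) := by
  have hYX : ∀ v ∈ Y, v ∉ X := fun v hv hvX => Set.disjoint_left.1 hXY hvX (sub_nb _ hv)
  have hXs : Xᶜᶜ ⊆ (s : Set V) := by
    rw [compl_compl]
    exact fun v hv => hY fun h => hYX v h hv
  have hXn : X.Nonempty := by
    obtain ⟨v, hv⟩ := hX'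
    refine ⟨v, ?_⟩
    by_contra h
    exact Set.disjoint_left.1 hXX hv (sub_nb _ h)
  have lG : ∀ g g' : V → ℤ, (∀ x ∈ s, g x = g' x) → G g = G g' := fun g g' h =>
    hGl g g' fun v _ hv => h v hv
  have lE : ∀ g g' : V → ℤ, (∀ x ∈ s, g x = g' x) → ic E g = ic E g' := fun g g' h => by
    exact ic_congr (hEl g g' fun v _ hv => h v hv)
  refine Mr_mul_le_of hd (PR_sep hXn hXY hY fun g g' h => by rw [lE g g' h, lG g g' h])
    (PR_sep' hX' hXX hXs) (PR_sep hXn hXY hY lE) (PR_sep hX' hXX hXs lG) ?_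
  filter_upwards [dom_sub hY] with D hD
  classical
  have h1 := pin_fkg hD.2 hXY hXX hD.1 hG (fun g g' h => hGl g g' fun v hv _ => h v hv) hE
    fun g g' h => hEl g g' fun v hv _ => h v hv
  have e1 : ∑ g ∈ Om D, ic (Sep X Y) g * (ic E g * G g) =
      ∑ g ∈ Om D, (if Sep X Y g ∧ E g then G g else 0) := by
    refine Finset.sum_congr rfl fun g _ => ?_
    unfold ic
    by_cases h1 : Sep X Y g <;> by_cases h2 : E g <;> simp [h1, h2]
  have e2 : ∑ g ∈ Om D, ic (Sep X' Xᶜ) g = ∑ g ∈ Om D, (if Sep X' Xᶜ g then (1 : ℝ) else 0) :=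
    Finset.sum_congr rfl fun g _ => rfl
  have e3 : ∑ g ∈ Om D, ic (Sep X Y) g * ic E g =
      ∑ g ∈ Om D, (if Sep X Y g ∧ E g then (1 : ℝ) else 0) := by
    refine Finset.sum_congr rfl fun g _ => ?_
    unfold ic
    by_cases h1 : Sep X Y g <;> by_cases h2 : E g <;> simp [h1, h2]
  have e4 : ∑ g ∈ Om D, ic (Sep X' Xᶜ) g * G g =
      ∑ g ∈ Om D, (if Sep X' Xᶜ g then G g else 0) := by
    refine Finset.sum_congr rfl fun g _ => ?_
    unfold ic
    by_cases h1 : Sep X' Xᶜ g <;> simp [h1]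
  rw [e1, e2, e3, e4]
  exact h1

end DV
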