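import Pool.Agent.Helper94.BR.Ct

/-!
# Project DV, block BAR (7): blocks in macroscopic coordinates
-/

open Finset Filter Topology

namespace DV

open RP4 (V Adj BdryPar Om dom avg mu Loc Deloc dist1 cnt)
open GF (Pl)

lemma adj_dist {δ : ℝ} (hδ : 0 < δ) {u v : V} (h : Adj u v) (z : Pl) :
    dist (pt δ v) z ≤ dist (pt δ u) z + δ := by
  have h1 := pt_dist (δ := δ) h
  rw [abs_of_pos hδ] at h1
  have h2 := dist_triangle (pt δ v) (pt δ u) z
  rw [dist_comm (pt δ v) (pt δ u)] at h2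
  linarith

lemma nb_Inn {δ : ℝ} (hδ : 0 < δ) {z : Pl} {r : ℝ} {v : V} (hv : v ∈ nb (Inn δ z r)) :
    dist (pt δ v) z ≤ r + δ := by
  rcases hv with hv | ⟨u, hu, huv⟩
  · have h1 : dist (pt δ v) z ≤ r := hv
    linarith
  · have h1 : dist (pt δ u) z ≤ r := hu
    have h2 := adj_dist hδ huv z
    linarith

lemma nb_Out {δ : ℝ} (hδ : 0 < δ) {z : Pl} {s : ℝ} {v : V} (hv : v ∈ nb (Out δ z s)) :
    s - δ ≤ dist (pt δ v) z := by
  rcases hv with hv | ⟨u, hu, huv⟩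
  · have h1 : s ≤ dist (pt δ v) z := hv
    linarith
  · have h1 : s ≤ dist (pt δ u) z := hu
    have h2 := adj_dist hδ (adj_symm huv) z
    linarith

lemma disj_Inn_Out {δ : ℝ} (hδ : 0 < δ) {z : Pl} {r s : ℝ} (h : r + δ < s) :
    Disjoint (Inn δ z r) (nb (Out δ z s)) := by
  rw [Set.disjoint_left]
  intro v hv hv'
  have h1 : dist (pt δ v) z ≤ r := hv
  have h2 := nb_Out hδ hv'
  linarith

lemma compl_Out_sub {δ : ℝ} (hδ : 0 < δ) (z : Pl) (s : ℝ) : (Out δ z s)ᶜ ⊆ (Is δ z s : Set V) := by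
  intro v hv
  have h1 : ¬ s ≤ dist (pt δ v) z := hv
  rw [Finset.mem_coe, mem_Is hδ]
  exact (not_le.1 h1).le

lemma Inn_nonempty {δ : ℝ} (hδ : 0 < δ) (z : Pl) {r : ℝ} (hr : δ ≤ r) : (Inn δ z r).Nonempty := by
  refine ⟨(⌊z.1 / δ⌋, ⌊z.2 / δ⌋), ?_⟩
  show dist (pt δ _) z ≤ r
  refine le_trans ?_ hr
  rw [Prod.dist_eq, max_le_iff, Real.dist_eq, Real.dist_eq, abs_le, abs_le]
  unfold pt
  have key : ∀ c : ℝ, -δ ≤ δ * (⌊c / δ⌋ : ℝ) - c ∧ δ * (⌊c / δ⌋ : ℝ) - c ≤ δ := by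
    intro c
    have h1 := Int.floor_le (c / δ)
    have h2 := Int.lt_floor_add_one (c / δ)
    have h3 : δ * (c / δ) = c := mul_div_cancel₀ c hδ.ne'
    constructor
    · nlinarith
    · nlinarith
  exact ⟨key z.1, key z.2⟩

lemma bk_dec (δ : ℝ) (z : Pl) (r s : ℝ) : Dec (Bk 0 δ z r s) := by
  have h : Bk 0 δ z r s = Sep (Inn δ z r) (Out δ z s) := by
    funext g
    unfold Bk
    rw [lev_zero]
  rw [h]
  exact dec_sep _ _

/-- block events are local -/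
lemma bk_loc {k : ℤ} {δ : ℝ} (hδ : 0 < δ) {z : Pl} {r s : ℝ} (h : r + δ < s) {g g' : V → ℤ}
    (hg : ∀ v, dist (pt δ v) z < s → g v = g' v) : Bk k δ z r s g ↔ Bk k δ z r s g' := by
  refine sep_loc (disj_nb.1 (disj_Inn_Out hδ h)) fun v hv => ?_
  have h1 : ¬ s ≤ dist (pt δ v) z := hv
  unfold lev
  rw [hg v (not_le.1 h1)]

lemma bk_mono {k : ℤ} {δ : ℝ} {z : Pl} {r s r' s' : ℝ} (hr : r' ≤ r) (hs : s ≤ s') {g : V → ℤ}
    (h : Bk k δ z r s g) : Bk k δ z r' s' g := by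
  refine Sep.mono h (fun v hv => ?_) fun v hv => ?_
  · exact le_trans (show dist (pt δ v) z ≤ r' from hv) hr
  · exact hs.trans (show s' ≤ dist (pt δ v) z from hv)

private lemma Bl_bk_zero (δ : ℝ) (z : Pl) (r s : ℝ) : Bk 0 δ z r s = Sep (Inn δ z r) (Out δ z s) := by
  funext g
  unfold Bk
  rw [lev_zero]

private lemma Bl_Inn_sub {δ : ℝ} {z y : Pl} {r r' : ℝ} (h : dist y z + r' ≤ r) :
    Inn δ y r' ⊆ Inn δ z r := by
  intro v hv
  have h1 : dist (pt δ v) y ≤ r' := hv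
  show dist (pt δ v) z ≤ r
  have h2 := dist_triangle (pt δ v) y z
  linarith

private lemma Bl_Is_sub {δ : ℝ} (hδ : 0 < δ) {z y : Pl} {r r' : ℝ} (h : dist y z + r' ≤ r) :
    Is δ y r' ⊆ Is δ z r := by
  rw [← Finset.coe_subset, coe_Is hδ, coe_Is hδ]
  exact Bl_Inn_sub h

private lemma Bl_av_congr {δ : ℝ} {y : Pl} {r' : ℝ} {g g' : V → ℤ} (h : ∀ v ∈ Is δ y r', g v = g' v) :
    Av δ y r' g = Av δ y r' g' := by
  unfold Av
  rw [Finset.sum_congr rfl fun v hv => by rw [h v hv]]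

private lemma Bl_tl {δ : ℝ} {y : Pl} {r' T : ℝ} {s : Finset V} (hs : Is δ y r' ⊆ s) (g g' : V → ℤ)
    (h : ∀ x ∈ s, g x = g' x) :
    ic (fun g : V → ℤ => T ≤ |Av δ y r' g|) g = ic (fun g : V → ℤ => T ≤ |Av δ y r' g|) g' := by
  refine ic_congr ?_
  rw [Bl_av_congr fun v hv => h v (hs hv)]

private lemma Bl_card_pos {δ : ℝ} (hδ : 0 < δ) (z : Pl) {r : ℝ} (hr : δ ≤ r) :
    0 < ((Is δ z r).card : ℝ) := by
  have h1 : (Is δ z r).Nonempty := by
    rw [← Finset.coe_nonempty, coe_Is hδ]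
    exact Inn_nonempty hδ z hr
  exact_mod_cast h1.card_pos

private lemma Bl_ev {r s : ℝ} (hr : 0 < r) (hrs : r < s) :
    ∀ᶠ δ in 𝓝[>] (0 : ℝ), 0 < δ ∧ δ ≤ r ∧ r + δ < s := by
  have h1 : 0 < min r ((s - r) / 2) := lt_min hr (by linarith)
  filter_upwards [Ioc_mem_nhdsGT h1] with δ hδ
  have h2 := hδ.2.trans (min_le_left _ _)
  have h3 := hδ.2.trans (min_le_right _ _)
  exact ⟨hδ.1, h2, by linarith⟩

/-- a block times a local function is a pinned observable -/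
private lemma Bl_PR {δ : ℝ} (hδ : 0 < δ) {z : Pl} {r s : ℝ} (hr : δ ≤ r) (hrs : r + δ < s)
    {F : (V → ℤ) → ℝ} (hF : ∀ g g' : V → ℤ, (∀ x ∈ Is δ z s, g x = g' x) → F g = F g') :
    PR (Is δ z s) fun g => ic (Bk 0 δ z r s) g * F g := by
  rw [Bl_bk_zero]
  exact PR_sep (Inn_nonempty hδ z hr) (disj_Inn_Out hδ hrs) (compl_Out_sub hδ z s) hF

/-- Chebyshev inequality on a block -/
private lemma Bl_cheb (hd : Deloc) (z y : Pl) {r s r' : ℝ} (hr : 0 < r) (hrs : r < s) (hr' : 0 < r')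
    (hyz : dist y z + r' ≤ r) : ∃ C > 0, ∀ᶠ δ in 𝓝[>] (0 : ℝ), ∀ T > 0,
      Mr (fun g => ic (Bk 0 δ z r s) g * ic (fun g => T ≤ |Av δ y r' g|) g) ≤
        C / T ^ 2 * Mp (Bk 0 δ z r s) := by
  have hL : 0 < dist z 0 + s := by
    have := dist_nonneg (x := z) (y := 0)
    linarith
  obtain ⟨C, hC, hev⟩ := var_av hL hr'
  refine ⟨C, hC, ?_⟩
  filter_upwards [hev, Bl_ev hr hrs] with δ hv hδ T hT
  obtain ⟨hδ0, hδr, hδs⟩ := hδ
  rw [Bl_bk_zero]
  refine M_out_le hd (Inn_nonempty hδ0 z hδr) (disj_Inn_Out hδ0 hδs) (compl_Out_sub hδ0 z s)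
    (fun g g' h => ic_congr ?_) fun U hU h1 h2 => ?_
  · rw [Bl_av_congr fun v hv => h v (sub_nb _ (Bl_Inn_sub hyz (by
      rw [← coe_Is hδ0]
      exact hv)))]
  · have h3 : Inn δ y r' ⊆ (U : Set V) := (Bl_Inn_sub hyz).trans ((sub_nb _).trans h1)
    have h4 : (U : Set V) ⊆ Inn δ 0 (dist z 0 + s) := by
      intro v hv
      have h5 : ¬ s ≤ dist (pt δ v) z := h2 hv
      show dist (pt δ v) 0 ≤ dist z 0 + s
      have h6 := dist_triangle (pt δ v) z 0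
      linarith [not_le.1 h5]
    have h5 := hv y U hU h3 h4
    have h6 : avg (Om U) (ic fun g => T ≤ |Av δ y r' g|) ≤
        avg (Om U) (fun h => 1 / T ^ 2 * Av δ y r' h ^ 2) := by
      refine avg_mono fun g _ => ?_
      unfold ic
      split_ifs with h7
      · have h8 : T ^ 2 ≤ Av δ y r' g ^ 2 := by
          rw [← sq_abs (Av δ y r' g)]
          exact pow_le_pow_left₀ hT.le h7 2
        rw [one_div, ← div_eq_inv_mul, le_div_iff₀ (by positivity), one_mul]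
        exact h8
      · positivity
    rw [RP4.avg_const_mul] at h6
    refine h6.trans ?_
    rw [div_mul_eq_mul_div, one_mul]
    exact div_le_div_of_nonneg_right h5 (by positivity)

private lemma Bl_PR_lev {s : Finset V} {F : (V → ℤ) → ℝ} (hF : PR s F) (k : ℤ) :
    PR s fun g => F (lev k g) := by
  refine ⟨al_real fun g g' h => hF.loc' _ _ fun x hx => ?_, ?_⟩
  · unfold lev
    rw [h x hx]
  · obtain ⟨N, hN⟩ := hF.pin
    refine ⟨N + |2 * k|, fun g hg => ?_⟩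
    obtain ⟨x, hx, h1⟩ := hN (lev k g) hg
    refine ⟨x, hx, ?_⟩
    unfold lev at h1
    have h2 := abs_add_le (g x - 2 * k) (2 * k)
    rw [sub_add_cancel] at h2
    linarith

private lemma Bl_av_lev {δ : ℝ} (hδ : 0 < δ) {y : Pl} {r' : ℝ} (hr : δ ≤ r') (k : ℤ) (g : V → ℤ) :
    Av δ y r' (lev k g) = Av δ y r' g - 2 * k := by
  have h1 := Bl_card_pos hδ y hr
  unfold Av lev
  have h2 : ∑ v ∈ Is δ y r', ((g v - 2 * k : ℤ) : ℝ) =
      ∑ v ∈ Is δ y r', (g v : ℝ) - (Is δ y r').card * (2 * k) := by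
    push_cast
    rw [Finset.sum_sub_distrib, Finset.sum_const, nsmul_eq_mul]
  rw [h2, sub_div, mul_div_cancel_left₀ _ h1.ne']

private lemma Bl_Pn_add {s : Finset V} {F G : (V → ℤ) → ℝ} (hF : PR s F) (hG : PR s G) :
    PR s fun g => F g + G g := by
  refine ⟨al_real fun g g' h => by rw [hF.loc' g g' h, hG.loc' g g' h], ?_⟩
  obtain ⟨N, hN⟩ := hF.pin
  obtain ⟨N', hN'⟩ := hG.pin
  refine ⟨max N N', fun g hg => ?_⟩
  by_cases h1 : ((F g : ℝ) : ℂ) = 0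
  · have h2 : ((G g : ℝ) : ℂ) ≠ 0 := by
      intro h2
      apply hg
      show ((F g + G g : ℝ) : ℂ) = 0
      rw [Complex.ofReal_add, h1, h2, add_zero]
    obtain ⟨x, hx, h3⟩ := hN' g h2
    exact ⟨x, hx, h3.trans (le_max_right _ _)⟩
  · obtain ⟨x, hx, h3⟩ := hN g h1
    exact ⟨x, hx, h3.trans (le_max_left _ _)⟩

/-- UPPER BOUND of the mass of a block: `M(Block) ≤ M(|Av| ≤ T) + M(Block, |Av| > T) ≤ (T + 1) + (V / T ^ 2) M(Block)` with
`T ^ 2 = 2 V`: `Mr_count` with `G = True`, `M_out_le` with `F = ic (T < |Av|) ≤ Av ^ 2 / T ^ 2`, `var_av` in the domains `U` between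
the two balls (`Inn δ z r ⊆ nb .. ⊆ U ⊆ Inn δ 0 (dist z 0 + s)`), `Mr_mono_GH`. -/
theorem bk_upper (hd : Deloc) (z : Pl) {r s : ℝ} (hr : 0 < r) (hrs : r < s) :
    ∃ C > 0, ∀ᶠ δ in 𝓝[>] (0 : ℝ), Mp (Bk 0 δ z r s) ≤ C := by
  obtain ⟨C, hC, hev⟩ := Bl_cheb hd z z hr hrs hr (by rw [dist_self, zero_add])
  have hT : 0 < Real.sqrt (2 * C) := Real.sqrt_pos.2 (by linarith)
  have hT2 : Real.sqrt (2 * C) ^ 2 = 2 * C := Real.sq_sqrt (by linarith)
  set T : ℝ := Real.sqrt (2 * C) with hTdef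
  refine ⟨2 * (T + 1), by linarith, ?_⟩
  filter_upwards [hev, Bl_ev hr hrs] with δ hv hδ
  obtain ⟨hδ0, hδr, hδs⟩ := hδ
  have hcard := Bl_card_pos hδ0 z hδr
  have hsub : Is δ z r ⊆ Is δ z s := Bl_Is_sub hδ0 (by
    rw [dist_self, zero_add]
    exact hrs.le)
  have h1 := hv T hT
  rw [hT2] at h1
  have hhalf : C / (2 * C) = 1 / 2 := by
    field_simp
  rw [hhalf] at h1
  obtain ⟨hP, hcnt⟩ := Mr_count hd hsub (w := fun _ => 1 / ((Is δ z r).card : ℝ))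
    (fun v _ => by positivity) (by
      rw [Finset.sum_const, nsmul_eq_mul, mul_one_div_cancel hcard.ne']) hT.le
    (G := fun _ => True) (fun _ _ _ => Iff.rfl) fun _ _ => Iff.rfl
  have hmu : (muP fun g => (ic (fun _ : V → ℤ => True) g : ℂ)).re = 1 := by
    have h2 : (fun g : V → ℤ => (ic (fun _ : V → ℤ => True) g : ℂ)) = fun _ => 1 := by
      funext g
      unfold ic
      rw [if_pos trivial]
      norm_num
    rw [h2, muP_const, Complex.one_re]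
  rw [hmu, mul_one] at hcnt
  have hPR2 : PR (Is δ z s) fun g => ic (Bk 0 δ z r s) g * ic (fun g => T ≤ |Av δ z r g|) g :=
    Bl_PR hδ0 hδr hδs (Bl_tl hsub)
  have hPR1 : PR (Is δ z s) (ic (Bk 0 δ z r s)) := by
    rw [Bl_bk_zero]
    exact PR_sep' (Inn_nonempty hδ0 z hδr) (disj_Inn_Out hδ0 hδs) (compl_Out_sub hδ0 z s)
  have key : Mp (Bk 0 δ z r s) ≤ Mr (fun g =>
      ic (fun g : V → ℤ => |∑ v ∈ Is δ z r, 1 / ((Is δ z r).card : ℝ) * (g v : ℝ)| ≤ T ∧ Lps (Is δ z r) g) g *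
        ic (fun _ => True) g + ic (Bk 0 δ z r s) g * ic (fun g => T ≤ |Av δ z r g|) g) := by
    refine Mr_mono_GH hd hPR1 (Bl_Pn_add hP hPR2) (fun g _ => ic_nonneg _ _) fun g hg => ?_
    have hn1 := mul_nonneg (ic_nonneg (fun g => |∑ v ∈ Is δ z r, 1 / ((Is δ z r).card : ℝ) * (g v : ℝ)| ≤ T ∧
      Lps (Is δ z r) g) g) (ic_nonneg (fun _ => True) g)
    have hn2 := mul_nonneg (ic_nonneg (Bk 0 δ z r s) g) (ic_nonneg (fun g => T ≤ |Av δ z r g|) g)
    by_cases hB : Bk 0 δ z r s g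
    · by_cases hT' : T ≤ |Av δ z r g|
      · have h2 : ic (Bk 0 δ z r s) g * ic (fun g => T ≤ |Av δ z r g|) g = 1 := by
          unfold ic
          rw [if_pos hB, if_pos hT', one_mul]
        have h3 := ic_le_one (Bk 0 δ z r s) g
        linarith
      · have h4 : |∑ v ∈ Is δ z r, 1 / ((Is δ z r).card : ℝ) * (g v : ℝ)| ≤ T ∧ Lps (Is δ z r) g := by
          refine ⟨?_, fun u _ v _ => gh_lip_pm3 hg u v⟩
          have h5 : ∑ v ∈ Is δ z r, 1 / ((Is δ z r).card : ℝ) * (g v : ℝ) = Av δ z r g := by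
            unfold Av
            rw [← Finset.mul_sum, one_div, div_eq_inv_mul]
          rw [h5]
          exact (not_le.1 hT').le
        have h2 : ic (fun g : V → ℤ => |∑ v ∈ Is δ z r, 1 / ((Is δ z r).card : ℝ) * (g v : ℝ)| ≤ T ∧
            Lps (Is δ z r) g) g * ic (fun _ => True) g = 1 := by
          unfold ic
          rw [if_pos h4, if_pos trivial, one_mul]
        have h3 := ic_le_one (Bk 0 δ z r s) g
        linarith
    · have h2 : ic (Bk 0 δ z r s) g = 0 := if_neg hB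
      rw [h2] at hn2 ⊢
      linarith
  rw [Mr_add hd hP hPR2] at key
  linarith

/-- TAILS of the average on a block -/
theorem bk_tail (hd : Deloc) (z y : Pl) {r s r' : ℝ} (hr : 0 < r) (hrs : r < s) (hr' : 0 < r')
    (hyz : dist y z + r' ≤ r) : ∃ C > 0, ∀ᶠ δ in 𝓝[>] (0 : ℝ), ∀ T > 0,
      Mr (fun g => ic (Bk 0 δ z r s) g * ic (fun g => T ≤ |Av δ y r' g|) g) ≤ C / T ^ 2 := by
  obtain ⟨C, hC, hev⟩ := Bl_cheb hd z y hr hrs hr' hyz
  obtain ⟨C', hC', hev'⟩ := bk_upper hd z hr hrs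
  refine ⟨C * C', by positivity, ?_⟩
  filter_upwards [hev, hev'] with δ h1 h2 T hT
  refine (h1 T hT).trans ?_
  rw [mul_div_right_comm]
  exact mul_le_mul_of_nonneg_left h2 (by positivity)

/-- TWO BLOCKS at different levels: on both events `|Av| ≥ |k|` or `|Av - 2 k| ≥ |k|`; `bk_tail`, `Mr_lev` -/
theorem bk_two (hd : Deloc) (z z' : Pl) {r s r' s' : ℝ} (hr : 0 < r) (hrs : r < s) (hr' : 0 < r')
    (hrs' : r' < s') (hzz : dist z' z + r' ≤ r) : ∃ C > 0, ∀ᶠ δ in 𝓝[>] (0 : ℝ), ∀ k : ℤ, k ≠ 0 →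
      Mr (fun g => ic (Bk 0 δ z' r' s') g * ic (Bk k δ z r s) g) ≤ C / (k : ℝ) ^ 2 := by
  obtain ⟨C₁, hC₁, hev₁⟩ := bk_tail hd z' z' hr' hrs' hr' (by rw [dist_self, zero_add])
  obtain ⟨C₂, hC₂, hev₂⟩ := bk_tail hd z z' hr hrs hr' hzz
  refine ⟨C₁ + C₂, by linarith, ?_⟩
  filter_upwards [hev₁, hev₂, Bl_ev hr hrs, Bl_ev hr' hrs'] with δ h₁ h₂ hδ hδ' k hk
  obtain ⟨hδ0, hδr, hδs⟩ := hδ
  obtain ⟨-, hδr', hδs'⟩ := hδ'
  have hk' : 0 < |(k : ℝ)| := abs_pos.2 (by exact_mod_cast hk)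
  set F₁ : (V → ℤ) → ℝ := fun g => ic (Bk 0 δ z' r' s') g * ic (fun g => |(k : ℝ)| ≤ |Av δ z' r' g|) g
    with hF₁
  set F₂ : (V → ℤ) → ℝ := fun g => ic (Bk 0 δ z r s) g * ic (fun g => |(k : ℝ)| ≤ |Av δ z' r' g|) g
    with hF₂
  set t : Finset V := Is δ z' s' ∪ Is δ z s with ht
  have hsub' : Is δ z' r' ⊆ Is δ z' s' := Bl_Is_sub hδ0 (by
    rw [dist_self, zero_add]
    exact hrs'.le)
  have hsub : Is δ z' r' ⊆ Is δ z s := Bl_Is_sub hδ0 (hzz.trans hrs.le)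
  have hP₁ : PR t F₁ := (Bl_PR hδ0 hδr' hδs' (Bl_tl hsub')).mono Finset.subset_union_left
  have hP₂' : PR t F₂ := (Bl_PR hδ0 hδr hδs (Bl_tl hsub)).mono Finset.subset_union_right
  have hP₂ : PR t fun g => F₂ (lev k g) := Bl_PR_lev hP₂' k
  have hP₀' : PR t (ic (Bk 0 δ z' r' s')) := by
    rw [Bl_bk_zero]
    exact (PR_sep' (Inn_nonempty hδ0 z' hδr') (disj_Inn_Out hδ0 hδs')
      (compl_Out_sub hδ0 z' s')).mono Finset.subset_union_left
  have hP₀ : PR t fun g => ic (Bk 0 δ z' r' s') g * ic (Bk k δ z r s) g :=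
    hP₀'.mul fun g g' h => ic_congr (bk_loc hδ0 hδs fun v hv => h v (by
      rw [ht, Finset.mem_union]
      exact Or.inr ((mem_Is hδ0).2 hv.le)))
  have key : Mr (fun g => ic (Bk 0 δ z' r' s') g * ic (Bk k δ z r s) g) ≤
      Mr (fun g => F₁ g + F₂ (lev k g)) := by
    refine Mr_mono hd hP₀ (Bl_Pn_add hP₁ hP₂) fun g => ?_
    have hn1 : 0 ≤ F₁ g := mul_nonneg (ic_nonneg _ _) (ic_nonneg _ _)
    have hn2 : 0 ≤ F₂ (lev k g) := mul_nonneg (ic_nonneg _ _) (ic_nonneg _ _)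
    by_cases hB' : Bk 0 δ z' r' s' g
    · by_cases hB : Bk k δ z r s g
      · have h0 : ic (Bk 0 δ z' r' s') g * ic (Bk k δ z r s) g = 1 := by
          unfold ic
          rw [if_pos hB', if_pos hB, one_mul]
        rw [h0]
        have hB2 : Bk 0 δ z r s (lev k g) := by
          rw [Bl_bk_zero]
          exact hB
        by_cases h3 : |(k : ℝ)| ≤ |Av δ z' r' g|
        · have h4 : F₁ g = 1 := by
            rw [hF₁]
            show ic (Bk 0 δ z' r' s') g * ic (fun g => |(k : ℝ)| ≤ |Av δ z' r' g|) g = 1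
            unfold ic
            rw [if_pos hB', if_pos h3, one_mul]
          linarith
        · have h5 : |(k : ℝ)| ≤ |Av δ z' r' (lev k g)| := by
            rw [Bl_av_lev hδ0 hδr']
            have h6 := abs_add_le (Av δ z' r' g) (-(Av δ z' r' g - 2 * k))
            have h7 : Av δ z' r' g + -(Av δ z' r' g - 2 * k) = 2 * k := by ring
            rw [h7, abs_neg, abs_mul, abs_two] at h6
            linarith [not_le.1 h3]
          have h4 : F₂ (lev k g) = 1 := by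
            rw [hF₂]
            show ic (Bk 0 δ z r s) (lev k g) *
              ic (fun g => |(k : ℝ)| ≤ |Av δ z' r' g|) (lev k g) = 1
            unfold ic
            rw [if_pos hB2, if_pos h5, one_mul]
          linarith
      · have h0 : ic (Bk k δ z r s) g = 0 := if_neg hB
        rw [h0, mul_zero]
        linarith
    · have h0 : ic (Bk 0 δ z' r' s') g = 0 := if_neg hB'
      rw [h0, zero_mul]
      linarith
  rw [Mr_add hd hP₁ hP₂, Mr_lev k F₂] at key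
  have e₁ := h₁ |(k : ℝ)| hk'
  have e₂ := h₂ |(k : ℝ)| hk'
  rw [sq_abs] at e₁ e₂
  rw [add_div]
  exact key.trans (add_le_add e₁ e₂)

end DV
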