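import Pool.Agent.Helper94.BR.Mo
import Pool.Agent.Helper78.SW.Qt

/-!
# Project DV, block BAR (7c): moments of the field given the blocks (products of heights)
-/

open Finset Filter Topology MeasureTheory

namespace DV

open RP4 (V Adj BdryPar Om dom avg mu Loc Deloc dist1 cnt mass clm)
open GF (Pl Cc Ne)
open GF.Lat (Xd win)

private lemma Ms1_scf_zero {x v : V} {h : V → ℤ} (hv : h v = 0) : SW.scf x h v = 0 := by
  unfold SW.scf
  split_ifs
  · rw [hv, neg_zero]
  · exact hv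

/-- (m0) the finite volume form, as sums: `E` a function of `|h|` -/
theorem zs_clm_sum {D Z : Finset V} (hZ : RP4.bdry D ⊆ Z) {E : (V → ℤ) → Prop}
    (habs : ∀ g, E (absf g) ↔ E g) {n : ℕ} (p : Fin n → V) :
    ∑ g ∈ RP4.Zs D 0 Z, ic E g * ∏ i, (g (p i) : ℝ) = ∑ g ∈ RP4.Zs D 0 Z, ic E g * clm p g := by
  classical
  have h := SW.prod_clm_gen (D := D) (q := 0) (p := p) (A := (RP4.Zs D 0 Z).filter E)
    (fun g hg => ((RP4.mem_Zs hZ).1 (Finset.mem_filter.1 hg).1).1) (fun g hg i => ?_)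
  · rw [Finset.sum_filter, Finset.sum_filter] at h
    have h1 : ∀ F : (V → ℤ) → ℝ,
        ∑ g ∈ RP4.Zs D 0 Z, ic E g * F g = ∑ g ∈ RP4.Zs D 0 Z, if E g then F g else 0 := by
      intro F
      refine Finset.sum_congr rfl fun g _ => ?_
      unfold ic
      split_ifs
      · rw [one_mul]
      · rw [zero_mul]
    rw [h1, h1]
    exact h
  · obtain ⟨h1, h2⟩ := Finset.mem_filter.1 hg
    obtain ⟨h3, h4⟩ := (RP4.mem_Zs hZ).1 h1
    refine Finset.mem_filter.2 ⟨(RP4.mem_Zs hZ).2 ⟨SW.scf_isHom h3 (p i), fun v hv =>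
      Ms1_scf_zero (h4 v hv)⟩, ?_⟩
    rw [← habs, SW.absf_scf, habs]
    exact h2

/-- (m0) sums over the height functions with zero boundary values, `E` a function of `|h|` -/
theorem om_clm {E : (V → ℤ) → Prop} (habs : ∀ g, E (absf g) ↔ E g) {n : ℕ} (p : Fin n → V)
    (D : Finset V) :
    ∑ g ∈ Om D, ic E g * ∏ i, (g (p i) : ℝ) = ∑ g ∈ Om D, ic E g * clm p g :=
  zs_clm_sum (Finset.Subset.refl _) habs p

open Classical in
/-- (m1) the finite volume form for all states with zeros, `E` a function of `|h|` -/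
theorem zs_clm {D Z : Finset V} (hZ : RP4.bdry D ⊆ Z ∧ Z ⊆ D) {E : (V → ℤ) → Prop}
    (habs : ∀ g, E (absf g) ↔ E g) {n : ℕ} (p : Fin n → V) :
    avg (RP4.Zs D 0 Z) (fun g => if E g then ∏ i, (g (p i) : ℝ) else 0) =
      avg (RP4.Zs D 0 Z) (fun g => if E g then clm p g else 0) := by
  have h := zs_clm_sum hZ.1 habs p
  have h1 : ∀ F : (V → ℤ) → ℝ,
      ∑ g ∈ RP4.Zs D 0 Z, ic E g * F g = ∑ g ∈ RP4.Zs D 0 Z, if E g then F g else 0 := by
    intro F
    refine Finset.sum_congr rfl fun g _ => ?_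
    unfold ic
    split_ifs
    · rw [one_mul]
    · rw [zero_mul]
  rw [h1, h1] at h
  unfold avg
  rw [h]

/-- (m2) domination of signed weights: expand the power (`Finset.sum_pow'`-like: `(∑ x ∈ s, w x * g x) ^ n = ∑ p : Fin n → s, ∏ ..`), `om_clm`,
`clm ≥ 0`, `|∏ w| ≤ ∏ w'` -/
theorem Mr_dom (hd : Deloc) {s t : Finset V} (hts : t ⊆ s) {E : (V → ℤ) → Prop} (hE : PR s (ic E))
    (habs : ∀ g, E (absf g) ↔ E g) (n : ℕ) {w w' : V → ℝ} (hw : ∀ x ∈ t, |w x| ≤ w' x) :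
    Mr (fun g => ic E g * (∑ x ∈ t, w x * (g x : ℝ)) ^ n) ≤
      Mr (fun g => ic E g * (∑ x ∈ t, w' x * (g x : ℝ)) ^ n) := by
  have hPR : ∀ u : V → ℝ, PR s (fun g => ic E g * (∑ x ∈ t, u x * (g x : ℝ)) ^ n) := fun u =>
    hE.mul fun g g' hg => by
      congr 1
      exact Finset.sum_congr rfl fun x hx => by rw [hg x (hts hx)]
  have hexp : ∀ (u : V → ℝ) (D : Finset V),
      ∑ g ∈ Om D, ic E g * (∑ x ∈ t, u x * (g x : ℝ)) ^ n =
        ∑ p ∈ Fintype.piFinset (fun _ : Fin n => t), (∏ i, u (p i)) *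
          ∑ g ∈ Om D, ic E g * clm p g := by
    intro u D
    have h1 : ∀ g : V → ℤ, ic E g * (∑ x ∈ t, u x * (g x : ℝ)) ^ n =
        ∑ p ∈ Fintype.piFinset (fun _ : Fin n => t), (∏ i, u (p i)) * (ic E g * ∏ i, (g (p i) : ℝ)) := by
      intro g
      rw [Finset.sum_pow', Finset.mul_sum]
      refine Finset.sum_congr rfl fun p _ => ?_
      rw [Finset.prod_mul_distrib]
      ring
    rw [Finset.sum_congr rfl fun g _ => h1 g, Finset.sum_comm]
    refine Finset.sum_congr rfl fun p _ => ?_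
    rw [← Finset.mul_sum, om_clm habs]
  have hmain := Mr_le_of hd (hPR w) (hPR w') (c := 1) (d := 1) (Eventually.of_forall fun D => by
    rw [one_mul, one_mul, hexp w D, hexp w' D]
    refine Finset.sum_le_sum fun p hp => ?_
    refine mul_le_mul_of_nonneg_right ?_ (Finset.sum_nonneg fun g _ =>
      mul_nonneg (ic_nonneg E g) (RP4.clm_nonneg p g))
    calc ∏ i, w (p i) ≤ |∏ i, w (p i)| := le_abs_self _
      _ = ∏ i, |w (p i)| := Finset.abs_prod _ _
      _ ≤ ∏ i, w' (p i) := Finset.prod_le_prod (fun i _ => abs_nonneg _)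
          fun i _ => hw _ (Fintype.mem_piFinset.1 hp i))
  linarith

end DV
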