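import Pool.Agent.Helper94.BR.Mk

/-!
# Project DV, block BAR (7): the inequality PIN

`Sep A B g`: no path of nonzero sites joins `A` (with its neighbours) to `B` (with its neighbours).
Let `P = Sep X Y`, `P' = Sep X' Xᶜ`, `E` decreasing and `G` increasing in the absolute value, both
depending on the heights on `Y`.  Then `E[G; P E] P(P') ≤ P(P E) E[G; P']`.
-/

open Finset RP4

namespace DV

/-- `A` and `B` are separated by zeros -/
def Sep (A B : Set V) (g : V → ℤ) : Prop := ∀ u ∈ nb A, ∀ v ∈ nb B, ¬ Con (nz g) u v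

lemma Sep.symm {A B : Set V} {g : V → ℤ} (h : Sep A B g) : Sep B A g :=
  fun u hu v hv hc => h v hv u hu hc.symm'

lemma Sep.mono {A A' B B' : Set V} {g : V → ℤ} (h : Sep A B g) (hA : A' ⊆ A) (hB : B' ⊆ B) :
    Sep A' B' g :=
  fun u hu v hv => h u (nb_mono hA hu) v (nb_mono hB hv)

lemma sep_iff {A B : Set V} {g : V → ℤ} (h : Disjoint A (nb B)) :
    Sep A B g ↔ Disjoint (rv A g) (nb B) := by
  rw [Set.disjoint_left] at h ⊢
  constructor
  · intro hs v hv hvB
    rcases hv with hv | ⟨u, hu, hc⟩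
    · exact h hv hvB
    · exact hs u hu v hvB hc
  · intro hd u hu v hv hc
    exact hd (Or.inr ⟨u, hu, hc⟩) hv

lemma nz_absf (g : V → ℤ) : nz (absf g) = nz g := by
  ext v
  show |g v| ≠ 0 ↔ g v ≠ 0
  rw [ne_eq, abs_eq_zero]

lemma dec_sep (A B : Set V) : Dec (Sep A B) := by
  refine ⟨fun g => ?_, fun g g' h0 hle h => ?_⟩
  · unfold Sep
    rw [nz_absf]
  · intro u hu v hv hc
    refine h u hu v hv (hc.mono (fun _ _ h => h) fun w hw => ?_)
    have h1 : g w ≠ 0 := hw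
    have h2 := h0 w
    have h3 := hle w
    show g' w ≠ 0
    omega

/-- the separation depends only on the heights off `A` and `B` and next to them -/
lemma sep_congr {A B : Set V} {g g' : V → ℤ} (h : ∀ v, v ∉ B → g v = g' v)
    (hB : ∀ v ∈ nb B, g v = g' v) : Sep A B g ↔ Sep A B g' := by
  have key : ∀ g g' : V → ℤ, (∀ v, v ∉ B → g v = g' v) → (∀ v ∈ nb B, g v = g' v) → Sep A B g →
      Sep A B g' := by
    intro g g' h hB hs u hu v hv hc
    refine hs u hu v hv (hc.mono (fun _ _ h => h) fun w hw => ?_)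
    have h1 : g w = g' w := by
      by_cases hwB : w ∈ B
      · exact hB w (sub_nb _ hwB)
      · exact h w hwB
    show g w ≠ 0
    rw [h1]
    exact hw
  exact ⟨key g g' h hB, key g' g (fun v hv => (h v hv).symm) fun v hv => (hB v hv).symm⟩

/-- more zeros, smaller expectation of increasing functions -/
theorem zs_anti {D : Finset V} {p : ℤ} {Z Z' : Finset V} (hZ : bdry D ⊆ Z) (hZZ : Z ⊆ Z')
    (hne : (Zs D p Z').Nonempty) {F : (V → ℤ) → ℝ} (hF : IncF F) :
    avg (Zs D p Z') F ≤ avg (Zs D p Z) F := by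
  have hne' : (Zs D p Z).Nonempty := by
    obtain ⟨g, hg⟩ := hne
    rw [mem_Zs (hZ.trans hZZ)] at hg
    exact ⟨g, (mem_Zs hZ).2 ⟨hg.1, fun v hv => hg.2 v (hZZ hv)⟩⟩
  refine gfkg (fam_Zs (hZ.trans hZZ)) (fam_Zs hZ) ?_ ?_ le_rfl
    (fun _ _ _ _ v hv _ => absurd hv (Set.notMem_empty v)) hne hne' F hF.nonneg hF.abs hF.mono
  · intro ξ' h1 ξ _ _ _ _ h2 v hv
    have h3 : ξ' v = 0 := h1 v hv
    show min (ξ' v) (ξ v) = 0
    rw [h3]
    exact min_eq_left (h2 v)
  · intro ξ' h1 ξ h2 _ _ _ _ v hv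
    have h3 : ξ' v = 0 := h1 v (Finset.mem_coe.2 (hZZ (Finset.mem_coe.1 hv)))
    have h4 : ξ v = 0 := h2 v hv
    show max (ξ' v) (ξ v) = 0
    rw [h3, h4]
    exact max_self _

open Classical in
/-- negative correlation of a decreasing event and an increasing function -/
theorem avg_mul_dec {D : Finset V} {p : ℤ} {B : Set V} {T : Set (V → ℤ)} {A : Finset (V → ℤ)}
    (hA : Fam D p B T A) (hT : Lat D p T) {E : (V → ℤ) → Prop} (hE : Dec E) {F : (V → ℤ) → ℝ}
    (hF : IncF F) : avg A (fun g => if E g then F g else 0) ≤ pr A E * avg A F := by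
  set A' := A.filter E with hA'
  have h1 : ∑ g ∈ A, (if E g then F g else 0) = ∑ g ∈ A', F g := by rw [hA', Finset.sum_filter]
  have h0 : 0 ≤ avg A F := div_nonneg (Finset.sum_nonneg fun g _ => hF.nonneg g) (Nat.cast_nonneg _)
  rcases A'.eq_empty_or_nonempty with h | h
  · unfold avg
    rw [h1, h, Finset.sum_empty, zero_div]
    exact mul_nonneg (pr_nonneg _ _) h0
  · have hne0 : A.Nonempty := h.imp fun g hg => (Finset.mem_filter.1 hg).1
    have h2 := avg_filter_dec hA hT hE (A' := A') (fun g => Finset.mem_filter) h hF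
    have c1 : (0 : ℝ) < A'.card := by exact_mod_cast h.card_pos
    have c2 : (0 : ℝ) < A.card := by exact_mod_cast hne0.card_pos
    have h3 : avg A (fun g => if E g then F g else 0) = pr A E * avg A' F := by
      rw [pr_eq, ← hA']
      unfold avg
      rw [h1]
      field_simp
    rw [h3]
    exact mul_le_mul_of_nonneg_left h2 (pr_nonneg _ _)

open Classical in
/-- the zero set that replaces the revealed set `R` -/
noncomputable def ZR (D : Finset V) (R : Set V) : Finset V :=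
  bdry D ∪ D.filter fun v => v ∈ R ∧ Even (par v)

lemma mem_ZR {D : Finset V} {R : Set V} {v : V} :
    v ∈ ZR D R ↔ v ∈ bdry D ∨ (v ∈ D ∧ v ∈ R ∧ Even (par v)) := by
  classical
  unfold ZR
  rw [Finset.mem_union, Finset.mem_filter]

lemma bdry_ZR (D : Finset V) (R : Set V) : bdry D ⊆ ZR D R := Finset.subset_union_left

lemma ZR_mono {D : Finset V} {R R' : Set V} (h : R ⊆ R') : ZR D R ⊆ ZR D R' := by
  intro v hv
  rw [mem_ZR] at hv ⊢
  exact hv.imp id fun h1 => ⟨h1.1, h h1.2.1, h1.2.2⟩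

lemma ZR_nonempty {D : Finset V} (hD : BdryPar D 0) (R : Set V) : (Zs D 0 (ZR D R)).Nonempty := by
  refine ⟨flat D 0, flat_mem_Zs (bdry_ZR D R) ?_ ?_⟩
  · intro v hv
    rcases mem_ZR.1 hv with h | h
    · exact bdry_subset D h
    · exact h.1
  · intro v hv
    rcases mem_ZR.1 hv with h | h
    · exact hD v h
    · rw [sub_zero]
      exact h.2.2

open Classical in
/-- Markov property, exploration from inside: given the revealed set `R` the heights off `R` have the law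
with zeros on the even sites of `nb R` -/
theorem in_markov {D : Finset V} (hD : BdryPar D 0) {X R : Set V} (hR : nb R ⊆ (D : Set V))
    (hne : ((Om D).filter fun g => rv X g = R).Nonempty) {F : (V → ℤ) → ℝ}
    (hF : ∀ g g' : V → ℤ, (∀ v, v ∉ R → g v = g' v) → F g = F g') :
    avg ((Om D).filter fun g => rv X g = R) F = avg (Zs D 0 (ZR D (nb R))) F := by
  have hodd : ∀ g : V → ℤ, IsHom D 0 g → ∀ a b, a ∈ D → b ∈ D → Adj a b → g b = 0 → |g a| = 1 := by
    intro g hg a b ha hb hab h0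
    have h1 := hg.step a ha b hb hab
    rwa [h0, sub_zero] at h1
  have hev : ∀ g : V → ℤ, IsHom D 0 g → ∀ v ∈ D, g v = 0 → Even (par v) := by
    intro g hg v hv h0
    have h1 := hg.par v hv
    rw [h0] at h1
    rw [Int.even_iff] at h1 ⊢
    omega
  -- gluing of two height functions along `R`
  have hglue : ∀ g g' : V → ℤ, IsHom D 0 g → IsHom D 0 g' →
      (∀ v ∈ nb R, v ∉ R → g v = 0) → (∀ v ∈ nb R, v ∉ R → g' v = 0) → IsHom D 0 (glu R g g') := by
    intro g g' hg hg' h0 h0'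
    refine ⟨fun v hv => ?_, fun v hv => ?_, fun a ha b hb hab => ?_⟩
    · by_cases h : v ∈ R
      · rw [glu_in h]
        exact hg.off v hv
      · rw [glu_out h]
        exact hg'.off v hv
    · by_cases h : v ∈ R
      · rw [glu_in h]
        exact hg.par v hv
      · rw [glu_out h]
        exact hg'.par v hv
    · by_cases h : a ∈ R <;> by_cases h' : b ∈ R
      · rw [glu_in h, glu_in h']
        exact hg.step a ha b hb hab
      · have hbn : b ∈ nb R := Or.inr ⟨a, h, hab⟩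
        rw [glu_in h, glu_out h', h0' b hbn h', sub_zero]
        exact hodd g hg a b ha hb hab (h0 b hbn h')
      · have han : a ∈ nb R := Or.inr ⟨b, h', adj_symm hab⟩
        rw [glu_out h, glu_in h', h0' a han h, zero_sub, abs_neg]
        exact hodd g hg b a hb ha (adj_symm hab) (h0 a han h)
      · rw [glu_out h, glu_out h']
        exact hg'.step a ha b hb hab
  have hL : ∀ g ∈ (Om D).filter (fun g => rv X g = R), IsHom D 0 g ∧ (∀ v ∈ bdry D, g v = 0) ∧
      ∀ v ∈ nb R, v ∉ R → g v = 0 := by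
    intro g hg
    obtain ⟨h1, h2⟩ := Finset.mem_filter.1 hg
    refine ⟨(mem_Om.1 h1).1, (mem_Om.1 h1).2, fun v hv hvR => ?_⟩
    rcases hv with hv | ⟨u, hu, huv⟩
    · exact absurd hv hvR
    · rw [← h2] at hu hvR
      exact rv_zero hu huv hvR
  have hRt : ∀ g ∈ Zs D 0 (ZR D (nb R)), IsHom D 0 g ∧ (∀ v ∈ bdry D, g v = 0) ∧
      ∀ v ∈ nb R, Even (par v) → g v = 0 := by
    intro g hg
    rw [mem_Zs (bdry_ZR _ _)] at hg
    exact ⟨hg.1, fun v hv => hg.2 v (bdry_ZR _ _ hv), fun v hv he =>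
      hg.2 v (mem_ZR.2 (Or.inr ⟨Finset.mem_coe.1 (hR hv), hv, he⟩))⟩
  have hout : ∀ g ∈ (Om D).filter (fun g => rv X g = R), ∀ v ∈ nb R, v ∉ R → Even (par v) :=
    fun g hg v hv hvR => hev g (hL g hg).1 v (Finset.mem_coe.1 (hR hv)) ((hL g hg).2.2 v hv hvR)
  refine avg_swap R hne (ZR_nonempty hD _) ?_ ?_ hF
  · intro g hg g' hg'
    have h0' : ∀ v ∈ nb R, v ∉ R → g' v = 0 := fun v hv hvR =>
      (hRt g' hg').2.2 v hv (hout g hg v hv hvR)
    refine Finset.mem_filter.2 ⟨mem_Om.2 ⟨hglue g g' (hL g hg).1 (hRt g' hg').1 (hL g hg).2.2 h0',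
      fun v hv => ?_⟩, rv_glu (Finset.mem_filter.1 hg).2 h0'⟩
    by_cases h : v ∈ R
    · rw [glu_in h]
      exact (hL g hg).2.1 v hv
    · rw [glu_out h]
      exact (hRt g' hg').2.1 v hv
  · intro g hg g' hg'
    have h0' : ∀ v ∈ nb R, v ∉ R → g' v = 0 := fun v hv hvR =>
      (hRt g' hg').2.2 v hv (hout g hg v hv hvR)
    rw [mem_Zs (bdry_ZR _ _)]
    refine ⟨hglue g' g (hRt g' hg').1 (hL g hg).1 h0' (hL g hg).2.2, fun v hv => ?_⟩
    by_cases h : v ∈ R
    · rw [glu_in h]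
      rcases mem_ZR.1 hv with h1 | h1
      · exact (hRt g' hg').2.1 v h1
      · exact (hRt g' hg').2.2 v h1.2.1 h1.2.2
    · rw [glu_out h]
      rcases mem_ZR.1 hv with h1 | h1
      · exact (hL g hg).2.1 v h1
      · exact (hL g hg).2.2 v h1.2.1 h

open Classical in
/-- upper half of PIN -/
theorem pin_upper {D : Finset V} (hD : BdryPar D 0) {X Y : Set V} (hXY : Disjoint X (nb Y))
    (hYD : Yᶜ ⊆ (D : Set V)) {G : (V → ℤ) → ℝ} (hG : IncF G)
    (hGl : ∀ g g' : V → ℤ, (∀ v ∈ Y, g v = g' v) → G g = G g') {E : (V → ℤ) → Prop} (hE : Dec E)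
    (hEl : ∀ g g' : V → ℤ, (∀ v ∈ Y, g v = g' v) → (E g ↔ E g')) :
    ∑ g ∈ Om D, (if Sep X Y g ∧ E g then G g else 0) ≤
      avg (Zs D 0 (ZR D X)) G * ∑ g ∈ Om D, (if Sep X Y g ∧ E g then 1 else 0) := by
  set κ := avg (Zs D 0 (ZR D X)) G with hκ
  set T := (Om D).filter fun g => Sep X Y g with hT
  have e1 : ∑ g ∈ Om D, (if Sep X Y g ∧ E g then G g else 0) =
      ∑ g ∈ T, (if E g then G g else 0) := by
    rw [hT, Finset.sum_filter]
    exact Finset.sum_congr rfl fun g _ => by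
      by_cases h1 : Sep X Y g <;> by_cases h2 : E g <;> simp [h1, h2]
  have e2 : ∑ g ∈ Om D, (if Sep X Y g ∧ E g then (1 : ℝ) else 0) =
      ∑ g ∈ T, (if E g then (1 : ℝ) else 0) := by
    rw [hT, Finset.sum_filter]
    exact Finset.sum_congr rfl fun g _ => by
      by_cases h1 : Sep X Y g <;> by_cases h2 : E g <;> simp [h1, h2]
  rw [e1, e2, Finset.mul_sum, ← Finset.sum_fiberwise_of_maps_to (s := T) (t := T.image (rv X))
    (g := rv X) (fun g hg => Finset.mem_image_of_mem _ hg) fun g => if E g then G g else 0,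
    ← Finset.sum_fiberwise_of_maps_to (s := T) (t := T.image (rv X)) (g := rv X)
    (fun g hg => Finset.mem_image_of_mem _ hg) fun g => κ * if E g then (1 : ℝ) else 0]
  refine Finset.sum_le_sum fun R hR => ?_
  obtain ⟨g₀, hg₀, hR₀⟩ := Finset.mem_image.1 hR
  have hRY : Disjoint R (nb Y) := hR₀ ▸ (sep_iff hXY).1 (Finset.mem_filter.1 hg₀).2
  have hXR : X ⊆ R := hR₀ ▸ sub_rv X g₀
  have hfib : T.filter (fun g => rv X g = R) = (Om D).filter fun g => rv X g = R := by
    ext g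
    rw [hT, Finset.mem_filter, Finset.mem_filter, Finset.mem_filter]
    constructor
    · rintro ⟨⟨h1, -⟩, h2⟩
      exact ⟨h1, h2⟩
    · rintro ⟨h1, h2⟩
      exact ⟨⟨h1, (sep_iff hXY).2 (by rw [h2]; exact hRY)⟩, h2⟩
  rw [hfib]
  set TR := (Om D).filter fun g => rv X g = R with hTR
  have hne : TR.Nonempty := ⟨g₀, Finset.mem_filter.2 ⟨(Finset.mem_filter.1 hg₀).1, hR₀⟩⟩
  have hnR : nb R ⊆ (D : Set V) := by
    intro v hv
    apply hYD
    intro hvY
    rcases hv with hv | ⟨u, hu, huv⟩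
    · exact Set.disjoint_left.1 hRY hv (sub_nb _ hvY)
    · exact Set.disjoint_left.1 hRY hu (Or.inr ⟨v, hvY, adj_symm huv⟩)
  have hYR : ∀ v ∈ Y, v ∉ R := fun v hv hvR => Set.disjoint_left.1 hRY hvR (sub_nb _ hv)
  have m1 := in_markov hD (X := X) hnR hne (F := fun g => if E g then G g else 0)
    fun g g' h => by
      have h1 := hGl g g' fun v hv => h v (hYR v hv)
      have h2 := hEl g g' fun v hv => h v (hYR v hv)
      simp only [h1, h2]
  have m2 := in_markov hD (X := X) hnR hne (F := fun g => if E g then (1 : ℝ) else 0)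
    fun g g' h => by
      have h2 := hEl g g' fun v hv => h v (hYR v hv)
      simp only [h2]
  have m3 := avg_mul_dec (fam_Zs (p := 0) (bdry_ZR D (nb R))) (lat_Tb D 0 _ 0) hE hG
  have m4 : avg (Zs D 0 (ZR D (nb R))) G ≤ κ :=
    zs_anti (bdry_ZR _ _) (ZR_mono (hXR.trans (sub_nb R))) (ZR_nonempty hD _) hG
  have hc : (0 : ℝ) < TR.card := by exact_mod_cast hne.card_pos
  have m5 : avg TR (fun g => if E g then G g else 0) ≤
      κ * avg TR (fun g => if E g then (1 : ℝ) else 0) := by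
    rw [m1, m2]
    refine m3.trans ?_
    rw [mul_comm κ]
    exact mul_le_mul_of_nonneg_left m4 (pr_nonneg _ _)
  unfold avg at m5
  rw [← mul_div_assoc, div_le_div_iff_of_pos_right hc, Finset.mul_sum] at m5
  exact m5

open Classical in
/-- lower half of PIN -/
theorem pin_lower {D : Finset V} (hD : BdryPar D 0) {X X' : Set V} (hXX : Disjoint X' (nb Xᶜ))
    (hXD : X ⊆ (D : Set V)) {G : (V → ℤ) → ℝ} (hG : IncF G)
    (hGl : ∀ g g' : V → ℤ, (∀ v, v ∉ X → g v = g' v) → G g = G g') :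
    avg (Zs D 0 (ZR D X)) G * ∑ g ∈ Om D, (if Sep X' Xᶜ g then 1 else 0) ≤
      ∑ g ∈ Om D, (if Sep X' Xᶜ g then G g else 0) := by
  set κ := avg (Zs D 0 (ZR D X)) G with hκ
  rw [← Finset.sum_filter, ← Finset.sum_filter]
  set T := (Om D).filter fun g => Sep X' Xᶜ g with hT
  rw [Finset.mul_sum, ← Finset.sum_fiberwise_of_maps_to (s := T) (t := T.image (rv X'))
    (g := rv X') (fun g hg => Finset.mem_image_of_mem _ hg) fun g => G g,
    ← Finset.sum_fiberwise_of_maps_to (s := T) (t := T.image (rv X')) (g := rv X')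
    (fun g hg => Finset.mem_image_of_mem _ hg) fun g => κ * (1 : ℝ)]
  refine Finset.sum_le_sum fun R hR => ?_
  obtain ⟨g₀, hg₀, hR₀⟩ := Finset.mem_image.1 hR
  have hRY : Disjoint R (nb Xᶜ) := hR₀ ▸ (sep_iff hXX).1 (Finset.mem_filter.1 hg₀).2
  have hfib : T.filter (fun g => rv X' g = R) = (Om D).filter fun g => rv X' g = R := by
    ext g
    rw [hT, Finset.mem_filter, Finset.mem_filter, Finset.mem_filter]
    constructor
    · rintro ⟨⟨h1, -⟩, h2⟩
      exact ⟨h1, h2⟩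
    · rintro ⟨h1, h2⟩
      exact ⟨⟨h1, (sep_iff hXX).2 (by rw [h2]; exact hRY)⟩, h2⟩
  rw [hfib]
  set TR := (Om D).filter fun g => rv X' g = R with hTR
  have hne : TR.Nonempty := ⟨g₀, Finset.mem_filter.2 ⟨(Finset.mem_filter.1 hg₀).1, hR₀⟩⟩
  have hnX : nb R ⊆ X := by
    intro v hv
    by_contra hvY
    rcases hv with hv | ⟨u, hu, huv⟩
    · exact Set.disjoint_left.1 hRY hv (sub_nb _ hvY)
    · exact Set.disjoint_left.1 hRY hu (Or.inr ⟨v, hvY, adj_symm huv⟩)
  have m1 := in_markov hD (X := X') (hnX.trans hXD) hne (F := G)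
    fun g g' h => hGl g g' fun v hv => h v fun hvR => hv (hnX (sub_nb _ hvR))
  have m4 : κ ≤ avg (Zs D 0 (ZR D (nb R))) G :=
    zs_anti (bdry_ZR _ _) (ZR_mono hnX) (ZR_nonempty hD _) hG
  have hc : (0 : ℝ) < TR.card := by exact_mod_cast hne.card_pos
  rw [← m1, avg, le_div_iff₀ hc] at m4
  rw [Finset.sum_const, nsmul_eq_mul, mul_one, mul_comm]
  exact m4

open Classical in
/-- **inequality PIN** -/
theorem pin_fkg {D : Finset V} (hD : BdryPar D 0) {X X' Y : Set V} (hXY : Disjoint X (nb Y))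
    (hXX : Disjoint X' (nb Xᶜ)) (hYD : Yᶜ ⊆ (D : Set V)) {G : (V → ℤ) → ℝ} (hG : IncF G)
    (hGl : ∀ g g' : V → ℤ, (∀ v ∈ Y, g v = g' v) → G g = G g') {E : (V → ℤ) → Prop} (hE : Dec E)
    (hEl : ∀ g g' : V → ℤ, (∀ v ∈ Y, g v = g' v) → (E g ↔ E g')) :
    (∑ g ∈ Om D, (if Sep X Y g ∧ E g then G g else 0)) *
        (∑ g ∈ Om D, (if Sep X' Xᶜ g then 1 else 0)) ≤
      (∑ g ∈ Om D, (if Sep X Y g ∧ E g then 1 else 0)) *
        ∑ g ∈ Om D, (if Sep X' Xᶜ g then G g else 0) := by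
  have hYX : ∀ v ∈ Y, v ∉ X := fun v hv hvX => Set.disjoint_left.1 hXY hvX (sub_nb _ hv)
  have hXD : X ⊆ (D : Set V) := fun v hv => hYD fun h => hYX v h hv
  have h1 := pin_upper hD hXY hYD hG hGl hE hEl
  have h2 := pin_lower hD hXX hXD hG fun g g' h => hGl g g' fun v hv => h v (hYX v hv)
  have n1 : (0 : ℝ) ≤ ∑ g ∈ Om D, (if Sep X' Xᶜ g then 1 else 0) :=
    Finset.sum_nonneg fun g _ => by split_ifs <;> norm_num
  have n2 : (0 : ℝ) ≤ ∑ g ∈ Om D, (if Sep X Y g ∧ E g then 1 else 0) :=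
    Finset.sum_nonneg fun g _ => by split_ifs <;> norm_num
  calc (∑ g ∈ Om D, (if Sep X Y g ∧ E g then G g else 0)) *
        (∑ g ∈ Om D, (if Sep X' Xᶜ g then 1 else 0))
      ≤ (avg (Zs D 0 (ZR D X)) G * ∑ g ∈ Om D, (if Sep X Y g ∧ E g then 1 else 0)) *
        (∑ g ∈ Om D, (if Sep X' Xᶜ g then 1 else 0)) := mul_le_mul_of_nonneg_right h1 n1
    _ = (∑ g ∈ Om D, (if Sep X Y g ∧ E g then 1 else 0)) * (avg (Zs D 0 (ZR D X)) G *
        ∑ g ∈ Om D, (if Sep X' Xᶜ g then 1 else 0)) := by ring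
    _ ≤ _ := mul_le_mul_of_nonneg_left h2 n2

end DV
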