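import Pool.Agent.Helper94.BR.Bl

/-!
# Project DV, block BAR (7a): blocks have positive mass
-/

open Finset Filter Topology

namespace DV

open RP4 (V Adj BdryPar Om dom avg mu Loc Deloc dist1 cnt)
open GF (Pl)

private lemma Po_dec_all {ι : Type} (J : Finset ι) (E : ι → (V → ℤ) → Prop) (hE : ∀ i ∈ J, Dec (E i)) :
    Dec fun g => ∀ i ∈ J, E i g :=
  ⟨fun g => forall₂_congr fun i hi => (hE i hi).abs g,
    fun g g' h1 h2 h3 i hi => (hE i hi).mono g g' h1 h2 (h3 i hi)⟩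

open Classical in
/-- FKG for finitely many decreasing events in `Om U`: induction with `avg_filter_dec` / `pr_dec_dec` (`fam_Zs`, `lat_Tb`) -/
theorem pr_all {ι : Type} (J : Finset ι) (U : Finset V) (hU : BdryPar U 0) (E : ι → (V → ℤ) → Prop)
    (hE : ∀ i ∈ J, Dec (E i)) {c : ℝ} (hc : 0 ≤ c) (hc1 : c ≤ 1) (h : ∀ i ∈ J, c ≤ pr (Om U) (E i)) :
    c ^ J.card ≤ pr (Om U) fun g => ∀ i ∈ J, E i g := by
  induction J using Finset.induction_on with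
  | empty =>
    have h1 := pr_not (RP4.Om_nonempty hU) (fun _ => False)
    have h2 : pr (Om U) (fun _ => False) = 0 := by
      rw [pr_eq]
      simp
    have h3 : pr (Om U) (fun g => ∀ i ∈ (∅ : Finset ι), E i g) = pr (Om U) (fun g => ¬ (fun _ => False) g) :=
      pr_congr fun g _ => by simp
    rw [h3, h1, h2]
    simp
  | insert a s ha ih =>
    have ih' := ih (fun i hi => hE i (Finset.mem_insert_of_mem hi)) (fun i hi => h i (Finset.mem_insert_of_mem hi))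
    have hd := Po_dec_all s E fun i hi => hE i (Finset.mem_insert_of_mem hi)
    have h1 := pr_dec_dec (fam_Zs (D := U) (p := 0) (Finset.Subset.refl _)) (lat_Tb U 0 _ 0)
      (hE a (Finset.mem_insert_self a s)) hd
    have h2 : pr (Om U) (fun g => ∀ i ∈ insert a s, E i g) =
        pr (Om U) (fun g => E a g ∧ ∀ i ∈ s, E i g) :=
      pr_congr fun g _ => Finset.forall_mem_insert _ _ _
    rw [h2, Finset.card_insert_of_notMem ha, pow_succ, mul_comm]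
    refine le_trans ?_ h1
    exact mul_le_mul (h a (Finset.mem_insert_self a s)) ih' (pow_nonneg hc _) (pr_nonneg _ _)

private lemma Po_bk_eq (δ : ℝ) (z : Pl) (r s : ℝ) : Bk 0 δ z r s = Sep (Inn δ z r) (Out δ z s) := by
  funext g
  unfold Bk
  rw [lev_zero]

private lemma Po_lev_lev (j k : ℤ) (g : V → ℤ) : lev k (lev j g) = lev (k + j) g := by
  funext v
  unfold lev
  ring

private lemma Po_bk_lev (k j : ℤ) (δ : ℝ) (z : Pl) (r s : ℝ) (g : V → ℤ) :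
    Bk k δ z r s (lev j g) ↔ Bk (k + j) δ z r s g := by
  unfold Bk
  rw [Po_lev_lev]

private lemma Po_small {a : ℝ} (ha : 0 < a) : ∀ᶠ δ in 𝓝[>] (0 : ℝ), δ < a :=
  (eventually_lt_nhds ha).filter_mono nhdsWithin_le_nhds

/-- `M(Bk 0 δ 0 W W') ≥ 1/2`: `per (ic (Bk 0 ..)) ≥ ic (∃ k, Bk k ..)` pointwise (the sum over the levels counts the `k`), `muP_re_mono`,
`FlatC` with `ε = 1/2` -/
theorem big_block (hd : Deloc) (hF : FlatC) {W : ℝ} (hW : 0 < W) : ∃ W' > W, ∀ᶠ δ in 𝓝[>] (0 : ℝ),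
    1 / 2 ≤ Mp (Bk 0 δ 0 W W') := by
  classical
  obtain ⟨W', hW', h⟩ := hF (1 / 2) (by norm_num) W hW
  refine ⟨W', hW', ?_⟩
  filter_upwards [h, self_mem_nhdsWithin, Po_small hW, Po_small (show 0 < W' - W by linarith)] with
    δ hδ hδ0 hδW hδs
  have hδ0' : (0 : ℝ) < δ := hδ0
  have hdisj : Disjoint (Inn δ (0 : Pl) W) (nb (Out δ (0 : Pl) W')) := disj_Inn_Out hδ0' (by linarith)
  have hne : (Inn δ (0 : Pl) W).Nonempty := Inn_nonempty hδ0' 0 hδW.le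
  have hP : PR (Is δ (0 : Pl) W') (ic (Sep (Inn δ (0 : Pl) W) (Out δ (0 : Pl) W'))) :=
    PR_sep' hne hdisj (compl_Out_sub hδ0' 0 W')
  rw [← Po_bk_eq] at hP
  have hFal : AL (Is δ (0 : Pl) W') fun g => (ic (fun h => ∃ k, Bk k δ 0 W W' h) g : ℂ) := by
    refine al_real fun g g' hg => ic_congr ?_
    have key : ∀ k, Bk k δ 0 W W' g ↔ Bk k δ 0 W W' g' := fun k =>
      bk_loc hδ0' (by linarith) fun v hv => hg v ((mem_Is hδ0').2 hv.le)
    exact exists_congr key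
  have hFph : Phs 0 fun g => (ic (fun h => ∃ k, Bk k δ 0 W W' h) g : ℂ) := by
    intro j g
    have h1 : ic (fun h => ∃ k, Bk k δ 0 W W' h) (lev j g) = ic (fun h => ∃ k, Bk k δ 0 W W' h) g := by
      refine ic_congr ?_
      constructor
      · rintro ⟨k, hk⟩
        exact ⟨k + j, (Po_bk_lev k j δ 0 W W' g).1 hk⟩
      · rintro ⟨k, hk⟩
        refine ⟨k - j, (Po_bk_lev (k - j) j δ 0 W W' g).2 ?_⟩
        rwa [sub_add_cancel]
    simp [h1]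
  have key := muP_re_mono hd hFal hFph (per_al hP.loc) (per_phs _) (fun g _ => by
    set S : Finset ℤ := (Pn.finite hP g).toFinset with hS
    have hmem : ∀ k : ℤ, ((ic (Bk 0 δ 0 W W') (lev k g) : ℝ) : ℂ) ≠ 0 → k ∈ S := fun k hk =>
      (Pn.finite hP g).mem_toFinset.2 hk
    rw [per_eq_sum (A := fun g => ((ic (Bk 0 δ 0 W W') g : ℝ) : ℂ)) g S hmem, ← Complex.ofReal_sum,
      Complex.ofReal_re, Complex.ofReal_re]
    by_cases hE : ∃ k, Bk k δ 0 W W' g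
    · obtain ⟨k, hk⟩ := hE
      have h1 : Bk 0 δ 0 W W' (lev k g) := by
        rw [Po_bk_lev, zero_add]
        exact hk
      have h2 : ic (Bk 0 δ 0 W W') (lev k g) = 1 := if_pos h1
      have h3 : k ∈ S := hmem k (by rw [h2]; simp)
      have h4 := Finset.single_le_sum (f := fun k => ic (Bk 0 δ 0 W W') (lev k g))
        (fun i _ => ic_nonneg _ _) h3
      exact (ic_le_one _ _).trans (h2 ▸ h4)
    · have h1 : ic (fun h => ∃ k, Bk k δ 0 W W' h) g = 0 := if_neg hE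
      rw [h1]
      exact Finset.sum_nonneg fun i _ => ic_nonneg _ _)
  have e : Mp (Bk 0 δ 0 W W') = (muP (per fun g => (ic (Bk 0 δ 0 W W') g : ℂ))).re := rfl
  rw [e]
  refine le_trans ?_ key
  linarith

/-- **(7a)** `L = W'` of `big_block`; `M(all blocks) ≥ M(all blocks, Bk 0 δ 0 W W') ≥ (1/2)^#Z M(Bk 0 δ 0 W W')` by `M_out_ge`
(`A = Inn δ 0 W`, `B = Out δ 0 W'`), `pr_all` in the flat domains `U ⊇ nb A`, `Gd L` for each block; `c = (1/2)^(#Z + 1)` -/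
theorem bar_pos (hd : Deloc) (hF : FlatC) {W : ℝ} (hW : 0 < W) : ∃ L > W, ∀ Z : Finset (Pl × ℝ × ℝ),
    (∀ z ∈ Z, 0 < z.2.1 ∧ z.2.1 < z.2.2 ∧ dist z.1 0 + z.2.2 < W ∧ Gd L z.2.1 z.2.2) → Z.Nonempty →
    ∃ c > 0, ∀ᶠ δ in 𝓝[>] (0 : ℝ), c ≤ Mp fun g => ∀ z ∈ Z, Bk 0 δ z.1 z.2.1 z.2.2 g := by
  classical
  obtain ⟨L, hL, hbig⟩ := big_block hd hF hW
  refine ⟨L, hL, fun Z hZ hne => ⟨(1 / 2) ^ (Z.card + 1), by positivity, ?_⟩⟩
  have hgd : ∀ᶠ δ in 𝓝[>] (0 : ℝ), ∀ z ∈ Z, (∀ (z' : Pl) (D : Finset V), BdryPar D 0 →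
      Inn δ z' z.2.2 ⊆ (D : Set V) → (D : Set V) ⊆ Inn δ 0 L → 1 / 2 ≤ pr (Om D) (Bk 0 δ z' z.2.1 z.2.2)) ∧
        δ < z.2.1 ∧ δ < z.2.2 - z.2.1 := by
    rw [Filter.eventually_all_finset]
    intro z hz
    obtain ⟨h1, h2, -, h4⟩ := hZ z hz
    filter_upwards [h4, Po_small h1, Po_small (show 0 < z.2.2 - z.2.1 by linarith)] with δ a b c
    exact ⟨a, b, c⟩
  filter_upwards [hbig, hgd, self_mem_nhdsWithin, Po_small hW, Po_small (show 0 < L - W by linarith)] with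
    δ hM hδ hδ0 hδW hδL
  have hδ0' : (0 : ℝ) < δ := hδ0
  have hdisj : Disjoint (Inn δ (0 : Pl) W) (nb (Out δ (0 : Pl) L)) := disj_Inn_Out hδ0' (by linarith)
  have hneA : (Inn δ (0 : Pl) W).Nonempty := Inn_nonempty hδ0' 0 hδW.le
  -- points near a block lie in the ball of radius `W`
  have hin : ∀ z ∈ Z, ∀ v : V, dist (pt δ v) z.1 ≤ z.2.2 → v ∈ Inn δ (0 : Pl) W := by
    intro z hz v hv
    have h1 := (hZ z hz).2.2.1
    have h2 := dist_triangle (pt δ v) z.1 0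
    show dist (pt δ v) 0 ≤ W
    linarith
  have hloc : ∀ g g' : V → ℤ, (∀ v ∈ Inn δ (0 : Pl) W, g v = g' v) →
      ((∀ z ∈ Z, Bk 0 δ z.1 z.2.1 z.2.2 g) ↔ ∀ z ∈ Z, Bk 0 δ z.1 z.2.1 z.2.2 g') := by
    intro g g' hg
    refine forall₂_congr fun z hz => bk_loc hδ0' (by linarith [(hδ z hz).2.2]) fun v hv => ?_
    exact hg v (hin z hz v hv.le)
  set F : (V → ℤ) → ℝ := ic fun g => ∀ z ∈ Z, Bk 0 δ z.1 z.2.1 z.2.2 g with hFdef
  have h1 : (1 / 2 : ℝ) ^ Z.card * Mp (Sep (Inn δ (0 : Pl) W) (Out δ (0 : Pl) L)) ≤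
      Mr (fun g => ic (Sep (Inn δ (0 : Pl) W) (Out δ (0 : Pl) L)) g * F g) := by
    refine M_out_ge hd hneA hdisj (compl_Out_sub hδ0' 0 L)
      (fun g g' hg => ic_congr (hloc g g' fun v hv => hg v (sub_nb _ hv))) fun U hU hAU hUB => ?_
    have h2 : avg (Om U) F = pr (Om U) fun g => ∀ z ∈ Z, Bk 0 δ z.1 z.2.1 z.2.2 g := rfl
    rw [h2]
    refine pr_all Z U hU (fun z => Bk 0 δ z.1 z.2.1 z.2.2) (fun z _ => bk_dec _ _ _ _) (by norm_num)
      (by norm_num) fun z hz => ?_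
    refine (hδ z hz).1 z.1 U hU (fun v hv => hAU (sub_nb _ (hin z hz v hv))) fun v hv => ?_
    have h3 : ¬ L ≤ dist (pt δ v) 0 := hUB hv
    exact (not_le.1 h3).le
  -- the event is pinned
  obtain ⟨z₀, hz₀⟩ := hne
  have hWL : ∀ v ∈ Inn δ (0 : Pl) W, v ∈ Is δ (0 : Pl) L := by
    intro v hv
    rw [mem_Is hδ0']
    have h2 : dist (pt δ v) 0 ≤ W := hv
    linarith
  have hlocs : ∀ g g' : V → ℤ, (∀ x ∈ Is δ (0 : Pl) L, g x = g' x) → F g = F g' := fun g g' hg =>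
    ic_congr (hloc g g' fun v hv => hg v (hWL v hv))
  have hPF : PR (Is δ (0 : Pl) L) F := by
    have h2 := PR_sep (A := Inn δ z₀.1 z₀.2.1) (B := Out δ z₀.1 z₀.2.2)
      (Inn_nonempty hδ0' z₀.1 (hδ z₀ hz₀).2.1.le)
      (disj_Inn_Out hδ0' (by linarith [(hδ z₀ hz₀).2.2])) (s := Is δ (0 : Pl) L)
      (fun v hv => Finset.mem_coe.2 (hWL v (hin z₀ hz₀ v ?_))) hlocs
    · have h3 : (fun g => ic (Sep (Inn δ z₀.1 z₀.2.1) (Out δ z₀.1 z₀.2.2)) g * F g) = F := by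
        funext g
        by_cases h4 : ∀ z ∈ Z, Bk 0 δ z.1 z.2.1 z.2.2 g
        · have h5 := h4 z₀ hz₀
          rw [Po_bk_eq] at h5
          have h6 : ic (Sep (Inn δ z₀.1 z₀.2.1) (Out δ z₀.1 z₀.2.2)) g = 1 := if_pos h5
          rw [h6, one_mul]
        · have h6 : F g = 0 := if_neg h4
          rw [h6, mul_zero]
      rwa [h3] at h2
    · have h3 : ¬ z₀.2.2 ≤ dist (pt δ v) z₀.1 := hv
      exact (not_le.1 h3).le
  have hPS : PR (Is δ (0 : Pl) L) fun g => ic (Sep (Inn δ (0 : Pl) W) (Out δ (0 : Pl) L)) g * F g :=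
    PR_sep hneA hdisj (compl_Out_sub hδ0' 0 L) hlocs
  have h2 : Mr (fun g => ic (Sep (Inn δ (0 : Pl) W) (Out δ (0 : Pl) L)) g * F g) ≤ Mr F := by
    refine Mr_mono hd hPS hPF fun g => ?_
    have h3 := ic_le_one (Sep (Inn δ (0 : Pl) W) (Out δ (0 : Pl) L)) g
    have h4 : 0 ≤ F g := ic_nonneg _ _
    nlinarith
  have h3 : Mp (fun g => ∀ z ∈ Z, Bk 0 δ z.1 z.2.1 z.2.2 g) = Mr F := rfl
  rw [h3]
  rw [Po_bk_eq] at hM
  have h4 : (0 : ℝ) < (1 / 2) ^ Z.card := by positivity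
  calc (1 / 2 : ℝ) ^ (Z.card + 1) = (1 / 2) ^ Z.card * (1 / 2) := pow_succ _ _
    _ ≤ (1 / 2) ^ Z.card * Mp (Sep (Inn δ (0 : Pl) W) (Out δ (0 : Pl) L)) :=
        mul_le_mul_of_nonneg_left hM h4.le
    _ ≤ _ := h1
    _ ≤ _ := h2

/-- good radii exist (`ZoneC` with `a = 0`, `ε = 1/2`) and form an interval (`bk_mono`) -/
theorem exists_gd (hZ : ZoneC) (L : ℝ) {s : ℝ} (hs : 0 < s) :
    ∃ r₀ > 0, ∀ r, 0 < r → r ≤ r₀ → Gd L r s := by
  obtain ⟨r₀, hr₀, h⟩ := hZ 0 (1 / 2) L s (by norm_num) hs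
  refine ⟨r₀, hr₀, fun r _ hr => ?_⟩
  filter_upwards [h] with δ hδ
  intro z D hD h1 h2
  have h3 := hδ z D hD h1 h2 0 (by simp)
  have h4 : pr (Om D) (Bk 0 δ z r₀ s) ≤ pr (Om D) (Bk 0 δ z r s) :=
    pr_mono fun g _ hg => bk_mono hr le_rfl hg
  linarith

end DV
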