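import Pool.Agent.Helper63.RP4.A12
import Pool.Agent.Helper63.RP4.T3

/-!
# Project DV, block BAR (7): the law of `h w` becomes flat
-/

open Finset Filter Topology

namespace DV

open RP4 (V Adj BdryPar Om dom avg Deloc cnt p0)

private lemma L1_sum_le {D : Finset V} {w : V} (hw : w ∈ D) (he : Even (RP4.par w)) :
    ∃ M₀ : ℕ, ∀ M, M₀ ≤ M → (Om D).card ≤ 2 * ∑ j ∈ range M, cnt D w (2 * (j : ℤ)) := by
  classical
  obtain ⟨N, hN⟩ : ∃ N : ℕ, ∀ h ∈ Om D, (h w).natAbs ≤ N := by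
    refine ⟨(Om D).sup (fun h => (h w).natAbs), fun h hh => ?_⟩
    exact Finset.le_sup (f := fun h : V → ℤ => (h w).natAbs) hh
  refine ⟨N + 1, fun M hM => ?_⟩
  have h1 : ∀ h ∈ Om D, 1 ≤ ∑ j ∈ range M, ((if h w = 2 * (j : ℤ) then 1 else 0) +
      (if h w = -(2 * (j : ℤ)) then 1 else 0)) := by
    intro h hh
    have hpar : Even (h w) := by
      have h2 := (RP4.mem_Om.1 hh).1.par w hw
      obtain ⟨a, ha⟩ := h2
      obtain ⟨b, hb⟩ := he
      exact ⟨a + b, by omega⟩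
    obtain ⟨a, ha⟩ := hpar
    have h3 := hN h hh
    have h4 : a.natAbs ∈ range M := by
      rw [mem_range]
      omega
    refine le_trans ?_ (Finset.single_le_sum (f := fun j : ℕ => ((if h w = 2 * (j : ℤ) then 1 else 0) +
      (if h w = -(2 * (j : ℤ)) then 1 else 0))) (fun _ _ => Nat.zero_le _) h4)
    show 1 ≤ ((if h w = 2 * ((a.natAbs : ℕ) : ℤ) then 1 else 0) +
      (if h w = -(2 * ((a.natAbs : ℕ) : ℤ)) then 1 else 0))
    rcases le_total 0 a with h5 | h5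
    · have h6 : h w = 2 * ((a.natAbs : ℕ) : ℤ) := by omega
      rw [if_pos h6]
      omega
    · have h6 : h w = -(2 * ((a.natAbs : ℕ) : ℤ)) := by omega
      rw [if_pos h6]
      omega
  have h2 : (Om D).card ≤ ∑ h ∈ Om D, ∑ j ∈ range M, ((if h w = 2 * (j : ℤ) then 1 else 0) +
      (if h w = -(2 * (j : ℤ)) then 1 else 0)) := by
    rw [Finset.card_eq_sum_ones]
    exact Finset.sum_le_sum h1
  refine h2.trans (le_of_eq ?_)
  rw [Finset.sum_comm, Finset.mul_sum]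
  refine Finset.sum_congr rfl fun j _ => ?_
  rw [Finset.sum_add_distrib, ← Finset.card_filter, ← Finset.card_filter]
  have e1 : (Finset.filter (fun h : V → ℤ => h w = 2 * (j : ℤ)) (Om D)).card =
      cnt D w (2 * (j : ℤ)) := by
    unfold cnt
    congr
  have e2 : (Finset.filter (fun h : V → ℤ => h w = -(2 * (j : ℤ))) (Om D)).card =
      cnt D w (-(2 * (j : ℤ))) := by
    unfold cnt
    congr
  rw [e1, e2, RP4.cnt_neg]
  ring

private lemma L1_p0 (D : Finset V) (w : V) :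
    p0 D w = (cnt D w 0 : ℝ) / ((Om D).card : ℝ) := by
  classical
  unfold p0 avg cnt
  rw [Finset.card_filter]
  push_cast
  congr 1

/-- The number of `g` in `Om D` with `g w = 2 k` is nearly the number with `g w = 0`. -/
theorem cnt_ratio_ge {D : Finset V} (hD : BdryPar D 0) {w : V} (hw : w ∈ D)
    (he : Even (RP4.par w)) (k : ℕ) :
    0 < cnt D w 0 ∧ 1 - 2 * k * p0 D w ≤ (cnt D w (2 * (k : ℤ)) : ℝ) / (cnt D w 0 : ℝ) := by
  classical
  obtain ⟨M, hM⟩ := L1_sum_le hw he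
  have hS := hM M le_rfl
  set S : ℕ := ∑ j ∈ range M, cnt D w (2 * (j : ℤ)) with hSdef
  have hOm : 0 < (Om D).card := Finset.card_pos.2 (RP4.Om_nonempty hD)
  have hSpos : 0 < S := by omega
  have h0 : 0 < cnt D w 0 := by
    by_contra hcon
    have hz : cnt D w 0 = 0 := by omega
    have : S = 0 := by
      rw [hSdef]
      refine Finset.sum_eq_zero fun j _ => ?_
      have := RP4.cnt_le D w hw he (2 * (j : ℤ))
      omega
    omega
  refine ⟨h0, ?_⟩
  have h1 : (∑ j ∈ range M, cnt D w (2 * ((k + j : ℕ) : ℤ))) * cnt D w 0 ≤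
      cnt D w (2 * (k : ℤ)) * S := by
    rw [Finset.sum_mul, hSdef, Finset.mul_sum]
    refine Finset.sum_le_sum fun j _ => ?_
    have h := RP4.cnt_exch D w hw (2 * ((k + j : ℕ) : ℤ)) 0 (2 * (k : ℤ)) (by positivity)
      (even_two_mul _) (by push_cast; omega)
    rw [zero_add] at h
    have e : 2 * ((k + j : ℕ) : ℤ) - 2 * (k : ℤ) = 2 * (j : ℤ) := by
      push_cast
      ring
    rw [e] at h
    exact h
  have h2 : S ≤ (∑ j ∈ range M, cnt D w (2 * ((k + j : ℕ) : ℤ))) + k * cnt D w 0 := by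
    have h3 : S ≤ ∑ j ∈ range (k + M), cnt D w (2 * (j : ℤ)) := by
      rw [hSdef]
      refine Finset.sum_le_sum_of_subset ?_
      exact Finset.range_subset_range.2 (by omega)
    rw [Finset.sum_range_add] at h3
    have h4 : ∑ j ∈ range k, cnt D w (2 * (j : ℤ)) ≤ k * cnt D w 0 := by
      calc ∑ j ∈ range k, cnt D w (2 * (j : ℤ)) ≤ ∑ _j ∈ range k, cnt D w 0 :=
            Finset.sum_le_sum fun j _ => RP4.cnt_le D w hw he _
        _ = k * cnt D w 0 := by rw [Finset.sum_const, card_range, smul_eq_mul]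
    omega
  have r0 : (0 : ℝ) < cnt D w 0 := by exact_mod_cast h0
  have rS : (0 : ℝ) < S := by exact_mod_cast hSpos
  have rO : (0 : ℝ) < (Om D).card := by exact_mod_cast hOm
  have r1 : ((∑ j ∈ range M, cnt D w (2 * ((k + j : ℕ) : ℤ)) : ℕ) : ℝ) * cnt D w 0 ≤
      cnt D w (2 * (k : ℤ)) * S := by exact_mod_cast h1
  have r2 : (S : ℝ) ≤ ((∑ j ∈ range M, cnt D w (2 * ((k + j : ℕ) : ℤ)) : ℕ) : ℝ) +
      k * cnt D w 0 := by exact_mod_cast h2
  have r3 : ((Om D).card : ℝ) ≤ 2 * S := by exact_mod_cast hS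
  rw [L1_p0, le_div_iff₀ r0]
  have r4 : ((S : ℝ) - k * cnt D w 0) * cnt D w 0 ≤ cnt D w (2 * (k : ℤ)) * S := by
    refine le_trans (mul_le_mul_of_nonneg_right ?_ r0.le) r1
    linarith
  have r5 : (1 - k * cnt D w 0 / S) * (cnt D w 0 : ℝ) ≤ cnt D w (2 * (k : ℤ)) := by
    have : (1 - k * (cnt D w 0 : ℝ) / S) * (cnt D w 0 : ℝ) =
        (((S : ℝ) - k * cnt D w 0) * cnt D w 0) / S := by
      field_simp
    rw [this, div_le_iff₀ rS]
    exact r4
  refine le_trans (mul_le_mul_of_nonneg_right ?_ r0.le) r5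
  have r6 : (k : ℝ) * (cnt D w 0 : ℝ) / S ≤ 2 * k * ((cnt D w 0 : ℝ) / (Om D).card) := by
    rw [div_le_iff₀ rS]
    have r7 : (1 : ℝ) ≤ 2 * S / (Om D).card := by
      rw [le_div_iff₀ rO, one_mul]
      exact r3
    have r8 : 0 ≤ (k : ℝ) * (cnt D w 0 : ℝ) := by positivity
    calc (k : ℝ) * (cnt D w 0 : ℝ) = (k : ℝ) * (cnt D w 0 : ℝ) * 1 := (mul_one _).symm
      _ ≤ (k : ℝ) * (cnt D w 0 : ℝ) * (2 * S / (Om D).card) :=
          mul_le_mul_of_nonneg_left r7 r8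
      _ = 2 * k * ((cnt D w 0 : ℝ) / (Om D).card) * S := by ring
  linarith

/-- Part (1) of the plan in `Lim.lean`. -/
theorem cnt_ratio (hd : Deloc) {w : V} (hw : Even (RP4.par w)) {c : ℤ} (hc : Even c) :
    Tendsto (fun D => (cnt D w c : ℝ) / (cnt D w 0 : ℝ)) dom (𝓝 1) := by
  obtain ⟨k, hk⟩ : ∃ k : ℕ, ∀ D, cnt D w c = cnt D w (2 * (k : ℤ)) := by
    obtain ⟨a, ha⟩ := hc
    refine ⟨a.natAbs, fun D => ?_⟩
    rcases le_total 0 a with h | h
    · congr 1
      omega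
    · rw [← RP4.cnt_neg]
      congr 1
      omega
  rw [Metric.tendsto_nhds]
  intro ε hε
  rw [RP4.eventually_dom]
  obtain ⟨F, hF⟩ := RP4.deloc_small hd w 1 (ε / (2 * k + 1)) (by positivity)
  refine ⟨insert w F, fun D hFD hD => ?_⟩
  have hwD : w ∈ D := hFD (Finset.mem_insert_self _ _)
  have h1 := hF D ((Finset.subset_insert _ _).trans hFD) hD
  have h2 : p0 D w < ε / (2 * k + 1) := by
    refine lt_of_eq_of_lt ?_ h1
    unfold p0
    congr 1
    funext h
    have : (|h w| < ((1 : ℕ) : ℤ)) ↔ h w = 0 := by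
      rw [Nat.cast_one, Int.abs_lt_one_iff]
    simp only [this]
  obtain ⟨h3, h4⟩ := cnt_ratio_ge hD hwD hw k
  have h5 : (cnt D w (2 * (k : ℤ)) : ℝ) / (cnt D w 0 : ℝ) ≤ 1 := by
    refine div_le_one_of_le₀ ?_ (Nat.cast_nonneg _)
    exact_mod_cast RP4.cnt_le D w hwD hw _
  rw [lt_div_iff₀ (by positivity)] at h2
  have h6 : 0 ≤ p0 D w := by
    rw [L1_p0]
    positivity
  rw [Real.dist_eq, hk D, abs_lt]
  constructor
  · nlinarith
  · linarith

end DV
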