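import Pool.Agent.Helper63.RP4.Mu
import Pool.Agent.Helper63.RP4.A11

/-!
# Project DV, block BAR (7): pinned averages converge for every boundary value

`Pin D w c`: height functions with value `0` at `w` and `c` on the boundary.
-/

open Finset Filter Topology

namespace DV

open RP4 (V Adj BdryPar Om dom avg mu Loc Deloc dist1 Pin IsHom bdry dstar)

private lemma L2_sum_avg (S : Finset (V → ℤ)) (F : (V → ℤ) → ℝ) :
    ∑ g ∈ S, F g = S.card * avg S F := by
  unfold avg
  rcases S.eq_empty_or_nonempty with h | h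
  · rw [h]; simp
  · have : (S.card : ℝ) ≠ 0 := by
      exact_mod_cast (Finset.card_pos.2 h).ne'
    field_simp

private lemma L2_mean_zero (D : Finset V) (w x : V) :
    avg (Pin D w 0) (fun g => (g x : ℝ)) = 0 := by
  have h := RP4.avg_neg_Pin D w 0 (fun g => (g x : ℝ))
  rw [neg_zero] at h
  have h1 : avg (Pin D w 0) (fun g => (((-g) x : ℤ) : ℝ)) =
      - avg (Pin D w 0) (fun g => (g x : ℝ)) := by
    unfold avg
    rw [← neg_div, ← Finset.sum_neg_distrib]
    congr 1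
    apply Finset.sum_congr rfl
    intro g _
    simp
  have h2 : - avg (Pin D w 0) (fun g => (g x : ℝ)) = avg (Pin D w 0) (fun g => (g x : ℝ)) := by
    rw [← h1]
    exact h
  linarith

private lemma L2_avg_lin (S : Finset (V → ℤ)) (s : Finset V) (L t : ℝ) (Ψ : (V → ℤ) → ℝ) :
    avg S (fun g => L * ∑ x ∈ s, (g x : ℝ) + t * Ψ g) =
      L * ∑ x ∈ s, avg S (fun g => (g x : ℝ)) + t * avg S Ψ := by
  have h : ∑ x ∈ s, avg S (fun g => (g x : ℝ)) = (∑ g ∈ S, ∑ x ∈ s, (g x : ℝ)) / S.card := by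
    unfold avg
    rw [← Finset.sum_div, Finset.sum_comm]
  rw [h]
  unfold avg
  rw [Finset.sum_add_distrib, ← Finset.mul_sum, ← Finset.mul_sum, add_div, mul_div_assoc,
    mul_div_assoc]

private lemma L2_mono (s : Finset V) (L t : ℝ) (ht : t = 1 ∨ t = -1) (Ψ : (V → ℤ) → ℝ)
    (hL : ∀ g g' : V → ℤ, |Ψ g - Ψ g'| ≤ L * ∑ x ∈ s, |(g x : ℝ) - g' x|)
    (g g' : V → ℤ) (hg : ∀ x ∈ s, g x ≤ g' x) :
    L * ∑ x ∈ s, (g x : ℝ) + t * Ψ g ≤ L * ∑ x ∈ s, (g' x : ℝ) + t * Ψ g' := by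
  have h1 := hL g g'
  have h2 : ∑ x ∈ s, |(g x : ℝ) - g' x| = ∑ x ∈ s, (g' x : ℝ) - ∑ x ∈ s, (g x : ℝ) := by
    rw [← Finset.sum_sub_distrib]
    apply Finset.sum_congr rfl
    intro x hx
    have h3 : (g x : ℝ) ≤ g' x := by exact_mod_cast hg x hx
    rw [abs_of_nonpos (by linarith)]
    ring
  rw [h2] at h1
  have h3 := abs_le.1 h1
  rcases ht with rfl | rfl
  · nlinarith [h3.1, h3.2]
  · nlinarith [h3.1, h3.2]

/-- monotonicity in the boundary value -/
theorem pin_mono (D : Finset V) (w : V) {c c' : ℤ} (hc : c ≤ c') (hne : (Pin D w c).Nonempty)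
    (hne' : (Pin D w c').Nonempty) (s : Finset V) (Φ : (V → ℤ) → ℝ)
    (hΦ : ∀ g g' : V → ℤ, (∀ x ∈ s, g x ≤ g' x) → Φ g ≤ Φ g') :
    avg (Pin D w c) Φ ≤ avg (Pin D w c') Φ := by
  refine RP4.holley_avg (Pin D w c') (Pin D w c) hne' hne ?_ ?_ Φ ?_
  · intro a ha b hb
    rw [RP4.mem_Pin] at ha hb ⊢
    refine ⟨ha.1.sup hb.1, ?_, fun v hv => ?_⟩
    · rw [Pi.sup_apply, ha.2.1, hb.2.1, sup_idem]
    · rw [Pi.sup_apply, ha.2.2 v hv, hb.2.2 v hv]
      exact max_eq_left hc
  · intro a ha b hb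
    rw [RP4.mem_Pin] at ha hb ⊢
    refine ⟨ha.1.inf hb.1, ?_, fun v hv => ?_⟩
    · rw [Pi.inf_apply, ha.2.1, hb.2.1, inf_idem]
    · rw [Pi.inf_apply, ha.2.2 v hv, hb.2.2 v hv]
      exact min_eq_right hc
  · intro a _ b _
    exact hΦ _ _ fun x _ => (le_sup_right : b x ≤ (a ⊔ b) x)

open Classical in
/-- the constant `c` on the even sites, `c + 1` on the odd sites -/
private noncomputable def L2_cf (D : Finset V) (c : ℤ) : V → ℤ := fun v =>
  if v ∈ D then (if Even (RP4.par v) then c else c + 1) else 0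

private lemma L2_cf_hom {D : Finset V} {w : V} (hw : Even (RP4.par w)) {c : ℤ} (hc : Even c) :
    IsHom D (RP4.par w) (L2_cf D c) := by
  refine ⟨fun v hv => ?_, fun v hv => ?_, fun u hu v hv h => ?_⟩
  · simp only [L2_cf, if_neg hv]
  · simp only [L2_cf, if_pos hv]
    split_ifs with h
    · exact (hc.sub h).sub hw
    · rw [Int.even_iff] at h hw hc ⊢
      omega
  · have h1 := RP4.A02_adj h
    simp only [L2_cf, if_pos hu, if_pos hv]
    split_ifs with h2 h3 h3
    · rw [Int.even_iff] at h2 h3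
      omega
    · norm_num
    · norm_num
    · rw [Int.even_iff] at h2 h3
      omega

open Classical in
/-- the distance to `w` -/
private noncomputable def L2_df (D : Finset V) (w : V) : V → ℤ := fun v =>
  if v ∈ D then dist1 w v else 0

private lemma L2_dist_adj {w u v : V} (h : Adj u v) : |dist1 w u - dist1 w v| ≤ 1 := by
  unfold Adj at h
  unfold dist1
  have a1 := abs_sub_abs_le_abs_sub (w.1 - u.1) (w.1 - v.1)
  have a2 := abs_sub_abs_le_abs_sub (w.1 - v.1) (w.1 - u.1)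
  have a3 := abs_sub_abs_le_abs_sub (w.2 - u.2) (w.2 - v.2)
  have a4 := abs_sub_abs_le_abs_sub (w.2 - v.2) (w.2 - u.2)
  have e1 : |w.1 - u.1 - (w.1 - v.1)| = |u.1 - v.1| := by
    rw [show w.1 - u.1 - (w.1 - v.1) = -(u.1 - v.1) by ring, abs_neg]
  have e2 : |w.1 - v.1 - (w.1 - u.1)| = |u.1 - v.1| := by
    rw [show w.1 - v.1 - (w.1 - u.1) = u.1 - v.1 by ring]
  have e3 : |w.2 - u.2 - (w.2 - v.2)| = |u.2 - v.2| := by
    rw [show w.2 - u.2 - (w.2 - v.2) = -(u.2 - v.2) by ring, abs_neg]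
  have e4 : |w.2 - v.2 - (w.2 - u.2)| = |u.2 - v.2| := by
    rw [show w.2 - v.2 - (w.2 - u.2) = u.2 - v.2 by ring]
  rw [e1] at a1
  rw [e2] at a2
  rw [e3] at a3
  rw [e4] at a4
  rw [abs_le]
  constructor <;> linarith

private lemma L2_dist_par (w v : V) : Even (dist1 w v - RP4.par v - RP4.par w) := by
  unfold dist1 RP4.par
  rcases abs_cases (w.1 - v.1) with ⟨h1, _⟩ | ⟨h1, _⟩ <;>
    rcases abs_cases (w.2 - v.2) with ⟨h3, _⟩ | ⟨h3, _⟩ <;> rw [h1, h3, Int.even_iff] <;> omega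

private lemma L2_df_hom {D : Finset V} {w : V} : IsHom D (RP4.par w) (L2_df D w) := by
  refine ⟨fun v hv => ?_, fun v hv => ?_, fun u hu v hv h => ?_⟩
  · simp only [L2_df, if_neg hv]
  · simp only [L2_df, if_pos hv]
    exact L2_dist_par w v
  · simp only [L2_df, if_pos hu, if_pos hv]
    have h1 := RP4.A02_adj h
    have h2 := L2_dist_par w u
    have h3 := L2_dist_par w v
    have h4 := L2_dist_adj (w := w) h
    rw [Int.even_iff] at h2 h3
    rw [abs_le] at h4
    have h5 : dist1 w u - dist1 w v = 1 ∨ dist1 w u - dist1 w v = -1 := by omega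
    rcases h5 with h5 | h5 <;> rw [h5] <;> norm_num

/-- pinned height functions with even boundary value exist in large domains -/
theorem pin_nonempty {D : Finset V} (hq : BdryPar D 0) {w : V} (hw : Even (RP4.par w)) (hwD : w ∈ D)
    {c : ℤ} (hc : Even c) (hb : ∀ v ∈ bdry D, |c| ≤ dist1 w v) : (Pin D w c).Nonempty := by
  have key : ∀ c : ℤ, Even c → 0 ≤ c → (∀ v ∈ bdry D, |c| ≤ dist1 w v) → (Pin D w c).Nonempty := by
    intro c hc h0 hb
    refine ⟨L2_df D w ⊓ L2_cf D c, ?_⟩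
    rw [RP4.mem_Pin]
    refine ⟨L2_df_hom.inf (L2_cf_hom hw hc), ?_, fun v hv => ?_⟩
    · rw [Pi.inf_apply]
      simp only [L2_df, L2_cf, if_pos hwD, if_pos hw]
      have : dist1 w w = 0 := by simp [dist1]
      rw [this]
      exact min_eq_left h0
    · have hvD := RP4.bdry_subset D hv
      have h1 := hq v hv
      rw [sub_zero] at h1
      rw [Pi.inf_apply]
      simp only [L2_df, L2_cf, if_pos hvD, if_pos h1]
      have := hb v hv
      rw [abs_of_nonneg h0] at this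
      exact min_eq_right this
  rcases le_total 0 c with h0 | h0
  · exact key c hc h0 hb
  · have h1 := key (-c) hc.neg (by omega) (fun v hv => by rw [abs_neg]; exact hb v hv)
    rw [← Finset.card_pos, RP4.card_Pin_neg, Finset.card_pos] at h1
    exact h1

/-- the mean of `g x` is small for a fixed boundary value -/
theorem pin_mean_small {D : Finset V} (hq : BdryPar D 0) {w x : V}
    (hball : ∀ v, dist1 w v ≤ dist1 w x → v ∈ D) (hwD : w ∈ D) {c : ℤ} (h0 : 0 ≤ c)
    (hne : (Pin D w c).Nonempty) {J : ℕ} (hJ : c ≤ J) :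
    (J : ℝ) * avg (Pin D w c) (fun g => (g x : ℝ)) *
      (1 - avg (Om D) (fun h => if |h w| < J then 1 else 0)) ≤ (dist1 w x : ℝ) ^ 2 := by
  classical
  set e : ℝ := avg (Pin D w c) (fun g => (g x : ℝ)) with he
  have he0 : 0 ≤ e := RP4.pin_mean_nonneg D w c h0 x
  have hxD : x ∈ D := hball x le_rfl
  have hN : (0 : ℝ) < ((Om D).card : ℝ) := by
    exact_mod_cast Finset.card_pos.2 (RP4.Om_nonempty hq)
  have hsh : ∀ h : V → ℤ, RP4.shift D w h x = h x - h w := by
    intro h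
    unfold RP4.shift
    simp [hxD]
  have s3 : ∑ h ∈ Om D, (-(h w : ℝ)) * ((h x : ℝ) - h w) =
      ∑ c ∈ Finset.Icc (-(D.card : ℤ)) (D.card : ℤ), ∑ g ∈ Pin D w c, (c : ℝ) * (g x : ℝ) := by
    rw [← RP4.sum_Om D hq w hwD (fun c g => (c : ℝ) * (g x : ℝ))]
    apply Finset.sum_congr rfl
    intro h _
    rw [hsh h]
    push_cast
    ring
  have s2 : ∑ h ∈ Om D, (if |h w| < (J : ℤ) then (1 : ℝ) else 0) =
      ∑ c ∈ Finset.Icc (-(D.card : ℤ)) (D.card : ℤ),
        ∑ g ∈ Pin D w c, (if |c| < (J : ℤ) then (1 : ℝ) else 0) := by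
    rw [← RP4.sum_Om D hq w hwD (fun c _ => if |c| < (J : ℤ) then (1 : ℝ) else 0)]
    apply Finset.sum_congr rfl
    intro h _
    rw [abs_neg]
  have s1 : ((Om D).card : ℝ) =
      ∑ c ∈ Finset.Icc (-(D.card : ℤ)) (D.card : ℤ), ∑ g ∈ Pin D w c, (1 : ℝ) := by
    rw [← RP4.sum_Om D hq w hwD (fun _ _ => (1 : ℝ))]
    simp
  have s4 : ∑ h ∈ Om D, (-(h w : ℝ)) * ((h x : ℝ) - h w) ≤
      (Om D).card * (dist1 w x : ℝ) ^ 2 := by
    have h1 := RP4.corr_nonneg D x w hxD hwD
    have h2 : 0 ≤ ∑ h ∈ Om D, (h x : ℝ) * ((h x : ℝ) - h w) := by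
      rw [L2_sum_avg]
      exact mul_nonneg hN.le h1
    have h3 : ∑ h ∈ Om D, ((h x : ℝ) - h w) ^ 2 ≤ (Om D).card * (dist1 w x : ℝ) ^ 2 := by
      rw [← nsmul_eq_mul]
      apply Finset.sum_le_card_nsmul
      intro h hh
      rw [RP4.mem_Om] at hh
      have h4 := hh.1.lip w x hball
      have h5 : |(h x : ℝ) - h w| ≤ (dist1 w x : ℝ) := by
        exact_mod_cast h4
      rw [← sq_abs]
      exact pow_le_pow_left₀ (abs_nonneg _) h5 2
    have h6 : ∑ h ∈ Om D, (-(h w : ℝ)) * ((h x : ℝ) - h w) =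
        ∑ h ∈ Om D, ((h x : ℝ) - h w) ^ 2 - ∑ h ∈ Om D, (h x : ℝ) * ((h x : ℝ) - h w) := by
      rw [← Finset.sum_sub_distrib]
      apply Finset.sum_congr rfl
      intro h _
      ring
    rw [h6]
    linarith
  -- nonnegative boundary values
  have pos : ∀ c' : ℤ, 0 ≤ c' → (J : ℝ) * e * ∑ g ∈ Pin D w c', (1 - if |c'| < (J : ℤ) then (1 : ℝ) else 0) ≤
      ∑ g ∈ Pin D w c', (c' : ℝ) * (g x : ℝ) := by
    intro c' hc'
    have h1 := RP4.pin_mean_nonneg D w c' hc' x
    rw [← Finset.mul_sum, L2_sum_avg (Pin D w c') (fun g => (g x : ℝ)), Finset.sum_const, nsmul_eq_mul]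
    have hc0 : (0 : ℝ) ≤ c' := by exact_mod_cast hc'
    by_cases h2 : |c'| < (J : ℤ)
    · rw [if_pos h2, sub_self, mul_zero, mul_zero]
      exact mul_nonneg hc0 (mul_nonneg (Nat.cast_nonneg _) h1)
    · rw [if_neg h2, sub_zero, mul_one]
      push Not at h2
      rw [abs_of_nonneg hc'] at h2
      rcases (Pin D w c').eq_empty_or_nonempty with h3 | h3
      · rw [h3]; simp
      · have h4 := pin_mono D w (hJ.trans h2) hne h3 {x} (fun g => (g x : ℝ)) (fun g g' h => by
          exact_mod_cast h x (Finset.mem_singleton_self x))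
        have h5 : (J : ℝ) ≤ c' := by exact_mod_cast h2
        have h6 : (J : ℝ) * e ≤ c' * avg (Pin D w c') (fun g => (g x : ℝ)) :=
          mul_le_mul h5 h4 he0 hc0
        calc (J : ℝ) * e * ((Pin D w c').card : ℝ) ≤
            (c' * avg (Pin D w c') (fun g => (g x : ℝ))) * ((Pin D w c').card : ℝ) :=
              mul_le_mul_of_nonneg_right h6 (Nat.cast_nonneg _)
          _ = _ := by ring
  have all : ∀ c' : ℤ, (J : ℝ) * e * ∑ g ∈ Pin D w c', (1 - if |c'| < (J : ℤ) then (1 : ℝ) else 0) ≤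
      ∑ g ∈ Pin D w c', (c' : ℝ) * (g x : ℝ) := by
    intro c'
    rcases le_total 0 c' with h | h
    · exact pos c' h
    · have h1 := pos (-c') (by omega)
      rw [abs_neg, Finset.sum_const, RP4.card_Pin_neg, ← Finset.sum_const] at h1
      refine h1.trans (le_of_eq ?_)
      rw [L2_sum_avg (Pin D w (-c')) (fun g => ((-c' : ℤ) : ℝ) * (g x : ℝ)), RP4.card_Pin_neg,
        L2_sum_avg (Pin D w c') (fun g => (c' : ℝ) * (g x : ℝ)),
        ← RP4.avg_neg_Pin D w c' (fun g => (c' : ℝ) * (g x : ℝ))]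
      congr 2
      funext g
      simp only [Pi.neg_apply]
      push_cast
      ring
  have h7 : (J : ℝ) * e * (((Om D).card : ℝ) - ∑ h ∈ Om D, (if |h w| < (J : ℤ) then (1 : ℝ) else 0)) ≤
      (Om D).card * (dist1 w x : ℝ) ^ 2 := by
    refine le_trans ?_ s4
    rw [s3, s2, s1, ← Finset.sum_sub_distrib, Finset.mul_sum]
    refine Finset.sum_le_sum fun c' _ => ?_
    rw [← Finset.sum_sub_distrib]
    exact all c'
  have h8 : avg (Om D) (fun h => if |h w| < (J : ℤ) then (1 : ℝ) else 0) =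
      (∑ h ∈ Om D, (if |h w| < (J : ℤ) then (1 : ℝ) else 0)) / (Om D).card := rfl
  rw [h8]
  have h9 : (J : ℝ) * e * (1 - (∑ h ∈ Om D, (if |h w| < (J : ℤ) then (1 : ℝ) else 0)) / (Om D).card) =
      ((J : ℝ) * e * (((Om D).card : ℝ) - ∑ h ∈ Om D, (if |h w| < (J : ℤ) then (1 : ℝ) else 0))) /
        (Om D).card := by
    field_simp
  rw [h9, div_le_iff₀ hN, mul_comm ((dist1 w x : ℝ) ^ 2)]
  exact h7

/-- a function of finitely many bounded integers is bounded -/
private lemma L2_bdd (s : Finset V) (F : (V → ℤ) → ℝ)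
    (hF : ∀ g g' : V → ℤ, (∀ x ∈ s, g x = g' x) → F g = F g') (N : ℤ) :
    ∃ B : ℝ, 0 ≤ B ∧ ∀ g : V → ℤ, (∀ x ∈ s, |g x| ≤ N) → |F g| ≤ B := by
  classical
  set Φ : ({x // x ∈ s} → {a : ℤ // a ∈ Finset.Icc (-N) N}) → ℝ :=
    fun a => F (fun v => if h : v ∈ s then (a ⟨v, h⟩ : ℤ) else 0) with hΦ
  refine ⟨∑ a, |Φ a|, Finset.sum_nonneg fun a _ => abs_nonneg _, fun g hg => ?_⟩
  obtain ⟨a, ha⟩ : ∃ a, F g = Φ a := by
    refine ⟨fun x => ⟨g x, Finset.mem_Icc.2 (abs_le.1 (hg x x.2))⟩, hF _ _ fun x hx => ?_⟩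
    rw [dif_pos hx]
  rw [ha]
  exact Finset.single_le_sum (f := fun a => |Φ a|) (fun a _ => abs_nonneg _) (Finset.mem_univ a)

/-- pinned averages converge, nonnegative boundary value -/
private theorem L2_pos (hd : Deloc) {s : Finset V} {F : (V → ℤ) → ℝ} (hF : Loc s F) {w : V}
    (hw : Even (RP4.par w)) {c : ℤ} (hc : Even c) (hc0 : 0 ≤ c) :
    Tendsto (fun D => avg (Pin D w c) F) dom (𝓝 (mu F)) := by
  classical
  have hFv : ∀ g g' : V → ℤ, (∀ x ∈ s, g x = g' x) → F g = F g' := fun g g' hg =>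
    hF g g' fun x hx y hy => by rw [hg x hx, hg y hy]
  have hdn : ∀ x : V, 0 ≤ dist1 w x := fun x => by unfold dist1; positivity
  set N : ℤ := ∑ x ∈ s, dist1 w x + c + 1 with hN
  have hNs : 0 ≤ ∑ x ∈ s, dist1 w x := Finset.sum_nonneg fun x _ => hdn x
  have hN0 : 0 ≤ N := by omega
  have hNx : ∀ x ∈ s, dist1 w x ≤ N := fun x hx => by
    have := Finset.single_le_sum (f := fun x => dist1 w x) (fun y _ => hdn y) hx
    omega
  set Bd : Finset V := (Finset.Icc (w.1 - N) (w.1 + N)) ×ˢ (Finset.Icc (w.2 - N) (w.2 + N)) with hBd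
  have hBdm : ∀ v, dist1 w v ≤ N → v ∈ Bd := by
    intro v hv
    rw [hBd, Finset.mem_product, Finset.mem_Icc, Finset.mem_Icc]
    have h1 : |w.1 - v.1| + |w.2 - v.2| ≤ N := hv
    have h2 := abs_nonneg (w.1 - v.1)
    have h3 := abs_nonneg (w.2 - v.2)
    have h4 := abs_le.1 (show |w.1 - v.1| ≤ N by omega)
    have h5 := abs_le.1 (show |w.2 - v.2| ≤ N by omega)
    omega
  -- the clamped function
  set cl : ℤ → ℤ := fun a => max (-N) (min N a) with hcl
  have hcl1 : ∀ a, |a| ≤ N → cl a = a := by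
    intro a ha
    have h1 := abs_le.1 ha
    simp only [hcl]
    rw [min_eq_right h1.2, max_eq_right h1.1]
  have hcl2 : ∀ a, |cl a| ≤ N := by
    intro a
    simp only [hcl]
    rw [abs_le]
    exact ⟨le_max_left _ _, max_le (by omega) (min_le_left _ _)⟩
  obtain ⟨B, hB0, hBF⟩ := L2_bdd s F hFv N
  set Ψ : (V → ℤ) → ℝ := fun g => F (fun v => cl (g v)) with hΨ
  have hΨL : ∀ g g' : V → ℤ, |Ψ g - Ψ g'| ≤ (2 * B) * ∑ x ∈ s, |(g x : ℝ) - g' x| := by
    intro g g'
    by_cases h : ∀ x ∈ s, g x = g' x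
    · have h1 : Ψ g = Ψ g' := hFv _ _ fun x hx => by rw [h x hx]
      rw [h1, sub_self, abs_zero]
      exact mul_nonneg (by positivity) (Finset.sum_nonneg fun x _ => abs_nonneg _)
    · push Not at h
      obtain ⟨x, hx, hne⟩ := h
      have h1 : |Ψ g - Ψ g'| ≤ 2 * B := by
        have h2 : |Ψ g| ≤ B := hBF _ fun x _ => hcl2 _
        have h3 : |Ψ g'| ≤ B := hBF _ fun x _ => hcl2 _
        refine (abs_sub _ _).trans ?_
        linarith
      have h4 : (1 : ℝ) ≤ |(g x : ℝ) - g' x| := by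
        have h5 : 1 ≤ |g x - g' x| := Int.one_le_abs (sub_ne_zero.2 hne)
        exact_mod_cast h5
      have h6 : (1 : ℝ) ≤ ∑ x ∈ s, |(g x : ℝ) - g' x| :=
        h4.trans (Finset.single_le_sum (f := fun x => |(g x : ℝ) - g' x|)
          (fun y _ => abs_nonneg _) hx)
      exact h1.trans (le_mul_of_one_le_right (by positivity) h6)
  have hA : Tendsto (fun D => avg (Pin D w c) F - avg (Om D) F) dom (𝓝 0) := by
    rw [Metric.tendsto_nhds]
    intro ε hε
    set S1 : ℝ := ∑ x ∈ s, (dist1 w x : ℝ) with hS1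
    set S2 : ℝ := ∑ x ∈ s, (dist1 w x : ℝ) ^ 2 with hS2
    have hS10 : 0 ≤ S1 := Finset.sum_nonneg fun x _ => by exact_mod_cast hdn x
    have hS20 : 0 ≤ S2 := Finset.sum_nonneg fun x _ => by positivity
    obtain ⟨J₀, hJ₀⟩ := exists_nat_gt (max (8 * (2 * B) * S2 / ε) (c : ℝ))
    set J : ℕ := J₀ + 1 with hJdef
    have hJr : (J : ℝ) = (J₀ : ℝ) + 1 := by rw [hJdef]; push_cast; ring
    have hJ1 : 8 * (2 * B) * S2 / ε < (J : ℝ) := by
      rw [hJr]
      have := (le_max_left _ _).trans_lt hJ₀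
      linarith
    have hJc : c ≤ (J : ℤ) := by
      have h1 : (c : ℝ) < J := by
        rw [hJr]
        have := (le_max_right _ _).trans_lt hJ₀
        linarith
      have h2 : (c : ℝ) < ((J : ℤ) : ℝ) := by exact_mod_cast h1
      exact (Int.cast_lt.1 h2).le
    have hJ0 : (0 : ℝ) < (J : ℝ) := by rw [hJr]; positivity
    have hη : 0 < min (1 / 2 : ℝ) (ε / (4 * (2 * B * S1 + 1))) := by positivity
    obtain ⟨G, hG⟩ := RP4.deloc_small hd w J _ hη
    rw [RP4.eventually_dom]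
    refine ⟨G ∪ Bd.biUnion (fun v => (Finset.Icc (v.1 - 1) (v.1 + 1)) ×ˢ (Finset.Icc (v.2 - 1) (v.2 + 1))),
      fun D hD hp => ?_⟩
    have hD1 := Finset.union_subset_left hD
    have hD2 := Finset.union_subset_right hD
    have hin : ∀ v, dist1 w v ≤ N → v ∈ D ∧ v ∉ bdry D := by
      intro v hv
      have h1 : ∀ u : V, |u.1 - v.1| + |u.2 - v.2| ≤ 1 → u ∈ D := by
        intro u hu
        apply hD2
        rw [Finset.mem_biUnion]
        refine ⟨v, hBdm v hv, ?_⟩
        rw [Finset.mem_product, Finset.mem_Icc, Finset.mem_Icc]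
        have h2 := abs_nonneg (u.1 - v.1)
        have h3 := abs_nonneg (u.2 - v.2)
        have h4 := abs_le.1 (show |u.1 - v.1| ≤ 1 by omega)
        have h5 := abs_le.1 (show |u.2 - v.2| ≤ 1 by omega)
        omega
      refine ⟨h1 v (by simp), fun hb => ?_⟩
      obtain ⟨_, u, hu, hu'⟩ := RP4.mem_bdry.1 hb
      exact hu' (h1 u (le_of_eq hu))
    have hw0 : dist1 w w ≤ N := by
      unfold dist1
      simpa using hN0
    have hwD := (hin w hw0).1
    have hds : dstar D w = D := by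
      unfold dstar
      rw [if_pos hw]
    have hne : (Pin D w c).Nonempty := by
      refine pin_nonempty hp hw hwD hc fun v hv => ?_
      by_contra h1
      push Not at h1
      rw [abs_of_nonneg hc0] at h1
      exact (hin v (by omega)).2 hv
    have hne0 : (Pin D w 0).Nonempty := by
      refine pin_nonempty hp hw hwD Even.zero fun v hv => ?_
      rw [abs_zero]
      exact hdn v
    have h1 := RP4.key_est_gen D hp w s (fun x hx v hv => (hin v (hv.trans (hNx x hx))).1)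
      (by rw [hds]; exact hwD) (fun x hx => by rw [hds]; exact (hin x (hNx x hx)).1) Ψ (2 * B)
      (by positivity) hΨL J (Nat.succ_pos J₀)
    rw [hds] at h1
    have h2 := hG D hD1 hp
    have h2a := h2.trans_le (min_le_left _ _)
    have h2b := h2.trans_le (min_le_right _ _)
    have e1 : avg (Om D) (fun h => Ψ (fun v => h v - h w)) = avg (Om D) F := by
      unfold avg
      congr 1
      refine Finset.sum_congr rfl fun g hg => ?_
      have h4 : F (fun v => g v - g w) = F g := hF _ _ fun x _ y _ => by ring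
      rw [← h4]
      refine hFv _ _ fun x hx => ?_
      have h3 := (RP4.mem_Om.1 hg).1.lip w x (fun v hv => (hin v (hv.trans (hNx x hx))).1)
      exact hcl1 _ (h3.trans (hNx x hx))
    have e2 : avg (Pin D w c) Ψ = avg (Pin D w c) F := by
      unfold avg
      congr 1
      refine Finset.sum_congr rfl fun g hg => ?_
      refine hFv _ _ fun x hx => ?_
      rw [RP4.mem_Pin] at hg
      have h3 := hg.1.lip w x (fun v hv => (hin v (hv.trans (hNx x hx))).1)
      rw [hg.2.1, sub_zero] at h3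
      exact hcl1 _ (h3.trans (hNx x hx))
    rw [e1] at h1
    -- the comparison with the boundary value zero
    have h3 : |avg (Pin D w c) Ψ - avg (Pin D w 0) Ψ| ≤
        2 * B * ∑ x ∈ s, avg (Pin D w c) (fun g => (g x : ℝ)) := by
      have g1 := pin_mono D w hc0 hne0 hne s _ (L2_mono s (2 * B) 1 (Or.inl rfl) Ψ hΨL)
      have g2 := pin_mono D w hc0 hne0 hne s _ (L2_mono s (2 * B) (-1) (Or.inr rfl) Ψ hΨL)
      rw [L2_avg_lin, L2_avg_lin] at g1 g2
      have g3 : ∑ x ∈ s, avg (Pin D w 0) (fun g => (g x : ℝ)) = 0 :=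
        Finset.sum_eq_zero (fun x _ => L2_mean_zero _ _ _)
      rw [g3] at g1 g2
      rw [abs_le]
      constructor <;> linarith
    have h4 : ∑ x ∈ s, avg (Pin D w c) (fun g => (g x : ℝ)) ≤ 2 * S2 / J := by
      rw [hS2, Finset.mul_sum, Finset.sum_div]
      refine Finset.sum_le_sum fun x hx => ?_
      have g1 := pin_mean_small hp (fun v hv => (hin v (hv.trans (hNx x hx))).1) hwD hc0 hne hJc
      rw [le_div_iff₀ hJ0]
      have g2 := RP4.pin_mean_nonneg D w c hc0 x
      have g3 : (J : ℝ) * avg (Pin D w c) (fun g => (g x : ℝ)) * (1 / 2) ≤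
          (J : ℝ) * avg (Pin D w c) (fun g => (g x : ℝ)) *
            (1 - avg (Om D) (fun h => if |h w| < J then 1 else 0)) := by
        refine mul_le_mul_of_nonneg_left ?_ (mul_nonneg hJ0.le g2)
        linarith
      linarith
    have h5 : 2 * B * (2 * S2 / J) < ε / 4 := by
      rw [mul_div_assoc', div_lt_div_iff₀ hJ0 (by norm_num)]
      rw [div_lt_iff₀ hε] at hJ1
      linarith
    rw [Finset.sum_add_distrib, ← Finset.sum_mul, ← Finset.sum_div, ← hS1, ← hS2] at h1
    set p : ℝ := avg (Om D) (fun h => if |h w| < (J : ℤ) then 1 else 0) with hpdef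
    have h6 : 2 * B * (S1 * p) ≤ 2 * B * S1 * (ε / (4 * (2 * B * S1 + 1))) := by
      rw [← mul_assoc]
      exact mul_le_mul_of_nonneg_left h2b.le (by positivity)
    have h7 : 2 * B * S1 * (ε / (4 * (2 * B * S1 + 1))) ≤ ε / 4 := by
      rw [mul_div_assoc', div_le_div_iff₀ (by positivity) (by norm_num)]
      nlinarith [mul_nonneg hB0 hS10]
    have h8 : 2 * B * (S2 / (J : ℝ)) < ε / 4 := by
      rw [mul_div_assoc', div_lt_div_iff₀ hJ0 (by norm_num)]
      rw [div_lt_iff₀ hε] at hJ1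
      nlinarith [mul_nonneg hB0 hS20]
    rw [mul_add] at h1
    rw [Real.dist_eq, sub_zero, ← e2]
    have h9 : 2 * B * ∑ x ∈ s, avg (Pin D w c) (fun g => (g x : ℝ)) ≤ 2 * B * (2 * S2 / J) :=
      mul_le_mul_of_nonneg_left h4 (by positivity)
    have h10 := abs_le.1 h1
    have h11 := abs_le.1 h3
    rw [abs_lt]
    constructor <;> linarith [h10.1, h10.2, h11.1, h11.2]
  have h := hA.add (RP4.mu_tendsto hd hF)
  simpa using h

/-- **Pinned averages converge for every even boundary value.** -/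
theorem pin_tendsto (hd : Deloc) {s : Finset V} {F : (V → ℤ) → ℝ} (hF : Loc s F) {w : V}
    (hw : Even (RP4.par w)) {c : ℤ} (hc : Even c) :
    Tendsto (fun D => avg (Pin D w c) F) dom (𝓝 (mu F)) := by
  rcases le_total 0 c with h0 | h0
  · exact L2_pos hd hF hw hc h0
  · have hG : Loc s (fun h => F (-h)) := fun g g' h => hF _ _ fun x hx y hy => by
      have := h x hx y hy
      simp only [Pi.neg_apply]
      omega
    have h1 := L2_pos hd hG hw hc.neg (show 0 ≤ -c by omega)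
    rw [RP4.mu_neg hd hF] at h1
    refine h1.congr fun D => ?_
    exact RP4.avg_neg_Pin D w c F

end DV
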