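import Pool.Agent.Helper33.DV.Pm4
import Pool.Agent.Helper63.RP4.A12
import Pool.Agent.Helper63.RP4.M4
import Pool.Agent.Helper94.BR.Lim1
import Pool.Agent.Helper94.BR.Lim2

/-!
# Project DV, block BAR (7): the floating measure as a limit of zero boundary measures

No sum over the levels: the counting measure on `Om D` divided by the number of `g ∈ Om D` with `g w = 0`.
(1) `cnt_ratio` (Lim1), (2) `pin_tendsto` (Lim2), (3) here.
-/

open Finset Filter Topology

namespace DV

open RP4 (V Adj BdryPar Om dom avg mu Loc Deloc dist1 cnt Pin)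

lemma L3_avc_mul_card (S : Finset (V → ℤ)) (F : (V → ℤ) → ℂ) :
    (S.card : ℂ) * avc S F = ∑ g ∈ S, F g := by
  unfold avc
  rcases S.eq_empty_or_nonempty with h | h
  · subst h
    simp
  · have h1 : (S.card : ℂ) ≠ 0 := by exact_mod_cast h.card_pos.ne'
    field_simp

lemma L3_muP_sum (hd : Deloc) {s : Finset V} (T : Finset ℤ) (F : ℤ → (V → ℤ) → ℂ)
    (hF : ∀ j, AL s (F j)) (h0 : ∀ j, Phs 0 (F j)) :
    (AL s (fun h => ∑ j ∈ T, F j h)) ∧ Phs 0 (fun h => ∑ j ∈ T, F j h) ∧
      muP (fun h => ∑ j ∈ T, F j h) = ∑ j ∈ T, muP (F j) := by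
  classical
  induction T using Finset.induction_on with
  | empty =>
    refine ⟨fun h h' _ => by simp, fun k h => by simp, ?_⟩
    simp only [Finset.sum_empty]
    exact muP_const 0
  | insert a T ha ih =>
    obtain ⟨h1, h2, h3⟩ := ih
    have e : (fun h => ∑ j ∈ insert a T, F j h) = fun h => F a h + ∑ j ∈ T, F j h := by
      funext h
      rw [Finset.sum_insert ha]
    rw [e]
    refine ⟨(hF a).add h1, fun k h => ?_, ?_⟩
    · have e1 := h0 a k h
      have e2 := h2 k h
      simp only at e2 ⊢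
      rw [e1, e2]
      ring
    · rw [muP_add hd (hF a) (h0 a) h1 h2, h3, Finset.sum_insert ha]

/-- the height functions with value `c` at `w`, lowered by `c` -/
lemma L3_bij {D : Finset V} (hD : BdryPar D 0) {w : V} (hwD : w ∈ D) (hw : Even (RP4.par w)) {c : ℤ}
    (hc : Even c) (A Φ : (V → ℤ) → ℂ) (h : ∀ g ∈ Om D, ∀ g' : V → ℤ, g w = c → g' w = 0 →
      (∀ v ∈ D, g v = g' v + c) → A g = Φ g') :
    ∑ g ∈ (Om D).filter (fun g => g w = c), A g = ∑ g ∈ Pin D w (-c), Φ g := by
  classical
  have hb : ∀ v ∈ RP4.bdry D, v ∈ D := fun v hv => (RP4.mem_bdry.1 hv).1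
  refine Finset.sum_nbij' (fun g => fun v => if v ∈ D then g v - c else 0)
    (fun g => fun v => if v ∈ D then g v + c else 0) ?_ ?_ ?_ ?_ ?_
  · intro g hg
    rw [Finset.mem_filter, RP4.mem_Om] at hg
    obtain ⟨⟨h1, h2⟩, h3⟩ := hg
    rw [RP4.mem_Pin]
    refine ⟨⟨fun v hv => if_neg hv, fun v hv => ?_, fun u hu v hv huv => ?_⟩, ?_, fun v hv => ?_⟩
    · simp only [if_pos hv]
      have h4 := h1.par v hv
      rw [Int.even_iff] at h4 hw hc ⊢
      omega
    · simp only [if_pos hu, if_pos hv]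
      rw [← h1.step u hu v hv huv]
      congr 1
      ring
    · simp only [if_pos hwD, h3]
      ring
    · simp only [if_pos (hb v hv), h2 v hv]
      ring
  · intro g hg
    rw [RP4.mem_Pin] at hg
    obtain ⟨h1, h2, h3⟩ := hg
    rw [Finset.mem_filter, RP4.mem_Om]
    refine ⟨⟨⟨fun v hv => if_neg hv, fun v hv => ?_, fun u hu v hv huv => ?_⟩, fun v hv => ?_⟩, ?_⟩
    · simp only [if_pos hv]
      have h4 := h1.par v hv
      rw [Int.even_iff] at h4 hw hc ⊢
      omega
    · simp only [if_pos hu, if_pos hv]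
      rw [← h1.step u hu v hv huv]
      congr 1
      ring
    · simp only [if_pos (hb v hv), h3 v hv]
      ring
    · simp only [if_pos hwD, h2]
      ring
  · intro g hg
    rw [Finset.mem_filter, RP4.mem_Om] at hg
    funext v
    by_cases hv : v ∈ D
    · simp only [if_pos hv]
      ring
    · simp only [if_neg hv]
      exact (hg.1.1.off v hv).symm
  · intro g hg
    rw [RP4.mem_Pin] at hg
    funext v
    by_cases hv : v ∈ D
    · simp only [if_pos hv]
      ring
    · simp only [if_neg hv]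
      exact (hg.1.off v hv).symm
  · intro g hg
    rw [Finset.mem_filter] at hg
    refine h g hg.1 _ hg.2 ?_ fun v hv => ?_
    · simp only [if_pos hwD, hg.2]
      ring
    · simp only [if_pos hv]
      ring

lemma L3_card {D : Finset V} (hD : BdryPar D 0) {w : V} (hwD : w ∈ D) (hw : Even (RP4.par w)) {c : ℤ}
    (hc : Even c) : (cnt D w c : ℂ) = (Pin D w (-c)).card := by
  classical
  have h := L3_bij hD hwD hw hc (fun _ => 1) (fun _ => 1) (fun _ _ _ _ _ _ => rfl)
  simp only [Finset.sum_const, nsmul_eq_mul, mul_one] at h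
  rw [← h]
  unfold cnt
  congr 2

theorem M_om (hd : Deloc) {s : Finset V} {A : (V → ℤ) → ℂ} (hA : Pn s A) {w : V}
    (hw : Even (RP4.par w)) :
    Tendsto (fun D => (∑ g ∈ Om D, A g) / (cnt D w 0 : ℂ)) dom (𝓝 (M A)) := by
  classical
  obtain ⟨N, hN⟩ := hA.pin
  obtain ⟨K, hK⟩ : ∃ K : ℤ, ∀ h : V → ℤ, GH h → A h ≠ 0 → |h w| ≤ K := by
    refine ⟨N + ∑ x ∈ s, dist1 x w, fun h hh h0 => ?_⟩
    obtain ⟨x, hx, hx2⟩ := hN h h0
    have h1 := gh_lip_pm3 hh x w
    have h2 : dist1 x w ≤ ∑ x ∈ s, dist1 x w :=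
      Finset.single_le_sum (f := fun x => dist1 x w)
        (fun y _ => add_nonneg (abs_nonneg _) (abs_nonneg _)) hx
    have h3 : |h w| ≤ |h x| + |h x - h w| := by
      have := abs_sub_abs_le_abs_sub (h w) (h x)
      rw [abs_sub_comm (h w)] at this
      omega
    omega
  set Φ : ℤ → (V → ℤ) → ℂ := fun j h => A (fun v => h v - h w + 2 * j) with hΦ
  have hloc : ∀ j, AL (insert w s) (Φ j) := by
    intro j h h' hh
    refine hA.loc _ _ fun x hx => ?_
    rw [hh x (Finset.mem_insert_of_mem hx), hh w (Finset.mem_insert_self w s)]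
  have hlev : ∀ j k h, Φ j (lev k h) = Φ j h := by
    intro j k h
    simp only [hΦ, lev]
    congr 1
    funext v
    ring
  have hphs : ∀ j, Phs 0 (Φ j) := by
    intro j k h
    rw [hlev]
    simp
  obtain ⟨hs1, hs2, hs3⟩ := L3_muP_sum hd (Finset.Icc (-K) K) Φ hloc hphs
  have hM : M A = ∑ j ∈ Finset.Icc (-K) K, muP (Φ j) := by
    rw [← hs3]
    refine muP_congr hd ((per_al hA.loc).mono (Finset.subset_insert w s)) (per_phs A) hs1 hs2 ?_
    intro g hg
    obtain ⟨m, hm⟩ : ∃ m : ℤ, g w = 2 * m := by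
      have h1 := hg.par w
      rw [Int.even_iff] at h1 hw
      exact ⟨g w / 2, by omega⟩
    rw [per_eq_sum g ((Finset.Icc (-K) K).image (fun j => m - j))]
    · rw [Finset.sum_image (fun a _ b _ hab => by simpa using hab)]
      refine Finset.sum_congr rfl fun j _ => ?_
      show A (lev (m - j) g) = A (fun v => g v - g w + 2 * j)
      congr 1
      funext v
      show g v - 2 * (m - j) = g v - g w + 2 * j
      rw [hm]
      ring
    · intro k hk
      have h1 := hK _ (hg.lev k) hk
      simp only [lev, hm] at h1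
      rw [Finset.mem_image]
      refine ⟨m - k, ?_, by ring⟩
      rw [Finset.mem_Icc]
      rw [abs_le] at h1
      constructor <;> omega
  have hlim : ∀ j, Tendsto (fun D => avc (Pin D w (-(2 * j))) (Φ j)) dom (𝓝 (muP (Φ j))) := by
    intro j
    have hdiff : ∀ h h' : V → ℤ,
        (∀ x ∈ insert w s, ∀ y ∈ insert w s, h x - h y = h' x - h' y) → Φ j h = Φ j h' := by
      intro h h' hh
      refine hA.loc _ _ fun x hx => ?_
      rw [hh x (Finset.mem_insert_of_mem hx) w (Finset.mem_insert_self w s)]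
    have hev : Even (-(2 * j)) := (even_two_mul j).neg
    have h1 := pin_tendsto hd (s := insert w s) (F := fun h => (Φ j h).re)
      (fun h h' hh => by simp only [hdiff h h' hh]) hw hev
    have h2 := pin_tendsto hd (s := insert w s) (F := fun h => (Φ j h).im)
      (fun h h' hh => by simp only [hdiff h h' hh]) hw hev
    have h3 := (Complex.continuous_ofReal.tendsto _).comp h1
    have h4 := ((Complex.continuous_ofReal.tendsto _).comp h2).mul_const Complex.I
    have hn : ∀ h, Φ j (nrm w h) = Φ j h := by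
      intro h
      simp only [hΦ, nrm]
      congr 1
      funext v
      ring
    have h5 := muP_eq hd (hloc j) (hphs j) w
    simp only [hn] at h5
    rw [h5]
    refine (h3.add h4).congr fun D => ?_
    rw [avc_eq]
    rfl
  have hrat : ∀ j : ℤ, Tendsto (fun D => (((cnt D w (2 * j) : ℝ) / (cnt D w 0 : ℝ) : ℝ) : ℂ)) dom
      (𝓝 1) := by
    intro j
    have h1 := cnt_ratio hd hw (even_two_mul j)
    have h2 := (Complex.continuous_ofReal.tendsto _).comp h1
    rw [Complex.ofReal_one] at h2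
    exact h2
  have hsum : Tendsto (fun D => ∑ j ∈ Finset.Icc (-K) K,
      (((cnt D w (2 * j) : ℝ) / (cnt D w 0 : ℝ) : ℝ) : ℂ) * avc (Pin D w (-(2 * j))) (Φ j)) dom
      (𝓝 (∑ j ∈ Finset.Icc (-K) K, 1 * muP (Φ j))) :=
    tendsto_finsetSum _ fun j _ => (hrat j).mul (hlim j)
  simp only [one_mul] at hsum
  rw [hM]
  refine hsum.congr' (RP4.eventually_dom.2 ⟨insert w s, fun D hsD hD => ?_⟩)
  have hwD : w ∈ D := hsD (Finset.mem_insert_self w s)
  have h1 : ∀ g ∈ Om D, A g = ∑ j ∈ Finset.Icc (-K) K, if g w = 2 * j then A g else 0 := by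
    intro g hg
    by_cases h0 : A g = 0
    · simp [h0]
    · obtain ⟨g', hg', hgg⟩ := ext_GH hD hg
      have h2 : A g = A g' := hA.loc _ _ fun x hx => (hgg x (hsD (Finset.mem_insert_of_mem hx))).symm
      have h3 := hK g' hg' (by rwa [← h2])
      have h4 := hg'.par w
      rw [hgg w hwD] at h3 h4
      obtain ⟨m, hm⟩ : ∃ m : ℤ, g w = 2 * m := by
        rw [Int.even_iff] at h4 hw
        exact ⟨g w / 2, by omega⟩
      rw [abs_le] at h3
      rw [Finset.sum_eq_single_of_mem m (Finset.mem_Icc.2 (by constructor <;> omega))]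
      · rw [if_pos hm]
      · intro j _ hj
        rw [if_neg]
        intro h5
        exact hj (by omega)
  show _ = (∑ g ∈ Om D, A g) / (cnt D w 0 : ℂ)
  rw [Finset.sum_congr rfl h1, Finset.sum_comm, Finset.sum_div]
  refine Finset.sum_congr rfl fun j _ => ?_
  rw [← Finset.sum_filter]
  rw [L3_bij hD hwD hw (even_two_mul j) A (Φ j), ← L3_avc_mul_card, ← L3_card hD hwD hw (even_two_mul j)]
  · push_cast
    ring
  · intro g _ g' hg1 hg2 hg3
    refine hA.loc _ _ fun x hx => ?_
    rw [hg3 x (hsD (Finset.mem_insert_of_mem hx)), hg2]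
    ring

end DV
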