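import Pool.Agent.Helper94.BR.Pf
import Pool.Agent.Helper94.BR.Geo
import Pool.Agent.Helper94.BR.Lim

/-!
# Project DV, block BAR (7): definitions

Blocks in macroscopic coordinates (mesh `δ`), real observables of the floating measure, the inputs `FlatC`
(flat circuits) and `ZoneC` (circuits of a given level in flat domains).
-/

open Finset Filter Topology

namespace DV

open RP4 (V Adj BdryPar Om dom avg mu Loc Deloc dist1 cnt)
open GF (Pl)

/-- lattice points at distance at most `r` from `z` -/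
def Inn (δ : ℝ) (z : Pl) (r : ℝ) : Set V := {v | dist (pt δ v) z ≤ r}

/-- lattice points at distance at least `s` from `z` -/
def Out (δ : ℝ) (z : Pl) (s : ℝ) : Set V := {v | s ≤ dist (pt δ v) z}

/-- block of level `2 k`: no path of sites with height `≠ 2 k` from the ball of radius `r` to the outside of
the ball of radius `s` -/
def Bk (k : ℤ) (δ : ℝ) (z : Pl) (r s : ℝ) (g : V → ℤ) : Prop := Sep (Inn δ z r) (Out δ z s) (lev k g)

/-- expectation of a real observable in the floating measure -/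
noncomputable def Mr (F : (V → ℤ) → ℝ) : ℝ := (M fun g => (F g : ℂ)).re

/-- a real observable that is local on `s` and pinned -/
def PR (s : Finset V) (F : (V → ℤ) → ℝ) : Prop := Pn s fun g => (F g : ℂ)

open Classical in
/-- indicator -/
noncomputable def ic (E : (V → ℤ) → Prop) (g : V → ℤ) : ℝ := if E g then 1 else 0

/-- mass of an event in the floating measure -/
noncomputable def Mp (E : (V → ℤ) → Prop) : ℝ := Mr (ic E)

/-- INPUT (FLATC): with probability close to one there is a circuit of constant even height -/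
def FlatC : Prop := ∀ ε > 0, ∀ W > 0, ∃ W' > W, ∀ᶠ δ in 𝓝[>] (0 : ℝ),
  1 - ε ≤ (muP fun g => (ic (fun h => ∃ k, Bk k δ 0 W W' h) g : ℂ)).re

/-- INPUT (Z1): circuits of the level `2 k`, `|k| ≤ a`, in flat domains of bounded size -/
def ZoneC : Prop := ∀ (a : ℤ) (ε L s : ℝ), 0 < ε → 0 < s → ∃ r > 0, ∀ᶠ δ in 𝓝[>] (0 : ℝ),
  ∀ (z : Pl) (D : Finset V), BdryPar D 0 → Inn δ z s ⊆ (D : Set V) → (D : Set V) ⊆ Inn δ 0 L →
    ∀ k : ℤ, |k| ≤ a → 1 - ε ≤ pr (Om D) (Bk k δ z r s)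

/-- radii for which blocks of level zero have probability at least `1/2` in flat domains inside the ball
of radius `L` -/
def Gd (L r s : ℝ) : Prop := ∀ᶠ δ in 𝓝[>] (0 : ℝ), ∀ (z : Pl) (D : Finset V), BdryPar D 0 →
  Inn δ z s ⊆ (D : Set V) → (D : Set V) ⊆ Inn δ 0 L → 1 / 2 ≤ pr (Om D) (Bk 0 δ z r s)

lemma Inn_finite {δ : ℝ} (hδ : 0 < δ) (z : Pl) (r : ℝ) : (Inn δ z r).Finite := by
  have h : Inn δ z r ⊆ Set.Icc ((⌊(z.1 - r) / δ⌋, ⌊(z.2 - r) / δ⌋) : ℤ × ℤ)
      (⌈(z.1 + r) / δ⌉, ⌈(z.2 + r) / δ⌉) := by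
    intro v hv
    have hv' : dist (pt δ v) z ≤ r := hv
    rw [Prod.dist_eq, max_le_iff, Real.dist_eq, Real.dist_eq, abs_le, abs_le] at hv'
    unfold pt at hv'
    obtain ⟨⟨h1, h2⟩, h3, h4⟩ := hv'
    have key : ∀ (a : ℤ) (c : ℝ), -r ≤ δ * a - c → δ * a - c ≤ r →
        ⌊(c - r) / δ⌋ ≤ a ∧ a ≤ ⌈(c + r) / δ⌉ := by
      intro a c h5 h6
      constructor
      · have h7 : (c - r) / δ ≤ a := by
          rw [div_le_iff₀ hδ]
          linarith
        exact_mod_cast (Int.floor_le _).trans h7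
      · have h7 : (a : ℝ) ≤ (c + r) / δ := by
          rw [le_div_iff₀ hδ]
          linarith
        exact_mod_cast h7.trans (Int.le_ceil _)
    exact ⟨⟨(key v.1 z.1 h1 h2).1, (key v.2 z.2 h3 h4).1⟩, (key v.1 z.1 h1 h2).2, (key v.2 z.2 h3 h4).2⟩
  exact (Set.finite_Icc _ _).subset h

open Classical in
/-- `Inn` as a finite set -/
noncomputable def Is (δ : ℝ) (z : Pl) (r : ℝ) : Finset V :=
  if h : (Inn δ z r).Finite then h.toFinset else ∅

lemma coe_Is {δ : ℝ} (hδ : 0 < δ) (z : Pl) (r : ℝ) : (Is δ z r : Set V) = Inn δ z r := by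
  unfold Is
  rw [dif_pos (Inn_finite hδ z r), Set.Finite.coe_toFinset]

lemma mem_Is {δ : ℝ} (hδ : 0 < δ) {z : Pl} {r : ℝ} {v : V} : v ∈ Is δ z r ↔ dist (pt δ v) z ≤ r := by
  rw [← Finset.mem_coe, coe_Is hδ]
  rfl

/-- the average of the heights over a ball -/
noncomputable def Av (δ : ℝ) (z : Pl) (r : ℝ) (g : V → ℤ) : ℝ :=
  (∑ v ∈ Is δ z r, (g v : ℝ)) / (Is δ z r).card

/-- unit Lipschitz on `s` -/
def Lps (s : Finset V) (g : V → ℤ) : Prop := ∀ u ∈ s, ∀ v ∈ s, |g u - g v| ≤ dist1 u v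

end DV
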