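import Pool.Agent.Helper94.BR.Mo
import Pool.Agent.Helper35.MD.All
import Pool.Agent.Helper27.GF.M5

/-!
# Project DV, block BAR (7): counting lattice points of a ball, variance and moments of the average over a ball
-/

open Finset Filter Topology

namespace DV

open RP4 (V Adj BdryPar Om dom avg mu Loc Deloc dist1 cnt)
open GF (Pl)

private lemma Ct2_int {δ : ℝ} (hδ : 0 < δ) (c : ℝ) {r : ℝ} (hr : δ ≤ r) :
    r / δ ≤ (((⌊(c + r) / δ⌋ + 1 - ⌈(c - r) / δ⌉).toNat : ℕ) : ℝ) := by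
  have h1 : (c + r) / δ < ⌊(c + r) / δ⌋ + 1 := Int.lt_floor_add_one _
  have h2 : (⌈(c - r) / δ⌉ : ℝ) < (c - r) / δ + 1 := Int.ceil_lt_add_one _
  have h3 : 1 ≤ r / δ := by
    rw [le_div_iff₀ hδ, one_mul]
    exact hr
  have h4 : (c + r) / δ - (c - r) / δ = 2 * (r / δ) := by
    rw [← sub_div]
    ring
  have h5 : r / δ ≤ ((⌊(c + r) / δ⌋ + 1 - ⌈(c - r) / δ⌉ : ℤ) : ℝ) := by
    push_cast
    linarith
  refine h5.trans ?_
  exact_mod_cast Int.self_le_toNat _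

/-- number of lattice points of a ball -/
theorem card_Is_ge {δ : ℝ} (hδ : 0 < δ) (z : Pl) {r : ℝ} (hr : δ ≤ r) :
    (r / δ) ^ 2 ≤ ((Is δ z r).card : ℝ) := by
  have hsub : (Finset.Icc ⌈(z.1 - r) / δ⌉ ⌊(z.1 + r) / δ⌋) ×ˢ (Finset.Icc ⌈(z.2 - r) / δ⌉ ⌊(z.2 + r) / δ⌋) ⊆
      Is δ z r := by
    intro v hv
    rw [Finset.mem_product, Finset.mem_Icc, Finset.mem_Icc] at hv
    obtain ⟨⟨h1, h2⟩, h3, h4⟩ := hv
    rw [mem_Is hδ, Prod.dist_eq, max_le_iff, Real.dist_eq, Real.dist_eq]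
    unfold pt
    have key : ∀ (a : ℤ) (c : ℝ), ⌈(c - r) / δ⌉ ≤ a → a ≤ ⌊(c + r) / δ⌋ → |δ * a - c| ≤ r := by
      intro a c h5 h6
      have h7 : (c - r) / δ ≤ a := Int.ceil_le.1 h5
      have h8 : (a : ℝ) ≤ (c + r) / δ := Int.le_floor.1 h6
      rw [div_le_iff₀ hδ] at h7
      rw [le_div_iff₀ hδ] at h8
      rw [abs_le]
      constructor <;> linarith
    exact ⟨key v.1 z.1 h1 h2, key v.2 z.2 h3 h4⟩
  have h1 := Finset.card_le_card hsub
  rw [Finset.card_product, Int.card_Icc, Int.card_Icc] at h1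
  have h2 : ((((⌊(z.1 + r) / δ⌋ + 1 - ⌈(z.1 - r) / δ⌉).toNat *
      (⌊(z.2 + r) / δ⌋ + 1 - ⌈(z.2 - r) / δ⌉).toNat : ℕ)) : ℝ) ≤ ((Is δ z r).card : ℝ) := by
    exact_mod_cast h1
  refine le_trans ?_ h2
  push_cast
  rw [pow_two]
  have h3 : 0 ≤ r / δ := div_nonneg (hδ.le.trans hr) hδ.le
  exact mul_le_mul (Ct2_int hδ z.1 hr) (Ct2_int hδ z.2 hr) h3 (h3.trans (Ct2_int hδ z.1 hr))

/-- VARIANCE of the average over a ball in flat domains of bounded size: `MD.mdv` with `R ~ 2 L / δ`,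
`g = 1 / card` on the ball, `card_Is_ge` -/
theorem var_av {L r : ℝ} (hL : 0 < L) (hr : 0 < r) : ∃ Vr > 0, ∀ᶠ δ in 𝓝[>] (0 : ℝ), ∀ (z : Pl)
    (D : Finset V), BdryPar D 0 → Inn δ z r ⊆ (D : Set V) → (D : Set V) ⊆ Inn δ 0 L →
      avg (Om D) (fun h => Av δ z r h ^ 2) ≤ Vr := by
  classical
  obtain ⟨C, hC, hmdv⟩ := MD.mdv
  refine ⟨16 * C * L ^ 2 / r ^ 2 + 1, by positivity, ?_⟩
  have hev : ∀ᶠ δ in 𝓝[>] (0 : ℝ), δ ∈ Set.Ioo (0 : ℝ) (min r L) :=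
    Ioo_mem_nhdsGT (lt_min hr hL)
  filter_upwards [hev] with δ hδ' z D hD hin hout
  obtain ⟨hδ, hδ2⟩ := hδ'
  have hδr : δ ≤ r := hδ2.le.trans (min_le_left _ _)
  have hδL : δ ≤ L := hδ2.le.trans (min_le_right _ _)
  have hcard := card_Is_ge hδ z hδr
  have hrd : 0 < r / δ := div_pos hr hδ
  have hcpos : 0 < ((Is δ z r).card : ℝ) := lt_of_lt_of_le (by positivity) hcard
  have hsub : Is δ z r ⊆ D := by
    intro v hv
    have h1 : v ∈ (Is δ z r : Set V) := hv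
    rw [coe_Is hδ] at h1
    exact hin h1
  obtain ⟨g, hg⟩ : ∃ g : V → ℝ, g = fun v => if v ∈ Is δ z r then 1 / ((Is δ z r).card : ℝ) else 0 := ⟨_, rfl⟩
  have hR1 : 1 ≤ ⌈2 * L / δ⌉₊ := by
    rw [Nat.one_le_ceil_iff]
    positivity
  have hRR : ((⌈2 * L / δ⌉₊ : ℕ) : ℝ) ≤ 4 * (L / δ) := by
    have h1 : ((⌈2 * L / δ⌉₊ : ℕ) : ℝ) < 2 * L / δ + 1 := Nat.ceil_lt_add_one (by positivity)
    have h2 : 1 ≤ L / δ := by
      rw [le_div_iff₀ hδ, one_mul]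
      exact hδL
    have h3 : 2 * L / δ = 2 * (L / δ) := by ring
    rw [h3] at h1 ⊢
    linarith
  have hDR : ∀ u ∈ D, ∀ v ∈ D, |u.1 - v.1| ≤ ((⌈2 * L / δ⌉₊ : ℕ) : ℤ) ∧ |u.2 - v.2| ≤ ((⌈2 * L / δ⌉₊ : ℕ) : ℤ) := by
    intro u hu v hv
    have h1 : dist (pt δ u) 0 ≤ L := hout hu
    have h2 : dist (pt δ v) 0 ≤ L := hout hv
    have h3 : ∀ a b : ℤ, |δ * a| ≤ L → |δ * b| ≤ L → |a - b| ≤ ((⌈2 * L / δ⌉₊ : ℕ) : ℤ) := by
      intro a b ha hb
      have h4 : |(a : ℝ) - b| ≤ 2 * L / δ := by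
        rw [le_div_iff₀ hδ]
        have h5 : |(a : ℝ) - b| * δ = |δ * a - δ * b| := by
          rw [← mul_sub, abs_mul, abs_of_pos hδ, mul_comm]
        rw [h5]
        calc |δ * a - δ * b| ≤ |δ * a| + |δ * b| := abs_sub _ _
          _ ≤ 2 * L := by linarith
      have h6 : |(a : ℝ) - b| ≤ ((⌈2 * L / δ⌉₊ : ℕ) : ℝ) := h4.trans (Nat.le_ceil _)
      exact_mod_cast h6
    rw [Prod.dist_eq, max_le_iff, Real.dist_eq, Real.dist_eq] at h1 h2
    unfold pt at h1 h2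
    simp only [Prod.fst_zero, Prod.snd_zero, sub_zero] at h1 h2
    exact ⟨h3 u.1 v.1 h1.1 h2.1, h3 u.2 v.2 h1.2 h2.2⟩
  have hgA : ∀ x ∈ D, |g x| ≤ 1 / ((Is δ z r).card : ℝ) := by
    intro x _
    rw [hg]
    dsimp only
    split_ifs
    · rw [abs_of_pos (by positivity)]
    · rw [abs_zero]
      positivity
  have key := hmdv ⌈2 * L / δ⌉₊ hR1 D hD hDR g (1 / ((Is δ z r).card : ℝ)) hgA
  have e1 : (fun h : V → ℤ => (∑ x ∈ D, g x * (h x : ℝ)) ^ 2) = fun h => Av δ z r h ^ 2 := by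
    funext h
    congr 1
    unfold Av
    rw [← Finset.sum_subset hsub (f := fun x => g x * (h x : ℝ)) (fun x _ hx => by
      show g x * (h x : ℝ) = 0
      rw [hg]
      dsimp only
      rw [if_neg hx, zero_mul]), Finset.sum_div]
    refine Finset.sum_congr rfl fun x hx => ?_
    rw [hg]
    dsimp only
    rw [if_pos hx]
    ring
  have e2 : ∑ x ∈ D, |g x| = 1 := by
    rw [← Finset.sum_subset hsub (f := fun x => |g x|) (fun x _ hx => by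
      show |g x| = 0
      rw [hg]
      dsimp only
      rw [if_neg hx, abs_zero])]
    have h1 : ∀ x ∈ Is δ z r, |g x| = 1 / ((Is δ z r).card : ℝ) := by
      intro x hx
      rw [hg]
      dsimp only
      rw [if_pos hx, abs_of_pos (by positivity)]
    rw [Finset.sum_congr rfl h1, Finset.sum_const, nsmul_eq_mul]
    exact mul_one_div_cancel hcpos.ne'
  rw [e1, e2, mul_one] at key
  refine key.trans ?_
  have h1 : ((⌈2 * L / δ⌉₊ : ℕ) : ℝ) ^ 2 ≤ (4 * (L / δ)) ^ 2 := pow_le_pow_left₀ (Nat.cast_nonneg _) hRR 2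
  have h2 : 1 / ((Is δ z r).card : ℝ) ≤ 1 / (r / δ) ^ 2 := one_div_le_one_div_of_le (by positivity) hcard
  calc C * ((⌈2 * L / δ⌉₊ : ℕ) : ℝ) ^ 2 * (1 / ((Is δ z r).card : ℝ))
      ≤ C * (4 * (L / δ)) ^ 2 * (1 / (r / δ) ^ 2) := by
        refine mul_le_mul (mul_le_mul_of_nonneg_left h1 hC) h2 (by positivity) (by positivity)
    _ = 16 * C * L ^ 2 / r ^ 2 := by
        field_simp
        ring
    _ ≤ 16 * C * L ^ 2 / r ^ 2 + 1 := by linarith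

/-- all moments: `GF.moments` (Helper27/GF/M5.lean) and `var_av` -/
theorem mom_av {L r : ℝ} (hL : 0 < L) (hr : 0 < r) (n : ℕ) : ∃ C > 0, ∀ᶠ δ in 𝓝[>] (0 : ℝ),
    ∀ (z : Pl) (D : Finset V), BdryPar D 0 → Inn δ z r ⊆ (D : Set V) → (D : Set V) ⊆ Inn δ 0 L →
      avg (Om D) (fun h => |Av δ z r h| ^ n) ≤ C := by
  classical
  obtain ⟨Vr, hVr, hev⟩ := var_av hL hr
  obtain ⟨C, hC, hmom⟩ := GF.moments n
  refine ⟨C * (Real.sqrt Vr + 1) ^ n + 1, by positivity, ?_⟩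
  filter_upwards [hev] with δ hδ z D hD hin hout
  have hvar := hδ z D hD hin hout
  by_cases hne : (Om D).Nonempty
  · have key := hmom D (Is δ z r) (fun _ => 1 / ((Is δ z r).card : ℝ)) hne
    have e1 : ∀ h : V → ℤ, GF.lin (Is δ z r) (fun _ => 1 / ((Is δ z r).card : ℝ)) h = Av δ z r h := by
      intro h
      unfold GF.lin Av
      rw [Finset.sum_div]
      refine Finset.sum_congr rfl fun x _ => ?_
      ring
    simp only [e1] at key
    have e2 : ∑ x ∈ Is δ z r, |1 / ((Is δ z r).card : ℝ)| ≤ 1 := by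
      rw [Finset.sum_const, nsmul_eq_mul, abs_of_nonneg (by positivity)]
      rw [mul_one_div]
      exact div_self_le_one _
    refine key.trans ?_
    have h1 : Real.sqrt (avg (Om D) (fun h => Av δ z r h ^ 2)) + ∑ x ∈ Is δ z r, |1 / ((Is δ z r).card : ℝ)| ≤
        Real.sqrt Vr + 1 := add_le_add (Real.sqrt_le_sqrt hvar) e2
    have h0 : 0 ≤ Real.sqrt (avg (Om D) (fun h => Av δ z r h ^ 2)) + ∑ x ∈ Is δ z r, |1 / ((Is δ z r).card : ℝ)| :=
      add_nonneg (Real.sqrt_nonneg _) (Finset.sum_nonneg fun _ _ => abs_nonneg _)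
    have h2 := mul_le_mul_of_nonneg_left (pow_le_pow_left₀ h0 h1 n) hC
    linarith
  · rw [Finset.not_nonempty_iff_eq_empty] at hne
    rw [hne]
    unfold avg
    rw [Finset.sum_empty, zero_div]
    positivity

end DV
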