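import Pool.Agent.Helper94.BR.Mo
import Pool.Agent.Helper35.MD.All
import Pool.Agent.Helper94.BR.Ct2

/-!
# Project DV, block BAR (7): basic estimates of the floating measure
-/

open Finset Filter Topology

namespace DV

open RP4 (V Adj BdryPar Om dom avg mu Loc Deloc dist1 cnt)
open GF (Pl)

/-- only height functions matter: from `norm_M_le` -/
theorem Mr_mono_GH (hd : Deloc) {s t : Finset V} {F G : (V → ℤ) → ℝ} (hF : PR s F) (hG : PR t G)
    (h0 : ∀ g, GH g → 0 ≤ F g) (h : ∀ g, GH g → F g ≤ G g) : Mr F ≤ Mr G := by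
  classical
  have h1 := norm_M_le hd (hF.mono Finset.subset_union_left) (hG.mono Finset.subset_union_right)
    (fun g hg => by
      show ‖(F g : ℂ)‖ ≤ ((G g : ℝ) : ℂ).re
      rw [Complex.norm_real, Real.norm_eq_abs, abs_of_nonneg (h0 g hg), Complex.ofReal_re]
      exact h g hg)
  exact (Complex.re_le_norm _).trans h1

/-- `Mr` of a level shift: from `M_lev` -/
theorem Mr_lev (k : ℤ) (F : (V → ℤ) → ℝ) : Mr (fun g => F (lev k g)) = Mr F := by
  unfold Mr
  exact congrArg Complex.re (M_lev (A := fun g => (F g : ℂ)) k)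

/-- the number of integers `k` with `|x - 2 k| ≤ T` -/
private lemma Ct_cnt (x T : ℝ) (S : Finset ℤ) (hS : ∀ k ∈ S, |x - 2 * k| ≤ T) (hT : 0 ≤ T) :
    (S.card : ℝ) ≤ T + 1 := by
  have h1 : S ⊆ Finset.Icc ⌈(x - T) / 2⌉ ⌊(x + T) / 2⌋ := by
    intro k hk
    have h2 := abs_le.1 (hS k hk)
    rw [Finset.mem_Icc, Int.ceil_le, Int.le_floor]
    constructor <;> linarith
  have h2 := Finset.card_le_card h1
  rw [Int.card_Icc] at h2
  have h3 : ((⌊(x + T) / 2⌋ + 1 - ⌈(x - T) / 2⌉).toNat : ℝ) ≤ T + 1 := by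
    have h4 : ((⌊(x + T) / 2⌋ + 1 - ⌈(x - T) / 2⌉).toNat : ℤ) =
        max (⌊(x + T) / 2⌋ + 1 - ⌈(x - T) / 2⌉) 0 := Int.toNat_eq_max _
    have h5 : (((⌊(x + T) / 2⌋ + 1 - ⌈(x - T) / 2⌉).toNat : ℤ) : ℝ) ≤ T + 1 := by
      rw [h4]
      push_cast
      refine max_le ?_ (by linarith)
      have h6 := Int.floor_le ((x + T) / 2)
      have h7 := Int.le_ceil ((x - T) / 2)
      linarith
    exact_mod_cast h5
  exact (by exact_mod_cast h2 : (S.card : ℝ) ≤ _).trans h3

/-- LEVEL COUNTING.  `per` of the product is `ic G` times the number of `k` with `|lin s w g - 2 k| ≤ T` and this number is at most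
`T + 1`; `muP_re_mono`.  `G` level invariant, `Lps s` makes the observable pinned: some (every) height on `s` is at most
`T + diam`. -/
theorem Mr_count (hd : Deloc) {s t : Finset V} (hst : s ⊆ t) {w : V → ℝ} (hw : ∀ v ∈ s, 0 ≤ w v)
    (hw1 : ∑ v ∈ s, w v = 1) {T : ℝ} (hT : 0 ≤ T) {G : (V → ℤ) → Prop}
    (hG : ∀ g g' : V → ℤ, (∀ x ∈ t, g x = g' x) → (G g ↔ G g')) (hGl : ∀ k g, G (lev k g) ↔ G g) :
    PR t (fun g => ic (fun g => |∑ v ∈ s, w v * (g v : ℝ)| ≤ T ∧ Lps s g) g * ic G g) ∧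
    Mr (fun g => ic (fun g => |∑ v ∈ s, w v * (g v : ℝ)| ≤ T ∧ Lps s g) g * ic G g) ≤
      (T + 1) * (muP fun g => (ic G g : ℂ)).re := by
  classical
  set E : (V → ℤ) → Prop := fun g => |∑ v ∈ s, w v * (g v : ℝ)| ≤ T ∧ Lps s g with hE
  -- `s` is nonempty
  have hne : s.Nonempty := by
    rw [Finset.nonempty_iff_ne_empty]
    rintro rfl
    simp at hw1
  obtain ⟨v0, hv0⟩ := hne
  have hEl : ∀ g g' : V → ℤ, (∀ x ∈ s, g x = g' x) → (E g → E g') := by
    rintro g g' h ⟨h1, h2⟩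
    refine ⟨?_, fun u hu v hv => ?_⟩
    · have h5 : ∑ v ∈ s, w v * (g' v : ℝ) = ∑ v ∈ s, w v * (g v : ℝ) :=
        Finset.sum_congr rfl fun v hv => by rw [h v hv]
      rw [h5]
      exact h1
    · rw [← h u hu, ← h v hv]
      exact h2 u hu v hv
  have hEl' : ∀ g g' : V → ℤ, (∀ x ∈ s, g x = g' x) → (E g ↔ E g') := fun g g' h =>
    ⟨hEl g g' h, hEl g' g fun x hx => (h x hx).symm⟩
  have hPE : PR s (ic E) := by
    refine ⟨al_real fun g g' h => ic_congr (hEl' g g' h), ?_⟩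
    refine ⟨⌈T⌉ + ∑ v ∈ s, dist1 v0 v, fun g hg => ⟨v0, hv0, ?_⟩⟩
    have h1 : E g := by
      by_contra h2
      exact hg (by simp [ic, h2])
    obtain ⟨h2, h3⟩ := h1
    have h4 : (g v0 : ℝ) = ∑ v ∈ s, w v * (g v : ℝ) + ∑ v ∈ s, w v * ((g v0 : ℝ) - g v) := by
      rw [← Finset.sum_add_distrib]
      have h5 : ∀ v ∈ s, w v * (g v : ℝ) + w v * ((g v0 : ℝ) - g v) = w v * g v0 := fun v _ => by
        ring
      rw [Finset.sum_congr rfl h5, ← Finset.sum_mul, hw1, one_mul]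
    have h5 : |∑ v ∈ s, w v * ((g v0 : ℝ) - g v)| ≤ ∑ v ∈ s, (dist1 v0 v : ℝ) := by
      refine (Finset.abs_sum_le_sum_abs _ _).trans (Finset.sum_le_sum fun v hv => ?_)
      rw [abs_mul, abs_of_nonneg (hw v hv)]
      have h6 : w v ≤ 1 := by
        rw [← hw1]
        exact Finset.single_le_sum (f := w) (fun u hu => hw u hu) hv
      have h7 : |(g v0 : ℝ) - g v| ≤ (dist1 v0 v : ℝ) := by
        exact_mod_cast h3 v0 hv0 v hv
      calc w v * |(g v0 : ℝ) - g v| ≤ 1 * |(g v0 : ℝ) - g v| :=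
            mul_le_mul_of_nonneg_right h6 (abs_nonneg _)
        _ = |(g v0 : ℝ) - g v| := one_mul _
        _ ≤ _ := h7
    have h6 : |(g v0 : ℝ)| ≤ T + ∑ v ∈ s, (dist1 v0 v : ℝ) := by
      rw [h4]
      exact (abs_add_le _ _).trans (add_le_add h2 h5)
    have h7 : ((|g v0| : ℤ) : ℝ) ≤ ((⌈T⌉ + ∑ v ∈ s, dist1 v0 v : ℤ) : ℝ) := by
      push_cast
      exact h6.trans (add_le_add (Int.le_ceil T) le_rfl)
    exact_mod_cast h7
  have hP : PR t (fun g => ic E g * ic G g) :=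
    (hPE.mono hst).mul fun g g' h => ic_congr (hG g g' h)
  refine ⟨hP, ?_⟩
  have hGal : AL t (fun g => (ic G g : ℂ)) := al_real fun g g' h => ic_congr (hG g g' h)
  have hGph : Phs 0 (fun g => (ic G g : ℂ)) := by
    intro k g
    have h1 : ic G (lev k g) = ic G g := ic_congr (hGl k g)
    simp [h1]
  have hGal' : AL t (fun g => ((T + 1 : ℝ) : ℂ) * (ic G g : ℂ)) := fun g g' h => by
    have h1 : (ic G g : ℂ) = (ic G g' : ℂ) := hGal g g' h
    show ((T + 1 : ℝ) : ℂ) * (ic G g : ℂ) = ((T + 1 : ℝ) : ℂ) * (ic G g' : ℂ)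
    rw [h1]
  have hGph' : Phs 0 (fun g => ((T + 1 : ℝ) : ℂ) * (ic G g : ℂ)) := by
    intro k g
    have h1 : ic G (lev k g) = ic G g := ic_congr (hGl k g)
    simp [h1]
  have key := muP_re_mono hd (per_al hP.loc) (per_phs _) hGal' hGph' (fun g hg => by
    set S : Finset ℤ := (Pn.finite hP g).toFinset with hS
    rw [per_eq_sum (A := fun g => ((ic E g * ic G g : ℝ) : ℂ)) g S fun k hk =>
      (Pn.finite hP g).mem_toFinset.2 hk]
    have h1 : ∀ k ∈ S, ((ic E (lev k g) * ic G (lev k g) : ℝ) : ℂ) = ((ic G g : ℝ) : ℂ) := by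
      intro k hk
      have h2 := (Pn.finite hP g).mem_toFinset.1 hk
      have h3 : ic E (lev k g) * ic G (lev k g) ≠ 0 := by
        intro h4
        apply h2
        show ((ic E (lev k g) * ic G (lev k g) : ℝ) : ℂ) = 0
        rw [h4, Complex.ofReal_zero]
      have h4 : ic E (lev k g) = 1 := by
        unfold ic
        rw [if_pos]
        by_contra h5
        exact h3 (by simp [ic, h5])
      have h5 : ic G (lev k g) = ic G g := ic_congr (hGl k g)
      rw [h4, h5, one_mul]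
    rw [Finset.sum_congr rfl h1, Finset.sum_const, nsmul_eq_mul]
    have h2 : (S.card : ℝ) ≤ T + 1 := by
      refine Ct_cnt (∑ v ∈ s, w v * (g v : ℝ)) T S (fun k hk => ?_) hT
      have h2 := (Pn.finite hP g).mem_toFinset.1 hk
      have h3 : E (lev k g) := by
        by_contra h5
        apply h2
        show ((ic E (lev k g) * ic G (lev k g) : ℝ) : ℂ) = 0
        rw [show ic E (lev k g) = 0 from if_neg h5, zero_mul, Complex.ofReal_zero]
      have h4 := h3.1
      have h5 : ∑ v ∈ s, w v * ((lev k g v : ℤ) : ℝ) = ∑ v ∈ s, w v * (g v : ℝ) - 2 * k := by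
        have h6 : ∀ v ∈ s, w v * ((lev k g v : ℤ) : ℝ) = w v * (g v : ℝ) - w v * (2 * k) := by
          intro v _
          unfold lev
          push_cast
          ring
        rw [Finset.sum_congr rfl h6, Finset.sum_sub_distrib, ← Finset.sum_mul, hw1, one_mul]
      rwa [h5] at h4
    have h3 := ic_nonneg G g
    rw [← Complex.ofReal_natCast, ← Complex.ofReal_mul, ← Complex.ofReal_mul, Complex.ofReal_re,
      Complex.ofReal_re]
    exact mul_le_mul_of_nonneg_right h2 h3)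
  rw [muP_smul hd hGal hGph] at key
  rw [Complex.re_ofReal_mul] at key
  exact key

end DV
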