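import Pool.Agent.Helper94.BR.Ra
import Pool.Agent.Helper94.BR.Ms
import Pool.Agent.Helper33.DV.Ev4

/-!
# Project DV, block BAR: the events around a polyomino

For `P = pol k S`: two fixed pins far away (off all the lines of the four directions which meet `P`), for every `j`
blocks at points of the frontier off the dyadic lines of level `j` (event `E j`) and blocks at the finitely many points
of the frontier on these lines (event `F j = E j` and these).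
-/

open Finset Filter Topology MeasureTheory

namespace DV

open RP4 (V Adj BdryPar Om dom avg mu Loc Deloc dist1 cnt mass)
open GF (Pl Cc ell)
open GF.Lat (Xd win)

/-- the data of the events -/
structure BarD where
  y₁ : Pl
  y₂ : Pl
  r : ℝ
  s : ℝ
  Z : ℕ → Finset Pl
  Z' : ℕ → Finset Pl
  ρ : ℕ → ℝ
  R : ℕ → ℝ
  t : ℕ → ℝ
  τ : ℕ → ℝ

/-- pins and blocks off the lines of level `j` -/
def BarD.E (b : BarD) (j : ℕ) (δ : ℝ) (g : V → ℤ) : Prop :=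
  Bk 0 δ b.y₁ b.r b.s g ∧ Bk 0 δ b.y₂ b.r b.s g ∧ ∀ z ∈ b.Z j, Bk 0 δ z (b.ρ j) (b.R j) g

/-- all blocks -/
def BarD.F (b : BarD) (j : ℕ) (δ : ℝ) (g : V → ℤ) : Prop :=
  b.E j δ g ∧ ∀ z ∈ b.Z' j, Bk 0 δ z (b.t j) (b.τ j) g

/-- the properties of the events -/
structure BarOK (k : ℕ) (S : Finset (ℤ × ℤ)) (b : BarD) : Prop where
  r_pos : 0 < b.r
  r_lt : b.r < b.s
  /-- the pins are off the lines of the four directions that meet `P` -/
  pins : ∀ x ∈ pol k S, ∀ d, dir4 d → 8 * b.s ≤ |ell d x - ell d b.y₁| ∧ 8 * b.s ≤ |ell d x - ell d b.y₂|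
  ρ_pos : ∀ j, 0 < b.ρ j
  ρ_lt : ∀ j, b.ρ j < b.R j
  t_pos : ∀ j, 0 < b.t j
  t_lt : ∀ j, b.t j < b.τ j
  R_lt : ∀ j, b.R j < b.τ j
  τ_le : ∀ j, b.τ j ≤ 1
  τ_lim : Tendsto b.τ atTop (𝓝 0)
  /-- the blocks of `E j` are at the frontier and off the dyadic lines of level `j` -/
  off : ∀ j, ∀ z ∈ b.Z j, z ∈ frontier (pol k S) ∧ ∀ d, dir4 d → ∀ m : ℤ, 4 * b.R j ≤ |ell d z - m / 2 ^ j|
  fr : ∀ j, ∀ z ∈ b.Z' j, z ∈ frontier (pol k S)
  /-- positive mass -/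
  pos : ∀ j, ∃ c > 0, ∀ᶠ δ in 𝓝[>] (0 : ℝ), c ≤ MR (SW.iw (b.E j δ))
  /-- the blocks at the lines cost little -/
  rare : ∀ j, ∀ᶠ δ in 𝓝[>] (0 : ℝ),
    MR (SW.iw (b.E j δ)) - MR (SW.iw (b.F j δ)) ≤ 2 / (j + 2) * MR (SW.iw (b.F j δ))
  /-- moments, uniform in `j` -/
  mom : ∀ f, Cc f → ∀ n : ℕ, ∃ C > 0, ∀ j, ∀ᶠ δ in 𝓝[>] (0 : ℝ),
    MR (fun g => Xd δ f g ^ (2 * n) * SW.iw (b.E j δ) g) ≤ C * MR (SW.iw (b.E j δ)) ∧
    MR (fun g => Xd δ f g ^ (2 * n) * SW.iw (b.F j δ) g) ≤ C * MR (SW.iw (b.F j δ))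
  /-- separation -/
  blk : ∀ a > 0, ∀ᶠ j in atTop, ∀ᶠ δ in 𝓝[>] (0 : ℝ), ∀ g, b.F j δ g → ∀ x v, pt δ x ∈ pol k S →
    (∀ p ∈ frontier (pol k S), a ≤ dist (pt δ x) p) → pt δ v ∉ pol k S → ¬ RP4.Conn g x v

private lemma decAnd {E F : (V → ℤ) → Prop} (hE : Dec E) (hF : Dec F) : Dec fun g => E g ∧ F g :=
  ⟨fun g => and_congr (hE.abs g) (hF.abs g), fun g g' h0 h hh => ⟨hE.mono g g' h0 h hh.1, hF.mono g g' h0 h hh.2⟩⟩

private lemma decAll {ι : Type} (J : Finset ι) {E : ι → (V → ℤ) → Prop} (h : ∀ i ∈ J, Dec (E i)) :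
    Dec fun g => ∀ i ∈ J, E i g :=
  ⟨fun g => forall₂_congr fun i hi => (h i hi).abs g,
    fun g g' h0 h1 hh i hi => (h i hi).mono g g' h0 h1 (hh i hi)⟩

/-- every block is a decreasing event -/
lemma BarD.decE (b : BarD) (j : ℕ) (δ : ℝ) : Dec (b.E j δ) :=
  decAnd (bk_dec _ _ _ _) (decAnd (bk_dec _ _ _ _) (decAll _ fun _ _ => bk_dec _ _ _ _))

lemma BarD.decF (b : BarD) (j : ℕ) (δ : ℝ) : Dec (b.F j δ) :=
  decAnd (b.decE j δ) (decAll _ fun _ _ => bk_dec _ _ _ _)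

/-- local events -/
private def LocE (S : Finset V) (E : (V → ℤ) → Prop) : Prop :=
  ∀ g g' : V → ℤ, (∀ v ∈ S, g v = g' v) → (E g ↔ E g')

private lemma LocE.mono {S T : Finset V} {E : (V → ℤ) → Prop} (h : LocE S E) (hST : S ⊆ T) : LocE T E :=
  fun g g' hg => h g g' fun v hv => hg v (hST hv)

private lemma LocE.and {S : Finset V} {E F : (V → ℤ) → Prop} (h : LocE S E) (h' : LocE S F) :
    LocE S fun g => E g ∧ F g := fun g g' hg => and_congr (h g g' hg) (h' g g' hg)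

private lemma LocE.all {S : Finset V} {ι : Type} (J : Finset ι) {E : ι → (V → ℤ) → Prop}
    (h : ∀ i ∈ J, LocE S (E i)) : LocE S fun g => ∀ i ∈ J, E i g :=
  fun g g' hg => forall₂_congr fun i hi => h i hi g g' hg

private lemma LocE.not {S : Finset V} {E : (V → ℤ) → Prop} (h : LocE S E) : LocE S fun g => ¬ E g :=
  fun g g' hg => not_congr (h g g' hg)

private lemma locE_bk {δ : ℝ} (hδ : 0 < δ) {z : Pl} {r s : ℝ} (h : r + δ < s) :
    LocE (Is δ z s) (Bk 0 δ z r s) := fun g g' hg =>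
  bk_loc hδ h fun v hv => hg v ((mem_Is hδ).2 hv.le)

private lemma PR_and {δ : ℝ} (hδ : 0 < δ) {z : Pl} {r s : ℝ} (hr : δ ≤ r) (hrs : r + δ < s)
    {t : Finset V} (ht : Is δ z s ⊆ t) {E : (V → ℤ) → Prop} (hE : LocE t E) :
    PR t (ic fun g => Bk 0 δ z r s g ∧ E g) :=
  (PR_bk hδ hr hrs 0 ht (F := ic E) fun g g' h => ic_congr (hE g g' h)).congr fun g => (ic_and _ _ g).symm

private lemma ev_lt {a : ℝ} (h : 0 < a) : ∀ᶠ δ in 𝓝[>] (0 : ℝ), δ < a :=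
  nhdsWithin_le_nhds (Iio_mem_nhds h)

private lemma ev_pos : ∀ᶠ δ in 𝓝[>] (0 : ℝ), 0 < δ := self_mem_nhdsWithin

/-- the mesh is small for level `j` -/
private def BarD.Sm (b : BarD) (j : ℕ) (δ : ℝ) : Prop :=
  0 < δ ∧ δ < b.r ∧ b.r + δ < b.s ∧ b.ρ j + δ < b.R j ∧ b.t j + δ < b.τ j ∧ δ < b.ρ j / 2 ∧ δ < b.t j / 2

private lemma ev_sm (b : BarD) (j : ℕ) (h1 : 0 < b.r) (h2 : b.r < b.s) (h3 : 0 < b.ρ j) (h4 : b.ρ j < b.R j)
    (h5 : 0 < b.t j) (h6 : b.t j < b.τ j) : ∀ᶠ δ in 𝓝[>] (0 : ℝ), b.Sm j δ := by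
  filter_upwards [ev_pos, ev_lt h1, ev_lt (show 0 < b.s - b.r by linarith),
    ev_lt (show 0 < b.R j - b.ρ j by linarith), ev_lt (show 0 < b.τ j - b.t j by linarith),
    ev_lt (show 0 < b.ρ j / 2 by linarith), ev_lt (show 0 < b.t j / 2 by linarith)] with δ a1 a2 a3 a4 a5 a6 a7
  exact ⟨a1, a2, by linarith, by linarith, by linarith, a6, a7⟩

/-- the sites of the blocks of `E j` -/
private noncomputable def BarD.wE (b : BarD) (j : ℕ) (δ : ℝ) : Finset V :=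
  (b.Z j).biUnion fun z => Is δ z (b.R j)

/-- the sites of the blocks at the lines -/
private noncomputable def BarD.wF (b : BarD) (j : ℕ) (δ : ℝ) : Finset V :=
  (b.Z' j).biUnion fun z => Is δ z (b.τ j)

/-- the window -/
private noncomputable def BarD.w (b : BarD) (j : ℕ) (δ : ℝ) : Finset V :=
  Is δ b.y₁ b.s ∪ (Is δ b.y₂ b.s ∪ (b.wE j δ ∪ b.wF j δ))

private lemma w1 (b : BarD) (j : ℕ) (δ : ℝ) : Is δ b.y₁ b.s ⊆ b.w j δ := Finset.subset_union_left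

private lemma w2 (b : BarD) (j : ℕ) (δ : ℝ) : Is δ b.y₂ b.s ⊆ b.w j δ :=
  Finset.subset_union_left.trans Finset.subset_union_right

private lemma w3 (b : BarD) (j : ℕ) (δ : ℝ) : b.wE j δ ⊆ b.w j δ :=
  Finset.subset_union_left.trans (Finset.subset_union_right.trans Finset.subset_union_right)

private lemma w4 (b : BarD) (j : ℕ) (δ : ℝ) : b.wF j δ ⊆ b.w j δ :=
  Finset.subset_union_right.trans (Finset.subset_union_right.trans Finset.subset_union_right)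

private lemma loc_A (b : BarD) {j : ℕ} {δ : ℝ} (h : b.Sm j δ) :
    LocE (b.wE j δ) fun g => ∀ z ∈ b.Z j, Bk 0 δ z (b.ρ j) (b.R j) g :=
  LocE.all _ fun z hz => (locE_bk h.1 h.2.2.2.1).mono (Finset.subset_biUnion_of_mem (fun z => Is δ z (b.R j)) hz)

private lemma loc_B1 (b : BarD) {j : ℕ} {δ : ℝ} (h : b.Sm j δ) {z : Pl} (hz : z ∈ b.Z' j) :
    LocE (b.wF j δ) (Bk 0 δ z (b.t j) (b.τ j)) :=
  (locE_bk h.1 h.2.2.2.2.1).mono (Finset.subset_biUnion_of_mem (fun z => Is δ z (b.τ j)) hz)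

private lemma loc_B (b : BarD) {j : ℕ} {δ : ℝ} (h : b.Sm j δ) :
    LocE (b.wF j δ) fun g => ∀ z ∈ b.Z' j, Bk 0 δ z (b.t j) (b.τ j) g :=
  LocE.all _ fun _ hz => loc_B1 b h hz

/-- what remains of `E j` without the first pin -/
private def BarD.E' (b : BarD) (j : ℕ) (δ : ℝ) (g : V → ℤ) : Prop :=
  Bk 0 δ b.y₂ b.r b.s g ∧ ∀ z ∈ b.Z j, Bk 0 δ z (b.ρ j) (b.R j) g

private lemma loc_E' (b : BarD) {j : ℕ} {δ : ℝ} (h : b.Sm j δ) : LocE (Is δ b.y₂ b.s ∪ b.wE j δ) (b.E' j δ) :=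
  ((locE_bk h.1 h.2.2.1).mono Finset.subset_union_left).and ((loc_A b h).mono Finset.subset_union_right)

private lemma w5 (b : BarD) (j : ℕ) (δ : ℝ) : Is δ b.y₂ b.s ∪ b.wE j δ ⊆ b.w j δ :=
  Finset.union_subset (w2 b j δ) (w3 b j δ)

private lemma PR_E (b : BarD) {j : ℕ} {δ : ℝ} (h : b.Sm j δ) : PR (b.w j δ) (ic (b.E j δ)) :=
  PR_and h.1 h.2.1.le h.2.2.1 (w1 b j δ) (E := b.E' j δ) ((loc_E' b h).mono (w5 b j δ))

private lemma F_eq (b : BarD) (j : ℕ) (δ : ℝ) : b.F j δ = fun g => Bk 0 δ b.y₁ b.r b.s g ∧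
    (b.E' j δ g ∧ ∀ z ∈ b.Z' j, Bk 0 δ z (b.t j) (b.τ j) g) := by
  funext g
  exact propext and_assoc

private lemma PR_F (b : BarD) {j : ℕ} {δ : ℝ} (h : b.Sm j δ) : PR (b.w j δ) (ic (b.F j δ)) := by
  rw [F_eq]
  exact PR_and h.1 h.2.1.le h.2.2.1 (w1 b j δ) (((loc_E' b h).mono (w5 b j δ)).and ((loc_B b h).mono (w4 b j δ)))

/-- the events are local and pinned -/
theorem BarOK.pnE {k : ℕ} {S : Finset (ℤ × ℤ)} {b : BarD} (h : BarOK k S b) (j : ℕ) :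
    ∀ᶠ δ in 𝓝[>] (0 : ℝ), ∃ s, Pn s (cx (SW.iw (b.E j δ))) ∧ Pn s (cx (SW.iw (b.F j δ))) := by
  filter_upwards [ev_sm b j h.r_pos h.r_lt (h.ρ_pos j) (h.ρ_lt j) (h.t_pos j) (h.t_lt j)] with δ hδ
  exact ⟨b.w j δ, PR_E b hδ, PR_F b hδ⟩

/-- union bound -/
private lemma rare_of (hd : Deloc) (b : BarD) {j : ℕ} {δ : ℝ} (h : b.Sm j δ) {ε : ℝ}
    (hr : ∀ z ∈ b.Z' j, Mp (fun g => Bk 0 δ b.y₁ b.r b.s g ∧ b.E' j δ g ∧ ¬ Bk 0 δ z (b.t j) (b.τ j) g) ≤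
      ε * Mp (b.E j δ)) : Mp (b.E j δ) ≤ Mp (b.F j δ) + (b.Z' j).card * ε * Mp (b.E j δ) := by
  classical
  have hP : ∀ z ∈ b.Z' j, PR (b.w j δ) (ic fun g => Bk 0 δ b.y₁ b.r b.s g ∧ b.E' j δ g ∧
      ¬ Bk 0 δ z (b.t j) (b.τ j) g) := fun z hz =>
    PR_and h.1 h.2.1.le h.2.2.1 (w1 b j δ)
      (((loc_E' b h).mono (w5 b j δ)).and ((loc_B1 b h hz).not.mono (w4 b j δ)))
  obtain ⟨h1, h2⟩ := Mr_sum hd (b.Z' j) hP
  have h3 : Mr (ic (b.E j δ)) ≤ Mr fun g => ic (b.F j δ) g + ∑ z ∈ b.Z' j, ic (fun g =>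
      Bk 0 δ b.y₁ b.r b.s g ∧ b.E' j δ g ∧ ¬ Bk 0 δ z (b.t j) (b.τ j) g) g := by
    refine Mr_mono hd (PR_E b h) ((PR_F b h).add h1) fun g => ?_
    by_cases hE : b.E j δ g
    · rw [ic_pos hE]
      by_cases hB : ∀ z ∈ b.Z' j, Bk 0 δ z (b.t j) (b.τ j) g
      · rw [ic_pos (show b.F j δ g from ⟨hE, hB⟩)]
        have : 0 ≤ ∑ z ∈ b.Z' j, ic (fun g => Bk 0 δ b.y₁ b.r b.s g ∧ b.E' j δ g ∧
          ¬ Bk 0 δ z (b.t j) (b.τ j) g) g := Finset.sum_nonneg fun z _ => ic_nonneg _ _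
        linarith
      · push Not at hB
        obtain ⟨z, hz, hzB⟩ := hB
        have h4 := Finset.single_le_sum (f := fun z => ic (fun g => Bk 0 δ b.y₁ b.r b.s g ∧ b.E' j δ g ∧
          ¬ Bk 0 δ z (b.t j) (b.τ j) g) g) (fun z _ => ic_nonneg _ _) hz
        have h5 : ic (fun g => Bk 0 δ b.y₁ b.r b.s g ∧ b.E' j δ g ∧ ¬ Bk 0 δ z (b.t j) (b.τ j) g) g = 1 :=
          ic_pos ⟨hE.1, hE.2, hzB⟩
        have h6 := ic_nonneg (b.F j δ) g
        simp only [h5] at h4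
        linarith
    · rw [ic_neg hE]
      exact add_nonneg (ic_nonneg _ _) (Finset.sum_nonneg fun z _ => ic_nonneg _ _)
  rw [Mr_add hd (PR_F b h) h1, h2] at h3
  have h4 : ∑ z ∈ b.Z' j, Mr (ic fun g => Bk 0 δ b.y₁ b.r b.s g ∧ b.E' j δ g ∧
      ¬ Bk 0 δ z (b.t j) (b.τ j) g) ≤ (b.Z' j).card * ε * Mp (b.E j δ) := by
    refine (Finset.sum_le_card_nsmul _ _ _ hr).trans_eq ?_
    rw [nsmul_eq_mul, mul_assoc]
  exact h3.trans (add_le_add le_rfl h4)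

/-- the pins are far away -/
private lemma pin_geo {l : ℝ} (hl : 0 ≤ l) {x : Pl} (h1 : |x.1| ≤ l) (h2 : |x.2| ≤ l) {d : Pl} (hd : dir4 d) :
    8 * (1 / 2) ≤ |ell d x - ell d (8 * (l + 1), 4 * (l + 1))| ∧
      8 * (1 / 2) ≤ |ell d x - ell d (-(8 * (l + 1)), -(4 * (l + 1)))| := by
  rw [abs_le] at h1 h2
  unfold ell
  rcases hd with hd | hd | hd | hd <;> subst hd <;> simp only <;> rw [le_abs, le_abs] <;>
    refine ⟨?_, ?_⟩ <;> first | (left; linarith) | (right; linarith)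

private lemma pin_far {l : ℝ} (hl : 0 ≤ l) {x : Pl} (h1 : |x.1| ≤ l) :
    7 * (l + 1) ≤ dist x (8 * (l + 1), 4 * (l + 1)) ∧ 7 * (l + 1) ≤ dist x (-(8 * (l + 1)), -(4 * (l + 1))) := by
  rw [abs_le] at h1
  rw [Prod.dist_eq, Prod.dist_eq]
  constructor
  · refine le_trans ?_ (le_max_left _ _)
    rw [Real.dist_eq, le_abs]
    right
    simp only
    linarith
  · refine le_trans ?_ (le_max_left _ _)
    rw [Real.dist_eq, le_abs]
    left
    simp only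
    linarith

/-- the choice of the blocks for one level -/
private lemma level (hd : Deloc) (hF : FlatC) (hZ : ZoneC) (k : ℕ) (S : Finset (ℤ × ℤ)) (y₁ : Pl) {r s L : ℝ}
    (hr : 0 < r) (hrs : r < s) (hy : ∀ z ∈ frontier (pol k S), s + 1 < dist z y₁) (j : ℕ) {τ : ℝ} (hτ : 0 < τ)
    (hτ1 : τ ≤ 1) : ∃ (Z Z' : Finset Pl) (ρ R t : ℝ), 0 < ρ ∧ ρ < R ∧ 0 < t ∧ t < τ ∧ R < τ ∧
      (∀ z ∈ Z, z ∈ frontier (pol k S) ∧ ∀ d, dir4 d → ∀ m : ℤ, 4 * R ≤ |ell d z - m / 2 ^ j|) ∧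
      (∀ z ∈ Z', z ∈ frontier (pol k S)) ∧ Gd L ρ R ∧
      (∀ p ∈ frontier (pol k S), (∃ z ∈ Z, dist p z < ρ / 2) ∨ ∃ z ∈ Z', dist p z < t / 2) ∧
      ∀ z ∈ Z', ∀ᶠ δ in 𝓝[>] (0 : ℝ), ∀ (T : Finset V) (E : (V → ℤ) → Prop),
        (∀ v ∈ T, s ≤ dist (pt δ v) y₁) → Dec E →
        (∀ g g' : V → ℤ, (∀ v ∈ T, g v = g' v) → (E g ↔ E g')) →
        Mp (fun g => Bk 0 δ y₁ r s g ∧ E g ∧ ¬ Bk 0 δ z t τ g) ≤
          1 / ((j + 2) * (Z'.card + 1)) * Mp (fun g => Bk 0 δ y₁ r s g ∧ E g) := by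
  classical
  obtain ⟨t₀, ht₀, Z', hZ', hcov⟩ := bar_cover k j S
  have hε : (0 : ℝ) < 1 / ((j + 2) * (Z'.card + 1)) := by positivity
  have hT : ∃ t₁ > 0, ∀ z ∈ Z', ∀ t, 0 < t → t ≤ t₁ → ∀ᶠ δ in 𝓝[>] (0 : ℝ), ∀ (T : Finset V)
        (E : (V → ℤ) → Prop), (∀ v ∈ T, s ≤ dist (pt δ v) y₁) → Dec E →
        (∀ g g' : V → ℤ, (∀ v ∈ T, g v = g' v) → (E g ↔ E g')) →
        Mp (fun g => Bk 0 δ y₁ r s g ∧ E g ∧ ¬ Bk 0 δ z t τ g) ≤
          1 / ((j + 2) * (Z'.card + 1)) * Mp (fun g => Bk 0 δ y₁ r s g ∧ E g) := by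
    have h1 : ∀ z ∈ Z', ∃ t₁ > 0, ∀ t, 0 < t → t ≤ t₁ → ∀ᶠ δ in 𝓝[>] (0 : ℝ), ∀ (T : Finset V)
        (E : (V → ℤ) → Prop), (∀ v ∈ T, s ≤ dist (pt δ v) y₁) → Dec E →
        (∀ g g' : V → ℤ, (∀ v ∈ T, g v = g' v) → (E g ↔ E g')) →
        Mp (fun g => Bk 0 δ y₁ r s g ∧ E g ∧ ¬ Bk 0 δ z t τ g) ≤
          1 / ((j + 2) * (Z'.card + 1)) * Mp (fun g => Bk 0 δ y₁ r s g ∧ E g) := fun z hz =>
      bar_rare hd hF hZ y₁ z hr hrs hτ (by have := hy z (hZ' z hz); linarith) hε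
    choose! t₁ ht₁ h2 using h1
    rcases Z'.eq_empty_or_nonempty with he | hne
    · exact ⟨1, one_pos, fun z hz => by rw [he] at hz; exact absurd hz (Finset.notMem_empty z)⟩
    · obtain ⟨z₀, hz₀, hmin⟩ := Z'.exists_min_image t₁ hne
      exact ⟨t₁ z₀, ht₁ z₀ hz₀, fun z hz t ht htt => h2 z hz t ht (htt.trans (hmin z hz))⟩
  obtain ⟨t₁, ht₁, hrare⟩ := hT
  set t : ℝ := min (min t₀ t₁) (τ / 2) with htdef
  have ht : 0 < t := lt_min (lt_min ht₀ ht₁) (by positivity)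
  have htt₀ : t ≤ t₀ := (min_le_left _ _).trans (min_le_left _ _)
  have htt₁ : t ≤ t₁ := (min_le_left _ _).trans (min_le_right _ _)
  have htτ : t ≤ τ / 2 := min_le_right _ _
  obtain ⟨ρ₀, hρ₀, hgd⟩ := exists_gd hZ L (show 0 < t / 8 by positivity)
  set ρ : ℝ := min ρ₀ (t / 16) with hρdef
  have hρ : 0 < ρ := lt_min hρ₀ (by positivity)
  have hρρ : ρ ≤ ρ₀ := min_le_left _ _
  have hρt : ρ ≤ t / 16 := min_le_right _ _
  obtain ⟨Z, hZ1, hZ2⟩ := hcov (ρ / 2) (by positivity) (t / 2) (by positivity) (by linarith)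
  refine ⟨Z, Z', ρ, t / 8, t, hρ, by linarith, ht, by linarith, by linarith, fun z hz => ?_, hZ',
    hgd ρ hρ hρρ, hZ2, fun z hz => hrare z hz t ht htt₁⟩
  refine ⟨(hZ1 z hz).1, fun d hd m => ?_⟩
  have h1 := (hZ1 z hz).2 d hd m
  linarith

/-- a block of level zero as a barrier -/
private lemma blkR_of {δ : ℝ} {z : Pl} {r r' s : ℝ} (hr : r' ≤ r) {g : V → ℤ} (h : Bk 0 δ z r s g) :
    BlkR (nz g) δ z r' s := by
  rw [bk_zero] at h
  intro u v hu hv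
  exact h u (sub_nb _ (show dist (pt δ u) z ≤ r from hu.trans hr)) v (sub_nb _ hv)

theorem exists_bar (hd : Deloc) (hF : FlatC) (hZ : ZoneC) (k : ℕ) (S : Finset (ℤ × ℤ)) :
    ∃ b : BarD, BarOK k S b := by
  classical
  obtain ⟨l₀, hl₀⟩ := (pol_compact k S).isBounded.exists_norm_le
  set l : ℝ := max l₀ 0 with hl
  have hl0 : 0 ≤ l := le_max_right _ _
  have hP : ∀ x ∈ pol k S, |x.1| ≤ l ∧ |x.2| ≤ l := fun x hx => by
    have h1 : ‖x‖ ≤ l := (hl₀ x hx).trans (le_max_left _ _)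
    rw [Prod.norm_def, max_le_iff] at h1
    exact h1
  have hfr : ∀ z ∈ frontier (pol k S), z ∈ pol k S := fun z hz => (pol_closed k S).frontier_subset hz
  have hP0 : ∀ x ∈ pol k S, dist x 0 ≤ l := fun x hx => by
    rw [dist_zero_right]
    exact (hl₀ x hx).trans (le_max_left _ _)
  set y₁ : Pl := (8 * (l + 1), 4 * (l + 1)) with hy₁
  set y₂ : Pl := (-(8 * (l + 1)), -(4 * (l + 1))) with hy₂
  have hy₁0 : dist y₁ 0 = 8 * (l + 1) := by
    rw [dist_zero_right, Prod.norm_def, hy₁, Real.norm_eq_abs, Real.norm_eq_abs, abs_of_nonneg (by simp only; linarith),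
      abs_of_nonneg (by simp only; linarith)]
    exact max_eq_left (by linarith)
  have hy₂0 : dist y₂ 0 = 8 * (l + 1) := by
    rw [dist_zero_right, Prod.norm_def, hy₂, Real.norm_eq_abs, Real.norm_eq_abs, abs_neg, abs_neg,
      abs_of_nonneg (by linarith), abs_of_nonneg (by linarith)]
    exact max_eq_left (by linarith)
  have hy12 : 2 * (1 / 2 : ℝ) < dist y₁ y₂ := by
    rw [Prod.dist_eq, Real.dist_eq, hy₁, hy₂]
    refine lt_of_lt_of_le ?_ (le_max_left _ _)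
    rw [lt_abs]
    left
    simp only
    linarith
  have hyd : ∀ z ∈ frontier (pol k S), 7 ≤ dist z y₁ ∧ 7 ≤ dist z y₂ := fun z hz => by
    have h1 := pin_far hl0 (hP z (hfr z hz)).1
    exact ⟨by linarith [h1.1], by linarith [h1.2]⟩
  obtain ⟨L, hL, hpos⟩ := bar_pos hd hF (W := 8 * (l + 1) + 2) (by positivity)
  obtain ⟨r₀, hr₀, hgd⟩ := exists_gd hZ L (show (0 : ℝ) < 1 / 2 by norm_num)
  set r : ℝ := min r₀ (1 / 4) with hrdef
  have hr : 0 < r := lt_min hr₀ (by norm_num)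
  have hr4 : r ≤ 1 / 4 := min_le_right _ _
  have hrs : r < 1 / 2 := by linarith
  have hτ : ∀ j : ℕ, 0 < 1 / ((j : ℝ) + 1) := fun j => by positivity
  have hτ1 : ∀ j : ℕ, 1 / ((j : ℝ) + 1) ≤ 1 := fun j => by
    rw [div_le_one (by positivity)]
    have : (0 : ℝ) ≤ j := Nat.cast_nonneg j
    linarith
  choose Z Z' ρ R t hρ hρR ht htτ hRτ hoff hfrZ hGd hcov hrare using fun j : ℕ =>
    level (L := L) hd hF hZ k S y₁ hr hrs (fun z hz => by linarith [(hyd z hz).1]) j (hτ j) (hτ1 j)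
  set b : BarD := ⟨y₁, y₂, r, 1 / 2, Z, Z', ρ, R, t, fun j => 1 / ((j : ℝ) + 1)⟩ with hb
  have hsm : ∀ j, ∀ᶠ δ in 𝓝[>] (0 : ℝ), b.Sm j δ := fun j =>
    ev_sm b j hr hrs (hρ j) (hρR j) (ht j) (htτ j)
  -- distance from the pins
  have hfar : ∀ (j : ℕ) (δ : ℝ), b.Sm j δ → (∀ v ∈ b.wE j δ, 1 / 2 ≤ dist (pt δ v) y₁ ∧ 1 / 2 ≤ dist (pt δ v) y₂) ∧
      ∀ v ∈ b.wF j δ, 1 / 2 ≤ dist (pt δ v) y₁ ∧ 1 / 2 ≤ dist (pt δ v) y₂ := by
    intro j δ hδ
    have key : ∀ z ∈ frontier (pol k S), ∀ v : V, dist (pt δ v) z ≤ 1 →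
        1 / 2 ≤ dist (pt δ v) y₁ ∧ 1 / 2 ≤ dist (pt δ v) y₂ := fun z hz v hv => by
      have h1 := hyd z hz
      have h2 := dist_triangle z (pt δ v) y₁
      have h3 := dist_triangle z (pt δ v) y₂
      rw [dist_comm z (pt δ v)] at h2 h3
      exact ⟨by linarith [h1.1], by linarith [h1.2]⟩
    constructor
    · intro v hv
      obtain ⟨z, hz, hvz⟩ := Finset.mem_biUnion.1 hv
      rw [mem_Is hδ.1] at hvz
      exact key z (hoff j z hz).1 v (hvz.trans ((hRτ j).le.trans (hτ1 j)))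
    · intro v hv
      obtain ⟨z, hz, hvz⟩ := Finset.mem_biUnion.1 hv
      rw [mem_Is hδ.1] at hvz
      exact key z (hfrZ j z hz) v (hvz.trans (hτ1 j))
  refine ⟨b, ⟨hr, hrs, fun x hx d hdd => pin_geo hl0 (hP x hx).1 (hP x hx).2 hdd, hρ, hρR, ht, htτ, hRτ, hτ1, ?_,
    hoff, hfrZ, ?_, ?_, ?_, ?_⟩⟩
  · exact tendsto_one_div_add_atTop_nhds_zero_nat
  · -- positive mass
    intro j
    obtain ⟨c, hc, hcM⟩ := hpos (insert (y₁, r, 1 / 2) (insert (y₂, r, 1 / 2)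
      ((Z j).image fun z => (z, ρ j, R j)))) (by
        intro z hz
        rw [Finset.mem_insert, Finset.mem_insert, Finset.mem_image] at hz
        rcases hz with hz | hz | ⟨z', hz', hz⟩
        · subst hz
          exact ⟨hr, hrs, by simp only; rw [hy₁0]; linarith, hgd r hr (min_le_left _ _)⟩
        · subst hz
          exact ⟨hr, hrs, by simp only; rw [hy₂0]; linarith, hgd r hr (min_le_left _ _)⟩
        · subst hz
          have h1 := hP0 z' (hfr z' (hoff j z' hz').1)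
          have h2 := (hRτ j).trans_le (hτ1 j)
          exact ⟨hρ j, hρR j, by simp only; linarith, hGd j⟩) (Finset.insert_nonempty _ _)
    refine ⟨c, hc, ?_⟩
    filter_upwards [hcM] with δ hδ
    refine hδ.trans_eq ?_
    have h1 : (fun g : V → ℤ => ∀ z ∈ insert (y₁, r, (1 / 2 : ℝ)) (insert (y₂, r, 1 / 2)
        ((Z j).image fun z => (z, ρ j, R j))), Bk 0 δ z.1 z.2.1 z.2.2 g) = b.E j δ := by
      funext g
      refine propext ⟨fun h => ⟨h (y₁, r, 1 / 2) (Finset.mem_insert_self _ _),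
        h (y₂, r, 1 / 2) (Finset.mem_insert_of_mem (Finset.mem_insert_self _ _)), fun z hz =>
        h (z, ρ j, R j) (Finset.mem_insert_of_mem (Finset.mem_insert_of_mem
          (Finset.mem_image_of_mem (fun z => (z, ρ j, R j)) hz)))⟩, fun h z hz => ?_⟩
      rw [Finset.mem_insert, Finset.mem_insert, Finset.mem_image] at hz
      rcases hz with hz | hz | ⟨z', hz', hz⟩
      · subst hz
        exact h.1
      · subst hz
        exact h.2.1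
      · subst hz
        exact h.2.2 z' hz'
    rw [h1]
    rfl
  · -- rare
    intro j
    have hall : ∀ᶠ δ in 𝓝[>] (0 : ℝ), ∀ z ∈ Z' j, ∀ (T : Finset V) (E : (V → ℤ) → Prop),
        (∀ v ∈ T, 1 / 2 ≤ dist (pt δ v) y₁) → Dec E →
        (∀ g g' : V → ℤ, (∀ v ∈ T, g v = g' v) → (E g ↔ E g')) →
        Mp (fun g => Bk 0 δ y₁ r (1 / 2) g ∧ E g ∧ ¬ Bk 0 δ z (t j) (1 / ((j : ℝ) + 1)) g) ≤
          1 / ((j + 2) * ((Z' j).card + 1)) * Mp (fun g => Bk 0 δ y₁ r (1 / 2) g ∧ E g) :=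
      (Finset.eventually_all _).2 (hrare j)
    filter_upwards [hall, hsm j] with δ h1 hδ
    have h2 := rare_of hd b hδ (ε := 1 / ((j + 2) * ((Z' j).card + 1))) (fun z hz => by
      refine h1 z hz (Is δ y₂ (1 / 2) ∪ b.wE j δ) (b.E' j δ) ?_ ?_ (loc_E' b hδ)
      · intro v hv
        rcases Finset.mem_union.1 hv with hv | hv
        · rw [mem_Is hδ.1] at hv
          have h3 := dist_triangle y₁ (pt δ v) y₂
          rw [dist_comm y₁ (pt δ v)] at h3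
          have h4 : 2 ≤ dist y₁ y₂ := by
            rw [Prod.dist_eq, Real.dist_eq, hy₁, hy₂]
            refine le_trans ?_ (le_max_left _ _)
            rw [le_abs]
            left
            simp only
            linarith
          linarith
        · exact ((hfar j δ hδ).1 v hv).1
      · exact decAnd (bk_dec _ _ _ _) (decAll _ fun _ _ => bk_dec _ _ _ _))
    have hM : 0 ≤ Mp (b.E j δ) := Mr_nonneg hd (PR_E b hδ) fun g => ic_nonneg _ _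
    have hcard : ((Z' j).card : ℝ) * (1 / ((j + 2) * ((Z' j).card + 1))) ≤ 1 / ((j : ℝ) + 2) := by
      rw [mul_one_div, div_le_div_iff₀ (by positivity) (by positivity)]
      have : (0 : ℝ) ≤ j := Nat.cast_nonneg j
      nlinarith
    have h3 : Mp (b.E j δ) ≤ Mp (b.F j δ) + 1 / ((j : ℝ) + 2) * Mp (b.E j δ) :=
      h2.trans (add_le_add le_rfl (mul_le_mul_of_nonneg_right hcard hM))
    change Mp (b.E j δ) - Mp (b.F j δ) ≤ 2 / (j + 2) * Mp (b.F j δ)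
    have hj : (0 : ℝ) ≤ j := Nat.cast_nonneg j
    have h5 : ((j : ℝ) + 1) * Mp (b.E j δ) ≤ (j + 2) * Mp (b.F j δ) := by
      have h6 : ((j : ℝ) + 2) * Mp (b.E j δ) ≤ (j + 2) * (Mp (b.F j δ) + 1 / ((j : ℝ) + 2) * Mp (b.E j δ)) :=
        mul_le_mul_of_nonneg_left h3 (by linarith)
      have h7 : ((j : ℝ) + 2) * (Mp (b.F j δ) + 1 / ((j : ℝ) + 2) * Mp (b.E j δ)) =
          (j + 2) * Mp (b.F j δ) + Mp (b.E j δ) := by
        field_simp
      linarith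
    have hM' : 0 ≤ Mp (b.F j δ) := Mr_nonneg hd (PR_F b hδ) fun g => ic_nonneg _ _
    rw [div_mul_eq_mul_div, le_div_iff₀ (by linarith)]
    nlinarith
  · -- moments
    intro f hf n
    obtain ⟨C, hC, hev⟩ := bar_mom hd hF hZ y₁ y₂ hr hrs hy12 hf n
    refine ⟨C, hC, fun j => ?_⟩
    filter_upwards [hev, hsm j] with δ h1 hδ
    have e1 : b.F j δ = fun g => Bk 0 δ y₁ r (1 / 2) g ∧ Bk 0 δ y₂ r (1 / 2) g ∧
        ((∀ z ∈ Z j, Bk 0 δ z (ρ j) (R j) g) ∧ ∀ z ∈ Z' j, Bk 0 δ z (t j) (1 / ((j : ℝ) + 1)) g) := by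
      funext g
      exact propext ⟨fun h => ⟨h.1.1, h.1.2.1, h.1.2.2, h.2⟩, fun h => ⟨⟨h.1, h.2.1, h.2.2.1⟩, h.2.2.2⟩⟩
    constructor
    · have h2 := h1 (b.wE j δ) (fun g => ∀ z ∈ Z j, Bk 0 δ z (ρ j) (R j) g) (hfar j δ hδ).1
        (decAll _ fun _ _ => bk_dec _ _ _ _) (loc_A b hδ)
      refine le_trans (le_of_eq ?_) h2
      show Mr _ = Mr _
      congr 1
      funext g
      exact mul_comm _ _
    · have h2 := h1 (b.wE j δ ∪ b.wF j δ) (fun g => (∀ z ∈ Z j, Bk 0 δ z (ρ j) (R j) g) ∧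
          ∀ z ∈ Z' j, Bk 0 δ z (t j) (1 / ((j : ℝ) + 1)) g) (by
            intro v hv
            rcases Finset.mem_union.1 hv with hv | hv
            · exact (hfar j δ hδ).1 v hv
            · exact (hfar j δ hδ).2 v hv)
        (decAnd (decAll _ fun _ _ => bk_dec _ _ _ _) (decAll _ fun _ _ => bk_dec _ _ _ _))
        (((loc_A b hδ).mono Finset.subset_union_left).and ((loc_B b hδ).mono Finset.subset_union_right))
      rw [e1]
      refine le_trans (le_of_eq ?_) h2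
      show Mr _ = Mr _
      congr 1
      funext g
      exact mul_comm _ _
  · -- separation
    intro a ha
    have h1 : ∀ᶠ j : ℕ in atTop, 1 / ((j : ℝ) + 1) < a :=
      (tendsto_one_div_add_atTop_nhds_zero_nat (𝕜 := ℝ)).eventually_lt_const ha
    filter_upwards [h1] with j hj
    filter_upwards [hsm j] with δ hδ g hg x v hx hxf hv hcon
    obtain ⟨hδ0, -, -, -, -, hδρ, hδt⟩ := hδ
    have hδρ' : δ < ρ j / 2 := hδρ
    have hδt' : δ < t j / 2 := hδt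
    refine barrier_pol (Q := nz g) hδ0 (Z := Z j) (Z' := Z' j) (fun z hz => (hoff j z hz).1) (hfrZ j) (hcov j)
      (R := R j) (ρ := 1 / ((j : ℝ) + 1)) ?_ ?_ hx hv ?_ (SW.conn_con hcon)
    · intro z hz
      exact blkR_of (r := ρ j) (by linarith) (hg.1.2.2 z hz)
    · intro z hz
      exact blkR_of (r := t j) (by linarith) (hg.2 z hz)
    · left
      intro p hp
      exact (max_le ((hRτ j).le.trans hj.le) hj.le).trans (hxf p hp)

end DV
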