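import Pool.Agent.Helper97.DV.Gc
import Pool.Agent.Helper97.DV.Pz

/-!
# Project DV, block BAR (7): revealed clusters, Markov property, inequality PIN

`rv A g` is `A` together with the clusters of nonzero sites of `g` that meet or touch `A`.  Given
`rv A g = R` the heights off `R` have zero boundary values along `R`.
-/

open Finset RP4

namespace DV

/-- `A` with its outer neighbours -/
def nb (A : Set V) : Set V := {v | v ∈ A ∨ ∃ u ∈ A, Adj u v}

lemma sub_nb (A : Set V) : A ⊆ nb A := fun _ h => Or.inl h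

lemma nb_mono {A B : Set V} (h : A ⊆ B) : nb A ⊆ nb B := by
  rintro v (hv | ⟨u, hu, huv⟩)
  · exact Or.inl (h hv)
  · exact Or.inr ⟨u, h hu, huv⟩

/-- the set revealed from `A` -/
def rv (A : Set V) (g : V → ℤ) : Set V := A ∪ clus (nz g) (nb A)

lemma sub_rv (A : Set V) (g : V → ℤ) : A ⊆ rv A g := Set.subset_union_left

/-- the heights next to the revealed set are zero -/
lemma rv_zero {A : Set V} {g : V → ℤ} {u v : V} (hu : u ∈ rv A g) (huv : Adj u v)
    (hv : v ∉ rv A g) : g v = 0 := by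
  by_contra h
  apply hv
  rcases hu with hu | hu
  · exact Or.inr (sub_clus (Or.inr ⟨u, hu, huv⟩) h)
  · exact Or.inr (clus_step hu huv h)

lemma rv_congr {A : Set V} {g g' : V → ℤ} (h : nz g = nz g') : rv A g = rv A g' := by
  unfold rv
  rw [h]

open Classical in
/-- `g` on `R`, `g'` off `R` -/
noncomputable def glu (R : Set V) (g g' : V → ℤ) : V → ℤ := fun v => if v ∈ R then g v else g' v

lemma glu_in {R : Set V} {g g' : V → ℤ} {v : V} (h : v ∈ R) : glu R g g' v = g v := if_pos h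

lemma glu_out {R : Set V} {g g' : V → ℤ} {v : V} (h : v ∉ R) : glu R g g' v = g' v := if_neg h

lemma glu_glu (R : Set V) (g g' : V → ℤ) : glu R (glu R g g') (glu R g' g) = g := by
  funext v
  by_cases h : v ∈ R
  · rw [glu_in h, glu_in h]
  · rw [glu_out h, glu_out h]

/-- the revealed set depends only on the heights on it -/
lemma rv_glu {A R : Set V} {g g' : V → ℤ} (h : rv A g = R) (h0 : ∀ v ∈ nb R, v ∉ R → g' v = 0) :
    rv A (glu R g g') = R := by
  have hAR : A ⊆ R := h ▸ sub_rv A g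
  apply le_antisymm
  · rintro v (hv | ⟨u, hu, hc⟩)
    · exact hAR hv
    · have key : ∀ w, w ∈ nb R → glu R g g' w ≠ 0 → w ∈ R := by
        intro w hw hn
        by_contra hwR
        exact hn (by rw [glu_out hwR, h0 w hw hwR])
      have hu' : u ∈ R := key u (nb_mono hAR hu) hc.left
      exact hc.prop (P := fun w => w ∈ R) hu' fun a b hab _ hb ha => key b (Or.inr ⟨a, ha, hab⟩) hb
  · intro v hv
    rw [← h] at hv
    rcases hv with hv | ⟨u, hu, hc⟩
    · exact sub_rv _ _ hv
    · have hu' : u ∈ clus (nz g) (nb A) := sub_clus hu hc.left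
      have h1 := clus_con hu' hc
      refine Or.inr ⟨u, hu, h1.mono (fun _ _ h => h) fun w hw => ?_⟩
      have hwR : w ∈ R := by
        rw [← h]
        exact Or.inr hw
      have h2 : g w ≠ 0 := clus_sub _ _ hw
      show glu R g g' w ≠ 0
      rwa [glu_in hwR]

/-- exchange of the parts off `R` -/
theorem avg_swap {S S' : Finset (V → ℤ)} (R : Set V) (hne : S.Nonempty) (hne' : S'.Nonempty)
    (h : ∀ g ∈ S, ∀ g' ∈ S', glu R g g' ∈ S) (h' : ∀ g ∈ S, ∀ g' ∈ S', glu R g' g ∈ S')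
    {F : (V → ℤ) → ℝ} (hF : ∀ g g' : V → ℤ, (∀ v, v ∉ R → g v = g' v) → F g = F g') :
    avg S F = avg S' F := by
  have h1 : ∑ q ∈ S ×ˢ S', F q.1 = ∑ q ∈ S ×ˢ S', F q.2 := by
    refine Finset.sum_nbij' (fun q => (glu R q.1 q.2, glu R q.2 q.1))
      (fun q => (glu R q.1 q.2, glu R q.2 q.1)) ?_ ?_ ?_ ?_ ?_
    · intro q hq
      rw [Finset.mem_product] at hq ⊢
      exact ⟨h _ hq.1 _ hq.2, h' _ hq.1 _ hq.2⟩
    · intro q hq
      rw [Finset.mem_product] at hq ⊢
      exact ⟨h _ hq.1 _ hq.2, h' _ hq.1 _ hq.2⟩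
    · intro q _
      simp only [glu_glu]
    · intro q _
      simp only [glu_glu]
    · intro q _
      exact hF _ _ fun v hv => (glu_out hv).symm
  rw [Finset.sum_product, Finset.sum_product] at h1
  simp only [Finset.sum_const, nsmul_eq_mul] at h1
  rw [← Finset.mul_sum] at h1
  have c1 : (0 : ℝ) < S.card := by exact_mod_cast hne.card_pos
  have c2 : (0 : ℝ) < S'.card := by exact_mod_cast hne'.card_pos
  unfold avg
  rw [div_eq_div_iff c1.ne' c2.ne', mul_comm, h1, mul_comm]

/-- the set `S` consists of functions which are height functions on `D`, zero boundary values -/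
structure LocH (D : Finset V) (S : Finset (V → ℤ)) : Prop where
  rst : ∀ U : Finset V, U ⊆ D → ∀ g ∈ S, (∀ v ∈ bdry U, g v = 0) → glu (U : Set V)ᶜ 0 g ∈ Om U
  gl : ∀ U : Finset V, U ⊆ D → ∀ g ∈ S, (∀ v ∈ bdry U, g v = 0) → ∀ u ∈ Om U,
    glu (U : Set V)ᶜ g u ∈ S

lemma locH_Om (D : Finset V) : LocH D (Om D) := by
  refine ⟨fun U hU g hg h0 => ?_, fun U hU g hg h0 u hu => ?_⟩
  · obtain ⟨hg1, hg2⟩ := mem_Om.1 hg
    have hin : ∀ v ∈ U, glu (U : Set V)ᶜ 0 g v = g v := fun v hv =>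
      glu_out fun h => h (Finset.mem_coe.2 hv)
    have hout : ∀ v, v ∉ U → glu (U : Set V)ᶜ 0 g v = 0 := fun v hv =>
      glu_in fun h => hv (Finset.mem_coe.1 h)
    refine mem_Om.2 ⟨⟨fun v hv => hout v hv, fun v hv => ?_, fun a ha b hb hab => ?_⟩, fun v hv => ?_⟩
    · rw [hin v hv]
      exact hg1.par v (hU hv)
    · rw [hin a ha, hin b hb]
      exact hg1.step a (hU ha) b (hU hb) hab
    · rw [hin v (bdry_subset U hv)]
      exact h0 v hv
  · obtain ⟨hg1, hg2⟩ := mem_Om.1 hg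
    obtain ⟨hu1, hu2⟩ := mem_Om.1 hu
    have hin : ∀ v ∈ U, glu (U : Set V)ᶜ g u v = u v := fun v hv =>
      glu_out fun h => h (Finset.mem_coe.2 hv)
    have hout : ∀ v, v ∉ U → glu (U : Set V)ᶜ g u v = g v := fun v hv =>
      glu_in fun h => hv (Finset.mem_coe.1 h)
    -- a boundary site of `U` has the same value
    have hbd : ∀ v ∈ bdry U, glu (U : Set V)ᶜ g u v = g v := fun v hv => by
      rw [hin v (bdry_subset U hv), hu2 v hv, h0 v hv]
    refine mem_Om.2 ⟨⟨fun v hv => ?_, fun v hv => ?_, fun a ha b hb hab => ?_⟩, fun v hv => ?_⟩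
    · rw [hout v fun h => hv (hU h)]
      exact hg1.off v hv
    · by_cases h : v ∈ U
      · rw [hin v h]
        exact hu1.par v h
      · rw [hout v h]
        exact hg1.par v hv
    · by_cases h : a ∈ U <;> by_cases h' : b ∈ U
      · rw [hin a h, hin b h']
        exact hu1.step a h b h' hab
      · rw [hout b h', hbd a (mem_bdry.2 ⟨h, b, adj_symm hab, h'⟩)]
        exact hg1.step a ha b hb hab
      · rw [hout a h, hbd b (mem_bdry.2 ⟨h', a, hab, h⟩)]
        exact hg1.step a ha b hb hab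
      · rw [hout a h, hout b h']
        exact hg1.step a ha b hb hab
    · by_cases h : v ∈ U
      · obtain ⟨_, w, hw, hwD⟩ := mem_bdry.1 hv
        rw [hbd v (mem_bdry.2 ⟨h, w, hw, fun h2 => hwD (hU h2)⟩)]
        exact hg2 v hv
      · rw [hout v h]
        exact hg2 v hv

open Classical in
/-- Markov property, exploration from outside: on the event that `A` is not reached by the set revealed
from `Y` the heights on `A` are those of flat domains between `A` and the complement of `Y` -/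
theorem out_markov {D : Finset V} {S : Finset (V → ℤ)} (hS : LocH D S) {Y : Set V}
    (hY : Yᶜ ⊆ (D : Set V)) {A : Set V} {F : (V → ℤ) → ℝ}
    (hF : ∀ g g' : V → ℤ, (∀ v ∈ A, g v = g' v) → F g = F g') {c : ℝ}
    (h : ∀ U : Finset V, BdryPar U 0 → A ⊆ (U : Set V) → (U : Set V) ⊆ Yᶜ → avg (Om U) F ≤ c) :
    ∑ g ∈ S, (if Disjoint A (rv Y g) then F g else 0) ≤
      c * ∑ g ∈ S, (if Disjoint A (rv Y g) then 1 else 0) := by
  rw [← Finset.sum_filter, ← Finset.sum_filter, Finset.mul_sum]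
  set T := S.filter fun g => Disjoint A (rv Y g) with hT
  rw [← Finset.sum_fiberwise_of_maps_to (s := T) (t := T.image (rv Y)) (g := rv Y)
    (fun g hg => Finset.mem_image_of_mem _ hg) F, ← Finset.sum_fiberwise_of_maps_to (s := T)
    (t := T.image (rv Y)) (g := rv Y) (fun g hg => Finset.mem_image_of_mem _ hg) fun _ => c * 1]
  refine Finset.sum_le_sum fun R hR => ?_
  obtain ⟨g₀, hg₀, hR₀⟩ := Finset.mem_image.1 hR
  set TR := T.filter fun g => rv Y g = R with hTR
  have hg₀' : g₀ ∈ TR := Finset.mem_filter.2 ⟨hg₀, hR₀⟩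
  have hAR : Disjoint A R := hR₀ ▸ (Finset.mem_filter.1 hg₀).2
  have hYR : Y ⊆ R := hR₀ ▸ sub_rv Y g₀
  have hfin : Rᶜ.Finite := D.finite_toSet.subset ((Set.compl_subset_compl.2 hYR).trans hY)
  obtain ⟨U, hU⟩ : ∃ U : Finset V, (U : Set V) = Rᶜ := ⟨hfin.toFinset, hfin.coe_toFinset⟩
  have hUc : (U : Set V)ᶜ = R := by rw [hU, compl_compl]
  have hUY : (U : Set V) ⊆ Yᶜ := by
    rw [hU]
    exact Set.compl_subset_compl.2 hYR
  have hUD : U ⊆ D := by
    intro v hv
    exact Finset.mem_coe.1 (hY (hUY (Finset.mem_coe.2 hv)))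
  have hmem : ∀ v, v ∈ U ↔ v ∉ R := fun v => by
    rw [← Finset.mem_coe, hU]
    rfl
  have hb0 : ∀ g ∈ TR, ∀ v ∈ bdry U, g v = 0 := by
    intro g hg v hv
    obtain ⟨h1, w, hw, hwU⟩ := mem_bdry.1 hv
    rw [hmem] at h1 hwU
    have h2 := (Finset.mem_filter.1 hg).2
    rw [← h2] at h1 hwU
    exact rv_zero (not_not.1 hwU) hw h1
  have hgS : ∀ g ∈ TR, g ∈ S := fun g hg =>
    (Finset.mem_filter.1 (Finset.mem_filter.1 hg).1).1
  have hpar : BdryPar U 0 := by
    intro v hv
    obtain ⟨h1, h2⟩ := mem_Om.1 (hS.rst U hUD g₀ (hgS g₀ hg₀') (hb0 g₀ hg₀'))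
    have h3 := h1.par v (bdry_subset U hv)
    rw [h2 v hv] at h3
    rw [Int.even_iff] at h3 ⊢
    omega
  have hav : avg TR F = avg (Om U) F := by
    refine avg_swap R ⟨g₀, hg₀'⟩ (Om_nonempty hpar) ?_ ?_ fun g g' hgg => hF g g' fun v hv =>
      hgg v (Set.disjoint_left.1 hAR hv)
    · intro g hg u hu
      have h1 : rv Y (glu R g u) = R := by
        refine rv_glu (Finset.mem_filter.1 hg).2 fun v hv hvR => ?_
        rcases hv with hv | ⟨w, hw, hwv⟩
        · exact absurd hv hvR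
        · exact (mem_Om.1 hu).2 v (mem_bdry.2 ⟨(hmem v).2 hvR, w, hwv, fun h2 => (hmem w).1 h2 hw⟩)
      refine Finset.mem_filter.2 ⟨Finset.mem_filter.2 ⟨?_, ?_⟩, h1⟩
      · have h2 := hS.gl U hUD g (hgS g hg) (hb0 g hg) u hu
        rwa [hUc] at h2
      · rw [h1]
        exact hAR
    · intro g hg u hu
      have h2 := hS.rst U hUD g (hgS g hg) (hb0 g hg)
      rw [hUc] at h2
      have h3 : glu R u g = glu R 0 g := by
        funext v
        by_cases hv : v ∈ R
        · rw [glu_in hv, glu_in hv]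
          exact (mem_Om.1 hu).1.off v fun h4 => (hmem v).1 h4 hv
        · rw [glu_out hv, glu_out hv]
      rw [h3]
      exact h2
  have hle := h U hpar (by rw [hU]; exact fun v hv => Set.disjoint_left.1 hAR hv) hUY
  rw [← hav] at hle
  have hc : (0 : ℝ) < TR.card := by exact_mod_cast Finset.card_pos.2 ⟨g₀, hg₀'⟩
  rw [avg, div_le_iff₀ hc] at hle
  rw [Finset.sum_const, nsmul_eq_mul, mul_one, mul_comm]
  exact hle

end DV
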