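import Pool.Agent.Helper94.BR.Ra
import Pool.Agent.Helper94.BR.Ms1

/-!
# Project DV, block BAR (7c): moments of the field given the blocks (PIN for moments)
-/

open Finset Filter Topology MeasureTheory

namespace DV

open RP4 (V Adj BdryPar Om dom avg mu Loc Deloc dist1 cnt mass clm)
open GF (Pl Cc Ne)
open GF.Lat (Xd win)

/-! ## PIN for cluster local functions -/

open RP4 (Zs)

open Classical in
/-- the heights on `R` are replaced by zero -/
private noncomputable def P2_msk (R : Set V) (g : V → ℤ) : V → ℤ := fun v => if v ∈ R then 0 else g v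

private lemma P2_in {R : Set V} {g : V → ℤ} {v : V} (h : v ∈ R) : P2_msk R g v = 0 := if_pos h

private lemma P2_out {R : Set V} {g : V → ℤ} {v : V} (h : v ∉ R) : P2_msk R g v = g v := if_neg h

/-- cluster local functions: a set which is cut off by zeros may be replaced by zeros -/
private def P2_CL (Y : Set V) (G : (V → ℤ) → ℝ) : Prop := ∀ (R : Set V) (g : V → ℤ),
  (∀ v ∈ Y, v ∉ R) → (∀ v ∈ nb R, v ∉ R → g v = 0) → G (P2_msk R g) = G g

private lemma P2_incF {G : (V → ℤ) → ℝ} (hG : IncF G) (R : Set V) : IncF fun g => G (P2_msk R g) := by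
  refine ⟨fun g => hG.nonneg _, fun g => ?_, fun g g' h0 h => ?_⟩
  · show G (P2_msk R (absf g)) = G (P2_msk R g)
    rw [← hG.abs (P2_msk R g)]
    congr 1
    funext v
    by_cases hv : v ∈ R
    · rw [P2_in hv]
      show (0 : ℤ) = |P2_msk R g v|
      rw [P2_in hv, abs_zero]
    · rw [P2_out hv]
      show |g v| = |P2_msk R g v|
      rw [P2_out hv]
  · refine hG.mono _ _ (fun v => ?_) fun v => ?_
    · by_cases hv : v ∈ R
      · rw [P2_in hv]
      · rw [P2_out hv]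
        exact h0 v
    · by_cases hv : v ∈ R
      · rw [P2_in hv, P2_in hv]
      · rw [P2_out hv, P2_out hv]
        exact h v

private lemma P2_anti {G : (V → ℤ) → ℝ} (hG : IncF G) {R R' : Set V} (h : R ⊆ R') (g : V → ℤ) :
    G (P2_msk R' g) ≤ G (P2_msk R g) := by
  rw [← hG.abs (P2_msk R' g), ← hG.abs (P2_msk R g)]
  refine hG.mono _ _ (fun v => abs_nonneg _) fun v => ?_
  show |P2_msk R' g v| ≤ |P2_msk R g v|
  by_cases hv : v ∈ R'
  · rw [P2_in hv, abs_zero]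
    exact abs_nonneg _
  · rw [P2_out hv, P2_out fun h' => hv (h h')]

private lemma P2_loc {G : (V → ℤ) → ℝ} {R : Set V} {g g' : V → ℤ} (h : ∀ v, v ∉ R → g v = g' v) :
    G (P2_msk R g) = G (P2_msk R g') := by
  congr 1
  funext v
  by_cases hv : v ∈ R
  · rw [P2_in hv, P2_in hv]
  · rw [P2_out hv, P2_out hv, h v hv]

private lemma P2_avg_mono {A : Finset (V → ℤ)} {F F' : (V → ℤ) → ℝ} (h : ∀ g, F g ≤ F' g) :
    avg A F ≤ avg A F' := by
  unfold avg
  exact div_le_div_of_nonneg_right (Finset.sum_le_sum fun g _ => h g) (Nat.cast_nonneg _)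

private lemma P2_avg_congr {A : Finset (V → ℤ)} {F F' : (V → ℤ) → ℝ} (h : ∀ g ∈ A, F g = F' g) :
    avg A F = avg A F' := by
  unfold avg
  rw [Finset.sum_congr rfl h]

open Classical in
private theorem P2_upper {D : Finset V} (hD : BdryPar D 0) {X Y : Set V} (hXY : Disjoint X (nb Y))
    (hYD : Yᶜ ⊆ (D : Set V)) {G : (V → ℤ) → ℝ} (hG : IncF G) (hGl : P2_CL Y G)
    {E : (V → ℤ) → Prop} (hE : Dec E)
    (hEl : ∀ g g' : V → ℤ, (∀ v ∈ Y, g v = g' v) → (E g ↔ E g')) :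
    ∑ g ∈ Om D, (if Sep X Y g ∧ E g then G g else 0) ≤
      avg (Zs D 0 (ZR D X)) (fun g => G (P2_msk X g)) *
        ∑ g ∈ Om D, (if Sep X Y g ∧ E g then 1 else 0) := by
  set κ := avg (Zs D 0 (ZR D X)) (fun g => G (P2_msk X g)) with hκ
  set T := (Om D).filter fun g => Sep X Y g with hT
  have e1 : ∑ g ∈ Om D, (if Sep X Y g ∧ E g then G g else 0) =
      ∑ g ∈ T, (if E g then G g else 0) := by
    rw [hT, Finset.sum_filter]
    exact Finset.sum_congr rfl fun g _ => by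
      by_cases h1 : Sep X Y g <;> by_cases h2 : E g <;> simp [h1, h2]
  have e2 : ∑ g ∈ Om D, (if Sep X Y g ∧ E g then (1 : ℝ) else 0) =
      ∑ g ∈ T, (if E g then (1 : ℝ) else 0) := by
    rw [hT, Finset.sum_filter]
    exact Finset.sum_congr rfl fun g _ => by
      by_cases h1 : Sep X Y g <;> by_cases h2 : E g <;> simp [h1, h2]
  rw [e1, e2, Finset.mul_sum, ← Finset.sum_fiberwise_of_maps_to (s := T) (t := T.image (rv X))
    (g := rv X) (fun g hg => Finset.mem_image_of_mem _ hg) fun g => if E g then G g else 0,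
    ← Finset.sum_fiberwise_of_maps_to (s := T) (t := T.image (rv X)) (g := rv X)
    (fun g hg => Finset.mem_image_of_mem _ hg) fun g => κ * if E g then (1 : ℝ) else 0]
  refine Finset.sum_le_sum fun R hR => ?_
  obtain ⟨g₀, hg₀, hR₀⟩ := Finset.mem_image.1 hR
  have hRY : Disjoint R (nb Y) := hR₀ ▸ (sep_iff hXY).1 (Finset.mem_filter.1 hg₀).2
  have hXR : X ⊆ R := hR₀ ▸ sub_rv X g₀
  have hfib : T.filter (fun g => rv X g = R) = (Om D).filter fun g => rv X g = R := by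
    ext g
    rw [hT, Finset.mem_filter, Finset.mem_filter, Finset.mem_filter]
    constructor
    · rintro ⟨⟨h1, -⟩, h2⟩
      exact ⟨h1, h2⟩
    · rintro ⟨h1, h2⟩
      exact ⟨⟨h1, (sep_iff hXY).2 (by rw [h2]; exact hRY)⟩, h2⟩
  rw [hfib]
  set TR := (Om D).filter fun g => rv X g = R with hTR
  have hne : TR.Nonempty := ⟨g₀, Finset.mem_filter.2 ⟨(Finset.mem_filter.1 hg₀).1, hR₀⟩⟩
  have hnR : nb R ⊆ (D : Set V) := by
    intro v hv
    apply hYD
    intro hvY
    rcases hv with hv | ⟨u, hu, huv⟩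
    · exact Set.disjoint_left.1 hRY hv (sub_nb _ hvY)
    · exact Set.disjoint_left.1 hRY hu (Or.inr ⟨v, hvY, adj_symm huv⟩)
  have hYR : ∀ v ∈ Y, v ∉ R := fun v hv hvR => Set.disjoint_left.1 hRY hvR (sub_nb _ hv)
  have hmsk : ∀ g ∈ TR, G (P2_msk R g) = G g := by
    intro g hg
    refine hGl R g hYR fun v hv hvR => ?_
    have h2 := (Finset.mem_filter.1 hg).2
    rcases hv with hv | ⟨u, hu, huv⟩
    · exact absurd hv hvR
    · rw [← h2] at hu hvR
      exact rv_zero hu huv hvR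
  have m1 := in_markov hD (X := X) hnR hne (F := fun g => if E g then G (P2_msk R g) else 0)
    fun g g' h => by
      have h1 := P2_loc (G := G) h
      have h2 := hEl g g' fun v hv => h v (hYR v hv)
      simp only [h1, h2]
  have m2 := in_markov hD (X := X) hnR hne (F := fun g => if E g then (1 : ℝ) else 0)
    fun g g' h => by
      have h2 := hEl g g' fun v hv => h v (hYR v hv)
      simp only [h2]
  have m3 := avg_mul_dec (fam_Zs (p := 0) (bdry_ZR D (nb R))) (lat_Tb D 0 _ 0) hE (P2_incF hG R)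
  have m4 : avg (Zs D 0 (ZR D (nb R))) (fun g => G (P2_msk R g)) ≤ κ :=
    (zs_anti (bdry_ZR _ _) (ZR_mono (hXR.trans (sub_nb R))) (ZR_nonempty hD _)
      (P2_incF hG R)).trans (P2_avg_mono fun g => P2_anti hG hXR g)
  have hc : (0 : ℝ) < TR.card := by exact_mod_cast hne.card_pos
  have m0 : avg TR (fun g => if E g then G g else 0) =
      avg TR (fun g => if E g then G (P2_msk R g) else 0) :=
    P2_avg_congr fun g hg => by rw [hmsk g hg]
  have m5 : avg TR (fun g => if E g then G g else 0) ≤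
      κ * avg TR (fun g => if E g then (1 : ℝ) else 0) := by
    rw [m0, m1, m2]
    refine m3.trans ?_
    rw [mul_comm κ]
    exact mul_le_mul_of_nonneg_left m4 (pr_nonneg _ _)
  unfold avg at m5
  rw [← mul_div_assoc, div_le_div_iff_of_pos_right hc, Finset.mul_sum] at m5
  exact m5

open Classical in
private theorem P2_lower {D : Finset V} (hD : BdryPar D 0) {X X' : Set V}
    (hXX : Disjoint X' (nb Xᶜ)) (hXD : X ⊆ (D : Set V)) {G : (V → ℤ) → ℝ} (hG : IncF G)
    (hGl : P2_CL Xᶜ G) :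
    avg (Zs D 0 (ZR D X)) (fun g => G (P2_msk X g)) * ∑ g ∈ Om D, (if Sep X' Xᶜ g then 1 else 0) ≤
      ∑ g ∈ Om D, (if Sep X' Xᶜ g then G g else 0) := by
  set κ := avg (Zs D 0 (ZR D X)) (fun g => G (P2_msk X g)) with hκ
  rw [← Finset.sum_filter, ← Finset.sum_filter]
  set T := (Om D).filter fun g => Sep X' Xᶜ g with hT
  rw [Finset.mul_sum, ← Finset.sum_fiberwise_of_maps_to (s := T) (t := T.image (rv X'))
    (g := rv X') (fun g hg => Finset.mem_image_of_mem _ hg) fun g => G g,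
    ← Finset.sum_fiberwise_of_maps_to (s := T) (t := T.image (rv X')) (g := rv X')
    (fun g hg => Finset.mem_image_of_mem _ hg) fun g => κ * (1 : ℝ)]
  refine Finset.sum_le_sum fun R hR => ?_
  obtain ⟨g₀, hg₀, hR₀⟩ := Finset.mem_image.1 hR
  have hRY : Disjoint R (nb Xᶜ) := hR₀ ▸ (sep_iff hXX).1 (Finset.mem_filter.1 hg₀).2
  have hfib : T.filter (fun g => rv X' g = R) = (Om D).filter fun g => rv X' g = R := by
    ext g
    rw [hT, Finset.mem_filter, Finset.mem_filter, Finset.mem_filter]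
    constructor
    · rintro ⟨⟨h1, -⟩, h2⟩
      exact ⟨h1, h2⟩
    · rintro ⟨h1, h2⟩
      exact ⟨⟨h1, (sep_iff hXX).2 (by rw [h2]; exact hRY)⟩, h2⟩
  rw [hfib]
  set TR := (Om D).filter fun g => rv X' g = R with hTR
  have hne : TR.Nonempty := ⟨g₀, Finset.mem_filter.2 ⟨(Finset.mem_filter.1 hg₀).1, hR₀⟩⟩
  have hnX : nb R ⊆ X := by
    intro v hv
    by_contra hvY
    rcases hv with hv | ⟨u, hu, huv⟩
    · exact Set.disjoint_left.1 hRY hv (sub_nb _ hvY)
    · exact Set.disjoint_left.1 hRY hu (Or.inr ⟨v, hvY, adj_symm huv⟩)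
  have hRX : R ⊆ X := (sub_nb R).trans hnX
  have hmsk : ∀ g ∈ TR, G (P2_msk R g) = G g := by
    intro g hg
    refine hGl R g (fun v hv hvR => hv (hRX hvR)) fun v hv hvR => ?_
    have h2 := (Finset.mem_filter.1 hg).2
    rcases hv with hv | ⟨u, hu, huv⟩
    · exact absurd hv hvR
    · rw [← h2] at hu hvR
      exact rv_zero hu huv hvR
  have m1 := in_markov hD (X := X') (hnX.trans hXD) hne (F := fun g => G (P2_msk R g))
    fun g g' h => P2_loc h
  have m4 : κ ≤ avg (Zs D 0 (ZR D (nb R))) (fun g => G (P2_msk R g)) :=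
    (P2_avg_mono fun g => P2_anti hG hRX g).trans
      (zs_anti (bdry_ZR _ _) (ZR_mono hnX) (ZR_nonempty hD _) (P2_incF hG R))
  have hc : (0 : ℝ) < TR.card := by exact_mod_cast hne.card_pos
  have m0 : avg TR (fun g => G (P2_msk R g)) = avg TR G := P2_avg_congr hmsk
  rw [← m1, m0, avg, le_div_iff₀ hc] at m4
  rw [Finset.sum_const, nsmul_eq_mul, mul_one, mul_comm]
  exact m4

open Classical in
private theorem P2_pin {D : Finset V} (hD : BdryPar D 0) {X X' Y : Set V} (hXY : Disjoint X (nb Y))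
    (hXX : Disjoint X' (nb Xᶜ)) (hYD : Yᶜ ⊆ (D : Set V)) {G : (V → ℤ) → ℝ} (hG : IncF G)
    (hGl : P2_CL Y G) {E : (V → ℤ) → Prop} (hE : Dec E)
    (hEl : ∀ g g' : V → ℤ, (∀ v ∈ Y, g v = g' v) → (E g ↔ E g')) :
    (∑ g ∈ Om D, (if Sep X Y g ∧ E g then G g else 0)) *
        (∑ g ∈ Om D, (if Sep X' Xᶜ g then 1 else 0)) ≤
      (∑ g ∈ Om D, (if Sep X Y g ∧ E g then 1 else 0)) *
        ∑ g ∈ Om D, (if Sep X' Xᶜ g then G g else 0) := by
  have hYX : ∀ v ∈ Y, v ∉ X := fun v hv hvX => Set.disjoint_left.1 hXY hvX (sub_nb _ hv)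
  have hXD : X ⊆ (D : Set V) := fun v hv => hYD fun h => hYX v h hv
  have h1 := P2_upper hD hXY hYD hG hGl hE hEl
  have h2 := P2_lower hD hXX hXD hG fun R g h3 h4 => hGl R g (fun v hv => h3 v (hYX v hv)) h4
  have n1 : (0 : ℝ) ≤ ∑ g ∈ Om D, (if Sep X' Xᶜ g then 1 else 0) :=
    Finset.sum_nonneg fun g _ => by split_ifs <;> norm_num
  have n2 : (0 : ℝ) ≤ ∑ g ∈ Om D, (if Sep X Y g ∧ E g then 1 else 0) :=
    Finset.sum_nonneg fun g _ => by split_ifs <;> norm_num
  calc (∑ g ∈ Om D, (if Sep X Y g ∧ E g then G g else 0)) *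
        (∑ g ∈ Om D, (if Sep X' Xᶜ g then 1 else 0))
      ≤ (avg (Zs D 0 (ZR D X)) (fun g => G (P2_msk X g)) *
          ∑ g ∈ Om D, (if Sep X Y g ∧ E g then 1 else 0)) *
        (∑ g ∈ Om D, (if Sep X' Xᶜ g then 1 else 0)) := mul_le_mul_of_nonneg_right h1 n1
    _ = (∑ g ∈ Om D, (if Sep X Y g ∧ E g then 1 else 0)) *
        (avg (Zs D 0 (ZR D X)) (fun g => G (P2_msk X g)) *
        ∑ g ∈ Om D, (if Sep X' Xᶜ g then 1 else 0)) := by ring
    _ ≤ _ := mul_le_mul_of_nonneg_left h2 n2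

/-! ## the cluster weight -/

private lemma P2_conn_of {g g' : V → ℤ} (h : ∀ v, g v ≠ 0 → g' v ≠ 0) {x y : V}
    (hc : RP4.Conn g x y) : RP4.Conn g' x y := by
  obtain ⟨hx, hr⟩ := hc
  refine ⟨h x hx, ?_⟩
  induction hr with
  | refl => exact Relation.ReflTransGen.refl
  | tail _ huv ih => exact ih.tail ⟨huv.1, h _ huv.2⟩

private lemma P2_conn {R : Set V} {g : V → ℤ} (h : ∀ v ∈ nb R, v ∉ R → g v = 0) {x y : V}
    (hx : x ∉ R) : RP4.Conn (P2_msk R g) x y ↔ RP4.Conn g x y := by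
  constructor
  · refine fun hc => P2_conn_of (fun v hv => ?_) hc
    by_cases hR : v ∈ R
    · exact absurd (P2_in hR) hv
    · rwa [P2_out hR] at hv
  · rintro ⟨hgx, hr⟩
    have key : y ∉ R ∧ g y ≠ 0 ∧
        Relation.ReflTransGen (fun u v => Adj u v ∧ P2_msk R g v ≠ 0) x y := by
      induction hr with
      | refl => exact ⟨hx, hgx, Relation.ReflTransGen.refl⟩
      | @tail u v _ huv ih =>
        obtain ⟨h1, h2, h3⟩ := ih
        have hv : v ∉ R := fun hv => h2 (h u (Or.inr ⟨v, hv, adj_symm huv.1⟩) h1)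
        exact ⟨hv, huv.2, h3.tail ⟨huv.1, by rw [P2_out hv]; exact huv.2⟩⟩
    exact ⟨by rw [P2_out hx]; exact hgx, key.2.2⟩

private lemma P2_clm {n : ℕ} {p : Fin n → V} {R : Set V} {g : V → ℤ} (hp : ∀ i, p i ∉ R)
    (h : ∀ v ∈ nb R, v ∉ R → g v = 0) : clm p (P2_msk R g) = clm p g := by
  classical
  unfold clm
  have e1 : ∀ i, P2_msk R g (p i) = g (p i) := fun i => P2_out (hp i)
  have e2 : ∀ i j, RP4.Conn (P2_msk R g) (p i) (p j) ↔ RP4.Conn g (p i) (p j) :=
    fun i j => P2_conn h (hp i)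
  have e3 : ∀ i, (Finset.univ.filter fun j => RP4.Conn (P2_msk R g) (p i) (p j)).card =
      (Finset.univ.filter fun j => RP4.Conn g (p i) (p j)).card := fun i => by
    congr 1
    ext j
    simp only [Finset.mem_filter, e2]
  simp only [e1, e3]

/-- the sum of the cluster weights -/
private noncomputable def P2_G (S : Finset V) (w : V → ℝ) (n : ℕ) (g : V → ℤ) : ℝ :=
  ∑ p : Fin n → S, (∏ i, w (p i)) * clm (fun i => (p i : V)) g

private lemma P2_G_incF {S : Finset V} {w : V → ℝ} (hw : ∀ x ∈ S, 0 ≤ w x) (n : ℕ) :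
    IncF (P2_G S w n) := by
  have hp : ∀ p : Fin n → S, 0 ≤ ∏ i, w (p i) := fun p =>
    Finset.prod_nonneg fun i _ => hw _ (p i).2
  refine ⟨fun g => ?_, fun g => ?_, fun g g' h0 h => ?_⟩
  · exact Finset.sum_nonneg fun p _ => mul_nonneg (hp p) ((SW.clm_incF _).nonneg g)
  · exact Finset.sum_congr rfl fun p _ => by rw [(SW.clm_incF _).abs g]
  · exact Finset.sum_le_sum fun p _ => mul_le_mul_of_nonneg_left
      ((SW.clm_incF _).mono g g' h0 h) (hp p)

private lemma P2_G_CL {S : Finset V} {Y : Set V} (hS : ∀ v ∈ S, v ∈ Y) (w : V → ℝ) (n : ℕ) :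
    P2_CL Y (P2_G S w n) := fun R g h1 h2 =>
  Finset.sum_congr rfl fun p _ => by rw [P2_clm (fun i => h1 _ (hS _ (p i).2)) h2]

private lemma P2_pow (S : Finset V) (w : V → ℝ) (n : ℕ) (g : V → ℤ) :
    (∑ x ∈ S, w x * (g x : ℝ)) ^ n = ∑ p : Fin n → S, (∏ i, w (p i)) * ∏ i, (g (p i) : ℝ) := by
  rw [← Finset.sum_coe_sort S fun x => w x * (g x : ℝ), Fintype.sum_pow]
  exact Finset.sum_congr rfl fun p _ => Finset.prod_mul_distrib

/-- finite volume: powers of the field and cluster weights -/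
private lemma P2_sum {D : Finset V} {E : (V → ℤ) → Prop} (hE : ∀ g, E (absf g) ↔ E g)
    (S : Finset V) (w : V → ℝ) (n : ℕ) :
    ∑ g ∈ Om D, ic E g * (∑ x ∈ S, w x * (g x : ℝ)) ^ n = ∑ g ∈ Om D, ic E g * P2_G S w n g := by
  classical
  have h1 : ∀ p : Fin n → S, ∑ g ∈ Om D, ic E g * ∏ i, (g (p i) : ℝ) =
      ∑ g ∈ Om D, ic E g * clm (fun i => (p i : V)) g := by
    intro p
    have h2 := SW.sum_prod_filter (n := n) (D' := D) (b := 0) (p := fun i => (p i : V)) (A := Om D)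
      (fun g => RP4.mem_Om) (E := E) hE
      (fun g hg _ i v hv hc => by
        have h3 := (RP4.mem_Om.1 hg).2 v hv
        obtain ⟨h4, h5⟩ := hc
        rcases Relation.ReflTransGen.cases_tail h5 with h6 | ⟨u, _, h6⟩
        · rw [← h6] at h4
          exact h4 h3
        · exact h6.2 h3) (A' := (Om D).filter E) (fun g => Finset.mem_filter)
    rw [Finset.sum_filter, Finset.sum_filter] at h2
    refine (Eq.trans ?_ h2).trans ?_
    · refine Finset.sum_congr rfl fun g _ => ?_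
      unfold ic
      split_ifs <;> simp
    · refine Finset.sum_congr rfl fun g _ => ?_
      unfold ic
      split_ifs <;> simp
  calc ∑ g ∈ Om D, ic E g * (∑ x ∈ S, w x * (g x : ℝ)) ^ n
      = ∑ g ∈ Om D, ∑ p : Fin n → S, (∏ i, w (p i)) * (ic E g * ∏ i, (g (p i) : ℝ)) := by
        refine Finset.sum_congr rfl fun g _ => ?_
        rw [P2_pow, Finset.mul_sum]
        exact Finset.sum_congr rfl fun p _ => by ring
    _ = ∑ p : Fin n → S, (∏ i, w (p i)) * ∑ g ∈ Om D, ic E g * ∏ i, (g (p i) : ℝ) := by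
        rw [Finset.sum_comm]
        exact Finset.sum_congr rfl fun p _ => by rw [Finset.mul_sum]
    _ = ∑ p : Fin n → S, (∏ i, w (p i)) * ∑ g ∈ Om D, ic E g * clm (fun i => (p i : V)) g :=
        Finset.sum_congr rfl fun p _ => by rw [h1 p]
    _ = ∑ g ∈ Om D, ∑ p : Fin n → S, (∏ i, w (p i)) * (ic E g * clm (fun i => (p i : V)) g) := by
        rw [Finset.sum_comm]
        exact Finset.sum_congr rfl fun p _ => by rw [Finset.mul_sum]
    _ = ∑ g ∈ Om D, ic E g * P2_G S w n g := by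
        refine Finset.sum_congr rfl fun g _ => ?_
        unfold P2_G
        rw [Finset.mul_sum]
        exact Finset.sum_congr rfl fun p _ => by ring

/-- PIN for powers of the field, with the constant given by the mass of the inner block -/
theorem pin_mom_c (hd : Deloc) {δ : ℝ} {y : Pl} {r' r s c : ℝ} (hδ0 : 0 < δ) (hδ1 : δ ≤ r') (hr'r : r' + δ ≤ r)
    (hrs : r + δ < s) (hc : 0 < c) (hlow : c ≤ Mp (Sep (Inn δ y r') (Inn δ y r)ᶜ)) (S : Finset V)
    (E : (V → ℤ) → Prop) (hS : ∀ v ∈ S, s ≤ dist (pt δ v) y) (hE : Dec E)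
    (hEl : ∀ g g' : V → ℤ, (∀ v ∈ S, g v = g' v) → (E g ↔ E g')) (n : ℕ) (w : V → ℝ) (hw : ∀ x ∈ S, 0 ≤ w x) :
    Mr (fun g => ic (fun g => Bk 0 δ y r s g ∧ E g) g * (∑ x ∈ S, w x * (g x : ℝ)) ^ n) ≤
      1 / c * Mr (fun g => ic (Bk 0 δ y r' s) g * (∑ x ∈ S, w x * (g x : ℝ)) ^ n) *
        Mp (fun g => Bk 0 δ y r s g ∧ E g) := by
  classical
  set X := Inn δ y r with hX
  set X' := Inn δ y r' with hX'
  set Y := Out δ y s with hY
  set s' := Is δ y s ∪ S with hs'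
  set F : (V → ℤ) → ℝ := fun g => (∑ x ∈ S, w x * (g x : ℝ)) ^ n with hFd
  have hYs : Yᶜ ⊆ (s' : Set V) := by
    refine (compl_Out_sub hδ0 y s).trans ?_
    rw [hs', Finset.coe_union]
    exact Set.subset_union_left
  have hSs : ∀ v ∈ S, v ∈ s' := fun v hv => Finset.mem_union_right _ hv
  have hSY : ∀ v ∈ S, v ∈ Y := fun v hv => hS v hv
  have hX'n : X'.Nonempty := Inn_nonempty hδ0 y hδ1
  have hXn : X.Nonempty := Inn_nonempty hδ0 y (by linarith)
  have hXX : Disjoint X' (nb Xᶜ) := disj_Inn_compl hδ0 hr'r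
  have hXY : Disjoint X (nb Y) := disj_Inn_Out hδ0 hrs
  have hX'Y : Disjoint X' (nb Y) := disj_Inn_Out hδ0 (by linarith)
  have hXs : Xᶜᶜ ⊆ (s' : Set V) := by
    rw [compl_compl]
    intro v hv
    rw [Finset.mem_coe, hs', Finset.mem_union, mem_Is hδ0]
    have h1 : dist (pt δ v) y ≤ r := hv
    exact Or.inl (by linarith)
  have sub2 : ∀ g, Sep X' Xᶜ g → Sep X' Y g := fun g h =>
    h.mono (fun _ h => h) fun v hv => by
      have h1 : s ≤ dist (pt δ v) y := hv
      show ¬ dist (pt δ v) y ≤ r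
      linarith
  have hFs : ∀ g g' : V → ℤ, (∀ x ∈ s', g x = g' x) → F g = F g' := by
    intro g g' h
    have h1 : ∑ x ∈ S, w x * (g x : ℝ) = ∑ x ∈ S, w x * (g' x : ℝ) :=
      Finset.sum_congr rfl fun x hx => by rw [h x (hSs x hx)]
    show (∑ x ∈ S, w x * (g x : ℝ)) ^ n = (∑ x ∈ S, w x * (g' x : ℝ)) ^ n
    rw [h1]
  have hEs : ∀ g g' : V → ℤ, (∀ x ∈ s', g x = g' x) → ic E g = ic E g' := fun g g' h =>
    ic_congr (hEl g g' fun v hv => h v (hSs v hv))
  -- the observables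
  set Q : (V → ℤ) → Prop := fun g => Sep X Y g ∧ E g with hQ
  have hQabs : ∀ g, Q (absf g) ↔ Q g := fun g => and_congr ((dec_sep X Y).abs g) (hE.abs g)
  have pQ : PR s' (ic Q) := by
    refine (PR_sep hXn hXY hYs hEs).congr fun g => ?_
    rw [hQ, ic_and]
  have pQF : PR s' fun g => ic Q g * F g := pQ.mul hFs
  have pP' : PR s' (ic (Sep X' Xᶜ)) := PR_sep' hX'n hXX hXs
  have pP'F : PR s' fun g => ic (Sep X' Xᶜ) g * F g := PR_sep hX'n hXX hXs hFs
  have pBF : PR s' fun g => ic (Sep X' Y) g * F g := PR_sep hX'n hX'Y hYs hFs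
  have hGi := P2_G_incF hw n
  have key : Mr (fun g => ic Q g * F g) * Mr (ic (Sep X' Xᶜ)) ≤
      Mr (ic Q) * Mr (fun g => ic (Sep X' Xᶜ) g * F g) := by
    refine Mr_mul_le_of hd pQF pP' pQ pP'F ?_
    filter_upwards [dom_sub hYs] with D hD
    have h1 := P2_pin hD.2 hXY hXX hD.1 hGi (P2_G_CL hSY w n) hE
      fun g g' h => hEl g g' fun v hv => h v (hSY v hv)
    have e1 : ∑ g ∈ Om D, ic Q g * F g =
        ∑ g ∈ Om D, (if Sep X Y g ∧ E g then P2_G S w n g else 0) := by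
      rw [P2_sum hQabs S w n]
      refine Finset.sum_congr rfl fun g _ => ?_
      unfold ic
      split_ifs <;> simp
    have e2 : ∑ g ∈ Om D, ic (Sep X' Xᶜ) g = ∑ g ∈ Om D, (if Sep X' Xᶜ g then (1 : ℝ) else 0) :=
      Finset.sum_congr rfl fun g _ => rfl
    have e3 : ∑ g ∈ Om D, ic Q g = ∑ g ∈ Om D, (if Sep X Y g ∧ E g then (1 : ℝ) else 0) := by
      refine Finset.sum_congr rfl fun g _ => ?_
      unfold ic
      split_ifs <;> rfl
    have e4 : ∑ g ∈ Om D, ic (Sep X' Xᶜ) g * F g =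
        ∑ g ∈ Om D, (if Sep X' Xᶜ g then P2_G S w n g else 0) := by
      rw [P2_sum (dec_sep X' Xᶜ).abs S w n]
      refine Finset.sum_congr rfl fun g _ => ?_
      unfold ic
      split_ifs <;> simp
    rw [e1, e2, e3, e4]
    exact h1
  have hup : Mr (fun g => ic (Sep X' Xᶜ) g * F g) ≤ Mr (fun g => ic (Sep X' Y) g * F g) := by
    have h1 := Mr_le_of hd pP'F pBF (c := 1) (d := 1) (Eventually.of_forall fun D => by
      rw [one_mul, one_mul, P2_sum (dec_sep X' Xᶜ).abs S w n, P2_sum (dec_sep X' Y).abs S w n]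
      exact Finset.sum_le_sum fun g _ =>
        mul_le_mul_of_nonneg_right (ic_mono (sub2 g)) (hGi.nonneg g))
    linarith
  have n2 : 0 ≤ Mr (fun g => ic Q g * F g) := by
    have h1 := Mr_le_of hd pQF pQF (c := 0) (d := 1) (Eventually.of_forall fun D => by
      rw [zero_mul, one_mul, P2_sum hQabs S w n]
      exact Finset.sum_nonneg fun g _ => mul_nonneg (ic_nonneg _ _) (hGi.nonneg g))
    linarith
  have n1 : 0 ≤ Mr (ic Q) := Mr_nonneg hd pQ fun g => ic_nonneg _ _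
  have h3 : c * Mr (fun g => ic Q g * F g) ≤ Mr (ic Q) * Mr (fun g => ic (Sep X' Y) g * F g) := by
    calc c * Mr (fun g => ic Q g * F g)
        ≤ Mr (ic (Sep X' Xᶜ)) * Mr (fun g => ic Q g * F g) :=
          mul_le_mul_of_nonneg_right hlow n2
      _ = Mr (fun g => ic Q g * F g) * Mr (ic (Sep X' Xᶜ)) := mul_comm _ _
      _ ≤ Mr (ic Q) * Mr (fun g => ic (Sep X' Xᶜ) g * F g) := key
      _ ≤ _ := mul_le_mul_of_nonneg_left hup n1
  have e5 : Bk 0 δ y r s = Sep X Y := bk_zero δ y r s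
  have e6 : Bk 0 δ y r' s = Sep X' Y := bk_zero δ y r' s
  rw [e5, e6]
  show Mr (fun g => ic Q g * F g) ≤ 1 / c * Mr (fun g => ic (Sep X' Y) g * F g) * Mr (ic Q)
  calc Mr (fun g => ic Q g * F g)
      = 1 / c * (c * Mr (fun g => ic Q g * F g)) := by field_simp
    _ ≤ 1 / c * (Mr (ic Q) * Mr (fun g => ic (Sep X' Y) g * F g)) :=
        mul_le_mul_of_nonneg_left h3 (by positivity)
    _ = _ := by ring

/-- (m3) PIN for powers of the field: `bar_pin` with `G = clm p` (increasing: `RP4.clm_mono`, `clm_abs`, `clm_nonneg`) for every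
`p : Fin n → S`, summed with the weights `∏ w (p i) ≥ 0`; `Mr_clm` on both sides (`E` replaced by `Bk 0 δ y r s ∧ E` and `Bk 0 δ y r' s`) -/
theorem pin_mom (hd : Deloc) (hF : FlatC) (hZ : ZoneC) (y : Pl) {r s : ℝ} (hr : 0 < r)
    (hrs : r < s) : ∃ C > 0, ∃ r' > 0, r' < r ∧ ∀ᶠ δ in 𝓝[>] (0 : ℝ), ∀ (S : Finset V)
      (E : (V → ℤ) → Prop), (∀ v ∈ S, s ≤ dist (pt δ v) y) → Dec E →
      (∀ g g' : V → ℤ, (∀ v ∈ S, g v = g' v) → (E g ↔ E g')) → ∀ (n : ℕ) (w : V → ℝ), (∀ x ∈ S, 0 ≤ w x) →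
      Mr (fun g => ic (fun g => Bk 0 δ y r s g ∧ E g) g * (∑ x ∈ S, w x * (g x : ℝ)) ^ n) ≤
        C * Mr (fun g => ic (Bk 0 δ y r' s) g * (∑ x ∈ S, w x * (g x : ℝ)) ^ n) *
          Mp (fun g => Bk 0 δ y r s g ∧ E g) := by
  classical
  obtain ⟨L, hLW, hpos⟩ := bar_pos hd hF (W := dist y 0 + r + 1) (by positivity)
  obtain ⟨r₀, hr₀, hgd⟩ := exists_gd hZ L hr
  set r' := min r₀ (r / 2) with hr'
  have hr'0 : 0 < r' := lt_min hr₀ (by positivity)
  have hr'1 : r' ≤ r / 2 := min_le_right _ _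
  have hr'r : r' < r := by linarith
  obtain ⟨c, hc, hcM⟩ := hpos {(y, r', r)} (by
    intro z hz
    rw [Finset.mem_singleton] at hz
    subst hz
    exact ⟨hr'0, hr'r, by simp only; linarith, hgd r' hr'0 (min_le_left _ _)⟩) (Finset.singleton_nonempty _)
  refine ⟨1 / c, by positivity, r', hr'0, hr'r, ?_⟩
  have hev : ∀ᶠ δ in 𝓝[>] (0 : ℝ), 0 < δ ∧ δ < r' ∧ δ < s - r := by
    have h1 : ∀ᶠ δ in 𝓝[>] (0 : ℝ), 0 < δ := self_mem_nhdsWithin
    have h2 : ∀ᶠ δ in 𝓝[>] (0 : ℝ), δ < r' := nhdsWithin_le_nhds (Iio_mem_nhds hr'0)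
    have h3 : ∀ᶠ δ in 𝓝[>] (0 : ℝ), δ < s - r := nhdsWithin_le_nhds (Iio_mem_nhds (by linarith))
    filter_upwards [h1, h2, h3] with δ a b c using ⟨a, b, c⟩
  filter_upwards [hcM, hev] with δ hcδ hδ S E hS hE hEl n w hw
  obtain ⟨hδ0, hδ1, hδ2⟩ := hδ
  have hOs : (Out δ y r)ᶜ ⊆ (Is δ y s : Set V) := by
    intro v hv
    have h1 : ¬ r ≤ dist (pt δ v) y := hv
    rw [Finset.mem_coe, mem_Is hδ0]
    linarith
  have hXs : (Inn δ y r)ᶜᶜ ⊆ (Is δ y s : Set V) := by
    rw [compl_compl]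
    intro v hv
    rw [Finset.mem_coe, mem_Is hδ0]
    have h1 : dist (pt δ v) y ≤ r := hv
    linarith
  have sub1 : ∀ g, Sep (Inn δ y r') (Out δ y r) g → Sep (Inn δ y r') (Inn δ y r)ᶜ g := fun g h =>
    h.mono (fun _ h => h) fun v hv => by
      have h1 : ¬ dist (pt δ v) y ≤ r := hv
      exact (not_le.1 h1).le
  have hlow : c ≤ Mp (Sep (Inn δ y r') (Inn δ y r)ᶜ) := by
    refine hcδ.trans ?_
    have h1 : (fun g : V → ℤ => ∀ z ∈ ({(y, r', r)} : Finset (Pl × ℝ × ℝ)),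
        Bk 0 δ z.1 z.2.1 z.2.2 g) = Sep (Inn δ y r') (Out δ y r) := by
      funext g
      apply propext
      constructor
      · intro h
        have h2 := h _ (Finset.mem_singleton_self _)
        rw [bk_zero] at h2
        exact h2
      · intro h z hz
        rw [Finset.mem_singleton] at hz
        subst hz
        rw [bk_zero]
        exact h
    rw [h1]
    exact Mr_mono hd (PR_sep' (Inn_nonempty hδ0 y hδ1.le) (disj_Inn_Out hδ0 (by linarith)) hOs)
      (PR_sep' (Inn_nonempty hδ0 y hδ1.le) (disj_Inn_compl hδ0 (by linarith)) hXs)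
      fun g => ic_mono (sub1 g)
  exact pin_mom_c hd hδ0 hδ1.le (by linarith) (by linarith) hc hlow S E hS hE hEl n w hw

end DV
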