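import Pool.Agent.Helper94.BR.Mo
import Pool.Agent.Helper75.GF.L8
import Pool.Agent.Helper63.RP4.Two

/-!
# Project DV, block BAR (7c): moments of the field given the blocks (neutral field)
-/

open Finset Filter Topology MeasureTheory

namespace DV

open RP4 (V Adj BdryPar Om dom avg mu Loc Deloc dist1 cnt mass clm)
open GF (Pl Cc Ne)
open GF.Lat (Xd win)

/-- (m4a) moments of a neutral field in the infinite volume state are bounded as `δ → 0`: `GF.Lat.moment_U` / `ev_moment`, `TwoPt` -/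
theorem mu_mom (hd : Deloc) {f : Pl → ℝ} (hf : Ne f) (n : ℕ) : ∃ C : ℝ, ∀ᶠ δ in 𝓝[>] (0 : ℝ),
    mu (fun h => Xd δ f h ^ (2 * n)) ≤ C := by
  have hdn := RP4.dom_neBot
  obtain ⟨C, hC0, hC⟩ := GF.Lat.ev_moment (2 * n)
  obtain ⟨K, -, -, -, htwo⟩ := RP4.two_pt hd
  have hi : Integrable f := hf.smooth.continuous.integrable_of_hasCompactSupport hf.supp
  have hd1 : ContDiff ℝ 1 f := hf.smooth.of_le (by simp)
  have t0 : Tendsto (fun δ => mu (fun h => Xd δ f h * Xd δ f h)) (𝓝[>] 0)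
      (𝓝 (K * RP4.energy2 f f)) := htwo f f hd1 hf.supp hf.zero hd1 hf.supp hf.zero
  have h0 : ∀ᶠ δ in 𝓝[>] (0 : ℝ), mu (fun h => Xd δ f h * Xd δ f h) ≤ K * RP4.energy2 f f + 1 :=
    t0.eventually (eventually_le_nhds (lt_add_one _))
  have hl : 0 ≤ ∫ z, |f z| := integral_nonneg fun z => abs_nonneg _
  refine ⟨C * (Real.sqrt (K * RP4.energy2 f f + 1) + ∫ z, |f z|) ^ (2 * n), ?_⟩
  filter_upwards [h0, GF.Lat.rep_XX hf, self_mem_nhdsWithin] with δ h1 h2 h3
  obtain ⟨⟨s, hs⟩, h2⟩ := h2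
  have h3' : 0 < δ := h3
  have t1 : Tendsto (fun D => avg (Om D) fun h => Xd δ f h ^ (2 * n)) dom
      (𝓝 (mu fun h => Xd δ f h ^ (2 * n))) := RP4.mu_tendsto hd (hs.comp fun t => t ^ (2 * n))
  have t2 : Tendsto (fun D => avg (Om D) fun h => Xd δ f h * Xd δ f h) dom
      (𝓝 (mu fun h => Xd δ f h * Xd δ f h)) := RP4.mu_tendsto hd (hs.mul hs)
  have t3 := (((t2.sqrt).add_const (∫ z, |f z|)).pow (2 * n)).const_mul C
  have h4 : mu (fun h => Xd δ f h ^ (2 * n)) ≤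
      C * (Real.sqrt (mu fun h => Xd δ f h * Xd δ f h) + ∫ z, |f z|) ^ (2 * n) := by
    refine le_of_tendsto_of_tendsto t1 t3 ?_
    filter_upwards [h2, GF.Lat.dom_nonempty] with D hD hne
    have h5 := hC (δ, D) h3' hne f hi
    have e1 : GF.Lat.ev (δ, D) (fun i => |GF.Lat.XX f i| ^ (2 * n)) =
        avg (Om D) fun h => Xd δ f h ^ (2 * n) := by
      unfold GF.Lat.ev avg
      congr 1
      refine Finset.sum_congr rfl fun h hh => ?_
      show |GF.Lat.XX f ((δ, D), h)| ^ (2 * n) = Xd δ f h ^ (2 * n)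
      rw [hD h hh, pow_mul, sq_abs, ← pow_mul]
    have e2 : GF.Lat.ev (δ, D) (fun i => GF.Lat.XX f i ^ 2) =
        avg (Om D) fun h => Xd δ f h * Xd δ f h := by
      unfold GF.Lat.ev avg
      congr 1
      refine Finset.sum_congr rfl fun h hh => ?_
      show GF.Lat.XX f ((δ, D), h) ^ 2 = Xd δ f h * Xd δ f h
      rw [hD h hh, sq]
    rw [e1, e2] at h5
    exact h5
  refine h4.trans (mul_le_mul_of_nonneg_left ?_ hC0)
  refine pow_le_pow_left₀ (add_nonneg (Real.sqrt_nonneg _) hl) ?_ _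
  exact add_le_add (Real.sqrt_le_sqrt h1) le_rfl

end DV
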