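import Pool.Agent.Helper94.BR.Bl
import Pool.Agent.Helper33.DV.Pm3

/-!
# Project DV, block BAR (7b): first step

Finite sums of pinned observables, blocks at other levels, the event that no level has a large block.
-/

open Finset Filter Topology

namespace DV

open RP4 (V Adj BdryPar Om dom avg mu Loc Deloc dist1 cnt)
open GF (Pl)

lemma PR.zero (s : Finset V) : PR s fun _ => 0 :=
  ⟨al_real fun _ _ _ => rfl, 0, fun g hg => absurd (by simp) hg⟩

lemma PR.add {s : Finset V} {F G : (V → ℤ) → ℝ} (hF : PR s F) (hG : PR s G) :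
    PR s fun g => F g + G g := by
  refine ⟨al_real fun g g' h => by rw [hF.loc' g g' h, hG.loc' g g' h], ?_⟩
  obtain ⟨N, hN⟩ := hF.pin
  obtain ⟨N', hN'⟩ := hG.pin
  refine ⟨max N N', fun g hg => ?_⟩
  by_cases h : F g = 0
  · have h1 : (G g : ℂ) ≠ 0 := by
      intro h0
      apply hg
      show ((F g + G g : ℝ) : ℂ) = 0
      rw [Complex.ofReal_add, h0, h, Complex.ofReal_zero, add_zero]
    obtain ⟨x, hx, h2⟩ := hN' g h1
    exact ⟨x, hx, h2.trans (le_max_right _ _)⟩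
  · obtain ⟨x, hx, h2⟩ := hN g (by exact_mod_cast h)
    exact ⟨x, hx, h2.trans (le_max_left _ _)⟩

lemma PR.congr {s : Finset V} {F G : (V → ℤ) → ℝ} (hF : PR s F) (h : ∀ g, F g = G g) : PR s G := by
  have h1 : F = G := funext h
  rw [← h1]
  exact hF

theorem Mr_zero (hd : Deloc) : Mr (fun _ => 0) = 0 := by
  have h := Mr_smul hd (PR.zero ∅) 0
  simpa using h

theorem Mr_sum (hd : Deloc) {ι : Type} (J : Finset ι) {s : Finset V} {F : ι → (V → ℤ) → ℝ}
    (hF : ∀ i ∈ J, PR s (F i)) :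
    PR s (fun g => ∑ i ∈ J, F i g) ∧ Mr (fun g => ∑ i ∈ J, F i g) = ∑ i ∈ J, Mr (F i) := by
  classical
  induction J using Finset.induction_on with
  | empty => exact ⟨(PR.zero s).congr fun g => by simp, by simp [Mr_zero hd]⟩
  | insert i J hi ih =>
    have h1 := ih fun j hj => hF j (Finset.mem_insert_of_mem hj)
    have h2 := hF i (Finset.mem_insert_self i J)
    have e : (fun g => ∑ j ∈ insert i J, F j g) = fun g => F i g + ∑ j ∈ J, F j g := by
      funext g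
      rw [Finset.sum_insert hi]
    rw [e, Finset.sum_insert hi, Mr_add hd h2 h1.1, h1.2]
    exact ⟨h2.add h1.1, rfl⟩

/-- shift of the level of a pinned observable -/
lemma PR.lev {s : Finset V} {F : (V → ℤ) → ℝ} (hF : PR s F) (k : ℤ) : PR s fun g => F (lev k g) := by
  refine ⟨al_real fun g g' h => hF.loc' _ _ fun x hx => by simp only [DV.lev, h x hx], ?_⟩
  obtain ⟨N, hN⟩ := hF.pin
  refine ⟨N + 2 * |k|, fun g hg => ?_⟩
  obtain ⟨x, hx, h2⟩ := hN (DV.lev k g) hg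
  refine ⟨x, hx, ?_⟩
  have h3 : g x = DV.lev k g x + 2 * k := by
    unfold DV.lev
    ring
  rw [h3]
  have h4 := abs_add_le (DV.lev k g x) (2 * k)
  rw [abs_mul, abs_two] at h4
  linarith

lemma bk_zero (δ : ℝ) (z : Pl) (r s : ℝ) : Bk 0 δ z r s = Sep (Inn δ z r) (Out δ z s) := by
  funext g
  unfold Bk
  rw [lev_zero]

lemma bk_lev (k j : ℤ) (δ : ℝ) (z : Pl) (r s : ℝ) (g : V → ℤ) :
    Bk k δ z r s (lev j g) ↔ Bk (k + j) δ z r s g := by
  unfold Bk
  rw [lev_lev]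

lemma ic_and (E F : (V → ℤ) → Prop) (g : V → ℤ) : ic (fun g => E g ∧ F g) g = ic E g * ic F g := by
  unfold ic
  by_cases h1 : E g <;> by_cases h2 : F g <;> simp [h1, h2]

lemma ic_mono {E F : (V → ℤ) → Prop} {g : V → ℤ} (h : E g → F g) : ic E g ≤ ic F g := by
  unfold ic
  by_cases h1 : E g
  · rw [if_pos h1, if_pos (h h1)]
  · rw [if_neg h1]
    split_ifs <;> norm_num

lemma ic_pos {E : (V → ℤ) → Prop} {g : V → ℤ} (h : E g) : ic E g = 1 := if_pos h

lemma ic_neg {E : (V → ℤ) → Prop} {g : V → ℤ} (h : ¬ E g) : ic E g = 0 := if_neg h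

/-- a block at any level times a local function is a pinned observable -/
lemma PR_bk {δ : ℝ} (hδ : 0 < δ) {z : Pl} {r s : ℝ} (hr : δ ≤ r) (hrs : r + δ < s) (k : ℤ)
    {t : Finset V} (ht : Is δ z s ⊆ t) {F : (V → ℤ) → ℝ}
    (hF : ∀ g g' : V → ℤ, (∀ x ∈ t, g x = g' x) → F g = F g') :
    PR t fun g => ic (Bk k δ z r s) g * F g := by
  have hB : (Out δ z s)ᶜ ⊆ (t : Set V) := (compl_Out_sub hδ z s).trans (Finset.coe_subset.2 ht)
  have h1 : PR t fun g => ic (Bk k δ z r s) g := by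
    have h2 := (PR_sep' (Inn_nonempty hδ z hr) (disj_Inn_Out hδ hrs) hB).lev k
    refine h2.congr fun g => ic_congr ?_
    exact Iff.rfl
  exact h1.mul hF

/-- only finitely many levels, with a bound that depends on the mesh -/
lemma levels_fin {δ : ℝ} (hδ : 0 < δ) {y z : Pl} {r s R R' : ℝ} (hr : δ ≤ r) (hrs : r + δ < s)
    (hR : δ ≤ R) (hRR : R + δ < R') :
    ∃ K : ℕ, ∀ g, GH g → Bk 0 δ y r s g → ∀ j : ℤ, Bk j δ z R R' g → |j| ≤ K := by
  classical
  obtain ⟨K, hK⟩ := ((Is δ y s ×ˢ Is δ z R').image fun p => dist1 p.1 p.2).exists_le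
  refine ⟨K.toNat, fun g hg h0 j hj => ?_⟩
  have hfin : ∀ (z : Pl) (s : ℝ), (Out δ z s)ᶜ.Finite := fun z s =>
    (Is δ z s).finite_toSet.subset (compl_Out_sub hδ z s)
  unfold Bk at h0 hj
  rw [lev_zero] at h0
  obtain ⟨v, hv, hv0⟩ := sep_pin (Inn_nonempty hδ y hr) (disj_Inn_Out hδ hrs) (hfin _ _) h0
  obtain ⟨u, hu, hu0⟩ := sep_pin (Inn_nonempty hδ z hR) (disj_Inn_Out hδ hRR) (hfin _ _) hj
  have h1 : |g v - g u| ≤ dist1 v u := gh_lip_pm3 hg v u
  have h2 : g u = 2 * j := by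
    unfold lev at hu0
    linarith
  have h3 : dist1 v u ≤ K := by
    refine hK _ (Finset.mem_image.2 ⟨(v, u), Finset.mem_product.2 ⟨?_, ?_⟩, rfl⟩)
    · exact Finset.mem_coe.1 (compl_Out_sub hδ y s hv)
    · exact Finset.mem_coe.1 (compl_Out_sub hδ z R' hu)
  rw [hv0, h2, zero_sub, abs_neg, abs_mul, abs_two] at h1
  have h4 := abs_nonneg j
  have h5 : K ≤ (K.toNat : ℤ) := Int.self_le_toNat K
  linarith

/-- tail of the sum of the inverse squares -/
lemma sum_inv_sq_le (a K : ℕ) (ha : 0 < a) :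
    ∑ i ∈ Finset.Ioc a K, 1 / ((i : ℝ) ^ 2) ≤ 1 / (a : ℝ) := by
  rcases le_total K a with h | h
  · rw [Finset.Ioc_eq_empty_of_le h, Finset.sum_empty]
    positivity
  · have h1 := sum_Ioc_inv_sq_le_sub (α := ℝ) ha.ne' h
    have h2 : ∀ i ∈ Finset.Ioc a K, 1 / ((i : ℝ) ^ 2) = ((i : ℝ) ^ 2)⁻¹ := fun i _ => one_div _
    rw [Finset.sum_congr rfl h2]
    refine h1.trans ?_
    rw [one_div]
    have h3 : (0 : ℝ) ≤ (K : ℝ)⁻¹ := by positivity
    linarith

/-- **first step of (7b)** -/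
theorem rare_step (hd : Deloc) {δ : ℝ} (hδ : 0 < δ) {y z : Pl} {r s t ρ W W' T : ℝ} (hr : δ ≤ r)
    (hrs : r + δ < s) (hρ : 0 < ρ) (htρ : t + δ < ρ) (hW : δ ≤ W) (hWW : W + δ < W')
    (hzW : dist z 0 + ρ ≤ W') (hysW : dist y 0 + s ≤ W') (hT : 0 < T) {a : ℕ} (ha : 0 < a)
    {c₁ c₂ c₃ c₄ : ℝ}
    (h1 : Mr (fun g => ic (Bk 0 δ y r s) g * ic (fun g => T ≤ |Av δ y r g|) g) ≤ c₁)
    (h2 : 1 - c₂ ≤ (muP fun g => (ic (fun h => ∃ k, Bk k δ 0 W W' h) g : ℂ)).re)
    (h3 : ∀ j : ℤ, |j| ≤ a →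
      Mr (fun g => ic (Bk j δ 0 W W') g * ic (fun g => ¬ Bk 0 δ z t ρ g) g) ≤ c₃)
    (h4 : ∀ j : ℤ, j ≠ 0 →
      Mr (fun g => ic (Bk 0 δ y r s) g * ic (Bk j δ 0 W W') g) ≤ c₄ / (j : ℝ) ^ 2) :
    Mp (fun g => Bk 0 δ y r s g ∧ ¬ Bk 0 δ z t ρ g) ≤
      c₁ + (T + 1) * c₂ + (2 * a + 1) * c₃ + 2 * c₄ / a := by
  classical
  obtain ⟨K, hK⟩ := levels_fin hδ (y := y) (z := 0) hr hrs hW hWW
  set S := Is δ 0 W' with hS
  have hyS : Is δ y s ⊆ S := by
    intro v hv
    rw [mem_Is hδ] at hv ⊢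
    have := dist_triangle (pt δ v) y 0
    linarith
  have hzS : ∀ v, dist (pt δ v) z < ρ → v ∈ S := by
    intro v hv
    rw [mem_Is hδ]
    have := dist_triangle (pt δ v) z 0
    linarith
  set P := Bk 0 δ y r s with hP
  set Q : (V → ℤ) → Prop := fun g => ¬ Bk 0 δ z t ρ g with hQ
  set G : (V → ℤ) → Prop := fun h => ∃ k, Bk k δ 0 W W' h with hG
  have lQ : ∀ g g' : V → ℤ, (∀ x ∈ S, g x = g' x) → ic Q g = ic Q g' := fun g g' h =>
    ic_congr (not_congr (bk_loc hδ htρ fun v hv => h v (hzS v hv)))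
  have lB : ∀ (j : ℤ) (g g' : V → ℤ), (∀ x ∈ S, g x = g' x) → (Bk j δ 0 W W' g ↔ Bk j δ 0 W W' g') :=
    fun j g g' h => bk_loc hδ hWW fun v hv => h v ((mem_Is hδ).2 hv.le)
  have lG : ∀ g g' : V → ℤ, (∀ x ∈ S, g x = g' x) → (¬ G g ↔ ¬ G g') := fun g g' h =>
    not_congr (exists_congr fun j => lB j g g' h)
  have lP : ∀ g g' : V → ℤ, (∀ x ∈ S, g x = g' x) → ic P g = ic P g' := fun g g' h =>
    ic_congr (bk_loc hδ hrs fun v hv => h v (hyS ((mem_Is hδ).2 hv.le)))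
  -- the average
  set s₀ := Is δ y r with hs₀
  have hs₀S : s₀ ⊆ S := by
    intro v hv
    refine hyS ?_
    rw [mem_Is hδ] at hv ⊢
    linarith
  have hs₀n : s₀.Nonempty := by
    obtain ⟨v, hv⟩ := Inn_nonempty hδ y hr
    exact ⟨v, (mem_Is hδ).2 hv⟩
  have hcard : (0 : ℝ) < s₀.card := by exact_mod_cast hs₀n.card_pos
  set w : V → ℝ := fun _ => 1 / s₀.card with hw
  have hAv : ∀ g : V → ℤ, ∑ v ∈ s₀, w v * (g v : ℝ) = Av δ y r g := by
    intro g
    unfold Av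
    rw [hw, ← Finset.mul_sum, one_div, inv_mul_eq_div]
  have hcount := Mr_count hd hs₀S (w := w) (fun v _ => by positivity) (by
    rw [hw, Finset.sum_const, nsmul_eq_mul, mul_one_div_cancel hcard.ne']) hT.le (G := fun g => ¬ G g) lG
    (by
      intro k g
      refine not_congr ⟨?_, ?_⟩
      · rintro ⟨j, hj⟩
        exact ⟨j + k, (bk_lev j k δ 0 W W' g).1 hj⟩
      · rintro ⟨j, hj⟩
        refine ⟨j - k, (bk_lev (j - k) k δ 0 W W' g).2 ?_⟩
        rwa [sub_add_cancel])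
  -- probability of the complement of `G`
  have hGc : (muP fun g => (ic (fun g => ¬ G g) g : ℂ)).re ≤ c₂ := by
    have aG : AL S fun g => (ic G g : ℂ) := al_real fun g g' h => ic_congr (exists_congr fun j => lB j g g' h)
    have aGc : AL S fun g => (ic (fun g => ¬ G g) g : ℂ) := al_real fun g g' h => ic_congr (lG g g' h)
    have invG : ∀ k g, G (lev k g) ↔ G g := by
      intro k g
      constructor
      · rintro ⟨j, hj⟩
        exact ⟨j + k, (bk_lev j k δ 0 W W' g).1 hj⟩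
      · rintro ⟨j, hj⟩
        refine ⟨j - k, (bk_lev (j - k) k δ 0 W W' g).2 ?_⟩
        rwa [sub_add_cancel]
    have pG : Phs 0 fun g => (ic G g : ℂ) := by
      intro k g
      show (ic G (lev k g) : ℂ) = _
      rw [ic_congr (E' := G) (invG k g)]
      simp
    have pGc : Phs 0 fun g => (ic (fun g => ¬ G g) g : ℂ) := by
      intro k g
      show (ic (fun g => ¬ G g) (lev k g) : ℂ) = _
      rw [ic_congr (E' := fun g => ¬ G g) (g' := g) (not_congr (invG k g))]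
      simp
    have hadd := muP_add hd aG pG aGc pGc
    have hone : (fun g : V → ℤ => (ic G g : ℂ) + (ic (fun g => ¬ G g) g : ℂ)) = fun _ => 1 := by
      funext g
      by_cases h : G g
      · rw [ic_pos h, ic_neg (E := fun g => ¬ G g) (not_not.2 h)]
        simp
      · rw [ic_neg h, ic_pos (E := fun g => ¬ G g) h]
        simp
    rw [hone, muP_const] at hadd
    have h5 := congrArg Complex.re hadd
    rw [Complex.one_re, Complex.add_re] at h5
    linarith
  -- the observables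
  have PP : PR S fun g => ic P g * ic Q g := PR_bk hδ hr hrs 0 hyS lQ
  have PG : PR S fun g => ic P g * ic (fun g => ¬ G g) g :=
    PR_bk hδ hr hrs 0 hyS fun g g' h => ic_congr (lG g g' h)
  have lA : ∀ g g' : V → ℤ, (∀ x ∈ S, g x = g' x) →
      ic (fun g => T ≤ |Av δ y r g|) g = ic (fun g => T ≤ |Av δ y r g|) g' := by
    intro g g' h
    refine ic_congr ?_
    show T ≤ |Av δ y r g| ↔ T ≤ |Av δ y r g'|
    rw [← hAv, ← hAv, Finset.sum_congr rfl fun v hv => by rw [h v (hs₀S hv)]]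
  have PA : PR S fun g => ic P g * ic (fun g => T ≤ |Av δ y r g|) g := PR_bk hδ hr hrs 0 hyS lA
  -- first term
  have t1 : Mr (fun g => ic P g * ic (fun g => ¬ G g) g) ≤ c₁ + (T + 1) * c₂ := by
    have h5 : Mr (fun g => ic P g * ic (fun g => ¬ G g) g) ≤
        Mr (fun g => ic P g * ic (fun g => T ≤ |Av δ y r g|) g +
          ic (fun g => |∑ v ∈ s₀, w v * (g v : ℝ)| ≤ T ∧ Lps s₀ g) g * ic (fun g => ¬ G g) g) := by
      refine Mr_mono_GH hd PG (PA.add hcount.1) (fun g _ => mul_nonneg (ic_nonneg _ _) (ic_nonneg _ _))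
        fun g hg => ?_
      by_cases hT' : T ≤ |Av δ y r g|
      · rw [ic_pos (E := fun g => T ≤ |Av δ y r g|) hT', mul_one]
        have h6 : ic P g * ic (fun g => ¬ G g) g ≤ ic P g :=
          mul_le_of_le_one_right (ic_nonneg _ _) (ic_le_one _ _)
        have h7 := mul_nonneg (ic_nonneg (fun g => |∑ v ∈ s₀, w v * (g v : ℝ)| ≤ T ∧ Lps s₀ g) g)
          (ic_nonneg (fun g => ¬ G g) g)
        linarith
      · have h6 : ic (fun g => |∑ v ∈ s₀, w v * (g v : ℝ)| ≤ T ∧ Lps s₀ g) g = 1 := by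
          refine ic_pos ⟨?_, fun u _ v _ => gh_lip_pm3 hg u v⟩
          rw [hAv]
          exact (not_le.1 hT').le
        rw [h6, one_mul]
        have h7 : ic P g * ic (fun g => ¬ G g) g ≤ ic (fun g => ¬ G g) g :=
          mul_le_of_le_one_left (ic_nonneg _ _) (ic_le_one _ _)
        have h8 := mul_nonneg (ic_nonneg P g) (ic_nonneg (fun g => T ≤ |Av δ y r g|) g)
        linarith
    rw [Mr_add hd PA hcount.1] at h5
    have h6 := hcount.2
    have h7 : (T + 1) * (muP fun g => (ic (fun g => ¬ G g) g : ℂ)).re ≤ (T + 1) * c₂ :=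
      mul_le_mul_of_nonneg_left hGc (by linarith)
    linarith
  -- second term
  have B2 : ∀ j ∈ Finset.Icc (-(a : ℤ)) a, PR S fun g => ic (Bk j δ 0 W W') g * ic Q g := fun j _ =>
    PR_bk hδ hW hWW j (Finset.Subset.refl _) lQ
  have t2 := Mr_sum hd (Finset.Icc (-(a : ℤ)) a) B2
  have t2' : Mr (fun g => ∑ j ∈ Finset.Icc (-(a : ℤ)) a, ic (Bk j δ 0 W W') g * ic Q g) ≤
      (2 * a + 1) * c₃ := by
    rw [t2.2]
    refine (Finset.sum_le_sum fun j hj => h3 j ?_).trans ?_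
    · rw [Finset.mem_Icc] at hj
      exact abs_le.2 hj
    · rw [Finset.sum_const, nsmul_eq_mul, Int.card_Icc]
      have h5 : (((a : ℤ) + 1 - -(a : ℤ)).toNat : ℝ) = 2 * a + 1 := by
        have h6 : ((a : ℤ) + 1 - -(a : ℤ)).toNat = 2 * a + 1 := by omega
        rw [h6]
        push_cast
        ring
      rw [h5]
  -- third term
  have B3 : ∀ i ∈ Finset.Ioc a K, PR S fun g => ic P g * ic (Bk (i : ℤ) δ 0 W W') g +
      ic P g * ic (Bk (-(i : ℤ)) δ 0 W W') g := fun i _ =>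
    (PR_bk hδ hr hrs 0 hyS fun g g' h => ic_congr (lB _ g g' h)).add
      (PR_bk hδ hr hrs 0 hyS fun g g' h => ic_congr (lB _ g g' h))
  have t3 := Mr_sum hd (Finset.Ioc a K) B3
  have hc4 : 0 ≤ c₄ := by
    have h5 := h4 1 one_ne_zero
    have h6 := Mr_nonneg hd (PR_bk (F := ic (Bk 1 δ 0 W W')) hδ hr hrs 0 hyS fun g g' h =>
      ic_congr (lB 1 g g' h)) fun g => mul_nonneg (ic_nonneg _ _) (ic_nonneg _ _)
    have h7 : (c₄ / ((1 : ℤ) : ℝ) ^ 2) = c₄ := by norm_num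
    rw [h7] at h5
    exact h6.trans h5
  have t3' : Mr (fun g => ∑ i ∈ Finset.Ioc a K, (ic P g * ic (Bk (i : ℤ) δ 0 W W') g +
      ic P g * ic (Bk (-(i : ℤ)) δ 0 W W') g)) ≤ 2 * c₄ / a := by
    rw [t3.2]
    have h5 : ∀ i ∈ Finset.Ioc a K, Mr (fun g => ic P g * ic (Bk (i : ℤ) δ 0 W W') g +
        ic P g * ic (Bk (-(i : ℤ)) δ 0 W W') g) ≤ 2 * c₄ * (1 / ((i : ℝ) ^ 2)) := by
      intro i hi
      rw [Finset.mem_Ioc] at hi
      rw [Mr_add hd (PR_bk (F := ic (Bk (i : ℤ) δ 0 W W')) hδ hr hrs 0 hyS fun g g' h =>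
        ic_congr (lB _ g g' h)) (PR_bk (F := ic (Bk (-(i : ℤ)) δ 0 W W')) hδ hr hrs 0 hyS fun g g' h =>
        ic_congr (lB _ g g' h))]
      have h6 := h4 i (by omega)
      have h7 := h4 (-(i : ℤ)) (by omega)
      have h8 : c₄ / (((i : ℤ) : ℝ)) ^ 2 = c₄ * (1 / ((i : ℝ) ^ 2)) := by
        push_cast
        rw [mul_one_div]
      have h9 : c₄ / (((-(i : ℤ) : ℤ) : ℝ)) ^ 2 = c₄ * (1 / ((i : ℝ) ^ 2)) := by
        push_cast
        rw [neg_sq, mul_one_div]
      rw [h8] at h6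
      rw [h9] at h7
      linarith
    refine (Finset.sum_le_sum h5).trans ?_
    rw [← Finset.mul_sum]
    calc 2 * c₄ * ∑ i ∈ Finset.Ioc a K, 1 / ((i : ℝ) ^ 2) ≤ 2 * c₄ * (1 / a) :=
          mul_le_mul_of_nonneg_left (sum_inv_sq_le a K ha) (by positivity)
      _ = 2 * c₄ / a := by rw [mul_one_div]
  -- all together
  have hfin : Mr (fun g => ic P g * ic Q g) ≤ Mr (fun g => ic P g * ic (fun g => ¬ G g) g +
      (∑ j ∈ Finset.Icc (-(a : ℤ)) a, ic (Bk j δ 0 W W') g * ic Q g +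
        ∑ i ∈ Finset.Ioc a K, (ic P g * ic (Bk (i : ℤ) δ 0 W W') g +
          ic P g * ic (Bk (-(i : ℤ)) δ 0 W W') g))) := by
    refine Mr_mono_GH hd PP (PG.add (t2.1.add t3.1)) (fun g _ => mul_nonneg (ic_nonneg _ _) (ic_nonneg _ _))
      fun g hg => ?_
    have n1 : 0 ≤ ic P g * ic (fun g => ¬ G g) g := mul_nonneg (ic_nonneg _ _) (ic_nonneg _ _)
    have n2 : ∀ j ∈ Finset.Icc (-(a : ℤ)) a, 0 ≤ ic (Bk j δ 0 W W') g * ic Q g := fun j _ =>
      mul_nonneg (ic_nonneg _ _) (ic_nonneg _ _)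
    have n3 : ∀ i ∈ Finset.Ioc a K, 0 ≤ ic P g * ic (Bk (i : ℤ) δ 0 W W') g +
        ic P g * ic (Bk (-(i : ℤ)) δ 0 W W') g := fun i _ =>
      add_nonneg (mul_nonneg (ic_nonneg _ _) (ic_nonneg _ _)) (mul_nonneg (ic_nonneg _ _) (ic_nonneg _ _))
    have m2 := Finset.sum_nonneg n2
    have m3 := Finset.sum_nonneg n3
    have hL : ic P g * ic Q g ≤ 1 := mul_le_one₀ (ic_le_one _ _) (ic_nonneg _ _) (ic_le_one _ _)
    by_cases hPg : P g
    · by_cases hQg : Q g
      · by_cases hGg : G g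
        · obtain ⟨j, hj⟩ := hGg
          by_cases hja : |j| ≤ a
          · have h5 := Finset.single_le_sum n2 (Finset.mem_Icc.2 (abs_le.1 hja))
            have h6 : ic (Bk j δ 0 W W') g * ic Q g = 1 := by rw [ic_pos hj, ic_pos hQg, one_mul]
            linarith
          · have hjK := hK g hg hPg j hj
            rw [Int.abs_eq_natAbs] at hja hjK
            have h6 : j.natAbs ∈ Finset.Ioc a K := by
              rw [Finset.mem_Ioc]
              omega
            have h5 := Finset.single_le_sum n3 h6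
            have h7 : 1 ≤ ic P g * ic (Bk ((j.natAbs : ℕ) : ℤ) δ 0 W W') g +
                ic P g * ic (Bk (-((j.natAbs : ℕ) : ℤ)) δ 0 W W') g := by
              rw [ic_pos hPg, one_mul, one_mul]
              rcases le_total 0 j with h8 | h8
              · have h9 : ((j.natAbs : ℕ) : ℤ) = j := by omega
                rw [h9, ic_pos hj]
                have := ic_nonneg (Bk (-j) δ 0 W W') g
                linarith
              · have h9 : -((j.natAbs : ℕ) : ℤ) = j := by omega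
                rw [h9, ic_pos hj]
                have := ic_nonneg (Bk ((j.natAbs : ℕ) : ℤ) δ 0 W W') g
                linarith
            linarith
        · have h6 : ic P g * ic (fun g => ¬ G g) g = 1 := by
            rw [ic_pos hPg, ic_pos (E := fun g => ¬ G g) hGg, one_mul]
          linarith
      · have h6 : ic P g * ic Q g = 0 := by rw [ic_neg hQg, mul_zero]
        linarith
    · have h6 : ic P g * ic Q g = 0 := by rw [ic_neg hPg, zero_mul]
      linarith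
  have e1 : Mp (fun g => Bk 0 δ y r s g ∧ ¬ Bk 0 δ z t ρ g) = Mr (fun g => ic P g * ic Q g) := by
    unfold Mp
    congr 1
    funext g
    rw [ic_and P Q g]
  rw [e1]
  refine hfin.trans ?_
  rw [Mr_add hd PG (t2.1.add t3.1), Mr_add hd t2.1 t3.1]
  linarith

end DV
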