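import Pool.Agent.Helper94.BR.Po
import Pool.Agent.Helper94.BR.Rz

/-!
# Project DV, block BAR (7b): blocks of small inner radius have conditional probability close to one
-/

open Finset Filter Topology

namespace DV

open RP4 (V Adj BdryPar Om dom avg mu Loc Deloc dist1 cnt)
open GF (Pl)

/-- `F` holds on most of `P`: with `G = ∃ j, Bk j δ 0 W W'` (`FlatC`), `P = Bk 0 δ y r s`, `Q = Bk 0 δ z t ρ`:
`M(P, not Q) ≤ M(P, not G) + ∑_(|j| ≤ a) M(P, not Q, Bk j δ 0 W W') + ∑_(a < |j| ≤ K) M(P, Bk j δ 0 W W')`.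
First term: `≤ M(P, |Av| > T) + M(|Av| ≤ T, not G) ≤ C / T² + (T + 1) ε₁` (`bk_tail`, `Mr_count`).
Third: `bk_two` (`≤ C / j²`; the range `|j| ≤ K` is finite for fixed `δ`: both events fix the height of a site of a bounded set, `GH`
functions are Lipschitz).  Second: `Mr_lev`: `M(P_(-j), not Q_(-j), Bk 0 δ 0 W W') ≤ ε₂ M(Bk 0 δ 0 W W')` by `M_out_le` and `ZoneC`
(`L = W'`, level `-j`), `bk_upper`.  Choose `T`, then `ε₁` (hence `W'`), `a`, `ε₂`, then `t₀`. -/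
theorem bar_rare0 (hd : Deloc) (hF : FlatC) (hZ : ZoneC) (y z : Pl) {r s ρ ε : ℝ} (hr : 0 < r)
    (hrs : r < s) (hρ : 0 < ρ) (hε : 0 < ε) : ∃ t₀ > 0, ∀ t, 0 < t → t ≤ t₀ →
      ∀ᶠ δ in 𝓝[>] (0 : ℝ), Mp (fun g => Bk 0 δ y r s g ∧ ¬ Bk 0 δ z t ρ g) ≤ ε := by
  classical
  obtain ⟨C₂, hC₂, htail⟩ := bk_tail hd y y hr hrs hr (by rw [dist_self, zero_add])
  set T : ℝ := 4 * C₂ / ε + 1 with hT
  have hT1 : 1 ≤ T := by
    have : 0 ≤ 4 * C₂ / ε := by positivity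
    linarith
  have hT0 : 0 < T := by linarith
  have hTb : C₂ / T ^ 2 ≤ ε / 4 := by
    rw [div_le_div_iff₀ (by positivity) (by norm_num)]
    have h1 : 4 * C₂ ≤ ε * T := by
      rw [hT, mul_add, mul_div_cancel₀ _ hε.ne']
      linarith
    nlinarith [mul_nonneg hε.le (mul_nonneg (sub_nonneg.2 hT1) hT0.le)]
  have hdy : 0 ≤ dist y (0 : Pl) := dist_nonneg
  have hdz : 0 ≤ dist z (0 : Pl) := dist_nonneg
  set W : ℝ := dist y 0 + s + (dist z 0 + ρ) + 1 with hW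
  have hW0 : 0 < W := by linarith
  obtain ⟨W', hWW, hflat⟩ := hF (ε / (4 * (T + 1))) (by positivity) W hW0
  obtain ⟨C₄, hC₄, htwo⟩ := bk_two hd 0 y hW0 hWW hr hrs (by linarith)
  obtain ⟨a, ha⟩ := exists_nat_gt (8 * C₄ / ε)
  have ha0 : (0 : ℝ) < a := lt_of_le_of_lt (by positivity) ha
  have ha0' : 0 < a := by exact_mod_cast ha0
  obtain ⟨C₁, hC₁, hup⟩ := bk_upper hd 0 hW0 hWW
  set c₃ : ℝ := ε / (4 * (2 * a + 1)) with hc₃
  have hc₃0 : 0 < c₃ := by positivity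
  obtain ⟨t₀, ht₀, hzone⟩ := hZ a (c₃ / C₁) W' ρ (by positivity) hρ
  refine ⟨min t₀ (ρ / 2), by positivity, fun t ht htt => ?_⟩
  have htt₀ : t ≤ t₀ := htt.trans (min_le_left _ _)
  have htρ : t ≤ ρ / 2 := htt.trans (min_le_right _ _)
  have hev : ∀ c : ℝ, 0 < c → ∀ᶠ δ in 𝓝[>] (0 : ℝ), δ < c := fun c hc =>
    nhdsWithin_le_nhds (Iio_mem_nhds hc)
  have hpos : ∀ᶠ δ in 𝓝[>] (0 : ℝ), 0 < δ := self_mem_nhdsWithin
  filter_upwards [htail, hflat, htwo, hup, hzone, hpos, hev r hr, hev (s - r) (by linarith),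
    hev (ρ / 2) (by positivity), hev (W' - W) (by linarith), hev 1 one_pos] with δ h1 h2 h4 h5 h6 hδ d1 d2
      d3 d4 d5
  have h3 : ∀ j : ℤ, |j| ≤ a →
      Mr (fun g => ic (Bk j δ 0 W W') g * ic (fun g => ¬ Bk 0 δ z t ρ g) g) ≤ c₃ := by
    intro j hj
    have e1 : Mr (fun g => ic (Bk j δ 0 W W') g * ic (fun g => ¬ Bk 0 δ z t ρ g) g) =
        Mr (fun g => ic (Bk 0 δ 0 W W') g * ic (fun g => ¬ Bk (-j) δ z t ρ g) g) := by
      rw [← Mr_lev j (fun g => ic (Bk 0 δ 0 W W') g * ic (fun g => ¬ Bk (-j) δ z t ρ g) g)]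
      congr 1
      funext g
      have e2 : ic (Bk 0 δ 0 W W') (lev j g) = ic (Bk j δ 0 W W') g := ic_congr (by
        rw [bk_lev, zero_add])
      have e3 : ic (fun g => ¬ Bk (-j) δ z t ρ g) (lev j g) = ic (fun g => ¬ Bk 0 δ z t ρ g) g :=
        ic_congr (not_congr (by rw [bk_lev, neg_add_cancel]))
      rw [e2, e3]
    rw [e1, bk_zero]
    have h7 := M_out_le hd (A := Inn δ 0 W) (B := Out δ 0 W') (s := Is δ 0 W')
      (Inn_nonempty hδ 0 (by linarith)) (disj_Inn_Out hδ (by linarith)) (compl_Out_sub hδ 0 W')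
      (F := ic fun g => ¬ Bk (-j) δ z t ρ g) (fun g g' hg => ic_congr (not_congr
        (bk_loc hδ (by linarith) fun v hv => hg v (sub_nb _ (by
          show dist (pt δ v) 0 ≤ W
          have := dist_triangle (pt δ v) z 0
          linarith))))) (c := c₃ / C₁) (fun U hU hUA hUB => by
        have h8 := h6 z U hU (fun v hv => hUA (sub_nb _ (by
          have h9 : dist (pt δ v) z ≤ ρ := hv
          show dist (pt δ v) 0 ≤ W
          have := dist_triangle (pt δ v) z 0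
          linarith))) (fun v hv => by
          have h9 : ¬ W' ≤ dist (pt δ v) 0 := hUB hv
          exact (not_le.1 h9).le) (-j) (by rw [abs_neg]; exact hj)
        have h9 : pr (Om U) (Bk (-j) δ z t₀ ρ) ≤ pr (Om U) (Bk (-j) δ z t ρ) :=
          pr_mono fun g _ h => bk_mono htt₀ le_rfl h
        have h10 := pr_not (RP4.Om_nonempty hU) (Bk (-j) δ z t ρ)
        show pr (Om U) (fun g => ¬ Bk (-j) δ z t ρ g) ≤ c₃ / C₁
        rw [h10]
        linarith)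
    refine h7.trans ?_
    rw [bk_zero] at h5
    calc c₃ / C₁ * Mp (Sep (Inn δ 0 W) (Out δ 0 W')) ≤ c₃ / C₁ * C₁ :=
          mul_le_mul_of_nonneg_left h5 (by positivity)
      _ = c₃ := div_mul_cancel₀ _ hC₁.ne'
  have h := rare_step hd hδ (y := y) (z := z) (r := r) (s := s) (t := t) (ρ := ρ) (W := W) (W' := W')
    (T := T) d1.le (by linarith) hρ (by linarith) (by linarith) (by linarith) (by linarith)
    (by linarith) hT0 ha0' (h1 T hT0) h2 h3 h4
  refine h.trans ?_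
  have e1 : (T + 1) * (ε / (4 * (T + 1))) = ε / 4 := by field_simp
  have e2 : (2 * (a : ℝ) + 1) * c₃ = ε / 4 := by
    rw [hc₃]
    field_simp
  have e3 : 2 * C₄ / a ≤ ε / 4 := by
    rw [div_le_div_iff₀ ha0 (by norm_num)]
    rw [div_lt_iff₀ hε] at ha
    linarith
  rw [e1, e2]
  linarith

lemma disj_Inn_compl {δ : ℝ} (hδ : 0 < δ) {z : Pl} {r' r : ℝ} (h : r' + δ ≤ r) :
    Disjoint (Inn δ z r') (nb (Inn δ z r)ᶜ) := by
  rw [Set.disjoint_left]
  rintro v hv (hv' | ⟨u, hu, huv⟩)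
  · apply hv'
    have h1 : dist (pt δ v) z ≤ r' := hv
    show dist (pt δ v) z ≤ r
    linarith
  · apply hu
    have h1 : dist (pt δ v) z ≤ r' := hv
    have h2 := adj_dist hδ (adj_symm huv) z
    show dist (pt δ u) z ≤ r
    linarith

/-- the general form of PIN in macroscopic coordinates: `P = Bk 0 δ y r s`, `c` a lower bound of the mass of
`P' = Bk 0 δ y r' r` (`Inn` instead of `Out`: `P'` is contained in `Sep (Inn δ y r') (Inn δ y r)ᶜ`, which is contained in `Bk 0 δ y r' s`) -/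
theorem bar_pin (hd : Deloc) (hF : FlatC) (hZ : ZoneC) (y : Pl) {r s : ℝ} (hr : 0 < r)
    (hrs : r < s) : ∃ C > 0, ∃ r' > 0, r' < r ∧ ∀ᶠ δ in 𝓝[>] (0 : ℝ), ∀ (S : Finset V) (G : (V → ℤ) → ℝ)
      (E : (V → ℤ) → Prop), (∀ v ∈ S, s ≤ dist (pt δ v) y) → IncF G → Dec E →
      (∀ g g' : V → ℤ, (∀ v ∈ S, g v = g' v) → G g = G g') →
      (∀ g g' : V → ℤ, (∀ v ∈ S, g v = g' v) → (E g ↔ E g')) →
      Mr (fun g => ic (Bk 0 δ y r s) g * (ic E g * G g)) ≤
        C * Mr (fun g => ic (Bk 0 δ y r' s) g * G g) * Mr (fun g => ic (Bk 0 δ y r s) g * ic E g) := by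
  classical
  obtain ⟨L, hLW, hpos⟩ := bar_pos hd hF (W := dist y 0 + r + 1) (by positivity)
  obtain ⟨r₀, hr₀, hgd⟩ := exists_gd hZ L hr
  set r' := min r₀ (r / 2) with hr'
  have hr'0 : 0 < r' := lt_min hr₀ (by positivity)
  have hr'1 : r' ≤ r / 2 := min_le_right _ _
  have hr'r : r' < r := by linarith
  obtain ⟨c, hc, hcM⟩ := hpos {(y, r', r)} (by
    intro z hz
    rw [Finset.mem_singleton] at hz
    subst hz
    exact ⟨hr'0, hr'r, by simp only; linarith, hgd r' hr'0 (min_le_left _ _)⟩) (Finset.singleton_nonempty _)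
  refine ⟨1 / c, by positivity, r', hr'0, hr'r, ?_⟩
  have hev : ∀ᶠ δ in 𝓝[>] (0 : ℝ), 0 < δ ∧ δ < r' ∧ δ < s - r := by
    have h1 : ∀ᶠ δ in 𝓝[>] (0 : ℝ), 0 < δ := self_mem_nhdsWithin
    have h2 : ∀ᶠ δ in 𝓝[>] (0 : ℝ), δ < r' := nhdsWithin_le_nhds (Iio_mem_nhds hr'0)
    have h3 : ∀ᶠ δ in 𝓝[>] (0 : ℝ), δ < s - r := nhdsWithin_le_nhds (Iio_mem_nhds (by linarith))
    filter_upwards [h1, h2, h3] with δ a b c using ⟨a, b, c⟩
  filter_upwards [hcM, hev] with δ hcδ hδ S G E hS hG hE hGl hEl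
  obtain ⟨hδ0, hδ1, hδ2⟩ := hδ
  set X := Inn δ y r with hX
  set X' := Inn δ y r' with hX'
  set Y := Out δ y s with hY
  set s' := Is δ y s ∪ S with hs'
  have hYs : Yᶜ ⊆ (s' : Set V) := by
    refine (compl_Out_sub hδ0 y s).trans ?_
    rw [hs', Finset.coe_union]
    exact Set.subset_union_left
  have hSs : ∀ v ∈ S, v ∈ s' := fun v hv => Finset.mem_union_right _ hv
  have hX'n : X'.Nonempty := Inn_nonempty hδ0 y hδ1.le
  have hXX : Disjoint X' (nb Xᶜ) := disj_Inn_compl hδ0 (by linarith)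
  have hXY : Disjoint X (nb Y) := disj_Inn_Out hδ0 (by linarith)
  have hX'Y : Disjoint X' (nb Y) := disj_Inn_Out hδ0 (by linarith)
  have hpin := M_pin hd hX'n hXY hXX hYs hG (fun g g' h => hGl g g' fun v hv => h v (hS v hv) (hSs v hv))
    hE fun g g' h => hEl g g' fun v hv => h v (hS v hv) (hSs v hv)
  have hGs : ∀ g g' : V → ℤ, (∀ x ∈ s', g x = g' x) → G g = G g' := fun g g' h =>
    hGl g g' fun v hv => h v (hSs v hv)
  have hXs : Xᶜᶜ ⊆ (s' : Set V) := by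
    rw [compl_compl]
    intro v hv
    rw [Finset.mem_coe, hs', Finset.mem_union, mem_Is hδ0]
    have h1 : dist (pt δ v) y ≤ r := hv
    exact Or.inl (by linarith)
  have hOs : (Out δ y r)ᶜ ⊆ (s' : Set V) := by
    intro v hv
    have h1 : ¬ r ≤ dist (pt δ v) y := hv
    rw [Finset.mem_coe, hs', Finset.mem_union, mem_Is hδ0]
    exact Or.inl (by linarith)
  have sub1 : ∀ g, Sep X' (Out δ y r) g → Sep X' Xᶜ g := fun g h =>
    h.mono (fun _ h => h) fun v hv => by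
      have h1 : ¬ dist (pt δ v) y ≤ r := hv
      exact (not_le.1 h1).le
  have sub2 : ∀ g, Sep X' Xᶜ g → Sep X' Y g := fun g h =>
    h.mono (fun _ h => h) fun v hv => by
      have h1 : s ≤ dist (pt δ v) y := hv
      show ¬ dist (pt δ v) y ≤ r
      linarith
  have icm : ∀ {P Q : (V → ℤ) → Prop}, (∀ g, P g → Q g) → ∀ g, ic P g ≤ ic Q g := by
    intro P Q h g
    unfold ic
    by_cases h1 : P g
    · rw [if_pos h1, if_pos (h g h1)]
    · rw [if_neg h1]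
      split_ifs <;> norm_num
  -- lower bound
  have hlow : c ≤ Mp (Sep X' Xᶜ) := by
    refine hcδ.trans ?_
    have h1 : (fun g : V → ℤ => ∀ z ∈ ({(y, r', r)} : Finset (Pl × ℝ × ℝ)),
        Bk 0 δ z.1 z.2.1 z.2.2 g) = Sep X' (Out δ y r) := by
      funext g
      apply propext
      constructor
      · intro h
        have h2 := h _ (Finset.mem_singleton_self _)
        rw [bk_zero] at h2
        exact h2
      · intro h z hz
        rw [Finset.mem_singleton] at hz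
        subst hz
        rw [bk_zero]
        exact h
    rw [h1]
    exact Mr_mono hd (PR_sep' hX'n (disj_Inn_Out hδ0 (by linarith)) hOs) (PR_sep' hX'n hXX hXs)
      (icm sub1)
  -- upper bound
  have hup : Mr (fun g => ic (Sep X' Xᶜ) g * G g) ≤ Mr (fun g => ic (Sep X' Y) g * G g) :=
    Mr_mono hd (PR_sep hX'n hXX hXs hGs) (PR_sep hX'n hX'Y hYs hGs) fun g =>
      mul_le_mul_of_nonneg_right (icm sub2 g) (hG.nonneg g)
  have hEs : ∀ g g' : V → ℤ, (∀ x ∈ s', g x = g' x) → ic E g = ic E g' := fun g g' h =>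
    ic_congr (hEl g g' fun v hv => h v (hSs v hv))
  have hXn : X.Nonempty := Inn_nonempty hδ0 y (by linarith)
  have n1 : 0 ≤ Mr (fun g => ic (Sep X Y) g * ic E g) :=
    Mr_nonneg hd (PR_sep hXn hXY hYs hEs) fun g => mul_nonneg (ic_nonneg _ _) (ic_nonneg _ _)
  have n2 : 0 ≤ Mr (fun g => ic (Sep X Y) g * (ic E g * G g)) :=
    Mr_nonneg hd (PR_sep hXn hXY hYs fun g g' h => by rw [hEs g g' h, hGs g g' h]) fun g =>
      mul_nonneg (ic_nonneg _ _) (mul_nonneg (ic_nonneg _ _) (hG.nonneg g))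
  rw [bk_zero, bk_zero]
  have h3 : c * Mr (fun g => ic (Sep X Y) g * (ic E g * G g)) ≤
      Mr (fun g => ic (Sep X Y) g * ic E g) * Mr (fun g => ic (Sep X' Y) g * G g) := by
    calc c * Mr (fun g => ic (Sep X Y) g * (ic E g * G g))
        ≤ Mp (Sep X' Xᶜ) * Mr (fun g => ic (Sep X Y) g * (ic E g * G g)) :=
          mul_le_mul_of_nonneg_right hlow n2
      _ = Mr (fun g => ic (Sep X Y) g * (ic E g * G g)) * Mp (Sep X' Xᶜ) := mul_comm _ _
      _ ≤ Mr (fun g => ic (Sep X Y) g * ic E g) * Mr (fun g => ic (Sep X' Xᶜ) g * G g) := hpin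
      _ ≤ _ := mul_le_mul_of_nonneg_left hup n1
  calc Mr (fun g => ic (Sep X Y) g * (ic E g * G g))
      = 1 / c * (c * Mr (fun g => ic (Sep X Y) g * (ic E g * G g))) := by field_simp
    _ ≤ 1 / c * (Mr (fun g => ic (Sep X Y) g * ic E g) * Mr (fun g => ic (Sep X' Y) g * G g)) :=
        mul_le_mul_of_nonneg_left h3 (by positivity)
    _ = _ := by ring

/-- **(7b)** -/
theorem bar_rare (hd : Deloc) (hF : FlatC) (hZ : ZoneC) (y z : Pl) {r s ρ ε : ℝ} (hr : 0 < r)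
    (hrs : r < s) (hρ : 0 < ρ) (hyz : s + ρ < dist z y) (hε : 0 < ε) : ∃ t₀ > 0, ∀ t, 0 < t → t ≤ t₀ →
      ∀ᶠ δ in 𝓝[>] (0 : ℝ), ∀ (S : Finset V) (E : (V → ℤ) → Prop),
      (∀ v ∈ S, s ≤ dist (pt δ v) y) → Dec E →
      (∀ g g' : V → ℤ, (∀ v ∈ S, g v = g' v) → (E g ↔ E g')) →
      Mp (fun g => Bk 0 δ y r s g ∧ E g ∧ ¬ Bk 0 δ z t ρ g) ≤
        ε * Mp (fun g => Bk 0 δ y r s g ∧ E g) := by
  classical
  obtain ⟨C, hC, r', hr', hr'r, hpin⟩ := bar_pin hd hF hZ y hr hrs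
  obtain ⟨t₀, ht₀, hrare⟩ := bar_rare0 hd hF hZ y z hr' (hr'r.trans hrs) hρ (show 0 < ε / C by positivity)
  refine ⟨min t₀ (ρ / 2), by positivity, fun t ht htt => ?_⟩
  have htρ : t ≤ ρ / 2 := htt.trans (min_le_right _ _)
  have hev : ∀ᶠ δ in 𝓝[>] (0 : ℝ), 0 < δ ∧ δ < ρ / 2 := by
    have h1 : ∀ᶠ δ in 𝓝[>] (0 : ℝ), 0 < δ := self_mem_nhdsWithin
    have h2 : ∀ᶠ δ in 𝓝[>] (0 : ℝ), δ < ρ / 2 := nhdsWithin_le_nhds (Iio_mem_nhds (by positivity))
    filter_upwards [h1, h2] with δ a b using ⟨a, b⟩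
  have hevr : ∀ᶠ δ in 𝓝[>] (0 : ℝ), δ < r' ∧ δ < s - r := by
    have h1 : ∀ᶠ δ in 𝓝[>] (0 : ℝ), δ < r' := nhdsWithin_le_nhds (Iio_mem_nhds hr')
    have h2 : ∀ᶠ δ in 𝓝[>] (0 : ℝ), δ < s - r := nhdsWithin_le_nhds (Iio_mem_nhds (by linarith))
    filter_upwards [h1, h2] with δ a b using ⟨a, b⟩
  filter_upwards [hpin, hrare t ht (htt.trans (min_le_left _ _)), hev, hevr] with δ hp hr0 hδ hδr S E hS hE hEl
  obtain ⟨hδ0, hδ1⟩ := hδ
  obtain ⟨hδ2, hδ3⟩ := hδr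
  set Q : (V → ℤ) → Prop := fun g => ¬ Bk 0 δ z t ρ g with hQ
  have hQi : Inc Q := (bk_dec δ z t ρ).not
  have hQl : ∀ g g' : V → ℤ, (∀ v ∈ S ∪ Is δ z ρ, g v = g' v) → (Q g ↔ Q g') := by
    intro g g' h
    refine not_congr (bk_loc hδ0 (by linarith) fun v hv => h v ?_)
    exact Finset.mem_union_right _ ((mem_Is hδ0).2 hv.le)
  have h1 := hp (S ∪ Is δ z ρ) (ic Q) E (by
    intro v hv
    rcases Finset.mem_union.1 hv with hv | hv
    · exact hS v hv
    · rw [mem_Is hδ0] at hv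
      have h2 := dist_triangle z (pt δ v) y
      rw [dist_comm z (pt δ v)] at h2
      linarith) hQi.incF hE (fun g g' h => ic_congr (hQl g g' h)) fun g g' h =>
      hEl g g' fun v hv => h v (Finset.mem_union_left _ hv)
  have e1 : Mp (fun g => Bk 0 δ y r s g ∧ E g ∧ ¬ Bk 0 δ z t ρ g) =
      Mr (fun g => ic (Bk 0 δ y r s) g * (ic E g * ic Q g)) := by
    unfold Mp
    congr 1
    funext g
    rw [ic_and (Bk 0 δ y r s) (fun g => E g ∧ ¬ Bk 0 δ z t ρ g) g, ic_and E Q g]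
  have e2 : Mp (fun g => Bk 0 δ y r s g ∧ E g) = Mr (fun g => ic (Bk 0 δ y r s) g * ic E g) := by
    unfold Mp
    congr 1
    funext g
    rw [ic_and]
  have e3 : Mp (fun g => Bk 0 δ y r' s g ∧ ¬ Bk 0 δ z t ρ g) =
      Mr (fun g => ic (Bk 0 δ y r' s) g * ic Q g) := by
    unfold Mp
    congr 1
    funext g
    rw [ic_and (Bk 0 δ y r' s) Q g]
  rw [e1, e2]
  rw [e3] at hr0
  have n1 : 0 ≤ Mr (fun g => ic (Bk 0 δ y r s) g * ic E g) := by
    rw [bk_zero]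
    refine Mr_nonneg hd (s := Is δ y s ∪ S) (PR_sep (Inn_nonempty hδ0 y (by linarith))
      (disj_Inn_Out hδ0 (by linarith)) ?_ fun g g' h => ic_congr (hEl g g' fun v hv =>
        h v (Finset.mem_union_right _ hv))) fun g => mul_nonneg (ic_nonneg _ _) (ic_nonneg _ _)
    refine (compl_Out_sub hδ0 y s).trans ?_
    rw [Finset.coe_union]
    exact Set.subset_union_left
  refine h1.trans (mul_le_mul_of_nonneg_right ?_ n1)
  calc C * Mr (fun g => ic (Bk 0 δ y r' s) g * ic Q g) ≤ C * (ε / C) :=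
        mul_le_mul_of_nonneg_left hr0 hC.le
    _ = ε := by field_simp

end DV
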